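import Mathlib

/-!
# A counting lemma: injective codes with a weight whose geometric mean is bounded below
-/

set_option autoImplicit false

namespace Pool.Agent.H24.FP

open Finset

theorem amgm {N : ℕ} (hN : 0 < N) (z : ℕ → ℝ) (hz : ∀ i, 0 ≤ z i) {D : ℝ} (hD : 0 ≤ D)
    (h : D ^ N ≤ ∏ i ∈ range N, z i) : (N : ℝ) * D ≤ ∑ i ∈ range N, z i := by
  have hN0 : (0 : ℝ) < N := by exact_mod_cast hN
  have h1 := Real.geom_mean_le_arith_mean_weighted (range N) (fun _ => 1 / (N : ℝ)) z
    (fun _ _ => by positivity) (by simp [hN0.ne']) (fun i _ => hz i)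
  rw [Real.finsetProd_rpow _ _ (fun i _ => hz i)] at h1
  have h2 : D ≤ (∏ i ∈ range N, z i) ^ (1 / (N : ℝ)) := by
    have h3 : (D ^ N) ^ (1 / (N : ℝ)) = D := by
      rw [one_div]
      exact Real.pow_rpow_inv_natCast hD hN.ne'
    rw [← h3]
    exact Real.rpow_le_rpow (by positivity) h (by positivity)
  have h4 : D ≤ 1 / (N : ℝ) * ∑ i ∈ range N, z i := by
    refine h2.trans (h1.trans (le_of_eq ?_))
    rw [mul_sum]
  have h5 := mul_le_mul_of_nonneg_left h4 hN0.le
  have h6 : (N : ℝ) * (1 / (N : ℝ) * ∑ i ∈ range N, z i) = ∑ i ∈ range N, z i := by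
    field_simp
  linarith

theorem count {ι κ E : Type} [DecidableEq ι] [DecidableEq κ] [Fintype E] [DecidableEq E]
    (S : Finset ι) {N : ℕ} (hN : 0 < N) (w : κ → ℝ) (hw : ∀ c, 0 ≤ w c)
    (hT : ∀ T : Finset κ, ∑ c ∈ T, w c ≤ 1) (code : ι → ℕ → κ) (e : ℕ → E)
    (hinj : ∀ i < N, ∀ j < N, e i = e j → (∀ p ∈ S, code p i = code p j) → i = j)
    {C : ℝ} (hC : 0 < C) (hprod : ∀ p ∈ S, (1 / C) ^ N ≤ ∏ i ∈ range N, w (code p i)) :
    (N : ℝ) ≤ Fintype.card E * C ^ S.card := by
  classical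
  set z : ℕ → ℝ := fun i => ∏ p ∈ S, w (code p i) with hz
  have hz0 : ∀ i, 0 ≤ z i := fun i => prod_nonneg fun p _ => hw _
  have h1 : ((1 / C) ^ S.card) ^ N ≤ ∏ i ∈ range N, z i := by
    rw [hz, prod_comm, ← pow_mul, mul_comm, pow_mul, ← prod_const]
    exact prod_le_prod (fun p _ => by positivity) hprod
  have h2 := amgm hN z hz0 (by positivity) h1
  -- the sum of the weights
  set T : Finset κ := (S ×ˢ range N).image (fun a => code a.1 a.2) with hTdef
  have h3 : ∑ i ∈ range N, z i ≤ ∑ f ∈ (univ : Finset E) ×ˢ S.pi (fun _ => T),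
      ∏ p ∈ S.attach, w (f.2 p.1 p.2) := by
    set g : ℕ → E × ((p : ι) → p ∈ S → κ) := fun i => (e i, fun p _ => code p i) with hg
    have hgi : Set.InjOn g (range N : Finset ℕ) := by
      intro i hi j hj hij
      rw [Finset.mem_coe, mem_range] at hi hj
      simp only [hg, Prod.mk.injEq] at hij
      apply hinj i hi j hj hij.1
      intro p hp
      exact congrFun (congrFun hij.2 p) hp
    have h4 : ∑ i ∈ range N, z i = ∑ f ∈ (range N).image g, ∏ p ∈ S.attach, w (f.2 p.1 p.2) := by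
      rw [sum_image hgi]
      refine sum_congr rfl fun i _ => ?_
      rw [hz]
      exact (prod_attach S (fun p => w (code p i))).symm
    rw [h4]
    apply sum_le_sum_of_subset_of_nonneg
    · intro f hf
      obtain ⟨i, hi, rfl⟩ := mem_image.1 hf
      rw [mem_product]
      refine ⟨mem_univ _, ?_⟩
      rw [mem_pi]
      intro p hp
      exact mem_image.2 ⟨(p, i), mem_product.2 ⟨hp, hi⟩, rfl⟩
    · intro f _ _
      exact prod_nonneg fun p _ => hw _
  have h5 : ∑ f ∈ (univ : Finset E) ×ˢ S.pi (fun _ => T), ∏ p ∈ S.attach, w (f.2 p.1 p.2) =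
      Fintype.card E * (∏ _p ∈ S, ∑ c ∈ T, w c) := by
    rw [sum_product, prod_sum]
    simp only [sum_const, card_univ, nsmul_eq_mul]
  have h6 : ∏ _p ∈ S, ∑ c ∈ T, w c ≤ 1 :=
    prod_le_one (fun _ _ => sum_nonneg fun c _ => hw c) (fun _ _ => hT T)
  have h7 : (N : ℝ) * (1 / C) ^ S.card ≤ Fintype.card E := by
    refine h2.trans (h3.trans ?_)
    rw [h5]
    exact mul_le_of_le_one_right (by positivity) h6
  have h8 : (N : ℝ) = (N : ℝ) * (1 / C) ^ S.card * C ^ S.card := by
    rw [mul_assoc, ← mul_pow, one_div, inv_mul_cancel₀ hC.ne', one_pow, mul_one]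
  rw [h8]
  exact mul_le_mul_of_nonneg_right h7 (by positivity)

/-! ### The weight -/

/-- weight for the denominators -/
noncomputable def wD (c : Bool × ℕ) : ℝ := if c.2 = 0 then 1 / 4 else (1 / 2) ^ (c.2 + 2)

theorem wD_nonneg (c : Bool × ℕ) : 0 ≤ wD c := by
  unfold wD; split_ifs <;> positivity

theorem sum_bool_le (w : Bool × ℕ → ℝ) (hw : ∀ c, 0 ≤ w c)
    (h : ∀ L, ∑ j ∈ range L, w (true, j) + ∑ j ∈ range L, w (false, j) ≤ 1)
    (T : Finset (Bool × ℕ)) : ∑ c ∈ T, w c ≤ 1 := by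
  set L := (T.image Prod.snd).sup id + 1 with hL
  have hsub : T ⊆ (univ : Finset Bool) ×ˢ range L := by
    intro c hc
    rw [mem_product]
    refine ⟨mem_univ _, ?_⟩
    rw [mem_range, hL, Nat.lt_succ_iff]
    exact le_sup (f := id) (mem_image_of_mem Prod.snd hc)
  calc ∑ c ∈ T, w c ≤ ∑ c ∈ (univ : Finset Bool) ×ˢ range L, w c :=
        sum_le_sum_of_subset_of_nonneg hsub fun c _ _ => hw c
    _ = ∑ j ∈ range L, w (true, j) + ∑ j ∈ range L, w (false, j) := by
        rw [sum_product, Fintype.sum_bool]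
    _ ≤ 1 := h L

theorem sum_wD (T : Finset (Bool × ℕ)) : ∑ c ∈ T, wD c ≤ 1 := by
  apply sum_bool_le wD wD_nonneg
  intro L
  have key : ∀ (s : Bool) (L : ℕ), ∑ j ∈ range (L + 1), wD (s, j) = 1 / 2 - (1 / 2) ^ (L + 2) := by
    intro s L
    induction L with
    | zero => simp [wD]; norm_num
    | succ L ih =>
      rw [sum_range_succ, ih]
      have : wD (s, L + 1) = (1 / 2) ^ (L + 3) := by
        unfold wD; rw [if_neg (by simp)]
      rw [this]; ring
  rcases L with _ | L
  · simp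
  · rw [key, key]
    have : (0 : ℝ) < (1 / 2) ^ (L + 2) := by positivity
    linarith

/-- weight for the numerators -/
noncomputable def wN (c : Bool × ℕ) : ℝ :=
  if c = (true, 0) then 1 / 2 else (1 / 2) ^ (c.2 + 3)

theorem wN_nonneg (c : Bool × ℕ) : 0 ≤ wN c := by
  unfold wN; split_ifs <;> positivity

theorem sum_wN (T : Finset (Bool × ℕ)) : ∑ c ∈ T, wN c ≤ 1 := by
  apply sum_bool_le wN wN_nonneg
  intro L
  have key1 : ∀ (L : ℕ), ∑ j ∈ range L, wN (false, j) = 1 / 4 - (1 / 2) ^ (L + 2) := by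
    intro L
    induction L with
    | zero => norm_num
    | succ L ih =>
      rw [sum_range_succ, ih]
      have : wN (false, L) = (1 / 2) ^ (L + 3) := by
        unfold wN; rw [if_neg (by simp)]
      rw [this]; ring
  have key2 : ∀ (L : ℕ), ∑ j ∈ range (L + 1), wN (true, j) = 5 / 8 - (1 / 2) ^ (L + 3) := by
    intro L
    induction L with
    | zero => simp [wN]; norm_num
    | succ L ih =>
      rw [sum_range_succ, ih]
      have : wN (true, L + 1) = (1 / 2) ^ (L + 4) := by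
        unfold wN; rw [if_neg (by simp)]
      rw [this]; ring
  rcases L with _ | L
  · simp
  · rw [key1, key2]
    have h1 : (0 : ℝ) < (1 / 2) ^ (L + 1 + 2) := by positivity
    have h2 : (0 : ℝ) < (1 / 2) ^ (L + 3) := by positivity
    linarith

/-- a product with a telescoping lower bound -/
theorem prod_tele {N : ℕ} (w F : ℕ → ℝ) (hF : ∀ i, 0 < F i) (hN : F N = F 0)
    (hw : ∀ i, 1 / 8 * (F i / F (i + 1)) ≤ w i) : (1 / 8 : ℝ) ^ N ≤ ∏ i ∈ range N, w i := by
  have h1 : ∏ i ∈ range N, (1 / 8 * (F i / F (i + 1))) ≤ ∏ i ∈ range N, w i :=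
    prod_le_prod (fun i _ => by have := hF i; have := hF (i + 1); positivity) fun i _ => hw i
  have h3 : ∀ M : ℕ, ∏ i ∈ range M, (F i / F (i + 1)) = F 0 / F M := by
    intro M
    induction M with
    | zero => simp [(hF 0).ne']
    | succ M ih =>
      rw [prod_range_succ, ih]
      have := (hF M).ne'
      have := (hF (M + 1)).ne'
      field_simp
  have h2 : ∏ i ∈ range N, (1 / 8 * (F i / F (i + 1))) = (1 / 8 : ℝ) ^ N := by
    rw [prod_mul_distrib, prod_const, card_range, h3, hN, div_self (hF 0).ne', mul_one]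
  rw [← h2]
  exact h1

end Pool.Agent.H24.FP
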