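import Pool.Agent.H24.FP.RMain
import Pool.Agent.H24.FP.Count

/-!
# Denominators with few prime factors
-/

set_option autoImplicit false

namespace Pool.Agent.H24.FP

open Pool.Agent.H97

/-- a cycle whose length is its minimal period -/
theorem min_cycle {b c : ℚ} {x : ℕ → ℚ} {n : ℕ} (h : IsCycle b c x n) :
    IsCycle b c x (Function.minimalPeriod (mf b c) (some (x 0))) ∧
      ∀ i < Function.minimalPeriod (mf b c) (some (x 0)),
        ∀ j < Function.minimalPeriod (mf b c) (some (x 0)), x i = x j → i = j := by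
  set N := Function.minimalPeriod (mf b c) (some (x 0)) with hN
  have hper : (mf b c)^[N] (some (x 0)) = some (x 0) :=
    Function.isPeriodicPt_minimalPeriod (mf b c) (some (x 0))
  refine ⟨⟨h.minimalPeriod_pos, h.ne, h.next, fun i => ?_⟩, fun i hi j hj hij => ?_⟩
  · have h1 := h.iter (i + N)
    rw [Function.iterate_add_apply, hper, h.iter i] at h1
    exact (Option.some_injective _ h1).symm
  · apply Function.iterate_injOn_Iio_minimalPeriod (f := mf b c) (x := some (x 0)) hi hj
    show (mf b c)^[i] (some (x 0)) = (mf b c)^[j] (some (x 0))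
    rw [h.iter i, h.iter j, hij]

/-- the code of an index at a pole -/
def codeD (s : ℕ → Bool) (u : ℕ → ℕ) (i : ℕ) : Bool × ℕ :=
  if u i = 0 then (s i, u (i + 1) + 1) else (s i, 0)

/-- the norm of the multiplier, from the code -/
def normD (Q : ℚ) (c : Bool × ℕ) : ℚ :=
  if c.2 = 0 then (if c.1 then Q else 1 / Q) else (if c.1 then Q ^ (c.2 + 1) else 1 / Q ^ (c.2 + 1))

theorem normD_T0 (Q : ℚ) : normD Q (true, 0) = Q := by simp [normD]
theorem normD_F0 (Q : ℚ) : normD Q (false, 0) = 1 / Q := by simp [normD]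
theorem normD_TS (Q : ℚ) (j : ℕ) : normD Q (true, j + 1) = Q ^ (j + 1 + 1) := by simp [normD]
theorem normD_FS (Q : ℚ) (j : ℕ) : normD Q (false, j + 1) = 1 / Q ^ (j + 1 + 1) := by simp [normD]

/-- the coordinate `r` determines `x` up to sign -/
theorem sq_of_r {b c : ℚ} {x : ℕ → ℚ} {n : ℕ} (hc : c ≠ 0) (h : IsCycle b c x n)
    (h1 : x 1 ≠ x 0) (h1' : x 1 ≠ -x 0) {i j : ℕ}
    (hr : (x (i + 1) - x i) / (x (i + 1) + x i) = (x (j + 1) - x j) / (x (j + 1) + x j)) :
    x i ^ 2 = x j ^ 2 := by
  rw [div_eq_div_iff (add_ne h h1' i) (add_ne h h1' j)] at hr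
  have z0 := h.ne i
  have z2 := h.ne j
  have e3 : x (i + 1) * x j = x (j + 1) * x i := by linear_combination (1 / 2) * hr
  have m0 : x (i + 1) * x i = b * x i ^ 2 + c := by rw [h.next i]; field_simp
  have m2 : x (j + 1) * x j = b * x j ^ 2 + c := by rw [h.next j]; field_simp
  have e4 : c * x i ^ 2 = c * x j ^ 2 := by
    linear_combination -(x j * x i) * e3 + x j ^ 2 * m0 - x i ^ 2 * m2
  exact mul_left_cancel₀ hc e4

theorem Runs.norm_code {p : ℕ} [hp : Fact p.Prime] {Q : ℚ} {r : ℕ → ℚ} {n : ℕ} {s : ℕ → Bool}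
    {u : ℕ → ℕ} (h : Runs p Q r n s u) (hQ : 1 < Q) (hr : ∀ i, r i ≠ 0) (i : ℕ) :
    padicNorm p (r (i + 1) / r i) = normD Q (codeD s u i) := by
  have hQ0 : 0 < Q := by linarith
  have h0 : 0 < padicNorm p (r i) := norm_pos (hr i)
  have h1 : 0 < padicNorm p (r (i + 1)) := norm_pos (hr (i + 1))
  rw [padicNorm.div]
  unfold codeD
  rcases Nat.eq_zero_or_pos (u i) with hu | hu
  · rw [if_pos hu]
    cases hs : s i with
    | true =>
      obtain ⟨e1, e2⟩ := h.turn_small hs hu
      rw [normD_TS, e2, div_eq_iff h0.ne']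
      linear_combination -(Q ^ (u (i + 1) + 1)) * e1
    | false =>
      obtain ⟨e1, e2⟩ := h.turn_large hs hu
      rw [normD_FS, e1, div_eq_div_iff hQ0.ne' (by positivity)]
      linear_combination Q * e2
  · rw [if_neg hu.ne']
    obtain ⟨h2, h3⟩ := h.down i hu
    cases hs : s i with
    | true =>
      have e1 := h.small i hs
      have e2 := h.small (i + 1) (by rw [h2, hs])
      rw [h3] at e2
      rw [normD_T0, div_eq_iff h0.ne']
      have e3 : padicNorm p (r (i + 1)) * Q ^ u i = (Q * padicNorm p (r i)) * Q ^ u i := by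
        rw [e2, ← e1]; ring
      exact mul_right_cancel₀ (by positivity) e3
    | false =>
      have e1 := h.large i hs
      have e2 := h.large (i + 1) (by rw [h2, hs])
      rw [h3] at e2
      rw [normD_F0, e1, e2, pow_succ]
      field_simp

theorem Runs.weight {p : ℕ} {Q : ℚ} {r : ℕ → ℚ} {n : ℕ} {s : ℕ → Bool}
    {u : ℕ → ℕ} (h : Runs p Q r n s u) (i : ℕ) :
    (1 / 8 : ℝ) * ((2 : ℝ) ^ (u i) / 2 ^ (u (i + 1))) ≤ wD (codeD s u i) := by
  unfold codeD
  rcases Nat.eq_zero_or_pos (u i) with hu | hu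
  · rw [if_pos hu, hu, pow_zero]
    unfold wD
    rw [if_neg (by simp)]
    apply le_of_eq
    simp only [one_div, inv_pow]
    rw [pow_succ, pow_succ, pow_succ]
    field_simp
    norm_num
  · rw [if_neg hu.ne']
    unfold wD
    rw [if_pos rfl]
    obtain ⟨h2, h3⟩ := h.down i hu
    rw [← h3, pow_succ]
    field_simp
    norm_num

theorem bound_den {b c : ℚ} {x : ℕ → ℚ} {n : ℕ} (h : IsCycle b c x n) (hb : b ≠ 0)
    (hc : c ≠ 0) {k : ℕ}
    (hk : (2 * b).den.primeFactors.card ≤ k) :
    Function.minimalPeriod (mf b c) (some (x 0)) ≤ 4 * 8 ^ k := by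
  obtain ⟨hm, hinj⟩ := min_cycle h
  set N := Function.minimalPeriod (mf b c) (some (x 0)) with hN
  by_cases h1 : x 1 = x 0 ∨ x 1 = -x 0
  · have h2 := h.mem12 h1
    rw [← hN] at h2
    simp only [Finset.mem_insert, Finset.mem_singleton] at h2
    have h3 : 1 ≤ 8 ^ k := Nat.one_le_pow _ _ (by norm_num)
    omega
  push Not at h1
  have hB : 2 * b ≠ 0 := mul_ne_zero two_ne_zero hb
  have hR := toR hm h1.1 h1.2
  set r : ℕ → ℚ := fun i => (x (i + 1) - x i) / (x (i + 1) + x i) with hr
  set B := 2 * b with hBdef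
  have hne : r 1 ≠ r 0 := by
    intro hne
    rcases sq_eq_sq_iff_eq_or_eq_neg.1 (sq_of_r hc hm h1.1 h1.2 (i := 1) (j := 0) hne) with h2 | h2
    · exact h1.1 h2
    · exact h1.2 h2
  set S := B.den.primeFactors with hS
  have hprime : ∀ p ∈ S, p.Prime := fun p hp => Nat.prime_of_mem_primeFactors hp
  -- the runs
  have hruns : ∀ p : ℕ, ∃ su : (ℕ → Bool) × (ℕ → ℕ), p ∈ S →
      Runs p (padicNorm p B) r N su.1 su.2 := by
    intro p
    by_cases hp : p ∈ S
    · have : Fact p.Prime := ⟨hprime p hp⟩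
      have hQ : 1 < padicNorm p B := by
        have hd : p ∣ B.den := Nat.dvd_of_mem_primeFactors hp
        have hnd : ¬ (p : ℤ) ∣ B.num := by
          intro hd'
          have h5 := Nat.dvd_gcd (Int.natCast_dvd.1 hd') hd
          rw [B.reduced] at h5
          exact (hprime p hp).one_lt.not_ge (Nat.le_of_dvd one_pos h5)
        have h4 : padicNorm p B = padicNorm p (B.num : ℚ) / padicNorm p (B.den : ℚ) := by
          rw [← padicNorm.div, Rat.num_div_den]
        have h5 : padicNorm p (B.den : ℚ) < 1 := (padicNorm.nat_lt_one_iff B.den).2 hd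
        have h6 : 0 < padicNorm p (B.den : ℚ) := norm_pos (by exact_mod_cast B.den_nz)
        rw [h4, (padicNorm.int_eq_one_iff B.num).2 hnd, lt_div_iff₀ h6]
        linarith
      obtain ⟨s, u, hsu⟩ := hR.exists_runs (p := p) hQ rfl hne
      exact ⟨(s, u), fun _ => hsu⟩
    · exact ⟨(fun _ => true, fun _ => 0), fun hp' => absurd hp' hp⟩
  choose su hsu using hruns
  have hQ1 : ∀ p ∈ S, 1 < padicNorm p B := by
    intro p hp
    have : Fact p.Prime := ⟨hprime p hp⟩
    have hd : p ∣ B.den := Nat.dvd_of_mem_primeFactors hp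
    have hnd : ¬ (p : ℤ) ∣ B.num := by
      intro hd'
      have h5 := Nat.dvd_gcd (Int.natCast_dvd.1 hd') hd
      rw [B.reduced] at h5
      exact (hprime p hp).one_lt.not_ge (Nat.le_of_dvd one_pos h5)
    have h4 : padicNorm p B = padicNorm p (B.num : ℚ) / padicNorm p (B.den : ℚ) := by
      rw [← padicNorm.div, Rat.num_div_den]
    have h5 : padicNorm p (B.den : ℚ) < 1 := (padicNorm.nat_lt_one_iff B.den).2 hd
    have h6 : 0 < padicNorm p (B.den : ℚ) := norm_pos (by exact_mod_cast B.den_nz)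
    rw [h4, (padicNorm.int_eq_one_iff B.num).2 hnd, lt_div_iff₀ h6]
    linarith
  have hle : ∀ l : ℕ, l.Prime → l ∉ S → padicNorm l B ≤ 1 := by
    intro l hl hnS
    have : Fact l.Prime := ⟨hl⟩
    have hd : ¬ l ∣ B.den := fun hd => hnS (Nat.mem_primeFactors.2 ⟨hl, hd, B.den_nz⟩)
    have h4 : padicNorm l B = padicNorm l (B.num : ℚ) / padicNorm l (B.den : ℚ) := by
      rw [← padicNorm.div, Rat.num_div_den]
    rw [h4, (padicNorm.nat_eq_one_iff B.den).2 hd, div_one]
    exact padicNorm.of_int _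
  have hcount := count S hm.pos wD wD_nonneg sum_wD (fun p i => codeD (su p).1 (su p).2 i)
    (fun i => (decide (0 < r (i + 1) / r i), decide (0 < x i))) (C := 8) ?_ (by norm_num) ?_
  · have h3 : Fintype.card (Bool × Bool) = 4 := rfl
    rw [h3] at hcount
    have h4 : N ≤ 4 * 8 ^ S.card := by exact_mod_cast hcount
    exact h4.trans (Nat.mul_le_mul_left 4 (Nat.pow_le_pow_right (by norm_num) hk))
  · intro i hi j hj he hcode
    simp only [Prod.mk.injEq] at he
    have hq : r (i + 1) / r i = r (j + 1) / r j := by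
      rcases eq_or_neg_of_norms (div_ne_zero (hR.ne (i + 1)) (hR.ne i))
        (div_ne_zero (hR.ne (j + 1)) (hR.ne j)) (by
          intro l hl
          have : Fact l.Prime := ⟨hl⟩
          by_cases hlS : l ∈ S
          · rw [(hsu l hlS).norm_code (hQ1 l hlS) hR.ne, (hsu l hlS).norm_code (hQ1 l hlS) hR.ne,
              hcode l hlS]
          · rw [hR.norm_const' (hle l hl hlS), hR.norm_const' (hle l hl hlS)]) with h3 | h3
      · exact h3
      · exfalso
        have h5 := he.1
        rw [decide_eq_decide, h3] at h5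
        have h6 : r (j + 1) / r j ≠ 0 := div_ne_zero (hR.ne (j + 1)) (hR.ne j)
        rcases lt_or_gt_of_ne h6 with h7 | h7
        · have := h5.1 (by linarith)
          linarith
        · have := h5.2 h7
          linarith
    have hrr : r i = r j := hR.eq_of_q hB hq
    have hx : x i ^ 2 = x j ^ 2 := sq_of_r hc hm h1.1 h1.2 hrr
    rcases sq_eq_sq_iff_eq_or_eq_neg.1 hx with h3 | h3
    · exact hinj i hi j hj h3
    · exfalso
      have h5 := he.2
      rw [decide_eq_decide, h3] at h5
      rcases lt_or_gt_of_ne (hm.ne j) with h7 | h7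
      · have := h5.1 (by linarith)
        linarith
      · have := h5.2 h7
        linarith
  · intro p hp
    apply prod_tele _ (fun i => (2 : ℝ) ^ ((su p).2 i)) (fun i => by positivity)
    · have := ((hsu p hp).per 0).2
      rw [zero_add] at this
      show (2 : ℝ) ^ ((su p).2 N) = 2 ^ ((su p).2 0)
      rw [this]
    · intro i
      exact (hsu p hp).weight i

end Pool.Agent.H24.FP
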