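import Pool.Agent.H24.FP.MData

/-!
# Negative cycles with `|b|` large against the denominator
-/

set_option autoImplicit false

namespace Pool.Agent.H24.FP.M

open Pool.Agent.H97 Pool.Agent.H24.FP.N2

/-- two products over a cycle agree after a shift -/
theorem prod_shift {n : ℕ} {f : ℕ → ℚ} (hf : f 0 ≠ 0) (hn : f n = f 0) :
    ∏ i ∈ Finset.range n, f (i + 1) = ∏ i ∈ Finset.range n, f i := by
  have h1 := Finset.prod_range_succ f n
  have h2 := Finset.prod_range_succ' f n
  rw [h1, hn] at h2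
  exact (mul_right_cancel₀ hf h2).symm

/-- a step which does not move `t` -/
theorem const_of_step {b : ℚ} {t : ℕ → ℚ} {n : ℕ} (h : IsTCycle b t n) {i : ℕ}
    (hi : t (i + 1) = t i) : t 1 = t 0 := by
  have key : ∀ k, t (i + k) = t i := by
    intro k
    induction k with
    | zero => rfl
    | succ k ih =>
      rw [← add_assoc, h.next (i + k), ih, ← h.next i, hi]
  have hper : ∀ j k, t (j + k * n) = t j := by
    intro j k
    induction k with
    | zero => simp
    | succ k ih =>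
      have e : j + (k + 1) * n = (j + k * n) + n := by ring
      rw [e, h.per, ih]
  have hn := h.pos
  -- some multiple of `n` exceeds `i`
  have h1 : i ≤ i * n := Nat.le_mul_of_pos_right i hn
  obtain ⟨k, hk⟩ := Nat.exists_eq_add_of_le h1
  have e0 : t 0 = t i := by
    rw [← hper 0 i, zero_add, hk]
    exact key k
  have e1 : t 1 = t i := by
    have h2 := hper 1 i
    rw [← h2, show 1 + i * n = i + (k + 1) by omega]
    exact key (k + 1)
  rw [e0, e1]

section
variable {b : ℚ} {t : ℕ → ℚ} {n : ℕ}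

/-- the real recursion -/
theorem xrec (h : IsTCycle b t n) (i : ℕ) :
    (b - (b + 1 / t (i + 1))) * (b + 1 / t i) ^ 2 = b - (b + 1 / t i) := by
  have h1 := Neg.xi_sq h i
  have h2 := Neg.xi_ne h i
  have h3 := h.ne i
  rw [h1]
  set x := b + 1 / t i with hx
  have h4 : 1 / (x ^ 2 * t i) * x ^ 2 = 1 / t i := by field_simp
  linear_combination -h4 + hx

theorem xper (h : IsTCycle b t n) (i : ℕ) : b + 1 / t (i + n) = b + 1 / t i := by
  rw [h.per i]

/-- `|ξ| ≤ b / (b - 1)` -/
theorem abs_le (h : Neg b t n) (hb : 1 < b) (i : ℕ) : (b - 1) * |b + 1 / t i| ≤ b := by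
  have h1 := h.real i
  have h2 := h.real (i + 1)
  have h3 := xrec h.toIsTCycle i
  set x := b + 1 / t i with hx
  set y := b + 1 / t (i + 1) with hy
  rcases le_or_gt 0 x with h4 | h4
  · rw [abs_of_nonneg h4]
    nlinarith
  · rw [abs_of_neg h4]
    by_contra hcon
    push Not at hcon
    have h5 : 0 < x ^ 2 := by
      have := mul_pos_of_neg_of_neg h4 h4
      nlinarith
    have h6 : (b - 1) * x ^ 2 ≤ (b - y) * x ^ 2 :=
      mul_le_mul_of_nonneg_right (by linarith) h5.le
    nlinarith [mul_pos_of_neg_of_neg h4 h4]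

/-- `b - 1 ≤ b |ξ|` -/
theorem le_abs (h : Neg b t n) (hb : 1 < b) (i : ℕ) : b - 1 ≤ b * |b + 1 / t i| := by
  have h1 := abs_le h hb (i + 1)
  have h3 := xrec h.toIsTCycle i
  set x := b + 1 / t i with hx
  set y := b + 1 / t (i + 1) with hy
  have h4 : (b - 1) * (b - y) ≤ b ^ 2 := by
    have := neg_abs_le y
    nlinarith
  have h5 : x ^ 2 = |x| ^ 2 := (sq_abs x).symm
  have ha : 0 ≤ |x| := abs_nonneg x
  have h6 : b - |x| ≤ b - x := by
    have := le_abs_self x
    linarith
  have h7 : (b - 1) * (b - |x|) ≤ b ^ 2 * |x| ^ 2 := by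
    calc (b - 1) * (b - |x|) ≤ (b - 1) * (b - x) := mul_le_mul_of_nonneg_left h6 (by linarith)
      _ = ((b - 1) * (b - y)) * |x| ^ 2 := by rw [← h3, h5]; ring
      _ ≤ b ^ 2 * |x| ^ 2 := mul_le_mul_of_nonneg_right h4 (by positivity)
  by_contra hcon
  push Not at hcon
  set a := |x| with hadef
  have h8 : b ^ 2 * a ^ 2 ≤ (b - 1) * (b * a) := by
    have : 0 ≤ b * a := mul_nonneg (by linarith) ha
    nlinarith
  have h9 : (b - 1) * (b - a) ≤ (b - 1) * (b * a) := le_trans h7 h8
  have h10 : b - a ≤ b * a := le_of_mul_le_mul_left h9 (by linarith)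
  nlinarith

/-- the distance from `±1` -/
def kap (b : ℚ) (t : ℕ → ℚ) (i : ℕ) : ℚ := |1 - (|b + 1 / t i|)|

theorem kap_le (h : Neg b t n) (hb : 1 < b) (i : ℕ) : (b - 1) * kap b t i ≤ 1 := by
  unfold kap
  have h1 := abs_le h hb i
  have h2 := le_abs h hb i
  set a := |b + 1 / t i| with ha
  have ha0 : 0 ≤ a := abs_nonneg _
  rcases le_or_gt a 1 with h3 | h3
  · rw [abs_of_nonneg (by linarith : 0 ≤ 1 - a)]
    nlinarith
  · rw [abs_of_neg (by linarith : 1 - a < 0)]
    nlinarith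

theorem abs_ne_one (h : Neg b t n) (h01 : t 1 ≠ t 0) (i : ℕ) : |b + 1 / t i| ≠ 1 := by
  intro h1
  apply h01
  apply const_of_step h.toIsTCycle (i := i)
  rw [Neg.xi_sq h.toIsTCycle i, ← sq_abs, h1]
  ring

/-- equal signs -/
theorem kap_same (h : Neg b t n) (hb : 1 < b) (i : ℕ)
    (hs : 0 < (b + 1 / t i) * (b + 1 / t (i + 1))) :
    2 * (b - 1) ^ 2 * kap b t i ≤ b * kap b t (i + 1) := by
  unfold kap
  have h1 := abs_le h hb i
  have h3 := xrec h.toIsTCycle i
  set x := b + 1 / t i with hx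
  set y := b + 1 / t (i + 1) with hy
  have ha0 : 0 < |x| := by
    rw [abs_pos]
    rintro h0
    rw [h0] at hs
    simp at hs
  -- the sign
  obtain ⟨e, he, hex, hey⟩ : ∃ e : ℚ, (e = 1 ∨ e = -1) ∧ x = e * |x| ∧ y = e * |y| := by
    rcases lt_or_gt_of_ne (left_ne_zero_of_mul hs.ne') with h4 | h4
    · have h5 : y < 0 := by
        by_contra hcon
        push Not at hcon
        nlinarith
      exact ⟨-1, Or.inr rfl, by rw [abs_of_neg h4]; ring, by rw [abs_of_neg h5]; ring⟩
    · have h5 : 0 < y := by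
        by_contra hcon
        push Not at hcon
        nlinarith
      exact ⟨1, Or.inl rfl, by rw [abs_of_pos h4]; ring, by rw [abs_of_pos h5]; ring⟩
  rw [hex, hey] at h3
  generalize |x| = a at *
  generalize |y| = a' at *
  have hee : e * e = 1 := by rcases he with rfl | rfl <;> norm_num
  have hkey : (a - 1) * (b * (1 + a) - e * a) = e * (a ^ 2 * (a' - 1)) := by
    have h4 : (b - e * a') * (e * a) ^ 2 = (b - e * a') * a ^ 2 := by
      have : (e * a) ^ 2 = a ^ 2 := by
        have h5 : (e * a) ^ 2 = (e * e) * a ^ 2 := by ring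
        rw [h5, hee, one_mul]
      rw [this]
    rw [h4] at h3
    linear_combination h3
  have hpos : b + (b - 1) * a ≤ b * (1 + a) - e * a := by
    rcases he with rfl | rfl <;> nlinarith
  have hea : |e| = 1 := by rcases he with rfl | rfl <;> norm_num
  have habs2 : |a - 1| * (b * (1 + a) - e * a) = a ^ 2 * |a' - 1| := by
    have h5 : 0 < b * (1 + a) - e * a := by nlinarith
    have h6 := congrArg (fun z : ℚ => |z|) hkey
    simp only [abs_mul, hea, one_mul] at h6
    rw [abs_of_pos h5, abs_of_nonneg (by positivity : 0 ≤ a ^ 2)] at h6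
    exact h6
  rw [abs_sub_comm 1 a, abs_sub_comm 1 a']
  have hb1 : 0 < b - 1 := by linarith
  have h7 : 2 * (b - 1) ^ 2 * a ^ 2 ≤ b * (b + (b - 1) * a) := by
    have e1 : ((b - 1) * a) * ((b - 1) * a) ≤ b * ((b - 1) * a) :=
      mul_le_mul_of_nonneg_right h1 (by positivity)
    have e2 : b * ((b - 1) * a) ≤ b * b := mul_le_mul_of_nonneg_left h1 (by linarith)
    nlinarith
  have h8 : 2 * (b - 1) ^ 2 * a ^ 2 ≤ b * (b * (1 + a) - e * a) :=
    le_trans h7 (mul_le_mul_of_nonneg_left hpos (by linarith))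
  have h9 : a ^ 2 * (2 * (b - 1) ^ 2 * |a - 1|) ≤ a ^ 2 * (b * |a' - 1|) := by
    calc a ^ 2 * (2 * (b - 1) ^ 2 * |a - 1|) = (2 * (b - 1) ^ 2 * a ^ 2) * |a - 1| := by ring
      _ ≤ (b * (b * (1 + a) - e * a)) * |a - 1| :=
        mul_le_mul_of_nonneg_right h8 (abs_nonneg _)
      _ = b * (|a - 1| * (b * (1 + a) - e * a)) := by ring
      _ = a ^ 2 * (b * |a' - 1|) := by rw [habs2]; ring
  exact le_of_mul_le_mul_left h9 (by positivity)

/-- opposite signs -/
theorem kap_opp (h : Neg b t n) (i : ℕ)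
    (hs : (b + 1 / t i) * (b + 1 / t (i + 1)) < 0) :
    (1 + (|b + 1 / t i|)) * |(b - (b + 1 / t i)) - b * (|b + 1 / t i|)| =
      (|b + 1 / t i|) ^ 2 * kap b t (i + 1) := by
  unfold kap
  have h3 := xrec h.toIsTCycle i
  set x := b + 1 / t i with hx
  set y := b + 1 / t (i + 1) with hy
  obtain ⟨e, he, hex, hey⟩ : ∃ e : ℚ, (e = 1 ∨ e = -1) ∧ x = e * |x| ∧ y = -e * |y| := by
    rcases lt_or_gt_of_ne (left_ne_zero_of_mul hs.ne) with h4 | h4
    · have h5 : 0 < y := by
        by_contra hcon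
        push Not at hcon
        nlinarith
      exact ⟨-1, Or.inr rfl, by rw [abs_of_neg h4]; ring, by rw [abs_of_pos h5]; ring⟩
    · have h5 : y < 0 := by
        by_contra hcon
        push Not at hcon
        nlinarith
      exact ⟨1, Or.inl rfl, by rw [abs_of_pos h4]; ring, by rw [abs_of_neg h5]; ring⟩
  have ha0 : 0 ≤ |x| := abs_nonneg x
  have hee : e * e = 1 := by rcases he with rfl | rfl <;> norm_num
  have hea : |e| = 1 := by rcases he with rfl | rfl <;> norm_num
  generalize |x| = a at *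
  generalize |y| = a' at *
  rw [hex, hey] at h3
  rw [hex]
  have h4 : (b - -e * a') * (e * a) ^ 2 = (b + e * a') * a ^ 2 := by
    have : (e * a) ^ 2 = a ^ 2 := by
      have h5 : (e * a) ^ 2 = (e * e) * a ^ 2 := by ring
      rw [h5, hee, one_mul]
    rw [this]
    ring
  rw [h4] at h3
  have hkey : (1 + a) * ((b - e * a) - b * a) = e * (a ^ 2 * (a' - 1)) := by
    linear_combination -h3
  have h6 := congrArg (fun z : ℚ => |z|) hkey
  simp only [abs_mul, hea, one_mul] at h6
  rw [abs_of_pos (by linarith : 0 < 1 + a), abs_of_nonneg (by positivity : 0 ≤ a ^ 2)] at h6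
  rw [abs_sub_comm 1 a', h6]

theorem kap_pos (h : Neg b t n) (h01 : t 1 ≠ t 0) (i : ℕ) : 0 < kap b t i := by
  unfold kap
  rw [abs_pos, sub_ne_zero]
  exact (abs_ne_one h h01 i).symm

theorem Sys.abs_eq {W X V G : ℕ → ℤ} (h : Neg b t n) (hS : Sys b t n W X V G) (i : ℕ) :
    |b + 1 / t i| * (W i : ℚ) = (b.num : ℚ) * X i := by
  obtain ⟨e, he, _, e2⟩ := hS.eq i
  have hW : (0 : ℚ) < W i := by exact_mod_cast hS.W1 i
  have hX : (0 : ℚ) < X i := by exact_mod_cast hS.X1 i
  have hN : (0 : ℚ) < b.num := by exact_mod_cast Rat.num_pos.2 h.hb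
  have h1 : |(b + 1 / t i) * (W i : ℚ)| = |(e : ℚ) * ((b.num : ℚ) * X i)| := by rw [e2]
  rw [abs_mul, abs_mul, abs_of_pos hW, abs_of_pos (mul_pos hN hX)] at h1
  rw [h1]
  rcases he with rfl | rfl <;> simp

theorem Sys.bV {W X V G : ℕ → ℤ} (hS : Sys b t n W X V G) (i : ℕ) :
    b * (V i : ℚ) = (W i : ℚ) * (b - (b + 1 / t i)) := by
  obtain ⟨e, _, e1, e2⟩ := hS.eq i
  have hbn : b * b.den = b.num := Rat.mul_den_eq_num b
  have e3 : (W i : ℚ) = (e : ℚ) * b.den * X i + (V i : ℚ) := by exact_mod_cast e1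
  linear_combination -b * e3 + e2 - (e : ℚ) * X i * hbn

/-- opposite signs: the divisor is small -/
theorem Sys.opp {W X V G : ℕ → ℤ} (h : Neg b t n) (hS : Sys b t n W X V G) (hb : 1 < b) (i : ℕ)
    (hs : (b + 1 / t i) * (b + 1 / t (i + 1)) < 0) :
    2 * (b - 1) * (G i : ℚ) ≤ (b.num : ℚ) * X i * kap b t (i + 1) := by
  have hb0 : 0 < b := h.hb
  have hN1 : b.num ≠ 1 := by
    intro h0
    have h1 : b * b.den = b.num := Rat.mul_den_eq_num b
    rw [h0] at h1
    have h2 : (1 : ℚ) ≤ b.den := by exact_mod_cast b.den_pos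
    push_cast at h1
    nlinarith
  have h1 := hS.abs_eq h i
  have h2 := hS.bV i
  have h3 := kap_opp h i hs
  have ha := abs_le h hb i
  have ha0 : 0 < |b + 1 / t i| := abs_pos.2 (Neg.xi_ne h.toIsTCycle i)
  have hW : (0 : ℚ) < W i := by exact_mod_cast hS.W1 i
  set x := b + 1 / t i with hx
  -- the integer
  have hE : V i - b.num * X i ≠ 0 := sub_ne_zero.2 (hS.ne hN1 i)
  have hd : G i ∣ |V i - b.num * X i| :=
    (dvd_abs _ _).2 (dvd_sub (hS.GV i) ((hS.GN i).mul_right _))
  have hG : G i ≤ |V i - b.num * X i| := Int.le_of_dvd (abs_pos.2 hE) hd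
  have hG' : (G i : ℚ) ≤ |(V i : ℚ) - b.num * X i| := by exact_mod_cast hG
  have h4 : b * |(V i : ℚ) - b.num * X i| = (W i : ℚ) * |(b - x) - b * (|x|)| := by
    have e1 : b * ((V i : ℚ) - b.num * X i) = (W i : ℚ) * ((b - x) - b * (|x|)) := by
      linear_combination h2 + b * h1
    have e2 := congrArg (fun z : ℚ => |z|) e1
    simp only [abs_mul] at e2
    rw [abs_of_pos hb0, abs_of_pos hW] at e2
    exact e2
  generalize |x| = a at *
  have h5 : b * (1 + a) * |(V i : ℚ) - b.num * X i| = a * ((b.num : ℚ) * X i * kap b t (i + 1)) := by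
    calc b * (1 + a) * |(V i : ℚ) - b.num * X i| = (1 + a) * (b * |(V i : ℚ) - b.num * X i|) := by ring
      _ = (W i : ℚ) * ((1 + a) * |(b - x) - b * a|) := by rw [h4]; ring
      _ = a * (a * (W i : ℚ)) * kap b t (i + 1) := by rw [h3]; ring
      _ = _ := by rw [h1]; ring
  have h6 : a * (2 * (b - 1) * (G i : ℚ)) ≤ a * ((b.num : ℚ) * X i * kap b t (i + 1)) := by
    rw [← h5]
    have hG0 : (0 : ℚ) ≤ G i := by
      have := hS.G1 i
      exact_mod_cast (by linarith : 0 ≤ G i)
    calc a * (2 * (b - 1) * (G i : ℚ)) = (2 * ((b - 1) * a)) * (G i : ℚ) := by ring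
      _ ≤ (b * (1 + a)) * (G i : ℚ) := by
          apply mul_le_mul_of_nonneg_right _ hG0
          nlinarith
      _ ≤ b * (1 + a) * |(V i : ℚ) - b.num * X i| :=
          mul_le_mul_of_nonneg_left hG' (by positivity)
  exact le_of_mul_le_mul_left h6 ha0

/-- any signs -/
theorem Sys.any {W X V G : ℕ → ℤ} (h : Neg b t n) (hS : Sys b t n W X V G) (i : ℕ) :
    (G i : ℚ) ^ 2 ≤ (b.num : ℚ) * X i ^ 2 * |b + 1 / t (i + 1)| := by
  have h1 := hS.abs_eq h (i + 1)
  have h2 : ((G i : ℚ)) ^ 2 * W (i + 1) ≤ ((b.num : ℚ) * X i) ^ 2 := by exact_mod_cast hS.GW i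
  have hX : (1 : ℚ) ≤ X (i + 1) := by exact_mod_cast hS.X1 (i + 1)
  have hN : (0 : ℚ) < b.num := by exact_mod_cast Rat.num_pos.2 h.hb
  have ha0 : 0 < |b + 1 / t (i + 1)| := abs_pos.2 (Neg.xi_ne h.toIsTCycle (i + 1))
  generalize |b + 1 / t (i + 1)| = a at *
  have h3 : (b.num : ℚ) * ((G i : ℚ) ^ 2) ≤ (b.num : ℚ) * ((b.num : ℚ) * X i ^ 2 * a) := by
    calc (b.num : ℚ) * ((G i : ℚ) ^ 2) = (b.num : ℚ) * ((G i : ℚ) ^ 2) * 1 := by ring
      _ ≤ (b.num : ℚ) * ((G i : ℚ) ^ 2) * X (i + 1) :=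
          mul_le_mul_of_nonneg_left hX (by positivity)
      _ = ((G i : ℚ) ^ 2 * W (i + 1)) * a := by linear_combination -(G i : ℚ) ^ 2 * h1
      _ ≤ ((b.num : ℚ) * X i) ^ 2 * a := mul_le_mul_of_nonneg_right h2 ha0.le
      _ = _ := by ring
  exact le_of_mul_le_mul_left h3 hN

/-- the large end -/
theorem large_end (h : Neg b t n) (hb : 1 < b) (H1 : b.den * b < 2 * (b - 1) ^ 2)
    (H2 : b.den * b ^ 4 < 4 * (b - 1) ^ 5) : t 1 = t 0 := by
  by_contra h01
  obtain ⟨W, X, V, G, hS⟩ := exists_sys h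
  have hb0 : 0 < b := h.hb
  have hb1 : 0 < b - 1 := by linarith
  have hbn : b * b.den = b.num := Rat.mul_den_eq_num b
  have hT := h.toIsTCycle
  have key : ∀ i, (G i : ℚ) * kap b t i < X i * kap b t (i + 1) := by
    intro i
    have hG : (0 : ℚ) < G i := by exact_mod_cast hS.G1 i
    have hX : (0 : ℚ) < X i := by exact_mod_cast hS.X1 i
    have hk := kap_pos h h01 i
    have hk' := kap_pos h h01 (i + 1)
    have hb2 : 0 < 2 * (b - 1) ^ 2 := by positivity
    have hgoal : (2 * (b - 1) ^ 2) * ((G i : ℚ) * kap b t i) <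
        (2 * (b - 1) ^ 2) * (X i * kap b t (i + 1)) := by
      rcases lt_or_gt_of_ne (mul_ne_zero (Neg.xi_ne hT i) (Neg.xi_ne hT (i + 1))) with hs | hs
      · have h1 := hS.opp h hb i hs
        have h2 := kap_le h hb i
        calc (2 * (b - 1) ^ 2) * ((G i : ℚ) * kap b t i)
            = (2 * (b - 1) * (G i : ℚ)) * ((b - 1) * kap b t i) := by ring
          _ ≤ (2 * (b - 1) * (G i : ℚ)) * 1 := mul_le_mul_of_nonneg_left h2 (by positivity)
          _ ≤ (b.num : ℚ) * X i * kap b t (i + 1) := by rw [mul_one]; exact h1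
          _ = (b.den * b) * (X i * kap b t (i + 1)) := by rw [← hbn]; ring
          _ < _ := mul_lt_mul_of_pos_right H1 (mul_pos hX hk')
      · have h1 := hS.any h i
        have h2 := kap_same h hb i hs
        have h3 := abs_le h hb (i + 1)
        have h4 : b * (G i : ℚ) < 2 * (b - 1) ^ 2 * X i := by
          apply lt_of_pow_lt_pow_left₀ 2 (by positivity)
          have h5 : (b - 1) * ((b * (G i : ℚ)) ^ 2) < (b - 1) * ((2 * (b - 1) ^ 2 * X i) ^ 2) := by
            calc (b - 1) * ((b * (G i : ℚ)) ^ 2) = ((b - 1) * b ^ 2) * (G i : ℚ) ^ 2 := by ring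
              _ ≤ ((b - 1) * b ^ 2) * ((b.num : ℚ) * X i ^ 2 * |b + 1 / t (i + 1)|) :=
                  mul_le_mul_of_nonneg_left h1 (by positivity)
              _ = (b ^ 2 * (b.num : ℚ) * X i ^ 2) * ((b - 1) * |b + 1 / t (i + 1)|) := by ring
              _ ≤ (b ^ 2 * (b.num : ℚ) * X i ^ 2) * b := by
                  apply mul_le_mul_of_nonneg_left h3
                  rw [← hbn]
                  positivity
              _ = (b.den * b ^ 4) * (X i : ℚ) ^ 2 := by rw [← hbn]; ring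
              _ < (4 * (b - 1) ^ 5) * (X i : ℚ) ^ 2 :=
                  mul_lt_mul_of_pos_right H2 (by positivity)
              _ = _ := by ring
          exact lt_of_mul_lt_mul_left h5 hb1.le
        calc (2 * (b - 1) ^ 2) * ((G i : ℚ) * kap b t i)
            = (G i : ℚ) * (2 * (b - 1) ^ 2 * kap b t i) := by ring
          _ ≤ (G i : ℚ) * (b * kap b t (i + 1)) := mul_le_mul_of_nonneg_left h2 hG.le
          _ = (b * (G i : ℚ)) * kap b t (i + 1) := by ring
          _ < (2 * (b - 1) ^ 2 * X i) * kap b t (i + 1) := mul_lt_mul_of_pos_right h4 hk'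
          _ = _ := by ring
    exact lt_of_mul_lt_mul_left hgoal hb2.le
  have hprod : ∏ i ∈ Finset.range n, ((G i : ℚ) * kap b t i) <
      ∏ i ∈ Finset.range n, ((X i : ℚ) * kap b t (i + 1)) := by
    apply Finset.prod_lt_prod_of_nonempty
    · intro i _
      exact mul_pos (by exact_mod_cast hS.G1 i) (kap_pos h h01 i)
    · intro i _
      exact key i
    · exact ⟨0, Finset.mem_range.2 h.pos⟩
  rw [Finset.prod_mul_distrib, Finset.prod_mul_distrib,
    prod_shift (f := fun i => kap b t i) (kap_pos h h01 0).ne' (by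
      show kap b t n = kap b t 0
      unfold kap
      have := h.per 0
      rw [zero_add] at this
      rw [this])] at hprod
  have h1 : ∏ i ∈ Finset.range n, (G i : ℚ) = ∏ i ∈ Finset.range n, (X i : ℚ) := by
    have := hS.prod
    exact_mod_cast this
  rw [h1] at hprod
  exact lt_irrefl _ hprod

end

end Pool.Agent.H24.FP.M
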