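import Pool.Agent.H24.FP.N2Main

/-!
# The integer equations of a negative cycle, any number of primes in the numerator
-/

set_option autoImplicit false

namespace Pool.Agent.H24.FP.M

open Pool.Agent.H97 Pool.Agent.H24.FP.N2

/-- the exponents at a prime dividing the numerator -/
structure Ex (b : ℚ) (t : ℕ → ℚ) (n : ℕ) (p v : ℕ) (W X Z G : ℕ → ℕ) : Prop where
  nb : padicNorm p b = 1 / (p : ℚ) ^ v
  eW : ∀ i, padicNorm p b * padicNorm p (t i) * (p : ℚ) ^ (W i) = (p : ℚ) ^ (Z i)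
  eX : ∀ i, padicNorm p (b + 1 / t i) * (p : ℚ) ^ (X i) = padicNorm p b * (p : ℚ) ^ (W i)
  GW : ∀ i, 2 * G i + W (i + 1) ≤ 2 * v + 2 * X i
  GZ : ∀ i, G i ≤ Z i
  Gv : ∀ i, G i ≤ v
  sum : ∑ i ∈ Finset.range n, G i = ∑ i ∈ Finset.range n, X i
  ne : ∀ i, Z i ≠ v + X i
  per : ∀ i, X (i + n) = X i

/-- the down steps of a run -/
def gg (s : ℕ → Bool) (u : ℕ → ℕ) (i : ℕ) : ℕ := if s i = true ∧ 0 < u i then 1 else 0

theorem gg_T1 {s : ℕ → Bool} {u : ℕ → ℕ} {i : ℕ} (h : s i = true) (h0 : 0 < u i) :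
    gg s u i = 1 := by simp [gg, h, h0]
theorem gg_T0 {s : ℕ → Bool} {u : ℕ → ℕ} {i : ℕ} (h0 : u i = 0) : gg s u i = 0 := by
  simp [gg, h0]
theorem gg_F {s : ℕ → Bool} {u : ℕ → ℕ} {i : ℕ} (h : s i = false) : gg s u i = 0 := by
  simp [gg, h]

theorem sum_gg {s : ℕ → Bool} {u : ℕ → ℕ} {n : ℕ} (h : Rn s u n) :
    ∑ i ∈ Finset.range n, gg s u i = ∑ i ∈ Finset.range n, ch s u i := by
  have key : ∀ i, u (i + 1) + gg s u i = u i + ch s u i := by
    intro i
    cases hs : s i with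
    | false => rw [gg_F hs, ch_F hs, (h.up i hs).2]
    | true =>
      rcases Nat.eq_zero_or_pos (u i) with h0 | h0
      · rw [gg_T0 h0, ch_T0 hs h0, h0]; omega
      · rw [gg_T1 hs h0, ch_T1 h0]
        have := (h.down i hs h0).2
        omega
  have h1 : ∑ i ∈ Finset.range n, (u (i + 1) + gg s u i) =
      ∑ i ∈ Finset.range n, (u i + ch s u i) := Finset.sum_congr rfl fun i _ => key i
  rw [Finset.sum_add_distrib, Finset.sum_add_distrib] at h1
  have h3 := Finset.sum_range_succ (fun i => u i) n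
  have h4 := Finset.sum_range_succ' (fun i => u i) n
  have h5 : u n = u 0 := by
    have := (h.per 0).2
    rwa [zero_add] at this
  omega

theorem ex_runs {b : ℚ} {t : ℕ → ℚ} {n : ℕ} {p v : ℕ} [hp : Fact p.Prime] (h : IsTCycle b t n)
    (hv : 0 < v) (hb : padicNorm p b = 1 / (p : ℚ) ^ v) {s : ℕ → Bool} {u : ℕ → ℕ}
    (hs : TRuns p ((p : ℚ) ^ v) t n s u) :
    Ex b t n p v (fun i => v * dl s u i) (fun i => v * ch s u i) (fun i => v * zt s u i)
      (fun i => v * gg s u i) := by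
  have hp1 : (1 : ℚ) < p := by exact_mod_cast hp.out.one_lt
  have hQ : (1 : ℚ) < (p : ℚ) ^ v := one_lt_pow₀ hp1 hv.ne'
  have hQ0 : (0 : ℚ) < (p : ℚ) ^ v := by linarith
  have hR := rn_of hs
  refine ⟨hb, fun i => ?_, fun i => ?_, fun i => ?_, fun i => ?_, fun i => ?_, ?_, fun i => ?_,
    fun i => ?_⟩
  · have h1 := dl_zt hs i
    rw [pow_mul, pow_mul, hb]
    field_simp
    linear_combination -h1
  · have h1 := dl_ch h hs hQ i
    rw [pow_mul, pow_mul, hb]
    field_simp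
    linear_combination h1
  · show 2 * (v * gg s u i) + v * dl s u (i + 1) ≤ 2 * v + 2 * (v * ch s u i)
    cases hsi : s i with
    | false =>
      rw [gg_F hsi, ch_F hsi, dl_T (hR.up i hsi).1]
      omega
    | true =>
      rcases Nat.eq_zero_or_pos (u i) with h0 | h0
      · rw [gg_T0 h0, ch_T0 hsi h0, dl_F (hR.turn i hsi h0)]
        have : v * (2 * u (i + 1) + 2) = 2 * v + 2 * (v * u (i + 1)) := by ring
        omega
      · rw [gg_T1 hsi h0, ch_T1 h0, dl_T (hR.down i hsi h0).1]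
        omega
  · apply Nat.mul_le_mul_left
    cases hsi : s i with
    | false => rw [gg_F hsi]; exact Nat.zero_le _
    | true =>
      rcases Nat.eq_zero_or_pos (u i) with h0 | h0
      · rw [gg_T0 h0]; exact Nat.zero_le _
      · rw [gg_T1 hsi h0, zt_T hsi]; omega
  · show v * gg s u i ≤ v
    have : gg s u i ≤ 1 := by unfold gg; split_ifs <;> omega
    calc v * gg s u i ≤ v * 1 := Nat.mul_le_mul_left v this
      _ = v := mul_one v
  · show ∑ i ∈ Finset.range n, v * gg s u i = ∑ i ∈ Finset.range n, v * ch s u i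
    rw [← Finset.mul_sum, ← Finset.mul_sum, sum_gg hR]
  · show v * zt s u i ≠ v + v * ch s u i
    intro h0
    have h1 : v * zt s u i = v * (1 + ch s u i) := by rw [h0]; ring
    have h2 := Nat.eq_of_mul_eq_mul_left hv h1
    cases hsi : s i with
    | false => rw [zt_F hsi] at h2; omega
    | true =>
      rcases Nat.eq_zero_or_pos (u i) with h3 | h3
      · rw [zt_T hsi, h3] at h2; omega
      · rw [zt_T hsi, ch_T1 h3] at h2; omega
  · show v * ch s u (i + n) = v * ch s u i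
    have e1 := hR.per i
    have e2 := hR.per (i + 1)
    rw [show i + 1 + n = i + n + 1 by ring] at e2
    unfold ch
    rw [e1.1, e1.2, e2.2]

theorem ex_ann {b : ℚ} {t : ℕ → ℚ} {n : ℕ} {p v : ℕ} [hp : Fact p.Prime] (h : IsTCycle b t n)
    (hv : 0 < v) (hb : padicNorm p b = 1 / (p : ℚ) ^ v)
    (hann : ∀ i, padicNorm p (t (i + 1)) = 1 / padicNorm p (t i)) :
    ∃ W : ℕ → ℕ, Ex b t n p v W (fun _ => 0) (fun _ => 0) (fun _ => 0) := by
  have hpq : (1 : ℚ) < p := by exact_mod_cast hp.out.one_lt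
  have hpq0 : (0 : ℚ) < p := by linarith
  have hQ : (1 : ℚ) < (p : ℚ) ^ v := one_lt_pow₀ hpq hv.ne'
  have hτ : ∀ i, 0 < padicNorm p (t i) := fun i => norm_pos (h.ne i)
  have hξ : ∀ i, padicNorm p (b + 1 / t i) * padicNorm p (t i) = 1 := by
    intro i
    have e1 := hann i
    rw [Neg.xi_sq h i, padicNorm.mul, Pool.Agent.H97.norm_pow] at e1
    apply sq_inj_nonneg (mul_nonneg (padicNorm.nonneg _) (hτ i).le) (by norm_num)
    have e2 : padicNorm p (b + 1 / t i) ^ 2 * padicNorm p (t i) * padicNorm p (t i) = 1 := by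
      rw [e1, one_div_mul_cancel (hτ i).ne']
    linear_combination e2
  have hle : ∀ i, padicNorm p (t i) ≤ (p : ℚ) ^ v := by
    intro i
    have e1 : padicNorm p b ≤ 1 / padicNorm p (t i) := by
      have e2 : b = (b + 1 / t i) - 1 / t i := by ring
      rw [e2]
      apply Pool.Agent.H97.norm_sub_le
      · rw [le_div_iff₀ (hτ i), hξ i]
      · rw [padicNorm.div, padicNorm.one]
    rw [hb, one_div_le_one_div (by linarith) (hτ i)] at e1
    exact e1
  have hex : ∀ i, ∃ a : ℕ, padicNorm p (t i) * (p : ℚ) ^ a = (p : ℚ) ^ v := by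
    intro i
    obtain ⟨z, hz⟩ := padicNorm.values_discrete (p := p) (h.ne i)
    have hz1 : -z ≤ v := by
      have h1 := hle i
      rw [hz, ← zpow_natCast] at h1
      exact (zpow_le_zpow_iff_right₀ hpq).1 h1
    obtain ⟨a, ha⟩ : ∃ a : ℕ, (a : ℤ) = v + z := ⟨(v + z).toNat, Int.toNat_of_nonneg (by omega)⟩
    refine ⟨a, ?_⟩
    rw [hz, ← zpow_natCast, ← zpow_natCast, ← zpow_add₀ hpq0.ne', ha]
    congr 1
    ring
  choose W hW using hex
  refine ⟨W, hb, fun i => ?_, fun i => ?_, fun i => ?_, fun i => le_rfl,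
    fun i => Nat.zero_le _, by simp, fun i => by simp only [add_zero]; omega, fun i => rfl⟩
  · rw [hb, mul_assoc, hW i, pow_zero, one_div_mul_cancel (by positivity)]
  · have e1 := hW i
    have e2 := hξ i
    have e3 := hτ i
    rw [pow_zero, mul_one, hb]
    field_simp
    rw [← e1]
    linear_combination (p : ℚ) ^ (W i) * e2
  · show 2 * 0 + W (i + 1) ≤ 2 * v + 2 * 0
    have e1 := hW (i + 1)
    have e2 := hle (i + 1 + 1)
    rw [hann (i + 1), div_le_iff₀ (hτ (i + 1))] at e2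
    have e3 := hτ (i + 1)
    have hv0 : (0 : ℚ) < (p : ℚ) ^ v := by linarith
    have e4 : (p : ℚ) ^ (W (i + 1)) ≤ (p : ℚ) ^ (2 * v) := by
      have e5 : 0 < (p : ℚ) ^ (W (i + 1)) := pow_pos hpq0 _
      calc (p : ℚ) ^ (W (i + 1)) = 1 * (p : ℚ) ^ (W (i + 1)) := (one_mul _).symm
        _ ≤ ((p : ℚ) ^ v * padicNorm p (t (i + 1))) * (p : ℚ) ^ (W (i + 1)) :=
          mul_le_mul_of_nonneg_right e2 e5.le
        _ = (p : ℚ) ^ v * (padicNorm p (t (i + 1)) * (p : ℚ) ^ (W (i + 1))) := by ring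
        _ = (p : ℚ) ^ (2 * v) := by rw [e1, ← pow_add]; congr 1; omega
    have e6 := (pow_le_pow_iff_right₀ hpq).1 e4
    omega

/-- the exponents at any prime of the numerator -/
theorem exists_ex {b : ℚ} {t : ℕ → ℚ} {n : ℕ} {p v : ℕ} [hp : Fact p.Prime] (h : IsTCycle b t n)
    (hv : 0 < v) (hb : padicNorm p b = 1 / (p : ℚ) ^ v) :
    ∃ W X Z G : ℕ → ℕ, Ex b t n p v W X Z G := by
  have hp1 : (1 : ℚ) < p := by exact_mod_cast hp.out.one_lt
  have hQ : (1 : ℚ) < (p : ℚ) ^ v := one_lt_pow₀ hp1 hv.ne'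
  rcases exists_truns h hQ hb with h1 | ⟨s, u, h1⟩
  · obtain ⟨W, hW⟩ := ex_ann h hv hb h1
    exact ⟨W, _, _, _, hW⟩
  · exact ⟨_, _, _, _, ex_runs h hv hb h1⟩

/-! ### Products over the primes of the numerator -/

/-- `∏ p ^ f p` -/
def pr (S : Finset ℕ) (f : ℕ → ℕ) : ℤ := ∏ p ∈ S, (p : ℤ) ^ (f p)

theorem pr_pos {S : Finset ℕ} (hS : ∀ p ∈ S, p.Prime) (f : ℕ → ℕ) : 0 < pr S f :=
  Finset.prod_pos fun p hp => pow_pos (by exact_mod_cast (hS p hp).pos) _

theorem nrm_pr_of_not_mem {S : Finset ℕ} (hS : ∀ p ∈ S, p.Prime) (f : ℕ → ℕ) {r : ℕ}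
    (hr : r.Prime) (hrS : r ∉ S) : padicNorm r (pr S f : ℚ) = 1 := by
  classical
  have : Fact r.Prime := ⟨hr⟩
  unfold pr
  induction S using Finset.induction_on with
  | empty => simp
  | insert p S hpS ih =>
    rw [Finset.prod_insert hpS, Int.cast_mul, padicNorm.mul,
      ih (fun q hq => hS q (Finset.mem_insert_of_mem hq))
        (fun hq => hrS (Finset.mem_insert_of_mem hq)), mul_one]
    have hp : p.Prime := hS p (Finset.mem_insert_self _ _)
    have : Fact p.Prime := ⟨hp⟩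
    have hne : r ≠ p := by
      rintro rfl
      exact hrS (Finset.mem_insert_self _ _)
    have := nrm_other hne (f p) 1
    rwa [pow_one] at this

theorem nrm_pr_of_mem {S : Finset ℕ} (hS : ∀ p ∈ S, p.Prime) (f : ℕ → ℕ) {r : ℕ}
    (hrS : r ∈ S) : padicNorm r (pr S f : ℚ) = 1 / (r : ℚ) ^ (f r) := by
  classical
  have hr := hS r hrS
  have : Fact r.Prime := ⟨hr⟩
  have h1 : pr S f = (r : ℤ) ^ (f r) * pr (S.erase r) f := by
    exact (Finset.mul_prod_erase S (fun p : ℕ => (p : ℤ) ^ (f p)) hrS).symm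
  rw [h1, Int.cast_mul, padicNorm.mul,
    nrm_pr_of_not_mem (fun q hq => hS q (Finset.mem_of_mem_erase hq)) f hr
      (Finset.notMem_erase r S), mul_one]
  have := nrm_self (p := r) (f r) 1
  rw [pow_one, pow_one] at this
  exact this

theorem pr_add (S : Finset ℕ) (f g : ℕ → ℕ) : pr S (fun p => f p + g p) = pr S f * pr S g := by
  unfold pr
  rw [← Finset.prod_mul_distrib]
  exact Finset.prod_congr rfl fun p _ => pow_add _ _ _

theorem pr_two (S : Finset ℕ) (f : ℕ → ℕ) : pr S (fun p => 2 * f p) = pr S f ^ 2 := by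
  unfold pr
  rw [← Finset.prod_pow]
  exact Finset.prod_congr rfl fun p _ => by rw [← pow_mul, mul_comm]

theorem pr_prod (S : Finset ℕ) (n : ℕ) (f : ℕ → ℕ → ℕ) :
    ∏ i ∈ Finset.range n, pr S (fun p => f p i) =
      pr S (fun p => ∑ i ∈ Finset.range n, f p i) := by
  unfold pr
  rw [Finset.prod_comm]
  exact Finset.prod_congr rfl fun p _ => Finset.prod_pow_eq_pow_sum _ _ _

theorem pr_dvd {S : Finset ℕ} {f g : ℕ → ℕ} (h : ∀ p ∈ S, f p ≤ g p) : pr S f ∣ pr S g :=
  Finset.prod_dvd_prod_of_dvd _ _ fun p hp => pow_dvd_pow _ (h p hp)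

/-- the integers of a negative cycle -/
structure Sys (b : ℚ) (t : ℕ → ℚ) (n : ℕ) (W X V G : ℕ → ℤ) : Prop where
  W1 : ∀ i, 1 ≤ W i
  X1 : ∀ i, 1 ≤ X i
  V1 : ∀ i, 1 ≤ V i
  G1 : ∀ i, 1 ≤ G i
  eq : ∀ i, ∃ e : ℤ, (e = 1 ∨ e = -1) ∧ W i = e * b.den * X i + V i ∧
    (b + 1 / t i) * (W i : ℚ) = (e : ℚ) * ((b.num : ℚ) * X i)
  GW : ∀ i, G i ^ 2 * W (i + 1) ≤ (b.num * X i) ^ 2
  GV : ∀ i, G i ∣ V i
  GN : ∀ i, G i ∣ b.num
  prod : ∏ i ∈ Finset.range n, G i = ∏ i ∈ Finset.range n, X i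
  ne : b.num ≠ 1 → ∀ i, V i ≠ b.num * X i
  per : ∀ i, X (i + n) = X i

theorem exists_sys {b : ℚ} {t : ℕ → ℚ} {n : ℕ} (h : Neg b t n) :
    ∃ W X V G : ℕ → ℤ, Sys b t n W X V G := by
  have hT := h.toIsTCycle
  have hb0 : b ≠ 0 := h.hb.ne'
  have hnum : 0 < b.num := Rat.num_pos.2 h.hb
  have hn0 : b.num.natAbs ≠ 0 := by rw [Int.natAbs_ne_zero]; exact hnum.ne'
  set S := b.num.natAbs.primeFactors with hS
  set v : ℕ → ℕ := fun p => b.num.natAbs.factorization p with hv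
  have hprime : ∀ p ∈ S, p.Prime := fun p hp => Nat.prime_of_mem_primeFactors hp
  have hpr : pr S v = b.num := by
    have h1 := Nat.prod_factorization_pow_eq_self hn0
    rw [Finsupp.prod, Nat.support_factorization] at h1
    have h2 : (b.num.natAbs : ℤ) = b.num := by
      rw [Int.natCast_natAbs, abs_of_pos hnum]
    rw [← h2, ← h1]
    unfold pr
    push_cast
    rfl
  have hvpos : ∀ p ∈ S, 0 < v p := by
    intro p hp
    have h1 := Nat.mem_primeFactors.1 hp
    exact h1.1.factorization_pos_of_dvd hn0 h1.2.1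
  have hnb : ∀ p ∈ S, padicNorm p b = 1 / (p : ℚ) ^ (v p) := by
    intro p hp
    have : Fact p.Prime := ⟨hprime p hp⟩
    have h1 : padicNorm p (b.num : ℚ) = 1 / (p : ℚ) ^ (v p) := by
      rw [← hpr]; exact nrm_pr_of_mem hprime v hp
    have hp1 : (1 : ℚ) < p := by exact_mod_cast (hprime p hp).one_lt
    have hQ : (1 : ℚ) < (p : ℚ) ^ (v p) := one_lt_pow₀ hp1 (hvpos p hp).ne'
    rcases lt_or_ge (padicNorm p b) 1 with h3 | h3
    · rw [← num_of_bad h3, h1]
    · rw [num_of_good h3] at h1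
      rw [eq_div_iff (by positivity)] at h1
      linarith
  have hlt : ∀ p ∈ S, padicNorm p b < 1 := by
    intro p hp
    have hp1 : (1 : ℚ) < p := by exact_mod_cast (hprime p hp).one_lt
    have hQ : (1 : ℚ) < (p : ℚ) ^ (v p) := one_lt_pow₀ hp1 (hvpos p hp).ne'
    rw [hnb p hp, div_lt_one (by linarith)]
    exact hQ
  have hmem : ∀ r : ℕ, r.Prime → padicNorm r b < 1 → r ∈ S := by
    intro r hr hb
    have : Fact r.Prime := ⟨hr⟩
    have h1 : padicNorm r (b.num : ℚ) < 1 := by rw [num_of_bad hb]; exact hb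
    rw [padicNorm.int_lt_one_iff] at h1
    exact Nat.mem_primeFactors.2 ⟨hr, Int.natCast_dvd.1 h1, hn0⟩
  have hall : ∀ p : ℕ, ∃ E : (ℕ → ℕ) × (ℕ → ℕ) × (ℕ → ℕ) × (ℕ → ℕ), p ∈ S →
      Ex b t n p (v p) E.1 E.2.1 E.2.2.1 E.2.2.2 := by
    intro p
    by_cases hp : p ∈ S
    · have : Fact p.Prime := ⟨hprime p hp⟩
      obtain ⟨W, X, Z, G, hE⟩ := exists_ex hT (hvpos p hp) (hnb p hp)
      exact ⟨(W, X, Z, G), fun _ => hE⟩
    · exact ⟨(fun _ => 0, fun _ => 0, fun _ => 0, fun _ => 0), fun hp' => absurd hp' hp⟩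
  choose E hE using hall
  set W : ℕ → ℤ := fun i => pr S (fun p => (E p).1 i) with hW
  set X : ℕ → ℤ := fun i => pr S (fun p => (E p).2.1 i) with hX
  set Z : ℕ → ℤ := fun i => pr S (fun p => (E p).2.2.1 i) with hZ
  set G : ℕ → ℤ := fun i => pr S (fun p => (E p).2.2.2 i) with hG
  have hWp : ∀ i, 0 < W i := fun i => pr_pos hprime _
  have hXp : ∀ i, 0 < X i := fun i => pr_pos hprime _
  have hZp : ∀ i, 0 < Z i := fun i => pr_pos hprime _
  have hGp : ∀ i, 0 < G i := fun i => pr_pos hprime _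
  obtain ⟨m, hm, hcop, heq⟩ := h.data (Δ := W) (X := X) (Z := Z) hWp hXp hZp
    (by
      intro r hr hb i
      have hrS := hmem r hr hb
      have hr0 : (0 : ℚ) < r := by exact_mod_cast hr.pos
      have e1 := (hE r hrS).eW i
      have e2 := (hE r hrS).eX i
      rw [hW, hX, hZ]
      simp only
      rw [nrm_pr_of_mem hprime _ hrS, nrm_pr_of_mem hprime _ hrS, nrm_pr_of_mem hprime _ hrS]
      constructor
      · field_simp
        linear_combination -e1
      · field_simp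
        linear_combination e2)
    (by
      intro r hr hb i
      have hrS : r ∉ S := fun hrS => absurd (hlt r hrS) (not_lt.2 hb)
      exact ⟨nrm_pr_of_not_mem hprime _ hr hrS, nrm_pr_of_not_mem hprime _ hr hrS,
        nrm_pr_of_not_mem hprime _ hr hrS⟩)
  refine ⟨W, X, fun i => m * Z i, G, ⟨fun i => hWp i, fun i => hXp i, fun i => ?_, fun i => hGp i,
    heq, fun i => ?_, fun i => ?_, fun i => ?_, ?_, fun hne i h0 => ?_, fun i => ?_⟩⟩
  · exact one_le_mul_of_one_le_of_one_le hm (hZp i)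
  · -- the bound
    have h1 : pr S (fun p => 2 * (E p).2.2.2 i + (E p).1 (i + 1)) ∣
        pr S (fun p => 2 * (v p + (E p).2.1 i)) := by
      apply pr_dvd
      intro p hp
      have := (hE p hp).GW i
      show 2 * (E p).2.2.2 i + (E p).1 (i + 1) ≤ 2 * (v p + (E p).2.1 i)
      omega
    rw [pr_add S (fun p => 2 * (E p).2.2.2 i) (fun p => (E p).1 (i + 1)),
      pr_two S (fun p => (E p).2.2.2 i), pr_two S (fun p => v p + (E p).2.1 i),
      pr_add S v (fun p => (E p).2.1 i), hpr] at h1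
    exact Int.le_of_dvd (by
      have h2 := hXp i
      show 0 < (b.num * X i) ^ 2
      positivity) h1
  · exact Dvd.dvd.mul_left (pr_dvd fun p hp => (hE p hp).GZ i) m
  · rw [← hpr]
    exact pr_dvd fun p hp => (hE p hp).Gv i
  · rw [hG, hX]
    simp only
    rw [pr_prod, pr_prod]
    unfold pr
    apply Finset.prod_congr rfl
    intro p hp
    show (p : ℤ) ^ (∑ i ∈ Finset.range n, (E p).2.2.2 i) =
      (p : ℤ) ^ (∑ i ∈ Finset.range n, (E p).2.1 i)
    rw [(hE p hp).sum]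
  · -- ne
    have hSne : S.Nonempty := by
      rw [Finset.nonempty_iff_ne_empty]
      intro hSe
      apply hne
      rw [← hpr, hSe]
      simp [pr]
    obtain ⟨p, hp⟩ := hSne
    have hpf : Fact p.Prime := ⟨hprime p hp⟩
    obtain ⟨e, _, e1, e2⟩ := heq i
    have h0' : m * Z i = b.num * X i := h0
    rw [h0'] at e1
    have hbn : b * b.den = b.num := Rat.mul_den_eq_num b
    have ht := hT.ne i
    -- `b * V = -W / t`
    have e3 : b * ((b.num : ℚ) * X i) * t i = -(W i : ℚ) := by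
      have e4 : (W i : ℚ) = (e : ℚ) * b.den * X i + (b.num : ℚ) * X i := by exact_mod_cast e1
      have e5 : (b + 1 / t i) * (W i : ℚ) * t i = (e : ℚ) * ((b.num : ℚ) * X i) * t i := by rw [e2]
      have e6 : (b + 1 / t i) * (W i : ℚ) * t i = b * W i * t i + W i := by field_simp
      rw [e6] at e5
      linear_combination e5 - b * t i * e4 - (e : ℚ) * X i * t i * hbn
    have e4 : padicNorm p (b * ((b.num : ℚ) * X i) * t i) = padicNorm p (W i : ℚ) := by
      rw [e3, padicNorm.neg]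
    have e5 : padicNorm p (b.num : ℚ) = 1 / (p : ℚ) ^ (v p) := by
      rw [num_of_bad (hlt p hp), hnb p hp]
    have e6 : padicNorm p (X i : ℚ) = 1 / (p : ℚ) ^ ((E p).2.1 i) := nrm_pr_of_mem hprime _ hp
    have e7 : padicNorm p (W i : ℚ) = 1 / (p : ℚ) ^ ((E p).1 i) := nrm_pr_of_mem hprime _ hp
    rw [padicNorm.mul, padicNorm.mul, padicNorm.mul, e5, e6, e7] at e4
    have e8 := (hE p hp).eW i
    have hp1 : (1 : ℚ) < p := by exact_mod_cast (hprime p hp).one_lt
    have hp0 : (0 : ℚ) < p := by linarith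
    have e9 : (p : ℚ) ^ ((E p).2.2.1 i) = (p : ℚ) ^ (v p + (E p).2.1 i) := by
      rw [← e8, pow_add]
      have h10 : padicNorm p b * padicNorm p (t i) * (p : ℚ) ^ ((E p).1 i) =
          (padicNorm p b * (1 / (p : ℚ) ^ (v p) * (1 / (p : ℚ) ^ ((E p).2.1 i))) *
            padicNorm p (t i)) * ((p : ℚ) ^ (v p) * (p : ℚ) ^ ((E p).2.1 i)) *
            (p : ℚ) ^ ((E p).1 i) := by field_simp
      rw [h10, e4]
      field_simp
    have h11 := pow_right_injective₀ hp0 hp1.ne' e9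
    exact (hE p hp).ne i h11
  · show pr S (fun p => (E p).2.1 (i + n)) = pr S (fun p => (E p).2.1 i)
    unfold pr
    apply Finset.prod_congr rfl
    intro p hp
    show (p : ℤ) ^ ((E p).2.1 (i + n)) = (p : ℤ) ^ ((E p).2.1 i)
    rw [(hE p hp).per i]

end Pool.Agent.H24.FP.M
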