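import Pool.Agent.H97.ManesNum
import Pool.Agent.H24.FP.Count

/-!
# The runs of a `t`-cycle at a prime dividing the numerator of `b`
-/

set_option autoImplicit false

namespace Pool.Agent.H24.FP

open Pool.Agent.H97

/-- The norms of a `t`-cycle at a zero of `b`: `Q ^ (2 u + 1)` (if `s`), or `Q ^ (-(2 u + 1))`. -/
structure TRuns (p : ℕ) (Q : ℚ) (t : ℕ → ℚ) (n : ℕ) (s : ℕ → Bool) (u : ℕ → ℕ) : Prop where
  large : ∀ i, s i = true → padicNorm p (t i) = Q ^ (2 * u i + 1)
  small : ∀ i, s i = false → padicNorm p (t i) * Q ^ (2 * u i + 1) = 1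
  down : ∀ i, s i = true → 0 < u i → s (i + 1) = true ∧ u (i + 1) + 1 = u i
  turn : ∀ i, s i = true → u i = 0 → s (i + 1) = false
  up : ∀ i, s i = false → s (i + 1) = true ∧ u (i + 1) = u i
  per : ∀ i, s (i + n) = s i ∧ u (i + n) = u i

open Classical in
/-- the exponent as a function of the norm -/
noncomputable def expoT (Q x : ℚ) : ℕ :=
  if h : ∃ u : ℕ, x * Q ^ (2 * u + 1) = 1 then h.choose
  else if h : ∃ u : ℕ, x = Q ^ (2 * u + 1) then h.choose else 0

theorem pow_inj2 {Q : ℚ} (hQ : 1 < Q) {a b : ℕ} (h : Q ^ (2 * a + 1) = Q ^ (2 * b + 1)) : a = b := by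
  have h1 : 2 * a + 1 = 2 * b + 1 := pow_right_injective₀ (by linarith) hQ.ne' h
  omega

theorem expoT_small {Q x : ℚ} (hQ : 1 < Q) {u : ℕ} (h : x * Q ^ (2 * u + 1) = 1) :
    expoT Q x = u := by
  have h1 : ∃ u : ℕ, x * Q ^ (2 * u + 1) = 1 := ⟨u, h⟩
  unfold expoT
  rw [dif_pos h1]
  have h2 := h1.choose_spec
  have hx : x ≠ 0 := by rintro rfl; simp at h
  have h3 : Q ^ (2 * h1.choose + 1) = Q ^ (2 * u + 1) := mul_left_cancel₀ hx (h2.trans h.symm)
  exact pow_inj2 hQ h3

theorem expoT_large {Q x : ℚ} (hQ : 1 < Q) {u : ℕ} (h : x = Q ^ (2 * u + 1)) :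
    expoT Q x = u := by
  have h0 : ¬ ∃ u : ℕ, x * Q ^ (2 * u + 1) = 1 := by
    rintro ⟨v, hv⟩
    rw [h, ← pow_add] at hv
    have : 1 < Q ^ (2 * u + 1 + (2 * v + 1)) := one_lt_pow₀ hQ (by omega)
    linarith
  have h1 : ∃ u : ℕ, x = Q ^ (2 * u + 1) := ⟨u, h⟩
  unfold expoT
  rw [dif_neg h0, dif_pos h1]
  have h2 := h1.choose_spec
  exact pow_inj2 hQ (h2.symm.trans h)

theorem norm_small {b : ℚ} {t : ℕ → ℚ} {n : ℕ} {p : ℕ} [hp : Fact p.Prime] {Q : ℚ}
    (h : IsTCycle b t n) (hQ : 1 < Q) (hb : padicNorm p b = 1 / Q) (i : ℕ)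
    (hi : padicNorm p (t i) < Q) : padicNorm p (t (i + 1)) = 1 / padicNorm p (t i) := by
  have hQ0 : 0 < Q := by linarith
  have h1 : padicNorm p (b * t i + 1) = 1 := by
    rw [add_comm, norm_add_eq, padicNorm.one]
    rw [padicNorm.one, padicNorm.mul, hb, one_div_mul_eq_div, div_lt_one hQ0]; exact hi
  rw [h.norm_next, h1]; norm_num

theorem norm_large {b : ℚ} {t : ℕ → ℚ} {n : ℕ} {p : ℕ} [hp : Fact p.Prime] {Q : ℚ}
    (h : IsTCycle b t n) (hQ : 1 < Q) (hb : padicNorm p b = 1 / Q) (i : ℕ)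
    (hi : Q < padicNorm p (t i)) : padicNorm p (t (i + 1)) = padicNorm p (t i) / Q ^ 2 := by
  have hQ0 : 0 < Q := by linarith
  have h1 : padicNorm p (b * t i + 1) = padicNorm p (t i) / Q := by
    rw [norm_add_eq, padicNorm.mul, hb, one_div_mul_eq_div]
    rw [padicNorm.one, padicNorm.mul, hb, one_div_mul_eq_div, one_lt_div hQ0]; exact hi
  have : 0 < padicNorm p (t i) := norm_pos (h.ne i)
  rw [h.norm_next, h1]
  field_simp

theorem norm_eqQ {b : ℚ} {t : ℕ → ℚ} {n : ℕ} {p : ℕ} [hp : Fact p.Prime] {Q : ℚ}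
    (h : IsTCycle b t n) (hQ : 1 < Q) (hb : padicNorm p b = 1 / Q) (i : ℕ)
    (hi : padicNorm p (t i) = Q) : padicNorm p (t (i + 1)) ≤ 1 / Q := by
  have hQ0 : 0 < Q := by linarith
  have h1 : padicNorm p (b * t i + 1) ≤ 1 := by
    apply Pool.Agent.H97.norm_add_le
    · rw [padicNorm.mul, hb, hi]; field_simp; exact le_refl _
    · rw [padicNorm.one]
  have h2 := padicNorm.nonneg (p := p) (b * t i + 1)
  rw [h.norm_next, hi]
  apply div_le_div_of_nonneg_right _ hQ0.le
  nlinarith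

theorem exists_truns {b : ℚ} {t : ℕ → ℚ} {n : ℕ} {p : ℕ} [hp : Fact p.Prime] {Q : ℚ}
    (h : IsTCycle b t n) (hQ : 1 < Q) (hb : padicNorm p b = 1 / Q) :
    (∀ i, padicNorm p (t (i + 1)) = 1 / padicNorm p (t i)) ∨
      ∃ (s : ℕ → Bool) (u : ℕ → ℕ), TRuns p Q t n s u := by
  classical
  have hQ0 : 0 < Q := by linarith
  have hτ : ∀ i, 0 < padicNorm p (t i) := fun i => norm_pos (h.ne i)
  by_cases hann : ∀ i, padicNorm p (t (i + 1)) = 1 / padicNorm p (t i)
  · exact Or.inl hann
  right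
  obtain ⟨i0, hi0⟩ : ∃ i, Q ≤ padicNorm p (t i) := by
    by_contra hcon
    push Not at hcon
    exact hann fun i => norm_small h hQ hb i (hcon i)
  -- no term in the open annulus
  have hdich : ∀ i, padicNorm p (t i) ≤ 1 / Q ∨ Q ≤ padicNorm p (t i) := by
    intro i
    by_contra hcon
    push Not at hcon
    have hall : ∀ j, 1 / Q < padicNorm p (t j) ∧ padicNorm p (t j) < Q := by
      apply h.all_of_step (Q := fun s => 1 / Q < padicNorm p s ∧ padicNorm p s < Q) _ i hcon
      intro j hj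
      rw [norm_small h hQ hb j hj.2]
      refine ⟨one_div_lt_one_div_of_lt (hτ j) hj.2, ?_⟩
      have := hj.1
      rw [div_lt_iff₀ hQ0] at this
      rw [div_lt_iff₀ (hτ j)]
      linarith
    exact absurd (hall i0).2 (not_lt.2 hi0)
  have hQ1 : 1 / Q < 1 := by rw [div_lt_one hQ0]; exact hQ
  -- powers
  have hlarge : ∀ i, Q ≤ padicNorm p (t i) → ∃ u : ℕ, padicNorm p (t i) = Q ^ (2 * u + 1) := by
    intro i hi
    by_contra hcon
    have hall : ∀ j, Q < padicNorm p (t j) ∧ ¬ ∃ u : ℕ, padicNorm p (t j) = Q ^ (2 * u + 1) := by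
      have hi' : Q < padicNorm p (t i) := by
        refine lt_of_le_of_ne hi fun h0 => hcon ⟨0, ?_⟩
        rw [← h0]; ring
      apply h.all_of_step (Q := fun s => Q < padicNorm p s ∧
        ¬ ∃ u : ℕ, padicNorm p s = Q ^ (2 * u + 1)) _ i ⟨hi', hcon⟩
      intro j hj
      have e1 := norm_large h hQ hb j hj.1
      have e2 : Q ≤ padicNorm p (t (j + 1)) := by
        rcases hdich (j + 1) with h1 | h1
        · exfalso
          rw [e1, div_le_div_iff₀ (by positivity) hQ0] at h1
          have := hj.1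
          nlinarith
        · exact h1
      have e3 : ¬ ∃ u : ℕ, padicNorm p (t (j + 1)) = Q ^ (2 * u + 1) := by
        rintro ⟨u, hu⟩
        apply hj.2
        refine ⟨u + 1, ?_⟩
        rw [e1, div_eq_iff (by positivity)] at hu
        rw [hu]; ring
      refine ⟨lt_of_le_of_ne e2 fun h0 => e3 ⟨0, ?_⟩, e3⟩
      rw [← h0]; ring
    have hdec : ∀ j, padicNorm p (t (j + 1)) < padicNorm p (t j) := by
      intro j
      rw [norm_large h hQ hb j (hall j).1]
      apply div_lt_self (hτ j)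
      nlinarith
    have h1 : StrictAnti (fun j => padicNorm p (t j)) := strictAnti_nat_of_succ_lt hdec
    have h2 := h1 h.pos
    simp only at h2
    have h3 := h.per 0
    rw [zero_add] at h3
    rw [h3] at h2
    exact lt_irrefl _ h2
  set s : ℕ → Bool := fun i => decide (Q ≤ padicNorm p (t i)) with hs
  set u : ℕ → ℕ := fun i => expoT Q (padicNorm p (t i)) with hu
  have hsT : ∀ i, s i = true ↔ Q ≤ padicNorm p (t i) := by
    intro i; rw [hs]; simp
  have hsF : ∀ i, s i = false ↔ padicNorm p (t i) ≤ 1 / Q := by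
    intro i
    rcases hdich i with h1 | h1
    · refine ⟨fun _ => h1, fun _ => ?_⟩
      rw [← Bool.not_eq_true, hsT]
      intro h2
      linarith
    · constructor
      · intro h2
        rw [(hsT i).2 h1] at h2
        exact absurd h2 (by decide)
      · intro h2
        linarith
  have large : ∀ i, s i = true → padicNorm p (t i) = Q ^ (2 * u i + 1) := by
    intro i hi
    obtain ⟨v, hv⟩ := hlarge i ((hsT i).1 hi)
    have : u i = v := expoT_large hQ hv
    rw [this]; exact hv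
  have hup : ∀ i, s i = false → s (i + 1) = true ∧
      padicNorm p (t i) * Q ^ (2 * u (i + 1) + 1) = 1 := by
    intro i hi
    have h1 := (hsF i).1 hi
    have h2 := norm_small h hQ hb i (by linarith)
    have h3 : s (i + 1) = true := by
      rw [hsT, h2, le_div_iff₀ (hτ i)]
      rw [le_div_iff₀ hQ0] at h1
      linarith
    refine ⟨h3, ?_⟩
    rw [← large (i + 1) h3, h2, mul_one_div_cancel (hτ i).ne']
  have small : ∀ i, s i = false → padicNorm p (t i) * Q ^ (2 * u i + 1) = 1 ∧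
      u (i + 1) = u i := by
    intro i hi
    have h1 := (hup i hi).2
    have h2 : u i = u (i + 1) := expoT_small hQ h1
    rw [← h2] at h1
    exact ⟨h1, h2.symm⟩
  refine ⟨s, u, large, fun i hi => (small i hi).1, fun i hi hui => ?_, fun i hi hui => ?_,
    fun i hi => ⟨(hup i hi).1, (small i hi).2⟩, fun i => ?_⟩
  · have h1 := large i hi
    have h2 : Q < padicNorm p (t i) := by
      rw [h1]
      calc Q = Q ^ 1 := (pow_one Q).symm
        _ < Q ^ (2 * u i + 1) := pow_lt_pow_right₀ hQ (by omega)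
    have h3 := norm_large h hQ hb i h2
    obtain ⟨v, hv⟩ : ∃ v, u i = v + 1 := ⟨u i - 1, by omega⟩
    have h4 : padicNorm p (t (i + 1)) = Q ^ (2 * v + 1) := by
      rw [h3, h1, hv, div_eq_iff (by positivity)]; ring
    have h5 : u (i + 1) = v := expoT_large hQ h4
    refine ⟨?_, by omega⟩
    rw [hsT, h4]
    calc Q = Q ^ 1 := (pow_one Q).symm
      _ ≤ Q ^ (2 * v + 1) := pow_le_pow_right₀ hQ.le (by omega)
  · have h1 := large i hi
    rw [hui, mul_zero, zero_add, pow_one] at h1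
    exact (hsF (i + 1)).2 (norm_eqQ h hQ hb i h1)
  · have h1 := h.per i
    exact ⟨by rw [hs]; simp only [h1], by rw [hu]; simp only [h1]⟩

/-! ### Codes -/

/-- the code of an index -/
def codeN (s : ℕ → Bool) (u : ℕ → ℕ) (i : ℕ) : Bool × ℕ :=
  if s i = true then (if u i = 0 then (true, u (i + 1)) else (true, 0)) else (false, u i)

/-- the norm of the multiplier `t (i+1) / t i`, from the code -/
def normN (Q : ℚ) (c : Bool × ℕ) : ℚ :=
  if c.1 then 1 / Q ^ (2 * c.2 + 2) else Q ^ (4 * c.2 + 2)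

theorem normN_T (Q : ℚ) (j : ℕ) : normN Q (true, j) = 1 / Q ^ (2 * j + 2) := by simp [normN]
theorem normN_F (Q : ℚ) (j : ℕ) : normN Q (false, j) = Q ^ (4 * j + 2) := by simp [normN]

theorem TRuns.norm_code {p : ℕ} [hp : Fact p.Prime] {Q : ℚ} {t : ℕ → ℚ} {n : ℕ} {s : ℕ → Bool}
    {u : ℕ → ℕ} (h : TRuns p Q t n s u) (hQ : 1 < Q) (ht : ∀ i, t i ≠ 0) (i : ℕ) :
    padicNorm p (t (i + 1) / t i) = normN Q (codeN s u i) := by
  have hQ0 : 0 < Q := by linarith
  have h0 : 0 < padicNorm p (t i) := norm_pos (ht i)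
  have h1 : 0 < padicNorm p (t (i + 1)) := norm_pos (ht (i + 1))
  rw [padicNorm.div]
  unfold codeN
  cases hs : s i with
  | true =>
    rw [if_pos rfl]
    have e1 := h.large i hs
    rcases Nat.eq_zero_or_pos (u i) with hu | hu
    · have e2 := h.small (i + 1) (h.turn i hs hu)
      rw [if_pos hu, normN_T, e1, hu, div_eq_div_iff (by positivity) (by positivity)]
      linear_combination Q * e2
    · obtain ⟨h2, h3⟩ := h.down i hs hu
      have e2 := h.large (i + 1) h2
      rw [if_neg hu.ne', normN_T, e1, e2, ← h3]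
      field_simp
      ring
  | false =>
    rw [if_neg (by simp), normN_F]
    have e1 := h.small i hs
    obtain ⟨h2, h3⟩ := h.up i hs
    have e2 := h.large (i + 1) h2
    rw [h3] at e2
    rw [e2, div_eq_iff h0.ne']
    linear_combination -(Q ^ (2 * u i + 1)) * e1

/-- the potential -/
noncomputable def potN (s : Bool) (u : ℕ) : ℝ := if s then 4 ^ u else 2 ^ u

theorem potN_pos (s : Bool) (u : ℕ) : 0 < potN s u := by unfold potN; split_ifs <;> positivity

theorem wN_T0 : wN (true, 0) = 1 / 2 := by simp [wN]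
theorem wN_TS (j : ℕ) : wN (true, j + 1) = (1 / 2) ^ (j + 4) := by
  unfold wN; rw [if_neg (by simp)]
theorem wN_F (j : ℕ) : wN (false, j) = (1 / 2) ^ (j + 3) := by
  unfold wN; rw [if_neg (by simp)]

theorem TRuns.weight {p : ℕ} {Q : ℚ} {t : ℕ → ℚ} {n : ℕ} {s : ℕ → Bool}
    {u : ℕ → ℕ} (h : TRuns p Q t n s u) (i : ℕ) :
    (1 / 8 : ℝ) * (potN (s i) (u i) / potN (s (i + 1)) (u (i + 1))) ≤ wN (codeN s u i) := by
  unfold codeN
  cases hs : s i with
  | true =>
    rw [if_pos rfl]
    rcases Nat.eq_zero_or_pos (u i) with hu | hu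
    · rw [if_pos hu, h.turn i hs hu, hu]
      rcases Nat.eq_zero_or_pos (u (i + 1)) with hv | hv
      · rw [hv, wN_T0]
        simp [potN]
        norm_num
      · obtain ⟨v, hv⟩ : ∃ v, u (i + 1) = v + 1 := ⟨u (i + 1) - 1, by omega⟩
        rw [hv, wN_TS]
        simp only [potN, if_true]
        apply le_of_eq
        rw [if_neg (by simp)]
        simp only [one_div, inv_pow, pow_zero]
        rw [pow_succ]
        field_simp
        ring
    · obtain ⟨h2, h3⟩ := h.down i hs hu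
      rw [if_neg hu.ne', h2, ← h3, wN_T0]
      simp only [potN, if_true]
      rw [pow_succ]
      field_simp
      norm_num
  | false =>
    obtain ⟨h2, h3⟩ := h.up i hs
    rw [if_neg (by simp), h2, h3, wN_F]
    simp only [potN, if_true]
    rw [if_neg (by simp)]
    apply le_of_eq
    have h4 : (4 : ℝ) ^ u i = 2 ^ u i * 2 ^ u i := by rw [← mul_pow]; norm_num
    rw [h4]
    simp only [one_div, inv_pow]
    rw [pow_add]
    field_simp
    norm_num

end Pool.Agent.H24.FP
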