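import Pool.Agent.H24.FP.DenCount
import Pool.Agent.H24.FP.NRuns

/-!
# Numerators with few prime factors
-/

set_option autoImplicit false

namespace Pool.Agent.H24.FP

open Pool.Agent.H97

theorem eq_of_sq_sign {a b : ℚ} (h : a ^ 2 = b ^ 2) (hb : b ≠ 0)
    (hs : decide (0 < a) = decide (0 < b)) : a = b := by
  rcases sq_eq_sq_iff_eq_or_eq_neg.1 h with h3 | h3
  · exact h3
  · exfalso
    rw [decide_eq_decide, h3] at hs
    rcases lt_or_gt_of_ne hb with h7 | h7
    · have := hs.1 (by linarith)
      linarith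
    · have := hs.2 h7
      linarith

/-- the ratio `x (i+1) / x i` determines `x` up to sign -/
theorem sq_of_ratio {b c : ℚ} {x : ℕ → ℚ} {n : ℕ} (hc : c ≠ 0) (h : IsCycle b c x n)
    {i j : ℕ} (hr : x (i + 1) / x i = x (j + 1) / x j) : x i ^ 2 = x j ^ 2 := by
  have z0 := h.ne i
  have z2 := h.ne j
  rw [div_eq_div_iff z0 z2] at hr
  have m0 : x (i + 1) * x i = b * x i ^ 2 + c := by rw [h.next i]; field_simp
  have m2 : x (j + 1) * x j = b * x j ^ 2 + c := by rw [h.next j]; field_simp
  have e4 : c * x i ^ 2 = c * x j ^ 2 := by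
    linear_combination -(x j * x i) * hr + x j ^ 2 * m0 - x i ^ 2 * m2
  exact mul_left_cancel₀ hc e4

open Classical in
/-- the primes of the numerator at which the norms of the `t`-cycle do not alternate -/
noncomputable def runSet (b c : ℚ) (x : ℕ → ℚ) : Finset ℕ :=
  b.num.natAbs.primeFactors.filter (fun p => ¬ ∀ i : ℕ,
    padicNorm p (x (i + 1) ^ 2 / c) = 1 / padicNorm p (x i ^ 2 / c))

theorem bound_core {b c : ℚ} {x : ℕ → ℚ} {n : ℕ} (h : IsCycle b c x n) (hb : b ≠ 0)
    (hc : c ≠ 0) :
    (Function.minimalPeriod (mf b c) (some (x 0)) ≤ 8 * 8 ^ (runSet b c x).card ∧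
      (runSet b c x).card < b.num.natAbs.primeFactors.card) ∨
    (Function.minimalPeriod (mf b c) (some (x 0)) ≤ 4 * 8 ^ (runSet b c x).card ∧
      (runSet b c x).card ≤ b.num.natAbs.primeFactors.card) := by
  classical
  obtain ⟨hm, hinj⟩ := min_cycle h
  set N := Function.minimalPeriod (mf b c) (some (x 0)) with hN
  have hT := hm.toT hc
  set t : ℕ → ℚ := fun i => x i ^ 2 / c with ht
  set S := b.num.natAbs.primeFactors with hS
  have hprime : ∀ p ∈ S, p.Prime := fun p hp => Nat.prime_of_mem_primeFactors hp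
  have hnum0 : b.num.natAbs ≠ 0 := by
    rw [Int.natAbs_ne_zero]; exact Rat.num_ne_zero.2 hb
  have hlt : ∀ p ∈ S, 1 < 1 / padicNorm p b := by
    intro p hp
    have : Fact p.Prime := ⟨hprime p hp⟩
    have hd : p ∣ b.num.natAbs := Nat.dvd_of_mem_primeFactors hp
    have hnd : ¬ p ∣ b.den := by
      intro hd'
      have h5 := Nat.dvd_gcd hd hd'
      rw [b.reduced] at h5
      exact (hprime p hp).one_lt.not_ge (Nat.le_of_dvd one_pos h5)
    have h4 : padicNorm p b = padicNorm p (b.num : ℚ) / padicNorm p (b.den : ℚ) := by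
      rw [← padicNorm.div, Rat.num_div_den]
    have h5 : padicNorm p (b.num : ℚ) < 1 :=
      (padicNorm.int_lt_one_iff b.num).2 (Int.natCast_dvd.2 hd)
    have h6 : 0 < padicNorm p b := norm_pos hb
    rw [(padicNorm.nat_eq_one_iff b.den).2 hnd, div_one] at h4
    rw [lt_div_iff₀ h6, h4]
    linarith
  have hge : ∀ l : ℕ, l.Prime → l ∉ S → 1 ≤ padicNorm l b := by
    intro l hl hnS
    have : Fact l.Prime := ⟨hl⟩
    have hd : ¬ l ∣ b.num.natAbs := fun hd => hnS (Nat.mem_primeFactors.2 ⟨hl, hd, hnum0⟩)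
    have h1 : padicNorm l (b.num : ℚ) = 1 := by
      rw [padicNorm.int_eq_one_iff]
      intro h3
      exact hd (Int.natCast_dvd.1 h3)
    have h2 : padicNorm l (b.den : ℚ) ≤ 1 := padicNorm.of_nat b.den
    have h3 : 0 < padicNorm l (b.den : ℚ) := norm_pos (by exact_mod_cast b.den_nz)
    have h4 : padicNorm l b = padicNorm l (b.num : ℚ) / padicNorm l (b.den : ℚ) := by
      rw [← padicNorm.div, Rat.num_div_den]
    rw [h4, h1, le_div_iff₀ h3]
    linarith
  set S1 := S.filter (fun p => ∀ i, padicNorm p (t (i + 1)) = 1 / padicNorm p (t i)) with hS1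
  set S2 := S.filter (fun p => ¬ ∀ i, padicNorm p (t (i + 1)) = 1 / padicNorm p (t i)) with hS2
  have hS2' : runSet b c x = S2 := by
    unfold runSet
    rw [hS2]
  rw [hS2']
  have hcard : S1.card + S2.card = S.card := Finset.card_filter_add_card_filter_not _
  have hruns : ∀ p : ℕ, ∃ su : (ℕ → Bool) × (ℕ → ℕ), p ∈ S2 →
      TRuns p (1 / padicNorm p b) t N su.1 su.2 := by
    intro p
    by_cases hp : p ∈ S2
    · obtain ⟨hpS, hpn⟩ := Finset.mem_filter.1 hp
      have : Fact p.Prime := ⟨hprime p hpS⟩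
      rcases exists_truns hT (hlt p hpS) (by rw [one_div_one_div]) with h1 | ⟨s, u, hsu⟩
      · exact absurd h1 hpn
      · exact ⟨(s, u), fun _ => hsu⟩
    · exact ⟨(fun _ => true, fun _ => 0), fun hp' => absurd hp' hp⟩
  choose su hsu using hruns
  -- the ratio
  have hratio : ∀ i, t (i + 1) / t i = (x (i + 1) / x i) ^ 2 := by
    intro i
    have z0 := h.ne i
    rw [ht]
    field_simp
  clear_value t
  have hpos : ∀ i, 0 < t (i + 1) / t i := by
    intro i
    rw [hratio]
    have := div_ne_zero (h.ne (i + 1)) (h.ne i)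
    positivity
  have hann : ∀ p ∈ S1, ∀ i, padicNorm p (t i) = padicNorm p (t (i % 2)) := by
    intro p hp
    obtain ⟨hpS, hpa⟩ := Finset.mem_filter.1 hp
    have h2 : ∀ i, padicNorm p (t (i + 2)) = padicNorm p (t i) := by
      intro i
      rw [show i + 2 = i + 1 + 1 by ring, hpa, hpa, one_div_one_div]
    intro i
    induction i using Nat.strong_induction_on with
    | _ i ih =>
      rcases Nat.lt_or_ge i 2 with h3 | h3
      · rw [Nat.mod_eq_of_lt h3]
      · obtain ⟨j, rfl⟩ : ∃ j, i = j + 2 := ⟨i - 2, by omega⟩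
        rw [h2, ih j (by omega)]
        simp
  have hkey : ∀ i < N, ∀ j < N, (∀ p ∈ S2, codeN (su p).1 (su p).2 i = codeN (su p).1 (su p).2 j) →
      (S1.Nonempty → i % 2 = j % 2) → decide (0 < x (i + 1) / x i) = decide (0 < x (j + 1) / x j) →
      decide (0 < x i) = decide (0 < x j) → i = j := by
    intro i hi j hj hcode hpar hs1 hs2
    have hq : t (i + 1) / t i = t (j + 1) / t j := by
      rcases eq_or_neg_of_norms (hpos i).ne' (hpos j).ne' (by
          intro l hl
          have : Fact l.Prime := ⟨hl⟩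
          by_cases hlS : l ∈ S
          · by_cases hlA : ∀ i, padicNorm l (t (i + 1)) = 1 / padicNorm l (t i)
            · have hl1 : l ∈ S1 := Finset.mem_filter.2 ⟨hlS, hlA⟩
              have hpar' := hpar ⟨l, hl1⟩
              have e1 : padicNorm l (t i) = padicNorm l (t j) := by
                rw [hann l hl1 i, hann l hl1 j, hpar']
              rw [padicNorm.div, padicNorm.div, hlA i, hlA j, e1]
            · have hl2 : l ∈ S2 := Finset.mem_filter.2 ⟨hlS, hlA⟩
              rw [(hsu l hl2).norm_code (hlt l hlS) hT.ne, (hsu l hl2).norm_code (hlt l hlS) hT.ne,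
                hcode l hl2]
          · have e1 := hT.norm_const_of_ge (hge l hl hlS) i (i + 1)
            have e2 := hT.norm_const_of_ge (hge l hl hlS) j (j + 1)
            rw [padicNorm.div, padicNorm.div, ← e1, ← e2, div_self (padicNorm.nonzero (hT.ne i)),
              div_self (padicNorm.nonzero (hT.ne j))]) with h3 | h3
      · exact h3
      · exfalso
        have e1 := hpos i
        have e2 := hpos j
        rw [h3] at e1
        linarith
    rw [hratio, hratio] at hq
    have h3 := eq_of_sq_sign hq (div_ne_zero (h.ne (j + 1)) (h.ne j)) hs1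
    exact hinj i hi j hj (eq_of_sq_sign (sq_of_ratio hc hm h3) (h.ne j) hs2)
  have hprod : ∀ p ∈ S2, (1 / 8 : ℝ) ^ N ≤
      ∏ i ∈ Finset.range N, wN (codeN (su p).1 (su p).2 i) := by
    intro p hp
    apply prod_tele _ (fun i => potN ((su p).1 i) ((su p).2 i)) (fun i => potN_pos _ _)
    · have := (hsu p hp).per 0
      rw [zero_add] at this
      show potN ((su p).1 N) ((su p).2 N) = potN ((su p).1 0) ((su p).2 0)
      rw [this.1, this.2]
    · intro i
      exact (hsu p hp).weight i
  by_cases hne : S1.Nonempty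
  · have hcount := count S2 hm.pos wN wN_nonneg sum_wN (fun p i => codeN (su p).1 (su p).2 i)
      (fun i => ((decide (0 < x (i + 1) / x i), decide (0 < x i)), decide (i % 2 = 0))) (C := 8)
      (by
        intro i hi j hj he hcode
        simp only [Prod.mk.injEq] at he
        refine hkey i hi j hj hcode (fun _ => ?_) he.1.1 he.1.2
        have h5 := he.2
        rw [decide_eq_decide] at h5
        omega) (by norm_num) hprod
    have h3 : Fintype.card ((Bool × Bool) × Bool) = 8 := rfl
    rw [h3] at hcount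
    have h4 : N ≤ 8 * 8 ^ S2.card := by exact_mod_cast hcount
    have h5 : 1 ≤ S1.card := Finset.card_pos.2 hne
    exact Or.inl ⟨h4, by omega⟩
  · have hcount := count S2 hm.pos wN wN_nonneg sum_wN (fun p i => codeN (su p).1 (su p).2 i)
      (fun i => (decide (0 < x (i + 1) / x i), decide (0 < x i))) (C := 8)
      (by
        intro i hi j hj he hcode
        simp only [Prod.mk.injEq] at he
        exact hkey i hi j hj hcode (fun h6 => absurd h6 hne) he.1 he.2) (by norm_num) hprod
    have h3 : Fintype.card (Bool × Bool) = 4 := rfl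
    rw [h3] at hcount
    have h4 : N ≤ 4 * 8 ^ S2.card := by exact_mod_cast hcount
    exact Or.inr ⟨h4, by omega⟩

theorem bound_num {b c : ℚ} {x : ℕ → ℚ} {n : ℕ} (h : IsCycle b c x n) (hb : b ≠ 0)
    (hc : c ≠ 0) {k : ℕ} (hk : b.num.natAbs.primeFactors.card ≤ k) :
    Function.minimalPeriod (mf b c) (some (x 0)) ≤ 4 * 8 ^ k := by
  rcases bound_core h hb hc with ⟨h1, h2⟩ | ⟨h1, h2⟩
  · have h3 : 8 * 8 ^ (runSet b c x).card = 8 ^ ((runSet b c x).card + 1) := by
      rw [pow_succ]; ring
    have h4 : 8 ^ ((runSet b c x).card + 1) ≤ 8 ^ k := Nat.pow_le_pow_right (by norm_num) (by omega)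
    omega
  · have h4 : 8 ^ (runSet b c x).card ≤ 8 ^ k := Nat.pow_le_pow_right (by norm_num) (by omega)
    omega

/-- the period is bounded through the primes with runs only -/
theorem bound_runs {b c : ℚ} {x : ℕ → ℚ} {n : ℕ} (h : IsCycle b c x n) (hb : b ≠ 0)
    (hc : c ≠ 0) {k : ℕ} (hk : (runSet b c x).card ≤ k) :
    Function.minimalPeriod (mf b c) (some (x 0)) ≤ 8 ^ (k + 1) := by
  have h3 : 8 * 8 ^ (runSet b c x).card = 8 ^ ((runSet b c x).card + 1) := by
    rw [pow_succ]; ring
  have h4 : 8 ^ ((runSet b c x).card + 1) ≤ 8 ^ (k + 1) :=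
    Nat.pow_le_pow_right (by norm_num) (by omega)
  rcases bound_core h hb hc with ⟨h1, _⟩ | ⟨h1, _⟩ <;> omega

end Pool.Agent.H24.FP
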