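import Pool.Agent.H24.FP.PlaceR
import Pool.Agent.H24.FP.NumCount

/-!
# Conditions at one place: conclusion
-/

set_option autoImplicit false

namespace Pool.Agent.H24.FP.M

open Pool.Agent.H97 Pool.Agent.H24.FP.N2

/-- the reduction to a negative cycle -/
theorem neg_red {b c : ℚ} {x : ℕ → ℚ} {n : ℕ} (hx : IsCycle b c x n) (hc : c ≠ 0)
    (hbc : b * c < 0) :
    ∃ t : ℕ → ℚ, Neg |b| t n ∧ (t 1 = t 0 → x 1 ^ 2 / c = x 0 ^ 2 / c) ∧
      |b|.num.natAbs = b.num.natAbs ∧ |b|.den = b.den := by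
  have hxx : ∀ i, 0 < x i ^ 2 := fun i => by
    have := hx.ne i
    positivity
  have hb : b ≠ 0 := left_ne_zero_of_mul hbc.ne
  rcases lt_or_gt_of_ne hb with hb' | hb'
  · have hc' : 0 < c := by
      by_contra hcon
      push Not at hcon
      nlinarith
    rw [abs_of_neg hb']
    refine ⟨fun i => -(x i ^ 2 / c), { neg_cycle (hx.toT hc) with
      hb := by linarith
      ht := fun i => by
        have := div_pos (hxx i) hc'
        show -(x i ^ 2 / c) < 0
        linarith }, fun h => ?_, ?_, Rat.neg_den b⟩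
    · have h1 : -(x 1 ^ 2 / c) = -(x 0 ^ 2 / c) := h
      linarith
    · rw [Rat.neg_num, Int.natAbs_neg]
  · have hc' : c < 0 := by
      by_contra hcon
      push Not at hcon
      nlinarith
    rw [abs_of_pos hb']
    exact ⟨fun i => x i ^ 2 / c, { hx.toT hc with
      hb := hb'
      ht := fun i => div_neg_of_pos_of_neg (hxx i) hc' }, fun h => h, rfl, rfl⟩

theorem sub124 {m : ℕ} (h : m ∈ ({1, 2} : Finset ℕ)) : m ∈ ({1, 2, 4} : Finset ℕ) := by
  simp only [Finset.mem_insert, Finset.mem_singleton] at h ⊢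
  omega

/-- the real place dominates -/
theorem mem_of_large {b c : ℚ} {x : ℕ → ℚ} {n : ℕ} (hb : b ≠ 0) (hc : c ≠ 0)
    (hx : IsCycle b c x n) (h : ((2 * b).den : ℚ) + 2 ≤ |2 * b|) :
    Function.minimalPeriod (mf b c) (some (x 0)) ∈ ({1, 2} : Finset ℕ) := by
  rcases lt_or_gt_of_ne (mul_ne_zero hb hc) with hbc | hbc
  · apply hx.mem12
    apply IsCycle.eq_or_neg_of_t hc
    obtain ⟨t, hN, h2, _, _⟩ := neg_red hx hc hbc
    apply h2
    apply real_dom hN
    have h3 : 2 * |b| = |2 * b| := by rw [abs_mul, abs_of_pos (by norm_num : (0 : ℚ) < 2)]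
    have h4 : |2 * b|.den = (2 * b).den := by
      rcases abs_choice (2 * b) with h5 | h5
      · rw [h5]
      · rw [h5, Rat.neg_den]
    rw [h3, h4]
    exact h
  · exact hx.mem12 (hx.real hbc)

/-- a prime dominates -/
theorem mem_of_prime {b c : ℚ} {x : ℕ → ℚ} {n : ℕ} (hb : b ≠ 0) (hc : c ≠ 0)
    (hx : IsCycle b c x n)
    (h : ∃ p : ℕ, p.Prime ∧
      |((2 * b).num : ℚ)| + 2 * (2 * b).den < padicNorm p (2 * b) ^ 2) :
    Function.minimalPeriod (mf b c) (some (x 0)) ∈ ({1, 2} : Finset ℕ) := by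
  obtain ⟨p, hp, h⟩ := h
  have hpf : Fact p.Prime := ⟨hp⟩
  rcases lt_or_gt_of_ne (mul_ne_zero hb hc) with hbc | hbc
  · apply hx.mem12
    apply IsCycle.eq_or_neg_of_t hc
    obtain ⟨t, hN, h2, _, _⟩ := neg_red hx hc hbc
    apply h2
    apply prime_dom (p := p) hN
    have h3 : 2 * |b| = |2 * b| := by rw [abs_mul, abs_of_pos (by norm_num : (0 : ℚ) < 2)]
    rw [h3]
    rcases abs_choice (2 * b) with h5 | h5
    · rw [h5]
      have := le_abs_self ((2 * b).num : ℚ)
      linarith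
    · rw [h5, Rat.neg_den, Rat.neg_num, padicNorm.neg, Int.cast_neg]
      have := neg_le_abs ((2 * b).num : ℚ)
      linarith
  · exact hx.mem12 (hx.real hbc)

/-- a large denominator -/
theorem mem_of_small {b c : ℚ} {x : ℕ → ℚ} {n : ℕ} (hb : b ≠ 0) (hc : c ≠ 0)
    (hx : IsCycle b c x n)
    (h : 10 * 8 ^ b.num.natAbs.primeFactors.card * b.num.natAbs ^ 4 < b.den) :
    Function.minimalPeriod (mf b c) (some (x 0)) ∈ ({1, 2, 4} : Finset ℕ) := by
  rcases lt_or_gt_of_ne (mul_ne_zero hb hc) with hbc | hbc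
  · apply sub124
    have hm := (min_cycle hx).1
    have hle := bound_num hx hb hc (k := b.num.natAbs.primeFactors.card) le_rfl
    apply hx.mem12
    apply IsCycle.eq_or_neg_of_t hc
    obtain ⟨t, hN, h2, h3, h4⟩ := neg_red hm hc hbc
    apply h2
    rw [← h3, ← h4] at h
    rw [← h3] at hle
    have hB : 0 < |b| := hN.hb
    generalize |b| = B at *
    apply small_end hN
    generalize Function.minimalPeriod (mf b c) (some (x 0)) = m at *
    generalize hk : 8 ^ B.num.natAbs.primeFactors.card = k at *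
    have hk1 : 1 ≤ k := by rw [← hk]; exact Nat.one_le_pow _ _ (by norm_num)
    have hnum : ((B.num.natAbs : ℕ) : ℚ) = (B.num : ℚ) := by
      rw [Nat.cast_natAbs, abs_of_pos (Rat.num_pos.2 hB)]
    have h6 : 10 * (k : ℚ) * (B.num : ℚ) ^ 4 < B.den := by
      rw [← hnum]
      exact_mod_cast h
    have h7 : (m : ℚ) ≤ 4 * k := by exact_mod_cast hle
    have h8 : (1 : ℚ) ≤ k := by exact_mod_cast hk1
    have hbn : B * B.den = B.num := Rat.mul_den_eq_num B
    have hD : (0 : ℚ) < B.den := by exact_mod_cast B.den_pos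
    have hNp : (0 : ℚ) < B.num := by exact_mod_cast Rat.num_pos.2 hB
    have h9 : ((2 * m + 2) * B * (B.num : ℚ) ^ 3) * B.den < 1 * B.den := by
      calc ((2 * m + 2) * B * (B.num : ℚ) ^ 3) * B.den = (2 * m + 2) * (B.num : ℚ) ^ 4 := by
            rw [show ((2 * (m : ℚ) + 2) * B * (B.num : ℚ) ^ 3) * B.den =
              (2 * m + 2) * (B * B.den) * (B.num : ℚ) ^ 3 by ring, hbn]
            ring
        _ ≤ (10 * k) * (B.num : ℚ) ^ 4 :=
            mul_le_mul_of_nonneg_right (by linarith) (by positivity)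
        _ < B.den := h6
        _ = 1 * B.den := (one_mul _).symm
    exact lt_of_mul_lt_mul_right h9 hD.le
  · exact sub124 (hx.mem12 (hx.real hbc))

end Pool.Agent.H24.FP.M
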