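import Pool.Agent.H24.FP.N2Int

/-!
# Integer lemmas: one prime in the annulus, one with runs
-/

set_option autoImplicit false

namespace Pool.Agent.H24.FP.N2

variable {c c' w y D m g : ℤ}

theorem beta1 (hw : 4 ≤ w) (hy : 1 ≤ y) (hD : 1 ≤ D) (hm : 1 ≤ m) {e1 e2 e3 e4 : ℤ}
    (he1 : e1 = 1 ∨ e1 = -1) (he2 : e2 = 1 ∨ e2 = -1) (he3 : e3 = 1 ∨ e3 = -1)
    (he4 : e4 = 1 ∨ e4 = -1) {B : ℕ} (h1 : c * w ^ 2 = e1 * D + m) (h2 : c' = e2 * D + m * w)
    (h3 : c = e3 * D * y ^ B + m) (h4 : c' * w ^ (B + 1) = e4 * D + m) : False := by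
  have hyB : 1 ≤ y ^ B := one_le_pow₀ hy
  have hw2 : 16 ≤ w ^ 2 := by nlinarith
  have hDy : D ≤ D * y ^ B := by nlinarith
  have hDm : D ≤ m := by
    rcases he3 with rfl | rfl
    · exfalso
      have a1 : D + m ≤ c := by rw [h3]; linarith
      have a2 : e1 * D + m ≤ D + m := by rcases he1 with rfl | rfl <;> linarith
      nlinarith
    · have a1 : D * (y ^ B * w ^ 2 + e1) = m * (w ^ 2 - 1) := by
        rw [h3] at h1
        linear_combination -h1
      have a2 : D * (w ^ 2 - 1) ≤ D * (y ^ B * w ^ 2 + e1) := by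
        apply mul_le_mul_of_nonneg_left _ (by linarith)
        rcases he1 with rfl | rfl <;> nlinarith
      rw [a1] at a2
      exact le_of_mul_le_mul_right a2 (by linarith)
  have k1 : 3 * m ≤ c' := by
    rcases he2 with rfl | rfl <;> nlinarith
  have k2 : 4 ≤ w ^ (B + 1) := by
    calc (4 : ℤ) ≤ w ^ 1 := by rw [pow_one]; exact hw
      _ ≤ w ^ (B + 1) := pow_le_pow_right₀ (by linarith) (by omega)
  have k3 : 3 * m * 4 ≤ c' * w ^ (B + 1) := mul_le_mul k1 k2 (by norm_num) (by linarith)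
  rcases he4 with rfl | rfl <;> linarith

theorem beta_end (hw : 4 ≤ w) {e : ℤ} (he : e = 1 ∨ e = -1) {k : ℕ}
    (h : g ^ 2 * (w ^ (k + 1) + 1) =
      w ^ 3 * (w ^ (k + 1)) ^ 2 + w * w ^ (k + 1) + e * (w ^ 2 * (w ^ (k + 1)) ^ 2 - 1)) : False := by
  set q := w ^ (k + 1) with hq
  have hqw : w ≤ q := by
    calc w = w ^ 1 := (pow_one w).symm
      _ ≤ w ^ (k + 1) := pow_le_pow_right₀ (by linarith) (by omega)
  have hdiv : q + 1 ∣ (w ^ 2 - 1) * (w + e) := by
    refine ⟨g ^ 2 - ((w ^ 3 + e * w ^ 2) * (q - 1) + w), ?_⟩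
    linear_combination -h
  have hpos : 0 < (w ^ 2 - 1) * (w + e) := by
    apply mul_pos
    · nlinarith
    · rcases he with rfl | rfl <;> linarith
  rcases Nat.lt_or_ge k 3 with hk | hk
  · interval_cases k
    · -- q = w
      have hqe : q = w := by rw [hq]; ring
      rw [hqe] at h
      rcases he with rfl | rfl
      · have h1 : (w + 1) * (g ^ 2 - (w ^ 4 + w - 1)) = 0 := by linear_combination h
        rcases mul_eq_zero.1 h1 with h2 | h2
        · linarith
        · apply not_sq_between (s := g) (t := w ^ 2) _ _ (by positivity)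
          · nlinarith
          · nlinarith
      · have h1 : (w + 1) * (g ^ 2 - (w ^ 4 - 2 * w ^ 3 + 2 * w ^ 2 - w + 1)) = 0 := by
          linear_combination h
        rcases mul_eq_zero.1 h1 with h2 | h2
        · linarith
        · apply not_sq_between (s := g) (t := w ^ 2 - w) _ _ (by nlinarith)
          · nlinarith
          · nlinarith
    · -- q = w ^ 2
      have hqe : q = w ^ 2 := by rw [hq]
      rw [hqe] at hdiv
      have h1 : w ^ 2 + 1 ∣ 2 * (w + e) := by
        have h2 : w ^ 2 + 1 ∣ (w ^ 2 + 1) * (w + e) := dvd_mul_right _ _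
        have h3 := dvd_sub h2 hdiv
        have h4 : (w ^ 2 + 1) * (w + e) - (w ^ 2 - 1) * (w + e) = 2 * (w + e) := by ring
        rwa [h4] at h3
      have h5 := Int.le_of_dvd (by rcases he with rfl | rfl <;> linarith) h1
      rcases he with rfl | rfl <;> nlinarith
    · -- q = w ^ 3
      have hqe : q = w ^ 3 := by rw [hq]
      rw [hqe] at hdiv
      rcases he with rfl | rfl
      · have h2 := dvd_sub hdiv (dvd_refl (w ^ 3 + 1))
        have h4 : (w ^ 2 - 1) * (w + 1) - (w ^ 3 + 1) = (w - 2) * (w + 1) := by ring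
        rw [h4] at h2
        have h5 := Int.le_of_dvd (mul_pos (by linarith) (by linarith)) h2
        nlinarith [pow_pos (show 0 < w by linarith) 3, sq_nonneg w]
      · have h5 := Int.le_of_dvd hpos hdiv
        nlinarith [pow_pos (show 0 < w by linarith) 3, sq_nonneg w]
  · have h5 := Int.le_of_dvd hpos hdiv
    have h6 : w ^ 4 ≤ q := pow_le_pow_right₀ (by linarith) (by omega)
    have h7 : (w ^ 2 - 1) * (w + e) ≤ (w ^ 2 - 1) * (w + 1) := by
      apply mul_le_mul_of_nonneg_left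
      · rcases he with rfl | rfl <;> linarith
      · nlinarith
    have h8 : 4 * w ^ 3 ≤ w ^ 4 := by nlinarith [pow_pos (show 0 < w by linarith) 3]
    have h9 : 4 * w ^ 2 ≤ w ^ 3 := by nlinarith [pow_pos (show 0 < w by linarith) 2]
    nlinarith

theorem beta2 (hw : 4 ≤ w) (hD : 1 ≤ D) (hm : 1 ≤ m) (hc : 1 ≤ c) (hg : 1 ≤ g) {e1 e2 e3 : ℤ}
    (he1 : e1 = 1 ∨ e1 = -1) (he2 : e2 = 1 ∨ e2 = -1) (he3 : e3 = 1 ∨ e3 = -1) {k : ℕ}
    (hcc : c' = c * g ^ 2 ∨ c = c' * g ^ 2)
    (h1 : c * w ^ (k + 3) = e1 * D + m) (h2 : c' = e2 * D + m * w ^ (k + 2))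
    (h3 : c = e3 * D + m * w ^ (k + 1)) : False := by
  set q := w ^ (k + 1) with hq
  have hqw : w ≤ q := by
    calc w = w ^ 1 := (pow_one w).symm
      _ ≤ w ^ (k + 1) := pow_le_pow_right₀ (by linarith) (by omega)
  have hq2 : w ^ (k + 2) = w * q := by rw [hq]; ring
  have hq3 : w ^ (k + 3) = w ^ 2 * q := by rw [hq]; ring
  rw [hq2] at h2
  rw [hq3] at h1
  have hw2 : 16 ≤ w ^ 2 := by nlinarith
  have hw2q : 16 ≤ w ^ 2 * q := by nlinarith
  -- e3 = -1
  have he3' : e3 = -1 := by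
    rcases he3 with rfl | rfl
    · exfalso
      have a1 : D + m ≤ c := by rw [h3]; nlinarith
      have a2 : e1 * D + m ≤ D + m := by rcases he1 with rfl | rfl <;> linarith
      nlinarith
    · rfl
  subst he3'
  have k1 : D * (w ^ 2 * q + e1) = m * (w ^ 2 * q ^ 2 - 1) := by
    rw [h3] at h1
    linear_combination -h1
  have k2 : D + 1 ≤ m * q := by linarith
  have he1' : e1 = 1 := by
    rcases he1 with rfl | rfl
    · rfl
    · exfalso
      have a1 : (D + 1) * (w ^ 2 * q - 1) ≤ m * q * (w ^ 2 * q - 1) :=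
        mul_le_mul_of_nonneg_right k2 (by linarith)
      nlinarith
  subst he1'
  have k3 : c * (w ^ 2 * q + 1) = m * (q + 1) := by
    rw [h3]
    linear_combination -k1
  have k4 : c' * (w ^ 2 * q + 1) = m * (w ^ 3 * q ^ 2 + w * q + e2 * (w ^ 2 * q ^ 2 - 1)) := by
    rw [h2]
    linear_combination e2 * k1
  have k5 : c' * (q + 1) = c * (w ^ 3 * q ^ 2 + w * q + e2 * (w ^ 2 * q ^ 2 - 1)) := by
    have a1 : (w ^ 2 * q + 1) * (m * (c' * (q + 1))) =
        (w ^ 2 * q + 1) * (m * (c * (w ^ 3 * q ^ 2 + w * q + e2 * (w ^ 2 * q ^ 2 - 1)))) := by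
      linear_combination (m * (q + 1)) * k4 -
        (m * (w ^ 3 * q ^ 2 + w * q + e2 * (w ^ 2 * q ^ 2 - 1))) * k3
    have a2 := mul_left_cancel₀ (show w ^ 2 * q + 1 ≠ 0 by positivity) a1
    exact mul_left_cancel₀ (by linarith) a2
  have k6 : q + 1 < w ^ 3 * q ^ 2 + w * q + e2 * (w ^ 2 * q ^ 2 - 1) := by
    have a1 : w ^ 2 * q ^ 2 ≤ w ^ 3 * q ^ 2 := by
      have : w ^ 2 ≤ w ^ 3 := pow_le_pow_right₀ (by linarith) (by norm_num)
      exact mul_le_mul_of_nonneg_right this (by positivity)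
    have a3 : 0 < w ^ 2 * q ^ 2 := by positivity
    rcases he2 with rfl | rfl <;> nlinarith
  have k7 : c < c' := by
    by_contra hcon
    push Not at hcon
    have a1 : c' * (q + 1) ≤ c * (q + 1) := mul_le_mul_of_nonneg_right hcon (by linarith)
    have a2 : c * (q + 1) < c * (w ^ 3 * q ^ 2 + w * q + e2 * (w ^ 2 * q ^ 2 - 1)) :=
      mul_lt_mul_of_pos_left k6 (by linarith)
    linarith
  rcases hcc with h4 | h4
  · rw [h4] at k5
    have a1 : c * (g ^ 2 * (q + 1)) =
        c * (w ^ 3 * q ^ 2 + w * q + e2 * (w ^ 2 * q ^ 2 - 1)) := by linear_combination k5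
    exact beta_end hw he2 (mul_left_cancel₀ (by linarith) a1)
  · have a1 : 1 ≤ g ^ 2 := one_le_pow₀ hg
    have a2 : c' ≤ c := by
      rw [h4]; nlinarith
    linarith

end Pool.Agent.H24.FP.N2
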