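import Pool.Agent.H24.FP.N2Int

/-!
# Numerators with two prime factors: both primes with runs
-/

set_option autoImplicit false

namespace Pool.Agent.H24.FP.N2

/-- the combinatorics of runs -/
structure Rn (s : ℕ → Bool) (u : ℕ → ℕ) (n : ℕ) : Prop where
  down : ∀ i, s i = true → 0 < u i → s (i + 1) = true ∧ u (i + 1) + 1 = u i
  turn : ∀ i, s i = true → u i = 0 → s (i + 1) = false
  up : ∀ i, s i = false → s (i + 1) = true ∧ u (i + 1) = u i
  per : ∀ i, s (i + n) = s i ∧ u (i + n) = u i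

namespace Rn

variable {s : ℕ → Bool} {u : ℕ → ℕ} {n : ℕ}

theorem per_mul (h : Rn s u n) (i k : ℕ) : s (i + k * n) = s i ∧ u (i + k * n) = u i := by
  induction k with
  | zero => simp
  | succ k ih =>
    have e : i + (k + 1) * n = (i + k * n) + n := by ring
    rw [e, (h.per _).1, (h.per _).2]
    exact ih

theorem back_F (h : Rn s u n) {j : ℕ} (hs : s (j + 1) = false) : s j = true ∧ u j = 0 := by
  cases h1 : s j with
  | false =>
    have := (h.up j h1).1
    rw [hs] at this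
    exact absurd this (by decide)
  | true =>
    refine ⟨rfl, ?_⟩
    by_contra h2
    have := (h.down j h1 (by omega)).1
    rw [hs] at this
    exact absurd this (by decide)

theorem back_T (h : Rn s u n) {j : ℕ} (hs : s (j + 1) = true) :
    (s j = false ∧ u j = u (j + 1)) ∨ (s j = true ∧ u j = u (j + 1) + 1) := by
  cases h1 : s j with
  | false => exact Or.inl ⟨rfl, (h.up j h1).2.symm⟩
  | true =>
    right
    refine ⟨rfl, ?_⟩
    rcases Nat.eq_zero_or_pos (u j) with h2 | h2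
    · have := h.turn j h1 h2
      rw [hs] at this
      exact absurd this (by decide)
    · exact (h.down j h1 h2).2.symm

end Rn

/-- exponent in `Δ` -/
def dl (s : ℕ → Bool) (u : ℕ → ℕ) (i : ℕ) : ℕ := if s i = true then 0 else 2 * u i + 2
/-- exponent in `X` -/
def ch (s : ℕ → Bool) (u : ℕ → ℕ) (i : ℕ) : ℕ := if s i = true ∧ u i = 0 then u (i + 1) else 0
/-- exponent in `Z` -/
def zt (s : ℕ → Bool) (u : ℕ → ℕ) (i : ℕ) : ℕ := if s i = true then 2 * u i else 0

section
variable {s : ℕ → Bool} {u : ℕ → ℕ} {i : ℕ}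
theorem dl_T (h : s i = true) : dl s u i = 0 := by simp [dl, h]
theorem dl_F (h : s i = false) : dl s u i = 2 * u i + 2 := by simp [dl, h]
theorem ch_T0 (h : s i = true) (h0 : u i = 0) : ch s u i = u (i + 1) := by simp [ch, h, h0]
theorem ch_T1 (h0 : 0 < u i) : ch s u i = 0 := by simp [ch, h0.ne']
theorem ch_F (h : s i = false) : ch s u i = 0 := by simp [ch, h]
theorem zt_T (h : s i = true) : zt s u i = 2 * u i := by simp [zt, h]
theorem zt_F (h : s i = false) : zt s u i = 0 := by simp [zt, h]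
end

/-- the equations of a cycle with runs at two primes -/
structure Two (x y D m : ℤ) (n : ℕ) (s : ℕ → Bool) (u : ℕ → ℕ) (s' : ℕ → Bool) (u' : ℕ → ℕ) :
    Prop where
  hx : 2 ≤ x
  hy : 2 ≤ y
  hxy : x ≠ y
  hD : 1 ≤ D
  hm : 1 ≤ m
  cDx : IsCoprime D x
  cDy : IsCoprime D y
  cDm : IsCoprime D m
  hn : 0 < n
  r : Rn s u n
  r' : Rn s' u' n
  eq : ∀ i, ∃ e : ℤ, (e = 1 ∨ e = -1) ∧ x ^ (dl s u i) * y ^ (dl s' u' i) =
    e * D * (x ^ (ch s u i) * y ^ (ch s' u' i)) + m * (x ^ (zt s u i) * y ^ (zt s' u' i))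
  big : ∀ i, s i = true → s' i = true → x * y - 1 ≤ D

namespace Two

variable {x y D m : ℤ} {n : ℕ} {s : ℕ → Bool} {u : ℕ → ℕ} {s' : ℕ → Bool} {u' : ℕ → ℕ}

theorem swap (h : Two x y D m n s u s' u') : Two y x D m n s' u' s u where
  hx := h.hy
  hy := h.hx
  hxy := h.hxy.symm
  hD := h.hD
  hm := h.hm
  cDx := h.cDy
  cDy := h.cDx
  cDm := h.cDm
  hn := h.hn
  r := h.r'
  r' := h.r
  eq := fun i => by
    obtain ⟨e, he, h1⟩ := h.eq i
    exact ⟨e, he, by linear_combination h1⟩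
  big := fun i h1 h2 => by
    have := h.big i h2 h1
    linarith

theorem eq_TT (h : Two x y D m n s u s' u') {i : ℕ} (hs : s i = true) (hs' : s' i = true) :
    m * (x ^ (2 * u i) * y ^ (2 * u' i)) = 1 + D * (x ^ (ch s u i) * y ^ (ch s' u' i)) := by
  obtain ⟨e, he, h1⟩ := h.eq i
  rw [dl_T hs, dl_T hs', zt_T hs, zt_T hs'] at h1
  have hx := h.hx
  have hy := h.hy
  have hD := h.hD
  have hm := h.hm
  have p1 : 1 ≤ x ^ (ch s u i) * y ^ (ch s' u' i) :=
    one_le_mul_of_one_le_of_one_le (one_le_pow₀ (by linarith)) (one_le_pow₀ (by linarith))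
  have p2 : 1 ≤ x ^ (2 * u i) * y ^ (2 * u' i) :=
    one_le_mul_of_one_le_of_one_le (one_le_pow₀ (by linarith)) (one_le_pow₀ (by linarith))
  rcases he with rfl | rfl
  · exfalso
    have a1 : 1 ≤ D * (x ^ (ch s u i) * y ^ (ch s' u' i)) :=
      one_le_mul_of_one_le_of_one_le hD p1
    have a2 : 1 ≤ m * (x ^ (2 * u i) * y ^ (2 * u' i)) :=
      one_le_mul_of_one_le_of_one_le hm p2
    rw [pow_zero, pow_zero] at h1
    linarith
  · linear_combination -h1

theorem eq_FT (h : Two x y D m n s u s' u') {i : ℕ} (hs : s i = false) (hs' : s' i = true) :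
    ∃ e : ℤ, (e = 1 ∨ e = -1) ∧
      x ^ (2 * u i + 2) = e * D * y ^ (ch s' u' i) + m * y ^ (2 * u' i) := by
  obtain ⟨e, he, h1⟩ := h.eq i
  rw [dl_F hs, dl_T hs', zt_F hs, zt_T hs', ch_F hs] at h1
  exact ⟨e, he, by linear_combination h1⟩

theorem eq_FF (h : Two x y D m n s u s' u') {i : ℕ} (hs : s i = false) (hs' : s' i = false) :
    ∃ e : ℤ, (e = 1 ∨ e = -1) ∧ x ^ (2 * u i + 2) * y ^ (2 * u' i + 2) = e * D + m := by
  obtain ⟨e, he, h1⟩ := h.eq i
  rw [dl_F hs, dl_F hs', zt_F hs, zt_F hs', ch_F hs, ch_F hs'] at h1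
  exact ⟨e, he, by linear_combination h1⟩

theorem noTT (h : Two x y D m n s u s' u') {i : ℕ} (hs : s i = true) (hs' : s' i = true)
    (hu : 0 < u i) (hu' : 0 < u' i) : False := by
  obtain ⟨h1, h2⟩ := h.r.down i hs hu
  obtain ⟨h1', h2'⟩ := h.r'.down i hs' hu'
  have e1 := h.eq_TT hs hs'
  have e2 := h.eq_TT h1 h1'
  rw [ch_T1 hu, ch_T1 hu', ← h2, ← h2'] at e1
  have p1 : 1 ≤ x ^ (ch s u (i + 1)) * y ^ (ch s' u' (i + 1)) :=
    one_le_mul_of_one_le_of_one_le (one_le_pow₀ (by linarith [h.hx]))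
      (one_le_pow₀ (by linarith [h.hy]))
  refine i1 h.hx h.hy h.hD h.hm p1 (a := u (i + 1)) (b := u' (i + 1)) ?_ ?_
  · rw [mul_assoc]
    linear_combination e1
  · linear_combination e2

/-- `(T_0, T_0)` is followed by `(F_0, F_0)` -/
theorem zz_next (h : Two x y D m n s u s' u') {i : ℕ} (hs : s i = true) (hu : u i = 0)
    (hs' : s' i = true) (hu' : u' i = 0) :
    s (i + 1) = false ∧ u (i + 1) = 0 ∧ s' (i + 1) = false ∧ u' (i + 1) = 0 := by
  have hn := h.hn
  obtain ⟨j, hj⟩ : ∃ j, j + 1 = i + n := ⟨i + n - 1, by omega⟩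
  have hs1 : s (j + 1) = true := by rw [hj, (h.r.per i).1, hs]
  have hu1 : u (j + 1) = 0 := by rw [hj, (h.r.per i).2, hu]
  have hs1' : s' (j + 1) = true := by rw [hj, (h.r'.per i).1, hs']
  have hu1' : u' (j + 1) = 0 := by rw [hj, (h.r'.per i).2, hu']
  have hF : s (j + 1 + 1) = false := h.r.turn _ hs1 hu1
  have hF' : s' (j + 1 + 1) = false := h.r'.turn _ hs1' hu1'
  have e1 := h.eq_TT hs1 hs1'
  rw [hu1, hu1', ch_T0 hs1 hu1, ch_T0 hs1' hu1'] at e1
  obtain ⟨e', he', e2⟩ := h.eq_FF hF hF'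
  set A := u (j + 1 + 1) with hA
  set B := u' (j + 1 + 1) with hB
  have hx := h.hx
  have hy := h.hy
  have hX : 1 ≤ x ^ A * y ^ B :=
    one_le_mul_of_one_le_of_one_le (one_le_pow₀ (by linarith)) (one_le_pow₀ (by linarith))
  have e1' : m = 1 + D * (x ^ A * y ^ B) := by linear_combination e1
  have e2' : x ^ 2 * y ^ 2 * (x ^ A * y ^ B) ^ 2 = e' * D + m := by
    rw [← e2]; ring
  have goal0 : A = 0 ∧ B = 0 := by
    rcases h.r.back_T hs1 with ⟨a1, a2⟩ | ⟨a1, a2⟩ <;>
    rcases h.r'.back_T hs1' with ⟨b1, b2⟩ | ⟨b1, b2⟩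
    · -- FF
      rw [hu1] at a2
      rw [hu1'] at b2
      obtain ⟨e, he, e3⟩ := h.eq_FF a1 b1
      rw [a2, b2] at e3
      have h1 := i3 hx hy h.hD hX he he' (by linear_combination e3) e1' e2'
      constructor
      · by_contra hne
        have c1 : x ≤ x ^ A := by
          calc x = x ^ 1 := (pow_one x).symm
            _ ≤ x ^ A := pow_le_pow_right₀ (by linarith) (by omega)
        have c2 : 1 ≤ y ^ B := one_le_pow₀ (by linarith)
        nlinarith
      · by_contra hne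
        have c1 : y ≤ y ^ B := by
          calc y = y ^ 1 := (pow_one y).symm
            _ ≤ y ^ B := pow_le_pow_right₀ (by linarith) (by omega)
        have c2 : 1 ≤ x ^ A := one_le_pow₀ (by linarith)
        nlinarith
    · -- F T
      exfalso
      rw [hu1] at a2
      rw [hu1'] at b2
      obtain ⟨e, he, e3⟩ := h.eq_FT a1 b1
      rw [a2, b2, ch_T1 (by omega)] at e3
      exact i2 hx hy h.hD hX he he' (by linear_combination e3) e1' e2'
    · -- T F
      exfalso
      rw [hu1] at a2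
      rw [hu1'] at b2
      obtain ⟨e, he, e3⟩ := h.swap.eq_FT b1 a1
      rw [a2, b2, ch_T1 (by omega)] at e3
      exact i2 hy hx h.hD hX he he' (by linear_combination e3) e1' (by linear_combination e2')
    · exfalso
      exact h.noTT a1 b1 (by omega) (by omega)
  have k : j + 1 + 1 = (i + 1) + n := by omega
  rw [k] at hF hF' hA hB
  rw [(h.r.per _).1] at hF
  rw [(h.r'.per _).1] at hF'
  rw [(h.r.per _).2] at hA
  rw [(h.r'.per _).2] at hB
  exact ⟨hF, by rw [← hA]; exact goal0.1, hF', by rw [← hB]; exact goal0.2⟩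

theorem zz_all (h : Two x y D m n s u s' u') {i : ℕ} (hs : s i = true) (hu : u i = 0)
    (hs' : s' i = true) (hu' : u' i = 0) (j : ℕ) : u j = 0 ∧ u' j = 0 := by
  have key : ∀ k, (s (i + k) = true ∧ s' (i + k) = true ∧ u (i + k) = 0 ∧ u' (i + k) = 0) ∨
      (s (i + k) = false ∧ s' (i + k) = false ∧ u (i + k) = 0 ∧ u' (i + k) = 0) := by
    intro k
    induction k with
    | zero => exact Or.inl ⟨hs, hs', hu, hu'⟩
    | succ k ih =>
      rw [← add_assoc]
      rcases ih with ⟨a1, a2, a3, a4⟩ | ⟨a1, a2, a3, a4⟩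
      · obtain ⟨b1, b2, b3, b4⟩ := h.zz_next a1 a3 a2 a4
        exact Or.inr ⟨b1, b3, b2, b4⟩
      · obtain ⟨b1, b2⟩ := h.r.up _ a1
        obtain ⟨b3, b4⟩ := h.r'.up _ a2
        exact Or.inl ⟨b1, b3, by rw [b2, a3], by rw [b4, a4]⟩
  have hn := h.hn
  obtain ⟨k, hk⟩ : ∃ k, i + k = j + i * n := by
    refine ⟨j + i * n - i, ?_⟩
    have : i * 1 ≤ i * n := Nat.mul_le_mul_left i hn
    omega
  have h1 := key k
  rw [hk, (h.r.per_mul j i).2, (h.r'.per_mul j i).2] at h1
  rcases h1 with ⟨_, _, a3, a4⟩ | ⟨_, _, a3, a4⟩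
  · exact ⟨a3, a4⟩
  · exact ⟨a3, a4⟩

/-- there is no `(F, F)` if there is no `(T_0, T_0)` -/
theorem noFF (h : Two x y D m n s u s' u')
    (hz : ∀ i, s i = true → u i = 0 → s' i = true → u' i = 0 → False) {i : ℕ}
    (hs : s i = false) (hs' : s' i = false) : False := by
  have hn := h.hn
  obtain ⟨j, hj⟩ : ∃ j, j + 1 = i + n := ⟨i + n - 1, by omega⟩
  have hs1 : s (j + 1) = false := by rw [hj, (h.r.per i).1, hs]
  have hs1' : s' (j + 1) = false := by rw [hj, (h.r'.per i).1, hs']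
  obtain ⟨a1, a2⟩ := h.r.back_F hs1
  obtain ⟨b1, b2⟩ := h.r'.back_F hs1'
  exact hz j a1 a2 b1 b2

end Two

/-- the situation of the main case -/
structure Main (x y D m : ℤ) (n : ℕ) (s : ℕ → Bool) (u : ℕ → ℕ) (s' : ℕ → Bool) (u' : ℕ → ℕ) :
    Prop extends Two x y D m n s u s' u' where
  hz : ∀ i, s i = true → u i = 0 → s' i = true → u' i = 0 → False
  hbig : x * y - 1 ≤ D

namespace Main

variable {x y D m : ℤ} {n : ℕ} {s : ℕ → Bool} {u : ℕ → ℕ} {s' : ℕ → Bool} {u' : ℕ → ℕ}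

theorem swap (h : Main x y D m n s u s' u') : Main y x D m n s' u' s u :=
  { h.toTwo.swap with
    hz := fun i a b c d => h.hz i c d a b
    hbig := by have := h.hbig; linarith }

theorem o1 (h : Main x y D m n s u s' u') {i : ℕ} (hs : s i = true) (hs' : s' i = true) :
    (u i = 0 ∧ 0 < u' i) ∨ (0 < u i ∧ u' i = 0) := by
  rcases Nat.eq_zero_or_pos (u i) with a | a <;> rcases Nat.eq_zero_or_pos (u' i) with b | b
  · exact absurd (h.hz i hs a hs' b) not_false
  · exact Or.inl ⟨a, b⟩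
  · exact Or.inr ⟨a, b⟩
  · exact absurd (h.toTwo.noTT hs hs' a b) not_false

theorem o2 (h : Main x y D m n s u s' u') {j : ℕ} (hs : s (j + 1) = true) (hu : u (j + 1) = 0)
    (hs' : s' (j + 1) = true) (hu' : 0 < u' (j + 1)) : s j = true ∧ s' j = false := by
  rcases h.r.back_T hs with ⟨a1, a2⟩ | ⟨a1, a2⟩ <;>
  rcases h.r'.back_T hs' with ⟨b1, b2⟩ | ⟨b1, b2⟩
  · exact absurd (h.toTwo.noFF h.hz a1 b1) not_false
  · exfalso
    -- `(F_0, T_{β+1})`
    obtain ⟨e, he, e1⟩ := h.toTwo.eq_FT a1 b1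
    rw [a2, hu, b2, ch_T1 (by omega)] at e1
    have e2 := h.toTwo.eq_TT hs hs'
    rw [hu, ch_T0 hs hu, ch_T1 hu'] at e2
    have c1 : s (j + 1 + 1) = false := h.r.turn _ hs hu
    obtain ⟨c2, c3⟩ := h.r'.down _ hs' hu'
    obtain ⟨e', he', e3⟩ := h.toTwo.eq_FT c1 c2
    have hpow : y ^ (2 * u' (j + 1 + 1)) * y ^ 2 = y ^ (2 * u' (j + 1)) := by
      rw [← pow_add, ← c3]; ring_nf
    refine i4 h.hx h.hy he he' h.hbig (A := u (j + 1 + 1)) (j := ch s' u' (j + 1 + 1) + 2)
      (M := m * y ^ (2 * u' (j + 1))) (by omega) ?_ ?_ ?_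
    · have : y ^ (2 * (u' (j + 1) + 1)) = y ^ (2 * u' (j + 1)) * y ^ 2 := by ring
      rw [this] at e1
      linear_combination e1
    · linear_combination e2
    · rw [e3, add_mul, mul_assoc, ← pow_add, mul_assoc m, hpow]
  · exact ⟨a1, b1⟩
  · exact absurd (h.toTwo.noTT a1 b1 (by omega) (by omega)) not_false

theorem o2' (h : Main x y D m n s u s' u') {j : ℕ} (hs : s (j + 1) = true) (hu : 0 < u (j + 1))
    (hs' : s' (j + 1) = true) (hu' : u' (j + 1) = 0) : s j = false ∧ s' j = true := by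
  have := h.swap.o2 hs' hu' hs hu
  exact ⟨this.2, this.1⟩

/-- the possible states with one `F` -/
theorem aType (h : Main x y D m n s u s' u') {i : ℕ} (hs : s i = false) (hs' : s' i = true) :
    (u i = 0 ∧ u' i = 0) ∨ (u i = 1 ∧ u' i = 0 ∧ 1 ≤ u' (i + 1)) ∨ (u i = 1 ∧ u' i = 1) ∨
      (u i = 2 ∧ u' i = 1 ∧ 1 ≤ u' (i + 2)) := by
  obtain ⟨c1, c2⟩ := h.r.up i hs
  rcases Nat.eq_zero_or_pos (u' i) with b | b
  · have c3 := h.r'.turn i hs' b
    rcases Nat.eq_zero_or_pos (u i) with a | a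
    · exact Or.inl ⟨a, b⟩
    · obtain ⟨d1, d2⟩ := h.r.down (i + 1) c1 (by omega)
      obtain ⟨d3, d4⟩ := h.r'.up (i + 1) c3
      rcases h.o1 d1 d3 with ⟨f1, f2⟩ | ⟨f1, f2⟩
      · exact Or.inr (Or.inl ⟨by omega, b, by omega⟩)
      · exfalso
        have := (h.o2' d1 f1 d3 f2).1
        rw [c1] at this
        exact absurd this (by decide)
  · obtain ⟨c3, c4⟩ := h.r'.down i hs' b
    rcases h.o1 c1 c3 with ⟨f1, f2⟩ | ⟨f1, f2⟩
    · exfalso
      have := (h.o2 c1 f1 c3 f2).1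
      rw [hs] at this
      exact absurd this (by decide)
    · have hb1 : u' i = 1 := by omega
      obtain ⟨d1, d2⟩ := h.r.down (i + 1) c1 f1
      have d3 := h.r'.turn (i + 1) c3 f2
      rcases Nat.lt_or_ge 1 (u i) with a | a
      · obtain ⟨g1, g2⟩ := h.r.down (i + 1 + 1) d1 (by omega)
        obtain ⟨g3, g4⟩ := h.r'.up (i + 1 + 1) d3
        rcases h.o1 g1 g3 with ⟨k1, k2⟩ | ⟨k1, k2⟩
        · refine Or.inr (Or.inr (Or.inr ⟨by omega, hb1, ?_⟩))
          rw [show i + 2 = i + 1 + 1 by ring]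
          omega
        · exfalso
          have := (h.o2' g1 k1 g3 k2).1
          rw [d1] at this
          exact absurd this (by decide)
      · exact Or.inr (Or.inr (Or.inl ⟨by omega, hb1⟩))

/-- turning exponents after `a00` and `a10` -/
theorem turn_le (h : Main x y D m n s u s' u') {i : ℕ} (hs : s i = false) (hs' : s' i = true)
    (hu' : u' i = 0) : (u i = 0 ∧ u' (i + 1) ≤ 1) ∨ (u i = 1 ∧ 1 ≤ u' (i + 1) ∧ u' (i + 1) ≤ 2) := by
  obtain ⟨c1, c2⟩ := h.r.up i hs
  have c3 := h.r'.turn i hs' hu'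
  have hb := h.swap.aType c3 c1
  rcases h.aType hs hs' with ⟨a1, a2⟩ | ⟨a1, a2, a3⟩ | ⟨a1, a2⟩ | ⟨a1, a2, a3⟩
  · left; refine ⟨a1, ?_⟩; omega
  · right; refine ⟨a1, a3, ?_⟩; omega
  · omega
  · omega

theorem inc1 (h : Main x y D m n s u s' u') {i j : ℕ} (hs : s i = false) (hs' : s' i = true)
    (hu : u i = 0) (hu' : u' i = 0) (gs : s j = false) (gs' : s' j = true) (gu : u j = 1)
    (gu' : u' j = 0) : False := by
  obtain ⟨e, he, e1⟩ := h.toTwo.eq_FT hs hs'
  obtain ⟨e', he', e2⟩ := h.toTwo.eq_FT gs gs'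
  rw [hu, hu', ch_T0 hs' hu'] at e1
  rw [gu, gu', ch_T0 gs' gu'] at e2
  rcases h.turn_le hs hs' hu' with ⟨a1, a2⟩ | ⟨a1, a2, a3⟩
  · rcases h.turn_le gs gs' gu' with ⟨b1, b2⟩ | ⟨b1, b2, b3⟩
    · omega
    · exact I1 h.hx h.hy h.hxy h.cDx h.hbig he he' a2 b3 (m := m)
        (by linear_combination e1) (by linear_combination e2)
  · omega

theorem inc2 (h : Main x y D m n s u s' u') {i j : ℕ} (hs : s i = false) (hs' : s' i = true)
    (hu : u i = 1) (hu' : u' i = 0) (gs : s j = false) (gs' : s' j = true) (gu : u j = 1)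
    (gu' : u' j = 1) : False := by
  obtain ⟨e, he, e1⟩ := h.toTwo.eq_FT hs hs'
  obtain ⟨e', he', e2⟩ := h.toTwo.eq_FT gs gs'
  rw [hu, hu', ch_T0 hs' hu'] at e1
  rw [gu, gu', ch_T1 (by omega)] at e2
  rcases h.turn_le hs hs' hu' with ⟨a1, a2⟩ | ⟨a1, a2, a3⟩
  · omega
  · exact I2 h.hx h.hy h.hxy h.cDm h.hm h.hbig he he' a2 a3
      (by linear_combination e1) (by linear_combination e2)

theorem inc3 (h : Main x y D m n s u s' u') {i j : ℕ} (hs : s i = false) (hs' : s' i = true)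
    (hu : u i = 1) (hu' : u' i = 1) (gs : s j = false) (gs' : s' j = true) (gu : u j = 2)
    (gu' : u' j = 1) : False := by
  obtain ⟨e, he, e1⟩ := h.toTwo.eq_FT hs hs'
  obtain ⟨e', he', e2⟩ := h.toTwo.eq_FT gs gs'
  rw [hu, hu', ch_T1 (by omega)] at e1
  rw [gu, gu', ch_T1 (by omega)] at e2
  exact I3 (y := y) (m := m) h.hx h.cDx h.hD he he' (by linear_combination e1) (by linear_combination e2)

/-- no `(F_1, T_1)` -/
theorem no11 (h : Main x y D m n s u s' u') {i : ℕ} (hs : s i = false) (hs' : s' i = true)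
    (hu : u i = 1) (hu' : u' i = 1) : False := by
  obtain ⟨e1, he1, E1⟩ := h.toTwo.eq_FT hs hs'
  rw [hu, hu', ch_T1 (by omega)] at E1
  obtain ⟨c1, c2⟩ := h.r.up i hs
  obtain ⟨c3, c4⟩ := h.r'.down i hs' (by omega)
  have c5 : u (i + 1) = 1 := by omega
  have c6 : u' (i + 1) = 0 := by omega
  have E2 := h.toTwo.eq_TT c1 c3
  rw [c5, c6, ch_T1 (by omega), ch_T0 c3 c6] at E2
  obtain ⟨d1, d2⟩ := h.r.down (i + 1) c1 (by omega)
  have d3 := h.r'.turn (i + 1) c3 c6
  have d4 : u (i + 1 + 1) = 0 := by omega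
  obtain ⟨e3, he3, E3⟩ := h.toTwo.swap.eq_FT d3 d1
  rw [d4, ch_T0 d1 d4] at E3
  obtain ⟨f1, f2⟩ := h.r'.up _ d3
  have f3 := h.r.turn _ d1 d4
  have hb := h.swap.turn_le d3 d1 d4
  rcases hb with ⟨b1, b2⟩ | ⟨b1, b2, b3⟩
  · -- B = 0
    rw [b1] at E2 E3
    have f4 : u' (i + 1 + 1 + 1) = 0 := by omega
    have g0 : u (i + 1 + 1 + 1) = 0 := by
      rcases h.turn_le f3 f1 f4 with ⟨g1, _⟩ | ⟨g1, _, _⟩
      · exact g1
      · exact absurd (h.inc2 f3 f1 g1 f4 hs hs' hu hu') not_false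
    obtain ⟨e4, he4, E4⟩ := h.toTwo.eq_FT f3 f1
    rw [g0, f4, ch_T0 f1 f4] at E4
    rw [g0] at E3
    exact I6 (D := D) h.hx h.hy h.hxy h.hm he4 he3 (B := u' (i + 1 + 1 + 1 + 1))
      (by linear_combination E2) (by linear_combination E4) (by linear_combination E3)
  · -- B = 1
    rw [b1] at E2 E3
    have f4 : u' (i + 1 + 1 + 1) = 1 := by omega
    have g0 : u (i + 1 + 1 + 1) = 1 := by
      rcases h.aType f3 f1 with ⟨g1, g2⟩ | ⟨g1, g2, _⟩ | ⟨g1, g2⟩ | ⟨g1, g2, _⟩
      · omega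
      · omega
      · exact g1
      · exact absurd (h.inc3 hs hs' hu hu' f3 f1 g1 g2) not_false
    rw [g0] at E3
    exact I4 (m := m) h.hx h.hy h.hxy h.hD he1 he3 (by linear_combination E1)
      (by linear_combination E2) (by linear_combination E3)

/-- no `(F_2, T_1)` -/
theorem no21 (h : Main x y D m n s u s' u') {i : ℕ} (hs : s i = false) (hs' : s' i = true)
    (hu : u i = 2) (hu' : u' i = 1) : False := by
  obtain ⟨c1, c2⟩ := h.r.up i hs
  obtain ⟨c3, c4⟩ := h.r'.down i hs' (by omega)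
  have c5 : u (i + 1) = 2 := by omega
  have c6 : u' (i + 1) = 0 := by omega
  have E2 := h.toTwo.eq_TT c1 c3
  rw [c5, c6, ch_T1 (by omega), ch_T0 c3 c6] at E2
  obtain ⟨d1, d2⟩ := h.r.down (i + 1) c1 (by omega)
  have d3 := h.r'.turn (i + 1) c3 c6
  have d4 : u (i + 1 + 1) = 1 := by omega
  have d5 : u' (i + 1 + 1) = 2 := by
    rcases h.swap.aType d3 d1 with ⟨g1, g2⟩ | ⟨g1, g2, _⟩ | ⟨g1, g2⟩ | ⟨g1, g2, _⟩
    · omega
    · omega
    · exact absurd (h.swap.no11 d3 d1 g1 g2) not_false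
    · exact g1
  rw [d5] at E2
  obtain ⟨f1, f2⟩ := h.r'.up _ d3
  obtain ⟨f3, f4⟩ := h.r.down _ d1 (by omega)
  have f5 : u (i + 1 + 1 + 1) = 0 := by omega
  have f6 : u' (i + 1 + 1 + 1) = 2 := by omega
  have E3 := h.toTwo.eq_TT f3 f1
  rw [f5, f6, ch_T0 f3 f5, ch_T1 (by omega)] at E3
  have g1 := h.r.turn _ f3 f5
  obtain ⟨g2, g3⟩ := h.r'.down _ f1 (by omega)
  have g4 : u' (i + 1 + 1 + 1 + 1) = 1 := by omega
  have g5 : u (i + 1 + 1 + 1 + 1) = 2 := by
    rcases h.aType g1 g2 with ⟨k1, k2⟩ | ⟨k1, k2, _⟩ | ⟨k1, k2⟩ | ⟨k1, k2, _⟩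
    · omega
    · omega
    · exact absurd (h.no11 g1 g2 k1 k2) not_false
    · exact k1
  rw [g5] at E3
  exact I5 h.hx h.hy h.hxy h.hD h.hm (by linear_combination E2) (by linear_combination E3)

/-- only `(F_0, T_0)` remains -/
theorem only00 (h : Main x y D m n s u s' u') {i : ℕ} (hs : s i = false) (hs' : s' i = true) :
    u i = 0 ∧ u' i = 0 := by
  rcases h.aType hs hs' with ⟨a1, a2⟩ | ⟨a1, a2, a3⟩ | ⟨a1, a2⟩ | ⟨a1, a2, a3⟩
  · exact ⟨a1, a2⟩
  · exfalso
    obtain ⟨c1, c2⟩ := h.r.up i hs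
    have c3 := h.r'.turn i hs' a2
    rcases h.swap.aType c3 c1 with ⟨g1, g2⟩ | ⟨g1, g2, _⟩ | ⟨g1, g2⟩ | ⟨g1, g2, _⟩
    · omega
    · omega
    · exact h.swap.no11 c3 c1 g1 g2
    · exact h.swap.no21 c3 c1 g1 g2
  · exact absurd (h.no11 hs hs' a1 a2) not_false
  · exact absurd (h.no21 hs hs' a1 a2) not_false

theorem noTT' (h : Main x y D m n s u s' u') {i : ℕ} (hs : s i = true) (hs' : s' i = true) :
    False := by
  have hn := h.hn
  obtain ⟨j, hj⟩ : ∃ j, j + 1 = i + n := ⟨i + n - 1, by omega⟩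
  have hs1 : s (j + 1) = true := by rw [hj, (h.r.per i).1, hs]
  have hs1' : s' (j + 1) = true := by rw [hj, (h.r'.per i).1, hs']
  rcases h.o1 hs1 hs1' with ⟨a1, a2⟩ | ⟨a1, a2⟩
  · obtain ⟨b1, b2⟩ := h.o2 hs1 a1 hs1' a2
    obtain ⟨c1, c2⟩ := h.swap.only00 b2 b1
    have := h.r.turn j b1 c2
    rw [hs1] at this
    exact absurd this (by decide)
  · obtain ⟨b1, b2⟩ := h.o2' hs1 a1 hs1' a2
    obtain ⟨c1, c2⟩ := h.only00 b1 b2
    have := h.r'.turn j b2 c2
    rw [hs1'] at this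
    exact absurd this (by decide)

theorem all_zero (h : Main x y D m n s u s' u') (i : ℕ) : u i = 0 ∧ u' i = 0 := by
  cases hs : s i with
  | false =>
    cases hs' : s' i with
    | false => exact absurd (h.toTwo.noFF h.hz hs hs') not_false
    | true => exact h.only00 hs hs'
  | true =>
    cases hs' : s' i with
    | false =>
      have := h.swap.only00 hs' hs
      exact ⟨this.2, this.1⟩
    | true => exact absurd (h.noTT' hs hs') not_false

end Main

namespace Two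

variable {x y D m : ℤ} {n : ℕ} {s : ℕ → Bool} {u : ℕ → ℕ} {s' : ℕ → Bool} {u' : ℕ → ℕ}

/-- **Two primes with runs**: all runs have length zero. -/
theorem all_zero (h : Two x y D m n s u s' u') (i : ℕ) : u i = 0 ∧ u' i = 0 := by
  by_cases hz : ∀ i, s i = true → u i = 0 → s' i = true → u' i = 0 → False
  · by_cases hTT : ∃ j, s j = true ∧ s' j = true
    · obtain ⟨j, hj, hj'⟩ := hTT
      have hM : Main x y D m n s u s' u' := { h with hz := hz, hbig := h.big j hj hj' }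
      exact hM.all_zero i
    · push Not at hTT
      cases hs : s i with
      | false =>
        cases hs' : s' i with
        | false => exact absurd (h.noFF hz hs hs') not_false
        | true =>
          obtain ⟨a1, a2⟩ := h.r.up i hs
          have a3 : s' (i + 1) = false := by
            cases h1 : s' (i + 1) with
            | false => rfl
            | true => exact absurd h1 (hTT _ a1)
          obtain ⟨b1, b2⟩ := h.r'.up _ a3
          constructor
          · by_contra hne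
            exact hTT _ (h.r.down _ a1 (by omega)).1 b1
          · by_contra hne
            have := (h.r'.down i hs' (by omega)).1
            rw [a3] at this
            exact absurd this (by decide)
      | true =>
        cases hs' : s' i with
        | false =>
          obtain ⟨a1, a2⟩ := h.r'.up i hs'
          have a3 : s (i + 1) = false := by
            cases h1 : s (i + 1) with
            | false => rfl
            | true => exact absurd a1 (hTT _ h1)
          obtain ⟨b1, b2⟩ := h.r.up _ a3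
          constructor
          · by_contra hne
            have := (h.r.down i hs (by omega)).1
            rw [a3] at this
            exact absurd this (by decide)
          · by_contra hne
            exact hTT _ b1 (h.r'.down _ a1 (by omega)).1
        | true => exact absurd hs' (hTT i hs)
  · push Not at hz
    obtain ⟨j, h1, h2, h3, h4, _⟩ := hz
    exact h.zz_all h1 h2 h3 h4 i

end Two

end Pool.Agent.H24.FP.N2
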