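import Pool.Agent.H24.FP.NRuns
import Pool.Agent.H24.FP.N2Word
import Pool.Agent.H24.FP.N2Beta

/-!
# The integer equations of a negative cycle
-/

set_option autoImplicit false

namespace Pool.Agent.H24.FP.N2

open Pool.Agent.H97

/-- a `t`-cycle of negative numbers, `b` positive -/
structure Neg (b : ℚ) (t : ℕ → ℚ) (n : ℕ) : Prop extends IsTCycle b t n where
  hb : 0 < b
  ht : ∀ i, t i < 0

theorem neg_cycle {b : ℚ} {t : ℕ → ℚ} {n : ℕ} (h : IsTCycle b t n) :
    IsTCycle (-b) (fun i => -t i) n where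
  pos := h.pos
  ne := fun i => neg_ne_zero.2 (h.ne i)
  next := fun i => by
    show -t (i + 1) = (-b * -t i + 1) ^ 2 / -t i
    rw [h.next i, div_neg]
    ring
  per := fun i => by
    show -t (i + n) = -t i
    rw [h.per i]

/-! ### Numerators and denominators -/

section
variable {b : ℚ} {r : ℕ} [hr : Fact r.Prime]

theorem norm_nd (b : ℚ) : padicNorm r b * padicNorm r (b.den : ℚ) = padicNorm r (b.num : ℚ) := by
  rw [← padicNorm.mul, Rat.mul_den_eq_num]

theorem den_of_bad (h : padicNorm r b < 1) : padicNorm r (b.den : ℚ) = 1 := by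
  rw [padicNorm.nat_eq_one_iff]
  intro hd
  have h1 : padicNorm r (b.num : ℚ) < 1 := by
    rw [← norm_nd b]
    have h2 : padicNorm r (b.den : ℚ) ≤ 1 := padicNorm.of_nat b.den
    have h3 : 0 ≤ padicNorm r b := padicNorm.nonneg b
    nlinarith
  rw [padicNorm.int_lt_one_iff] at h1
  have h5 := Nat.dvd_gcd (Int.natCast_dvd.1 h1) hd
  rw [b.reduced] at h5
  exact hr.out.one_lt.not_ge (Nat.le_of_dvd one_pos h5)

theorem num_of_bad (h : padicNorm r b < 1) : padicNorm r (b.num : ℚ) = padicNorm r b := by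
  rw [← norm_nd b, den_of_bad h, mul_one]

theorem num_of_good (h : 1 ≤ padicNorm r b) : padicNorm r (b.num : ℚ) = 1 := by
  rw [padicNorm.int_eq_one_iff]
  intro hd
  have h1 : ¬ r ∣ b.den := by
    intro hd'
    have h5 := Nat.dvd_gcd (Int.natCast_dvd.1 hd) hd'
    rw [b.reduced] at h5
    exact hr.out.one_lt.not_ge (Nat.le_of_dvd one_pos h5)
  have h2 := norm_nd (r := r) b
  rw [(padicNorm.nat_eq_one_iff b.den).2 h1, mul_one] at h2
  have h3 := (padicNorm.int_lt_one_iff b.num).2 hd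
  linarith

end

theorem int_of_norms {q : ℚ} (h : ∀ p : ℕ, p.Prime → padicNorm p q ≤ 1) : (q.num : ℚ) = q := by
  have hden : q.den = 1 := by
    by_contra hne
    obtain ⟨p, hp, hd⟩ := Nat.exists_prime_and_dvd hne
    have : Fact p.Prime := ⟨hp⟩
    have h1 : padicNorm p (q.den : ℚ) < 1 := (padicNorm.nat_lt_one_iff q.den).2 hd
    have h2 : padicNorm p (q.num : ℚ) = 1 := by
      rw [padicNorm.int_eq_one_iff]
      intro h3
      have h4 : p ∣ q.num.natAbs := Int.natCast_dvd.1 h3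
      have h5 := Nat.dvd_gcd h4 hd
      rw [q.reduced] at h5
      exact hp.one_lt.not_ge (Nat.le_of_dvd one_pos h5)
    have h4 := norm_nd (r := p) q
    have h5 := h p hp
    have h6 : 0 ≤ padicNorm p q := padicNorm.nonneg q
    rw [h2] at h4
    nlinarith [padicNorm.nonneg (p := p) (q.den : ℚ)]
  have := Rat.num_div_den q
  rw [hden] at this
  simpa using this

namespace Neg

variable {b : ℚ} {t : ℕ → ℚ} {n : ℕ}

theorem xi_sq (h : IsTCycle b t n) (i : ℕ) : t (i + 1) = (b + 1 / t i) ^ 2 * t i := by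
  have h1 := h.ne i
  rw [h.next i]
  field_simp

theorem xi_ne (h : IsTCycle b t n) (i : ℕ) : b + 1 / t i ≠ 0 := by
  intro h0
  have h1 := xi_sq h i
  rw [h0] at h1
  exact h.ne (i + 1) (by rw [h1]; ring)

/-- the real place -/
theorem real (h : Neg b t n) (i : ℕ) : b + 1 / t i ≤ 1 := by
  by_contra hcon
  push Not at hcon
  have hstep : ∀ j, 1 < b + 1 / t j → b + 1 / t j < b + 1 / t (j + 1) := by
    intro j hj
    have h1 := h.ht j
    have h2 := h.ht (j + 1)
    rw [xi_sq h.toIsTCycle j]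
    have h3 : 1 < (b + 1 / t j) ^ 2 := by nlinarith
    have h4 : (b + 1 / t j) ^ 2 * t j < t j := by nlinarith
    have h5 : 1 / t j < 1 / ((b + 1 / t j) ^ 2 * t j) :=
      one_div_lt_one_div_of_neg_of_lt h1 h4
    linarith
  have hall : ∀ j, 1 < b + 1 / t j := by
    apply h.toIsTCycle.all_of_step (Q := fun s => 1 < b + 1 / s) _ i hcon
    intro j hj
    exact lt_trans hj (hstep j hj)
  have hinc : StrictMono (fun j => b + 1 / t j) :=
    strictMono_nat_of_lt_succ fun j => hstep j (hall j)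
  have h1 := hinc h.pos
  have h2 := h.per 0
  rw [zero_add] at h2
  simp only [h2] at h1
  exact lt_irrefl _ h1

/-- if `b + 1 / t i = -N X`, then `N - 1 ≤ D` -/
theorem big (h : Neg b t n) {i : ℕ} {X : ℤ} (hX : 1 ≤ X) (hN : 2 ≤ b.num)
    (hξ : b + 1 / t i = -((b.num : ℚ) * X)) : b.num - 1 ≤ (b.den : ℤ) := by
  have h1 := h.real (i + 1)
  have ht := h.ne i
  rw [xi_sq h.toIsTCycle i, hξ] at h1
  set M : ℚ := (b.num : ℚ) * X with hM
  have hX' : (1 : ℚ) ≤ X := by exact_mod_cast hX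
  have hN' : (2 : ℚ) ≤ b.num := by exact_mod_cast hN
  have hM2 : 2 ≤ M := by rw [hM]; nlinarith
  have h2 : 1 / t i = -M - b := by linarith
  have h3 : 1 / ((-M) ^ 2 * t i) = (-M - b) / M ^ 2 := by
    rw [← h2]; field_simp
  rw [h3] at h1
  have hM0 : 0 < M ^ 2 := by positivity
  have h4 : b * M ^ 2 + (-M - b) ≤ M ^ 2 := by
    have h5 : (b + (-M - b) / M ^ 2) * M ^ 2 ≤ 1 * M ^ 2 :=
      mul_le_mul_of_nonneg_right h1 hM0.le
    have h6 : (b + (-M - b) / M ^ 2) * M ^ 2 = b * M ^ 2 + (-M - b) := by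
      field_simp
    linarith
  have h5 : (M + 1) * (b * (M - 1)) ≤ (M + 1) * M := by linarith
  have h6 : b * (M - 1) ≤ M := le_of_mul_le_mul_left h5 (by linarith)
  have hD : (0 : ℚ) < b.den := by exact_mod_cast b.den_pos
  have h7 : b * b.den = b.num := Rat.mul_den_eq_num b
  have h8 : (b.num : ℚ) * (M - 1) ≤ (b.num : ℚ) * (b.den * X) := by
    calc (b.num : ℚ) * (M - 1) = (b * (M - 1)) * b.den := by rw [← h7]; ring
      _ ≤ M * b.den := mul_le_mul_of_nonneg_right h6 hD.le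
      _ = (b.num : ℚ) * (b.den * X) := by rw [hM]; ring
  have h9 : M - 1 ≤ b.den * X := le_of_mul_le_mul_left h8 (by linarith)
  have h10 : b.num * X - 1 ≤ (b.den : ℤ) * X := by
    rw [hM] at h9
    exact_mod_cast h9
  nlinarith

/-- at a prime not dividing the numerator -/
theorem good_norm {r : ℕ} [Fact r.Prime] (h : IsTCycle b t n) (hr : 1 ≤ padicNorm r b) (i : ℕ) :
    1 ≤ padicNorm r b * padicNorm r (t i) := by
  rcases hr.eq_or_lt with h1 | h1
  · rw [← h1, one_mul]
    rcases h.unit_dichotomy h1.symm with h2 | ⟨τ, h3, h2⟩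
    · rw [h2]
    · rw [h2]; exact h3.le
  · have e1 := h.norm_of_pole h1 i
    rw [padicNorm.mul] at e1
    rw [e1]

/-- the integer equations -/
theorem data (h : Neg b t n) {Δ X Z : ℕ → ℤ} (hΔ : ∀ i, 0 < Δ i) (hX : ∀ i, 0 < X i)
    (hZ : ∀ i, 0 < Z i)
    (hbad : ∀ r : ℕ, r.Prime → padicNorm r b < 1 → ∀ i,
      padicNorm r (Δ i : ℚ) = padicNorm r b * padicNorm r (Z i : ℚ) * padicNorm r (t i) ∧
      padicNorm r (b + 1 / t i) * padicNorm r (Δ i : ℚ) = padicNorm r b * padicNorm r (X i : ℚ))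
    (hgood : ∀ r : ℕ, r.Prime → 1 ≤ padicNorm r b → ∀ i,
      padicNorm r (Δ i : ℚ) = 1 ∧ padicNorm r (X i : ℚ) = 1 ∧ padicNorm r (Z i : ℚ) = 1) :
    ∃ m : ℤ, 1 ≤ m ∧ IsCoprime (b.den : ℤ) m ∧ ∀ i, ∃ e : ℤ, (e = 1 ∨ e = -1) ∧
      Δ i = e * b.den * X i + m * Z i ∧
      (b + 1 / t i) * (Δ i : ℚ) = (e : ℚ) * ((b.num : ℚ) * X i) := by
  have hb0 : b ≠ 0 := h.hb.ne'
  have hT := h.toIsTCycle
  set M : ℕ → ℚ := fun i => -(1 / t i) * Δ i / (b * Z i) with hM
  have hΔ' : ∀ i, (0 : ℚ) < Δ i := fun i => by exact_mod_cast hΔ i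
  have hX' : ∀ i, (0 : ℚ) < X i := fun i => by exact_mod_cast hX i
  have hZ' : ∀ i, (0 : ℚ) < Z i := fun i => by exact_mod_cast hZ i
  have hy : ∀ i, 0 < -(1 / t i) := fun i => neg_pos.2 (one_div_neg.2 (h.ht i))
  have hMpos : ∀ i, 0 < M i := fun i =>
    div_pos (mul_pos (hy i) (hΔ' i)) (mul_pos h.hb (hZ' i))
  have hMn : ∀ r : ℕ, r.Prime → ∀ i, padicNorm r (M i) =
      padicNorm r (Δ i : ℚ) / (padicNorm r (t i) * (padicNorm r b * padicNorm r (Z i : ℚ))) := by
    intro r hr i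
    have : Fact r.Prime := ⟨hr⟩
    have e1 : M i = -(Δ i / (t i * (b * Z i))) := by
      have := hT.ne i
      have := (hZ' i).ne'
      rw [hM]
      field_simp
    rw [e1, padicNorm.neg, padicNorm.div, padicNorm.mul, padicNorm.mul]
  have hMbad : ∀ r : ℕ, r.Prime → padicNorm r b < 1 → ∀ i, padicNorm r (M i) = 1 := by
    intro r hr hb i
    have : Fact r.Prime := ⟨hr⟩
    rw [hMn r hr i, (hbad r hr hb i).1]
    have e1 : 0 < padicNorm r (t i) := norm_pos (hT.ne i)
    have e2 : 0 < padicNorm r b := norm_pos hb0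
    have e3 : 0 < padicNorm r (Z i : ℚ) := norm_pos (hZ' i).ne'
    field_simp
  have hMgood : ∀ r : ℕ, r.Prime → 1 ≤ padicNorm r b → ∀ i,
      padicNorm r (M i) = 1 / (padicNorm r b * padicNorm r (t i)) := by
    intro r hr hb i
    have : Fact r.Prime := ⟨hr⟩
    obtain ⟨g1, g2, g3⟩ := hgood r hr hb i
    rw [hMn r hr i, g1, g3, mul_one, mul_comm]
  have hMle : ∀ r : ℕ, r.Prime → ∀ i, padicNorm r (M i) ≤ 1 := by
    intro r hr i
    have : Fact r.Prime := ⟨hr⟩
    rcases lt_or_ge (padicNorm r b) 1 with hb | hb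
    · rw [hMbad r hr hb i]
    · have h1 := good_norm hT hb i
      rw [hMgood r hr hb i, div_le_one (by linarith)]
      exact h1
  have hMconst : ∀ i, M i = M 0 := by
    intro i
    rcases eq_or_neg_of_norms (hMpos i).ne' (hMpos 0).ne' (by
      intro r hr
      have : Fact r.Prime := ⟨hr⟩
      rcases lt_or_ge (padicNorm r b) 1 with hb | hb
      · rw [hMbad r hr hb i, hMbad r hr hb 0]
      · rw [hMgood r hr hb i, hMgood r hr hb 0, hT.norm_const_of_ge hb i 0]) with h1 | h1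
    · exact h1
    · exfalso
      have := hMpos i
      have := hMpos 0
      linarith
  have hint : ((M 0).num : ℚ) = M 0 := int_of_norms fun p hp => hMle p hp 0
  set m : ℤ := (M 0).num with hm
  have hm1 : 1 ≤ m := by
    have h1 := hMpos 0
    rw [← hint] at h1
    have h2 : 0 < m := by exact_mod_cast h1
    linarith
  refine ⟨m, hm1, ?_, fun i => ?_⟩
  · rw [Int.isCoprime_iff_gcd_eq_one, Int.gcd, Int.natAbs_natCast]
    by_contra hne
    obtain ⟨r, hr, hd⟩ := Nat.exists_prime_and_dvd hne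
    have : Fact r.Prime := ⟨hr⟩
    have h1 := (Nat.dvd_gcd_iff.1 hd).1
    have h2 := (Nat.dvd_gcd_iff.1 hd).2
    have h3 : padicNorm r (m : ℚ) < 1 := (padicNorm.int_lt_one_iff m).2 (Int.natCast_dvd.2 h2)
    have h4 : 1 < padicNorm r b := by
      have h5 : padicNorm r (b.den : ℚ) < 1 := (padicNorm.nat_lt_one_iff b.den).2 h1
      have h6 : 0 < padicNorm r (b.den : ℚ) := norm_pos (by exact_mod_cast b.den_nz)
      by_contra hcon
      push Not at hcon
      rcases hcon.lt_or_eq with h7 | h7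
      · have := den_of_bad h7
        linarith
      · have h8 := norm_nd (r := r) b
        rw [h7, one_mul, num_of_good h7.ge] at h8
        linarith
    rw [hint, hMgood r hr h4.le 0] at h3
    have h5 := hT.norm_of_pole h4 0
    rw [padicNorm.mul] at h5
    rw [h5] at h3
    norm_num at h3
  · have hξ := xi_ne hT i
    have hnum0 : (b.num : ℚ) ≠ 0 := by exact_mod_cast Rat.num_ne_zero.2 hb0
    have key : (b + 1 / t i) * (Δ i : ℚ) = (b.num : ℚ) * X i ∨
        (b + 1 / t i) * (Δ i : ℚ) = -((b.num : ℚ) * X i) := by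
      apply eq_or_neg_of_norms (mul_ne_zero hξ (hΔ' i).ne') (mul_ne_zero hnum0 (hX' i).ne')
      intro r hr
      have : Fact r.Prime := ⟨hr⟩
      rw [padicNorm.mul, padicNorm.mul]
      rcases lt_or_ge (padicNorm r b) 1 with hb | hb
      · rw [(hbad r hr hb i).2, num_of_bad hb]
      · obtain ⟨g1, g2, g3⟩ := hgood r hr hb i
        rw [g1, g2, num_of_good hb, mul_one, mul_one]
        have e1 := hT.norm_const_of_ge hb (i + 1) i
        rw [xi_sq hT i, padicNorm.mul, Pool.Agent.H97.norm_pow] at e1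
        have e2 : 0 < padicNorm r (t i) := norm_pos (hT.ne i)
        have e3 : padicNorm r (b + 1 / t i) ^ 2 * padicNorm r (t i) = 1 ^ 2 * padicNorm r (t i) := by
          rw [e1]; ring
        exact sq_inj_nonneg (padicNorm.nonneg _) (by norm_num) (mul_right_cancel₀ e2.ne' e3)
    have hMi : -(1 / t i) * Δ i = m * (b * Z i) := by
      have h1 : M i = m := by rw [hMconst i, hint]
      rw [← h1, hM]
      have := (hZ' i).ne'
      field_simp
    have hbn : b * b.den = b.num := Rat.mul_den_eq_num b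
    have hfin : ∀ e : ℤ, (b + 1 / t i) * (Δ i : ℚ) = (e : ℚ) * ((b.num : ℚ) * X i) →
        Δ i = e * b.den * X i + m * Z i := by
      intro e he
      have h1 : b * (Δ i : ℚ) = b * (e * b.den * X i + m * Z i) := by
        linear_combination he + hMi - (e : ℚ) * X i * hbn
      have h2 := mul_left_cancel₀ hb0 h1
      exact_mod_cast h2
    rcases key with h1 | h1
    · have h2 : (b + 1 / t i) * (Δ i : ℚ) = ((1 : ℤ) : ℚ) * ((b.num : ℚ) * X i) := by
        rw [h1]; push_cast; ring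
      exact ⟨1, Or.inl rfl, hfin 1 h2, h2⟩
    · have h2 : (b + 1 / t i) * (Δ i : ℚ) = ((-1 : ℤ) : ℚ) * ((b.num : ℚ) * X i) := by
        rw [h1]; push_cast; ring
      exact ⟨-1, Or.inr rfl, hfin (-1) h2, h2⟩

end Neg

/-! ### Exponents and norms -/

section
variable {p : ℕ} [hp : Fact p.Prime] {Q : ℚ} {t : ℕ → ℚ} {n : ℕ} {s : ℕ → Bool} {u : ℕ → ℕ}

theorem rn_of (h : TRuns p Q t n s u) : Rn s u n := ⟨h.down, h.turn, h.up, h.per⟩

omit hp in
theorem dl_zt (h : TRuns p Q t n s u) (i : ℕ) :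
    Q * Q ^ (zt s u i) = padicNorm p (t i) * Q ^ (dl s u i) := by
  cases hs : s i with
  | true => rw [zt_T hs, dl_T hs, h.large i hs]; ring
  | false =>
    rw [zt_F hs, dl_F hs]
    linear_combination -Q * h.small i hs

theorem dl_ch {b : ℚ} (hT : IsTCycle b t n) (h : TRuns p Q t n s u) (hQ : 1 < Q) (i : ℕ) :
    padicNorm p (b + 1 / t i) * (Q * Q ^ (ch s u i)) = Q ^ (dl s u i) := by
  have hQ0 : 0 < Q := by linarith
  have h1 := h.norm_code hQ hT.ne i
  have h2 : t (i + 1) / t i = (b + 1 / t i) ^ 2 := by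
    have := hT.ne i
    rw [Neg.xi_sq hT i]
    field_simp
  rw [h2, Pool.Agent.H97.norm_pow] at h1
  apply sq_inj_nonneg (mul_nonneg (padicNorm.nonneg _) (by positivity)) (by positivity)
  rw [mul_pow, h1]
  unfold codeN
  cases hs : s i with
  | true =>
    rw [if_pos rfl, dl_T hs]
    rcases Nat.eq_zero_or_pos (u i) with hu | hu
    · rw [if_pos hu, normN_T, ch_T0 hs hu]
      field_simp
      ring
    · rw [if_neg hu.ne', normN_T, ch_T1 hu]
      field_simp
  | false =>
    rw [if_neg (by simp), normN_F, dl_F hs, ch_F hs]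
    ring

end

end Pool.Agent.H24.FP.N2
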