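import Mathlib

/-!
# Diophantine facts for the multipliers
-/

set_option autoImplicit false

namespace Pool.Agent.H24.FP

theorem bet_sq {t v y : ℤ} (h : y ^ 2 = v) (ht : 0 ≤ t) (h1 : t ^ 2 < v) (h2 : v < (t + 1) ^ 2) :
    False := by
  rw [← h] at h1 h2
  have h3 : |t| < |y| := sq_lt_sq.1 h1
  have h4 : |y| < |t + 1| := sq_lt_sq.1 h2
  rw [abs_of_nonneg ht] at h3
  rw [abs_of_nonneg (by omega : (0 : ℤ) ≤ t + 1)] at h4
  omega

theorem neg_sq {v y : ℤ} (h : y ^ 2 = v) (hv : v < 0) : False := by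
  have := sq_nonneg y
  omega

theorem small_F {s y : ℤ} (hs : 2 ≤ s ∨ s ≤ -2) (h1 : -20 < s) (h2 : s < 20)
    (h : y ^ 2 = s ^ 4 + 4 * s ^ 3 + 10 * s ^ 2 + 4 * s + 1) : False := by
  interval_cases s
  · exact bet_sq (t := 326) h (by norm_num) (by norm_num) (by norm_num)
  · exact bet_sq (t := 291) h (by norm_num) (by norm_num) (by norm_num)
  · exact bet_sq (t := 258) h (by norm_num) (by norm_num) (by norm_num)
  · exact bet_sq (t := 227) h (by norm_num) (by norm_num) (by norm_num)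
  · exact bet_sq (t := 198) h (by norm_num) (by norm_num) (by norm_num)
  · exact bet_sq (t := 171) h (by norm_num) (by norm_num) (by norm_num)
  · exact bet_sq (t := 146) h (by norm_num) (by norm_num) (by norm_num)
  · exact bet_sq (t := 123) h (by norm_num) (by norm_num) (by norm_num)
  · exact bet_sq (t := 102) h (by norm_num) (by norm_num) (by norm_num)
  · exact bet_sq (t := 83) h (by norm_num) (by norm_num) (by norm_num)
  · exact bet_sq (t := 66) h (by norm_num) (by norm_num) (by norm_num)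
  · exact bet_sq (t := 51) h (by norm_num) (by norm_num) (by norm_num)
  · exact bet_sq (t := 38) h (by norm_num) (by norm_num) (by norm_num)
  · exact bet_sq (t := 27) h (by norm_num) (by norm_num) (by norm_num)
  · exact bet_sq (t := 18) h (by norm_num) (by norm_num) (by norm_num)
  · exact bet_sq (t := 12) h (by norm_num) (by norm_num) (by norm_num)
  · exact bet_sq (t := 7) h (by norm_num) (by norm_num) (by norm_num)
  · exact bet_sq (t := 4) h (by norm_num) (by norm_num) (by norm_num)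
  · omega
  · omega
  · omega
  · exact bet_sq (t := 9) h (by norm_num) (by norm_num) (by norm_num)
  · exact bet_sq (t := 17) h (by norm_num) (by norm_num) (by norm_num)
  · exact bet_sq (t := 26) h (by norm_num) (by norm_num) (by norm_num)
  · exact bet_sq (t := 37) h (by norm_num) (by norm_num) (by norm_num)
  · exact bet_sq (t := 50) h (by norm_num) (by norm_num) (by norm_num)
  · exact bet_sq (t := 65) h (by norm_num) (by norm_num) (by norm_num)
  · exact bet_sq (t := 82) h (by norm_num) (by norm_num) (by norm_num)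
  · exact bet_sq (t := 101) h (by norm_num) (by norm_num) (by norm_num)
  · exact bet_sq (t := 122) h (by norm_num) (by norm_num) (by norm_num)
  · exact bet_sq (t := 145) h (by norm_num) (by norm_num) (by norm_num)
  · exact bet_sq (t := 170) h (by norm_num) (by norm_num) (by norm_num)
  · exact bet_sq (t := 197) h (by norm_num) (by norm_num) (by norm_num)
  · exact bet_sq (t := 226) h (by norm_num) (by norm_num) (by norm_num)
  · exact bet_sq (t := 257) h (by norm_num) (by norm_num) (by norm_num)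
  · exact bet_sq (t := 290) h (by norm_num) (by norm_num) (by norm_num)
  · exact bet_sq (t := 325) h (by norm_num) (by norm_num) (by norm_num)
  · exact bet_sq (t := 362) h (by norm_num) (by norm_num) (by norm_num)
  · exact bet_sq (t := 401) h (by norm_num) (by norm_num) (by norm_num)

theorem small_P {s y : ℤ} (hs : 2 ≤ s ∨ s ≤ -2) (h1 : -20 < s) (h2 : s < 20)
    (h : y ^ 2 = s ^ 6 - 4 * s ^ 5 - 6 * s ^ 3 - 4 * s + 1) : False := by
  interval_cases s
  · exact bet_sq (t := 7549) h (by norm_num) (by norm_num) (by norm_num)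
  · exact bet_sq (t := 6450) h (by norm_num) (by norm_num) (by norm_num)
  · exact bet_sq (t := 5463) h (by norm_num) (by norm_num) (by norm_num)
  · exact bet_sq (t := 4582) h (by norm_num) (by norm_num) (by norm_num)
  · exact bet_sq (t := 3801) h (by norm_num) (by norm_num) (by norm_num)
  · exact bet_sq (t := 3114) h (by norm_num) (by norm_num) (by norm_num)
  · exact bet_sq (t := 2514) h (by norm_num) (by norm_num) (by norm_num)
  · exact bet_sq (t := 1997) h (by norm_num) (by norm_num) (by norm_num)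
  · exact bet_sq (t := 1556) h (by norm_num) (by norm_num) (by norm_num)
  · exact bet_sq (t := 1185) h (by norm_num) (by norm_num) (by norm_num)
  · exact bet_sq (t := 878) h (by norm_num) (by norm_num) (by norm_num)
  · exact bet_sq (t := 629) h (by norm_num) (by norm_num) (by norm_num)
  · exact bet_sq (t := 432) h (by norm_num) (by norm_num) (by norm_num)
  · exact bet_sq (t := 281) h (by norm_num) (by norm_num) (by norm_num)
  · exact bet_sq (t := 169) h (by norm_num) (by norm_num) (by norm_num)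
  · exact bet_sq (t := 92) h (by norm_num) (by norm_num) (by norm_num)
  · exact bet_sq (t := 43) h (by norm_num) (by norm_num) (by norm_num)
  · exact bet_sq (t := 15) h (by norm_num) (by norm_num) (by norm_num)
  · omega
  · omega
  · omega
  · exact neg_sq h (by norm_num)
  · exact neg_sq h (by norm_num)
  · exact neg_sq h (by norm_num)
  · exact bet_sq (t := 48) h (by norm_num) (by norm_num) (by norm_num)
  · exact bet_sq (t := 119) h (by norm_num) (by norm_num) (by norm_num)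
  · exact bet_sq (t := 219) h (by norm_num) (by norm_num) (by norm_num)
  · exact bet_sq (t := 357) h (by norm_num) (by norm_num) (by norm_num)
  · exact bet_sq (t := 539) h (by norm_num) (by norm_num) (by norm_num)
  · exact bet_sq (t := 770) h (by norm_num) (by norm_num) (by norm_num)
  · exact bet_sq (t := 1057) h (by norm_num) (by norm_num) (by norm_num)
  · exact bet_sq (t := 1407) h (by norm_num) (by norm_num) (by norm_num)
  · exact bet_sq (t := 1824) h (by norm_num) (by norm_num) (by norm_num)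
  · exact bet_sq (t := 2315) h (by norm_num) (by norm_num) (by norm_num)
  · exact bet_sq (t := 2886) h (by norm_num) (by norm_num) (by norm_num)
  · exact bet_sq (t := 3543) h (by norm_num) (by norm_num) (by norm_num)
  · exact bet_sq (t := 4292) h (by norm_num) (by norm_num) (by norm_num)
  · exact bet_sq (t := 5139) h (by norm_num) (by norm_num) (by norm_num)
  · exact bet_sq (t := 6090) h (by norm_num) (by norm_num) (by norm_num)

theorem small_R {s y : ℤ} (hs : 2 ≤ s ∨ s ≤ -2) (h1 : -20 < s) (h2 : s < 20)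
    (h : y ^ 2 = s ^ 10 + 4 * s ^ 9 + 2 * s ^ 8 - 2 * s ^ 7 + s ^ 6 + 4 * s ^ 5 + s ^ 4 - 2 * s ^ 3
      + 2 * s ^ 2 + 4 * s + 1) : False := by
  interval_cases s
  · exact bet_sq (t := 2208191) h (by norm_num) (by norm_num) (by norm_num)
  · exact bet_sq (t := 1673415) h (by norm_num) (by norm_num) (by norm_num)
  · exact bet_sq (t := 1247570) h (by norm_num) (by norm_num) (by norm_num)
  · exact bet_sq (t := 913111) h (by norm_num) (by norm_num) (by norm_num)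
  · exact bet_sq (t := 654486) h (by norm_num) (by norm_num) (by norm_num)
  · exact bet_sq (t := 458015) h (by norm_num) (by norm_num) (by norm_num)
  · exact bet_sq (t := 311770) h (by norm_num) (by norm_num) (by norm_num)
  · exact bet_sq (t := 205455) h (by norm_num) (by norm_num) (by norm_num)
  · exact bet_sq (t := 130286) h (by norm_num) (by norm_num) (by norm_num)
  · exact bet_sq (t := 78870) h (by norm_num) (by norm_num) (by norm_num)
  · exact bet_sq (t := 45089) h (by norm_num) (by norm_num) (by norm_num)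
  · exact bet_sq (t := 23974) h (by norm_num) (by norm_num) (by norm_num)
  · exact bet_sq (t := 11588) h (by norm_num) (by norm_num) (by norm_num)
  · exact bet_sq (t := 4908) h (by norm_num) (by norm_num) (by norm_num)
  · exact bet_sq (t := 1701) h (by norm_num) (by norm_num) (by norm_num)
  · exact bet_sq (t := 405) h (by norm_num) (by norm_num) (by norm_num)
  · exact neg_sq h (by norm_num)
  · exact neg_sq h (by norm_num)
  · omega
  · omega
  · omega
  · exact bet_sq (t := 59) h (by norm_num) (by norm_num) (by norm_num)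
  · exact bet_sq (t := 385) h (by norm_num) (by norm_num) (by norm_num)
  · exact bet_sq (t := 1484) h (by norm_num) (by norm_num) (by norm_num)
  · exact bet_sq (t := 4269) h (by norm_num) (by norm_num) (by norm_num)
  · exact bet_sq (t := 10181) h (by norm_num) (by norm_num) (by norm_num)
  · exact bet_sq (t := 21306) h (by norm_num) (by norm_num) (by norm_num)
  · exact bet_sq (t := 40501) h (by norm_num) (by norm_num) (by norm_num)
  · exact bet_sq (t := 71510) h (by norm_num) (by norm_num) (by norm_num)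
  · exact bet_sq (t := 119085) h (by norm_num) (by norm_num) (by norm_num)
  · exact bet_sq (t := 189106) h (by norm_num) (by norm_num) (by norm_num)
  · exact bet_sq (t := 288701) h (by norm_num) (by norm_num) (by norm_num)
  · exact bet_sq (t := 426366) h (by norm_num) (by norm_num) (by norm_num)
  · exact bet_sq (t := 612086) h (by norm_num) (by norm_num) (by norm_num)
  · exact bet_sq (t := 857451) h (by norm_num) (by norm_num) (by norm_num)
  · exact bet_sq (t := 1175782) h (by norm_num) (by norm_num) (by norm_num)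
  · exact bet_sq (t := 1582247) h (by norm_num) (by norm_num) (by norm_num)
  · exact bet_sq (t := 2093982) h (by norm_num) (by norm_num) (by norm_num)
  · exact bet_sq (t := 2730211) h (by norm_num) (by norm_num) (by norm_num)


theorem no_F {s y : ℤ} (hs : 2 ≤ s ∨ s ≤ -2)
    (h : y ^ 2 = s ^ 4 + 4 * s ^ 3 + 10 * s ^ 2 + 4 * s + 1) : False := by
  by_cases h1 : 20 ≤ s
  · obtain ⟨k, rfl⟩ : ∃ k : ℕ, s = 20 + k := ⟨(s - 20).toNat, by omega⟩
    apply bet_sq (t := (20 + (k : ℤ)) ^ 2 + 2 * (20 + k) + 2) h (by positivity)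
    · rw [← sub_pos]; ring_nf; positivity
    · rw [← sub_pos]; ring_nf; positivity
  · by_cases h2 : s ≤ -20
    · obtain ⟨k, rfl⟩ : ∃ k : ℕ, s = -(20 + k) := ⟨(-s - 20).toNat, by omega⟩
      apply bet_sq (t := (20 + (k : ℤ)) ^ 2 - 2 * (20 + k) + 3) h
      · rw [show (20 + (k : ℤ)) ^ 2 - 2 * (20 + k) + 3 = k ^ 2 + 38 * k + 363 by ring]; positivity
      · rw [← sub_pos]; ring_nf; positivity
      · rw [← sub_pos]; ring_nf; positivity
    · exact small_F hs (by omega) (by omega) h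

theorem no_P {s y : ℤ} (hs : 2 ≤ s ∨ s ≤ -2)
    (h : y ^ 2 = s ^ 6 - 4 * s ^ 5 - 6 * s ^ 3 - 4 * s + 1) : False := by
  by_cases h1 : 20 ≤ s
  · obtain ⟨k, rfl⟩ : ∃ k : ℕ, s = 20 + k := ⟨(s - 20).toNat, by omega⟩
    apply bet_sq (t := (20 + (k : ℤ)) ^ 3 - 2 * (20 + k) ^ 2 - 2 * (20 + k) - 8) h
    · rw [show (20 + (k : ℤ)) ^ 3 - 2 * (20 + k) ^ 2 - 2 * (20 + k) - 8 =
        k ^ 3 + 58 * k ^ 2 + 1118 * k + 7152 by ring]; positivity
    · rw [← sub_pos]; ring_nf; positivity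
    · rw [← sub_pos]; ring_nf; positivity
  · by_cases h2 : s ≤ -20
    · obtain ⟨k, rfl⟩ : ∃ k : ℕ, s = -(20 + k) := ⟨(-s - 20).toNat, by omega⟩
      apply bet_sq (t := (20 + (k : ℤ)) ^ 3 + 2 * (20 + k) ^ 2 - 2 * (20 + k) + 6) h
      · rw [show (20 + (k : ℤ)) ^ 3 + 2 * (20 + k) ^ 2 - 2 * (20 + k) + 6 =
          k ^ 3 + 62 * k ^ 2 + 1278 * k + 8766 by ring]; positivity
      · rw [← sub_pos]; ring_nf; positivity
      · rw [← sub_pos]; ring_nf; positivity
    · exact small_P hs (by omega) (by omega) h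

theorem no_R {s y : ℤ} (hs : 2 ≤ s ∨ s ≤ -2)
    (h : y ^ 2 = s ^ 10 + 4 * s ^ 9 + 2 * s ^ 8 - 2 * s ^ 7 + s ^ 6 + 4 * s ^ 5 + s ^ 4 - 2 * s ^ 3
      + 2 * s ^ 2 + 4 * s + 1) : False := by
  by_cases h1 : 20 ≤ s
  · obtain ⟨k, rfl⟩ : ∃ k : ℕ, s = 20 + k := ⟨(s - 20).toNat, by omega⟩
    apply bet_sq (t := (20 + (k : ℤ)) ^ 5 + 2 * (20 + k) ^ 4 - (20 + k) ^ 3 + (20 + k) ^ 2
      - 2 * (20 + k) + 6) h
    · ring_nf; positivity
    · rw [← sub_pos]; ring_nf; positivity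
    · rw [← sub_pos]; ring_nf; positivity
  · by_cases h2 : s ≤ -20
    · obtain ⟨k, rfl⟩ : ∃ k : ℕ, s = -(20 + k) := ⟨(-s - 20).toNat, by omega⟩
      apply bet_sq (t := (20 + (k : ℤ)) ^ 5 - 2 * (20 + k) ^ 4 - (20 + k) ^ 3 - (20 + k) ^ 2
        - 2 * (20 + k) - 8) h
      · ring_nf; positivity
      · rw [← sub_pos]; ring_nf; positivity
      · rw [← sub_pos]; ring_nf; positivity
    · exact small_R hs (by omega) (by omega) h

theorem edge_F {s M : ℤ} (hs : 2 ≤ s ∨ s ≤ -2)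
    (h : (s + 1) * M ^ 2 + (s - 1) * (s ^ 2 + 1) * M - s * (s - 1) ^ 2 * (s + 1) = 0) : False := by
  have h1 : (2 * (s + 1) * M + (s - 1) * (s ^ 2 + 1)) ^ 2 =
      (s - 1) ^ 2 * (s ^ 4 + 4 * s ^ 3 + 10 * s ^ 2 + 4 * s + 1) := by
    linear_combination 4 * (s + 1) * h
  have h2 : (s - 1) ^ 2 ∣ (2 * (s + 1) * M + (s - 1) * (s ^ 2 + 1)) ^ 2 := ⟨_, h1⟩
  have h3 : s - 1 ∣ 2 * (s + 1) * M + (s - 1) * (s ^ 2 + 1) :=
    (Int.pow_dvd_pow_iff two_ne_zero).1 h2
  obtain ⟨y, hy⟩ := h3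
  rw [hy, mul_pow] at h1
  have h4 : (s - 1) ^ 2 ≠ 0 := pow_ne_zero 2 (by omega)
  exact no_F hs (mul_left_cancel₀ h4 h1)

theorem edge_P {s M : ℤ} (hs : 2 ≤ s ∨ s ≤ -2)
    (h : s * M ^ 2 + (s + 1) * (s ^ 3 - 1) * M + (s + 1) * (s ^ 3 + 1) * (s ^ 2 + s + 1) = 0) :
    False := by
  have h1 : (2 * s * M + (s + 1) * (s ^ 3 - 1)) ^ 2 =
      (s + 1) ^ 2 * (s ^ 6 - 4 * s ^ 5 - 6 * s ^ 3 - 4 * s + 1) := by
    linear_combination 4 * s * h
  have h2 : (s + 1) ^ 2 ∣ (2 * s * M + (s + 1) * (s ^ 3 - 1)) ^ 2 := ⟨_, h1⟩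
  have h3 : s + 1 ∣ 2 * s * M + (s + 1) * (s ^ 3 - 1) := (Int.pow_dvd_pow_iff two_ne_zero).1 h2
  obtain ⟨y, hy⟩ := h3
  rw [hy, mul_pow] at h1
  have h4 : (s + 1) ^ 2 ≠ 0 := pow_ne_zero 2 (by omega)
  exact no_P hs (mul_left_cancel₀ h4 h1)

theorem edge_R {s M : ℤ} (hs : 2 ≤ s ∨ s ≤ -2)
    (h : s * (s - 1) * M ^ 2 - (1 + s ^ 3) * (1 + s ^ 2) * M - (s ^ 6 - 1) * (s + 1) = 0) :
    False := by
  have h1 : (2 * (s * (s - 1)) * M - (1 + s ^ 3) * (1 + s ^ 2)) ^ 2 =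
      s ^ 10 + 4 * s ^ 9 + 2 * s ^ 8 - 2 * s ^ 7 + s ^ 6 + 4 * s ^ 5 + s ^ 4 - 2 * s ^ 3
      + 2 * s ^ 2 + 4 * s + 1 := by
    linear_combination 4 * (s * (s - 1)) * h
  exact no_R hs h1

/-! ### The same in rational form -/

theorem rat_F {s M : ℤ} {B : ℚ} (hs : 2 ≤ s ∨ s ≤ -2) (hB : B * s = M)
    (h : (1 / (s : ℚ)) * (1 - -(1 / (s : ℚ))) * B ^ 2 +
      (1 - 1 / (s : ℚ)) * (1 - (1 / (s : ℚ)) * -(1 / (s : ℚ))) * B -
      (1 - 1 / (s : ℚ)) * (1 + 1 / (s : ℚ)) * (1 + -(1 / (s : ℚ))) = 0) : False := by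
  have hs0 : (s : ℚ) ≠ 0 := by
    have : s ≠ 0 := by omega
    exact_mod_cast this
  have hB' : B = M / s := by rw [eq_div_iff hs0]; exact hB
  apply edge_F (s := s) (M := M) hs
  have h1 : (((s + 1) * M ^ 2 + (s - 1) * (s ^ 2 + 1) * M - s * (s - 1) ^ 2 * (s + 1) : ℤ) : ℚ) =
      (s : ℚ) ^ 4 * ((1 / (s : ℚ)) * (1 - -(1 / (s : ℚ))) * B ^ 2 +
      (1 - 1 / (s : ℚ)) * (1 - (1 / (s : ℚ)) * -(1 / (s : ℚ))) * B -
      (1 - 1 / (s : ℚ)) * (1 + 1 / (s : ℚ)) * (1 + -(1 / (s : ℚ)))) := by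
    rw [hB']
    push_cast
    field_simp
    ring
  rw [h, mul_zero] at h1
  exact_mod_cast h1

theorem rat_P {s M : ℤ} {B : ℚ} (hs : 2 ≤ s ∨ s ≤ -2) (hB : B * s = M)
    (h : (s : ℚ) ^ 3 * (1 - 1 / (s : ℚ)) * B ^ 2 +
      (1 - (s : ℚ) ^ 3) * (1 - (s : ℚ) ^ 3 * (1 / (s : ℚ))) * B -
      (1 - (s : ℚ) ^ 3) * (1 + (s : ℚ) ^ 3) * (1 + 1 / (s : ℚ)) = 0) : False := by
  have hs0 : (s : ℚ) ≠ 0 := by
    have : s ≠ 0 := by omega
    exact_mod_cast this
  have hB' : B = M / s := by rw [eq_div_iff hs0]; exact hB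
  apply edge_P (s := s) (M := M) hs
  have h1 : (((s - 1) * (s * M ^ 2 + (s + 1) * (s ^ 3 - 1) * M +
      (s + 1) * (s ^ 3 + 1) * (s ^ 2 + s + 1)) : ℤ) : ℚ) =
      (s : ℚ) * ((s : ℚ) ^ 3 * (1 - 1 / (s : ℚ)) * B ^ 2 +
      (1 - (s : ℚ) ^ 3) * (1 - (s : ℚ) ^ 3 * (1 / (s : ℚ))) * B -
      (1 - (s : ℚ) ^ 3) * (1 + (s : ℚ) ^ 3) * (1 + 1 / (s : ℚ))) := by
    rw [hB']
    push_cast
    field_simp
    ring
  rw [h, mul_zero] at h1
  have h2 : (s - 1) * (s * M ^ 2 + (s + 1) * (s ^ 3 - 1) * M +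
      (s + 1) * (s ^ 3 + 1) * (s ^ 2 + s + 1)) = 0 := by exact_mod_cast h1
  rcases mul_eq_zero.1 h2 with h3 | h3
  · omega
  · exact h3

theorem rat_R {s M : ℤ} {B : ℚ} (hs : 2 ≤ s ∨ s ≤ -2) (hB : B * s = M)
    (h : -(s : ℚ) ^ 3 * (1 - 1 / (s : ℚ)) * B ^ 2 +
      (1 - -(s : ℚ) ^ 3) * (1 - -(s : ℚ) ^ 3 * (1 / (s : ℚ))) * B -
      (1 - -(s : ℚ) ^ 3) * (1 + -(s : ℚ) ^ 3) * (1 + 1 / (s : ℚ)) = 0) : False := by
  have hs0 : (s : ℚ) ≠ 0 := by
    have : s ≠ 0 := by omega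
    exact_mod_cast this
  have hB' : B = M / s := by rw [eq_div_iff hs0]; exact hB
  apply edge_R (s := s) (M := M) hs
  have h1 : ((s * (s - 1) * M ^ 2 - (1 + s ^ 3) * (1 + s ^ 2) * M - (s ^ 6 - 1) * (s + 1) : ℤ) : ℚ) =
      -(s : ℚ) * (-(s : ℚ) ^ 3 * (1 - 1 / (s : ℚ)) * B ^ 2 +
      (1 - -(s : ℚ) ^ 3) * (1 - -(s : ℚ) ^ 3 * (1 / (s : ℚ))) * B -
      (1 - -(s : ℚ) ^ 3) * (1 + -(s : ℚ) ^ 3) * (1 + 1 / (s : ℚ))) := by
    rw [hB']
    push_cast
    field_simp
    ring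
  rw [h, mul_zero] at h1
  exact_mod_cast h1

theorem rat_T {Q B : ℚ} (hQ : 1 < Q) {e : ℚ} (he : e = Q ^ 2 ∨ e = -Q ^ 2)
    (h : (1 / Q ^ 2) * (1 - e) * B ^ 2 + (1 - 1 / Q ^ 2) * (1 - (1 / Q ^ 2) * e) * B -
      (1 - 1 / Q ^ 2) * (1 + 1 / Q ^ 2) * (1 + e) = 0) : False := by
  have hQ0 : Q ≠ 0 := by linarith
  have hQ2 : 1 < Q ^ 2 := one_lt_pow₀ hQ two_ne_zero
  rcases he with rfl | rfl
  · have h1 : (1 - Q ^ 2) * (B ^ 2 * Q ^ 2 + (Q ^ 2 + 1) ^ 2) = 0 := by
      have h2 : (1 - Q ^ 2) * (B ^ 2 * Q ^ 2 + (Q ^ 2 + 1) ^ 2) =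
          Q ^ 4 * ((1 / Q ^ 2) * (1 - Q ^ 2) * B ^ 2 +
          (1 - 1 / Q ^ 2) * (1 - (1 / Q ^ 2) * Q ^ 2) * B -
          (1 - 1 / Q ^ 2) * (1 + 1 / Q ^ 2) * (1 + Q ^ 2)) := by
        field_simp
        ring
      rw [h2, h, mul_zero]
    rcases mul_eq_zero.1 h1 with h2 | h2
    · linarith
    · have : 0 < B ^ 2 * Q ^ 2 + (Q ^ 2 + 1) ^ 2 := by positivity
      linarith
  · have h1 : (1 + Q ^ 2) * (B * Q) ^ 2 + 2 * Q * (Q ^ 2 - 1) * (B * Q) +
        (Q ^ 2 + 1) * (Q ^ 2 - 1) ^ 2 = 0 := by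
      have h2 : (1 + Q ^ 2) * (B * Q) ^ 2 + 2 * Q * (Q ^ 2 - 1) * (B * Q) +
        (Q ^ 2 + 1) * (Q ^ 2 - 1) ^ 2 =
          Q ^ 4 * ((1 / Q ^ 2) * (1 - -Q ^ 2) * B ^ 2 +
          (1 - 1 / Q ^ 2) * (1 - (1 / Q ^ 2) * -Q ^ 2) * B -
          (1 - 1 / Q ^ 2) * (1 + 1 / Q ^ 2) * (1 + -Q ^ 2)) := by
        field_simp
        ring
      rw [h2, h, mul_zero]
    have h3 : ((1 + Q ^ 2) * (B * Q) + Q * (Q ^ 2 - 1)) ^ 2 +
        (Q ^ 2 - 1) ^ 2 * (Q ^ 4 + Q ^ 2 + 1) = 0 := by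
      linear_combination (1 + Q ^ 2) * h1
    have h4 : 0 < (Q ^ 2 - 1) ^ 2 * (Q ^ 4 + Q ^ 2 + 1) := by
      have : 0 < Q ^ 2 - 1 := by linarith
      positivity
    have h5 := sq_nonneg ((1 + Q ^ 2) * (B * Q) + Q * (Q ^ 2 - 1))
    linarith

end Pool.Agent.H24.FP
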