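import Pool.Agent.H24.FP.RRuns
import Pool.Agent.H24.FP.RDio

/-!
# Prime power denominators: `r 2 = r 0`
-/

set_option autoImplicit false

namespace Pool.Agent.H24.FP

open Pool.Agent.H97

namespace Runs

variable {p : ℕ} [hp : Fact p.Prime] {Q : ℚ} {r : ℕ → ℚ} {n : ℕ} {s : ℕ → Bool} {u : ℕ → ℕ}

theorem dual (h : Runs p Q r n s u) (hQ : 1 < Q) (hr : ∀ i, r i ≠ 0) :
    Runs p Q (fun i => (r i)⁻¹) n (fun i => !(s i)) u := by
  have hQ0 : 0 < Q := by linarith
  refine ⟨fun i hi => ?_, fun i hi => ?_, fun i hi => ?_, fun i hi => ?_, fun i => ?_⟩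
  · have h1 : s i = false := by simpa using hi
    have h2 := h.large i h1
    have h0 : 0 < padicNorm p (r i) := norm_pos (hr i)
    show padicNorm p (r i)⁻¹ * Q ^ (u i + 1) = 1
    rw [IsRCycle.norm_inv', h2]
    exact inv_mul_cancel₀ (by positivity)
  · have h1 : s i = true := by simpa using hi
    have h2 := h.small i h1
    have h0 : 0 < padicNorm p (r i) := norm_pos (hr i)
    show padicNorm p (r i)⁻¹ = Q ^ (u i + 1)
    rw [IsRCycle.norm_inv']
    exact (eq_inv_of_mul_eq_one_right h2).symm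
  · have h1 := h.down i hi
    refine ⟨?_, h1.2⟩
    show (!(s (i + 1))) = !(s i)
    rw [h1.1]
  · have h1 := h.turn i hi
    show (!(s (i + 1))) = !!(s i)
    rw [h1]
  · have h1 := h.per i
    refine ⟨?_, h1.2⟩
    show (!(s (i + n))) = !(s i)
    rw [h1.1]

end Runs

/-- the data at a prime power denominator -/
structure PP (B : ℚ) (p : ℕ) (k : ℕ) (N : ℤ) : Prop where
  kpos : 0 < k
  BQ : B * (p : ℚ) ^ k = N
  nB : padicNorm p B = (p : ℚ) ^ k
  other : ∀ l : ℕ, l.Prime → l ≠ p → padicNorm l B ≤ 1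

theorem PP.neg {B : ℚ} {p k : ℕ} {N : ℤ} (h : PP B p k N) : PP (-B) p k (-N) := by
  refine ⟨h.kpos, ?_, ?_, fun l hl hne => ?_⟩
  · have := h.BQ
    push_cast
    linear_combination -this
  · rw [padicNorm.neg]; exact h.nB
  · have : Fact l.Prime := ⟨hl⟩
    rw [padicNorm.neg]; exact h.other l hl hne

namespace IsRCycle

variable {B : ℚ} {r : ℕ → ℚ} {n : ℕ} {p k : ℕ} [hp : Fact p.Prime] {N : ℤ}
  {s : ℕ → Bool} {u : ℕ → ℕ}

theorem q_eq (h : IsRCycle B r n) (hPP : PP B p k N) {i : ℕ} {x : ℚ} (hx0 : x ≠ 0)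
    (hx : ∀ l : ℕ, l.Prime → l ≠ p → padicNorm l x = 1)
    (hi : padicNorm p (r (i + 1)) = padicNorm p x * padicNorm p (r i)) :
    r (i + 1) / r i = x ∨ r (i + 1) / r i = -x := by
  apply eq_or_neg_of_norms (div_ne_zero (h.ne (i + 1)) (h.ne i)) hx0
  intro l hl
  have : Fact l.Prime := ⟨hl⟩
  by_cases hlp : l = p
  · subst hlp
    have h0 : 0 < padicNorm l (r i) := norm_pos (h.ne i)
    rw [padicNorm.div, hi]
    field_simp
  · rw [hx l hl hlp]
    exact h.norm_const' (hPP.other l hl hlp) i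

omit hp in
theorem norm_pk {l : ℕ} (hpp : p.Prime) (hl : l.Prime) (hlp : l ≠ p) :
    padicNorm l ((p : ℚ) ^ k) = 1 := by
  have : Fact l.Prime := ⟨hl⟩
  rw [Pool.Agent.H97.norm_pow]
  have h1 : padicNorm l (p : ℚ) = 1 :=
    (padicNorm.nat_eq_one_iff p).2 (fun hd => hlp ((Nat.prime_dvd_prime_iff_eq hl hpp).1 hd))
  rw [h1, one_pow]

theorem norm_Q : padicNorm p ((p : ℚ) ^ k) = 1 / (p : ℚ) ^ k := by
  rw [Pool.Agent.H97.norm_pow, padicNorm.padicNorm_p_of_prime, inv_pow, one_div]

/-- multipliers inside a small run are `± 1 / Q` -/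
theorem q_down (h : IsRCycle B r n) (hPP : PP B p k N) (hR : Runs p ((p : ℚ) ^ k) r n s u)
    {i : ℕ} (hs : s i = true) (hu : 0 < u i) :
    ∃ z : ℤ, (2 ≤ z ∨ z ≤ -2) ∧ (∃ M : ℤ, B * z = M) ∧ (z : ℚ) ^ 2 = ((p : ℚ) ^ k) ^ 2 ∧
      r (i + 1) / r i = 1 / z := by
  have hpp := hp.out
  set Q : ℚ := (p : ℚ) ^ k with hQ
  have hQ1 : 1 < Q := one_lt_pow₀ (by exact_mod_cast hpp.one_lt) hPP.kpos.ne'
  have hQ0 : 0 < Q := by linarith
  have hz2 : 2 ≤ p ^ k := by
    have h1 : (1 : ℚ) < ((p ^ k : ℕ) : ℚ) := by push_cast; exact hQ1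
    have h2 : 1 < p ^ k := by exact_mod_cast h1
    exact h2
  obtain ⟨hs1, hu1⟩ := hR.down i hu
  have e1 := hR.small i hs
  have e2 := hR.small (i + 1) (by rw [hs1]; exact hs)
  rw [hu1] at e2
  have h0 : 0 < padicNorm p (r i) := norm_pos (h.ne i)
  have hq : r (i + 1) / r i = 1 / Q ∨ r (i + 1) / r i = -(1 / Q) := by
    apply h.q_eq hPP (by positivity)
    · intro l hl hlp
      have : Fact l.Prime := ⟨hl⟩
      rw [padicNorm.div, padicNorm.one, hQ, norm_pk hpp hl hlp, div_one]
    · rw [padicNorm.div, padicNorm.one, hQ, norm_Q, ← hQ, one_div_one_div]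
      have e3 : padicNorm p (r (i + 1)) * Q ^ u i = (Q * padicNorm p (r i)) * Q ^ u i := by
        rw [e2, ← e1]; ring
      exact mul_right_cancel₀ (by positivity) e3
  rcases hq with hq | hq
  · refine ⟨(p : ℤ) ^ k, Or.inl (by exact_mod_cast hz2), ⟨N, ?_⟩, ?_, ?_⟩
    · push_cast; exact hPP.BQ
    · push_cast; rw [hQ]
    · push_cast; rw [hq]
  · refine ⟨-(p : ℤ) ^ k, Or.inr (by
      have : (2 : ℤ) ≤ (p : ℤ) ^ k := by exact_mod_cast hz2
      linarith), ⟨-N, ?_⟩, ?_, ?_⟩
    · have := hPP.BQ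
      push_cast
      linear_combination -this
    · push_cast; rw [hQ]; ring
    · push_cast; rw [hq, hQ]
      rw [one_div_neg_eq_neg_one_div]

/-- no run longer than one step -/
theorem no_two (h : IsRCycle B r n) (hPP : PP B p k N) (hR : Runs p ((p : ℚ) ^ k) r n s u)
    {i : ℕ} (hs : s i = true) (hu : 2 ≤ u i) : False := by
  obtain ⟨hs1, hu1⟩ := hR.down i (by omega)
  obtain ⟨z, hz, ⟨M, hM⟩, hz2, hq⟩ := h.q_down hPP hR hs (by omega)
  obtain ⟨z', hz', ⟨M', hM'⟩, hz2', hq'⟩ := h.q_down hPP hR (i := i + 1) (by rw [hs1]; exact hs)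
    (by omega)
  have hB0 : B ≠ 0 := by
    intro h0
    have h1 := hPP.nB
    rw [h0, padicNorm.zero] at h1
    have : (0 : ℚ) < (p : ℚ) ^ k := by
      have := hp.out.pos
      positivity
    linarith
  have hzz : z' = z ∨ z' = -z := by
    apply sq_eq_sq_iff_eq_or_eq_neg.1
    have : ((z' ^ 2 : ℤ) : ℚ) = ((z ^ 2 : ℤ) : ℚ) := by push_cast; rw [hz2, hz2']
    exact_mod_cast this
  have hz0 : (z : ℚ) ≠ 0 := by
    have : z ≠ 0 := by omega
    exact_mod_cast this
  rcases hzz with rfl | rfl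
  · have h1 : r i = r (i + 1) := h.eq_of_q hB0 (by rw [hq, hq'])
    have h2 : r (i + 1) / r i = 1 := by rw [← h1, div_self (h.ne i)]
    rw [h2] at hq
    have h3 : (z' : ℚ) = 1 := by
      field_simp at hq
      exact hq
    have h4 : z' = 1 := by exact_mod_cast h3
    omega
  · have h1 := h.edge i hq (q' := -(1 / (z : ℚ))) (by
      rw [show i + 2 = i + 1 + 1 by ring, hq']
      push_cast
      rw [one_div_neg_eq_neg_one_div])
    exact rat_F hz hM h1

/-- no run of length one, entering from a large value -/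
theorem no_one (h : IsRCycle B r n) (hPP : PP B p k N) (hR : Runs p ((p : ℚ) ^ k) r n s u)
    {j : ℕ} (hs : s j = false) (hu : u j = 0) (hu1 : u (j + 1) = 1) : False := by
  have hpp := hp.out
  set Q : ℚ := (p : ℚ) ^ k with hQ
  have hQ1 : 1 < Q := one_lt_pow₀ (by exact_mod_cast hpp.one_lt) hPP.kpos.ne'
  have hQ0 : 0 < Q := by linarith
  obtain ⟨e1, e2⟩ := hR.turn_large hs hu
  rw [hu1] at e2
  have hs1 : s (j + 1) = true := by rw [hR.turn j hu, hs]; rfl
  obtain ⟨z, hz, ⟨M, hM⟩, hz2, hq'⟩ := h.q_down hPP hR (i := j + 1) hs1 (by omega)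
  rw [show j + 1 + 1 = j + 2 by ring] at hq'
  have hz0 : (z : ℚ) ≠ 0 := by
    have : z ≠ 0 := by omega
    exact_mod_cast this
  have hq : r (j + 1) / r j = (z : ℚ) ^ 3 ∨ r (j + 1) / r j = -(z : ℚ) ^ 3 := by
    apply h.q_eq hPP (by positivity)
    · intro l hl hlp
      have : Fact l.Prime := ⟨hl⟩
      have h1 : padicNorm l (z : ℚ) ^ 2 = 1 := by
        rw [← Pool.Agent.H97.norm_pow, hz2, Pool.Agent.H97.norm_pow, norm_pk hpp hl hlp, one_pow]
      have h2 : padicNorm l (z : ℚ) = 1 := by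
        have h3 := padicNorm.nonneg (p := l) (z : ℚ)
        exact (pow_eq_one_iff_of_nonneg h3 two_ne_zero).1 h1
      rw [Pool.Agent.H97.norm_pow, h2, one_pow]
    · have h1 : padicNorm p (z : ℚ) ^ 2 = (1 / Q) ^ 2 := by
        rw [← Pool.Agent.H97.norm_pow, hz2, Pool.Agent.H97.norm_pow, norm_Q]
      have h2 : padicNorm p (z : ℚ) = 1 / Q :=
        sq_inj_nonneg (padicNorm.nonneg _) (by positivity) h1
      rw [Pool.Agent.H97.norm_pow, h2, e1]
      field_simp
      linear_combination e2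
  rcases hq with hq | hq
  · exact rat_P hz hM (h.edge j hq hq')
  · exact rat_R hz hM (h.edge j hq hq')

theorem all_zero (h : IsRCycle B r n) (hPP : PP B p k N) (hR : Runs p ((p : ℚ) ^ k) r n s u)
    (i : ℕ) : u i = 0 := by
  have hpp := hp.out
  set Q : ℚ := (p : ℚ) ^ k with hQ
  have hQ1 : 1 < Q := one_lt_pow₀ (by exact_mod_cast hpp.one_lt) hPP.kpos.ne'
  have hRd := hR.dual hQ1 h.ne
  have h2 : ∀ i, u i < 2 := by
    intro i
    by_contra hcon
    push Not at hcon
    cases hs : s i with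
    | true => exact h.no_two hPP hR hs hcon
    | false => exact h.dual.no_two hPP.neg hRd (i := i) (by simp [hs]) hcon
  by_contra hne
  have h1 : u i = 1 := by have := h2 i; omega
  have hn := h.pos
  obtain ⟨j, hj⟩ : ∃ j, j + 1 = i + n := ⟨i + n - 1, by omega⟩
  have hj1 : u (j + 1) = 1 := by rw [hj, (hR.per i).2, h1]
  have hj0 : u j = 0 := by
    by_contra hcon
    have h3 := (hR.down j (by omega)).2
    have := h2 j
    omega
  cases hs : s j with
  | true => exact h.dual.no_one hPP.neg hRd (j := j) (by simp [hs]) hj0 hj1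
  | false => exact h.no_one hPP hR hs hj0 hj1

theorem two_of_PP (h : IsRCycle B r n) (hPP : PP B p k N) (hne : r 1 ≠ r 0) : r 2 = r 0 := by
  have hpp := hp.out
  set Q : ℚ := (p : ℚ) ^ k with hQ
  have hQ1 : 1 < Q := one_lt_pow₀ (by exact_mod_cast hpp.one_lt) hPP.kpos.ne'
  have hQ0 : 0 < Q := by linarith
  obtain ⟨s, u, hR⟩ := h.exists_runs hQ1 hPP.nB hne
  have hu := h.all_zero hPP hR
  have hB0 : B ≠ 0 := by
    intro h0
    have h1 := hPP.nB
    rw [h0, padicNorm.zero] at h1
    linarith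
  have hsame : ∀ i, s i = true → r (i + 1) / r i = -(1 / Q ^ 2) := by
    intro i hi
    obtain ⟨e1, e2⟩ := hR.turn_small hi (hu i)
    have hi1 : s (i + 1) = false := by rw [hR.turn i (hu i), hi]; rfl
    obtain ⟨e3, e4⟩ := hR.turn_large hi1 (hu (i + 1))
    rw [hu] at e2 e4
    rw [zero_add, pow_one] at e2 e4
    have h0 : 0 < padicNorm p (r i) := norm_pos (h.ne i)
    have hq : r (i + 1) / r i = 1 / Q ^ 2 ∨ r (i + 1) / r i = -(1 / Q ^ 2) := by
      apply h.q_eq hPP (by positivity)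
      · intro l hl hlp
        have : Fact l.Prime := ⟨hl⟩
        rw [padicNorm.div, padicNorm.one, Pool.Agent.H97.norm_pow, hQ, norm_pk hpp hl hlp, one_pow, div_one]
      · rw [padicNorm.div, padicNorm.one, Pool.Agent.H97.norm_pow, hQ, norm_Q, ← hQ, e2]
        have : padicNorm p (r i) = 1 / Q := by field_simp; exact e1
        rw [this]
        field_simp
    have hq' : r (i + 2) / r (i + 1) = Q ^ 2 ∨ r (i + 2) / r (i + 1) = -Q ^ 2 := by
      apply h.q_eq (i := i + 1) hPP (by positivity)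
      · intro l hl hlp
        have : Fact l.Prime := ⟨hl⟩
        rw [Pool.Agent.H97.norm_pow, hQ, norm_pk hpp hl hlp, one_pow]
      · rw [Pool.Agent.H97.norm_pow, hQ, norm_Q, ← hQ, e2]
        have : padicNorm p (r (i + 1 + 1)) = 1 / Q := by field_simp; exact e4
        rw [this]
        field_simp
    rcases hq with hq | hq
    · exfalso
      exact rat_T hQ1 hq' (h.edge i hq rfl)
    · exact hq
  have hstep : ∀ i, s i = true → r (i + 2) = r i := by
    intro i hi
    have hi2 : s (i + 2) = true := by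
      rw [show i + 2 = i + 1 + 1 by ring, hR.turn (i + 1) (hu _), hR.turn i (hu _), hi]; rfl
    apply h.eq_of_q hB0
    rw [show i + 2 + 1 = (i + 2) + 1 by ring, hsame (i + 2) hi2, hsame i hi]
  cases hs : s 0 with
  | true => exact hstep 0 hs
  | false =>
    have h1 : s 1 = true := by rw [show (1 : ℕ) = 0 + 1 by rfl, hR.turn 0 (hu _), hs]; rfl
    have h3 := hstep 1 h1
    have hall : ∀ j, r (j + 1 + 2) = r (j + 1) := by
      intro j
      induction j with
      | zero => exact h3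
      | succ j ih =>
        have := h.next_of_eq ih
        rw [show j + 1 + 1 + 2 = j + 1 + 2 + 1 by ring]
        exact this
    obtain ⟨m, rfl⟩ : ∃ m, n = m + 1 := ⟨n - 1, by have := h.pos; omega⟩
    have h4 := hall m
    have h5 := h.per 2
    have h6 := h.per 0
    rw [zero_add] at h6
    rw [show m + 1 + 2 = 2 + (m + 1) by ring, h5, h6] at h4
    exact h4

omit hp in
/-- **Prime power denominator**: `r 2 = r 0`. -/
theorem two_of_den (h : IsRCycle B r n) {p k : ℕ} (hp : p.Prime) (hden : B.den = p ^ k) :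
    r 2 = r 0 := by
  have : Fact p.Prime := ⟨hp⟩
  by_cases hne : r 1 = r 0
  · have h1 := h.next_of_eq (i := 1) (j := 0) hne
    rw [show (1 : ℕ) + 1 = 2 by rfl, show (0 : ℕ) + 1 = 1 by rfl] at h1
    rw [h1, hne]
  have hle : ∀ l : ℕ, l.Prime → ¬ l ∣ B.den → padicNorm l B ≤ 1 := by
    intro l hl hd
    have : Fact l.Prime := ⟨hl⟩
    have h4 : padicNorm l B = padicNorm l (B.num : ℚ) / padicNorm l (B.den : ℚ) := by
      rw [← padicNorm.div, Rat.num_div_den]
    rw [h4, (padicNorm.nat_eq_one_iff B.den).2 hd, div_one]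
    exact padicNorm.of_int _
  rcases Nat.eq_zero_or_pos k with hk | hk
  · have hq : ∀ i, r (i + 1) / r i = 1 ∨ r (i + 1) / r i = -1 := by
      intro i
      apply eq_or_neg_of_norms (div_ne_zero (h.ne (i + 1)) (h.ne i)) one_ne_zero
      intro l hl
      have : Fact l.Prime := ⟨hl⟩
      rw [padicNorm.one]
      apply h.norm_const'
      apply hle l hl
      rw [hden, hk, pow_zero]
      intro hd
      exact hl.one_lt.not_ge (Nat.le_of_dvd one_pos hd)
    have hq1 : ∀ i, r (i + 1) / r i = -1 := by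
      intro i
      rcases hq i with h1 | h1
      · exfalso
        have h2 : r (i + 1) = r i := by rw [div_eq_one_iff_eq (h.ne i)] at h1; exact h1
        have hall : ∀ j, r (i + j + 1) = r (i + j) := by
          intro j
          induction j with
          | zero => exact h2
          | succ j ih =>
            have := h.next_of_eq ih
            rw [show i + (j + 1) + 1 = i + j + 1 + 1 by ring, this]
            rfl
        -- pick j with i + j = i * n
        obtain ⟨j, hj⟩ : ∃ j, i + j = 0 + i * n := by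
          refine ⟨i * n - i, ?_⟩
          have : i * 1 ≤ i * n := Nat.mul_le_mul_left i h.pos
          omega
        have h3 := hall j
        have h4 : r (i + j) = r 0 := by rw [hj]; exact h.per_mul 0 i
        have h5 : r (i + j + 1) = r 1 := by
          rw [hj, show 0 + i * n + 1 = 1 + i * n by ring]
          exact h.per_mul 1 i
        rw [h4, h5] at h3
        exact hne h3
      · exact h1
    have e1 := hq1 0
    have e2 := hq1 1
    rw [zero_add] at e1
    rw [show (1 : ℕ) + 1 = 2 by rfl] at e2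
    rw [div_eq_iff (h.ne 0)] at e1
    rw [div_eq_iff (h.ne 1)] at e2
    rw [e2, e1]
    ring
  · have hpd : ¬ (p : ℤ) ∣ B.num := by
      intro hd
      have h5 := Nat.dvd_gcd (Int.natCast_dvd.1 hd)
        (show p ∣ B.den by rw [hden]; exact dvd_pow_self p hk.ne')
      rw [B.reduced] at h5
      exact hp.one_lt.not_ge (Nat.le_of_dvd one_pos h5)
    have hPP : PP B p k B.num := by
      refine ⟨hk, ?_, ?_, fun l hl hlp => hle l hl ?_⟩
      · have h1 := Rat.mul_den_eq_num B
        rw [hden] at h1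
        push_cast at h1
        exact h1
      · have h4 : padicNorm p B = padicNorm p (B.num : ℚ) / padicNorm p (B.den : ℚ) := by
          rw [← padicNorm.div, Rat.num_div_den]
        rw [h4, (padicNorm.int_eq_one_iff B.num).2 hpd, hden]
        push_cast
        rw [norm_Q, one_div_one_div]
      · rw [hden]
        intro hd
        exact hlp ((Nat.prime_dvd_prime_iff_eq hl hp).1 (hl.dvd_of_dvd_pow hd))
    exact h.two_of_PP hPP hne

end IsRCycle

/-- **Prime power denominator of `2 b`**: all periods are `1`, `2` or `4`. -/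
theorem mem124_of_den {b c : ℚ} (hc : c ≠ 0) {x : ℕ → ℚ} {n : ℕ} (h : IsCycle b c x n)
    {p k : ℕ} (hp : p.Prime) (hden : (2 * b).den = p ^ k) :
    Function.minimalPeriod (mf b c) (some (x 0)) ∈ ({1, 2, 4} : Finset ℕ) := by
  by_cases h1 : x 1 = x 0 ∨ x 1 = -x 0
  · have := h.mem12 h1
    simp only [Finset.mem_insert, Finset.mem_singleton] at this ⊢
    omega
  · push Not at h1
    have hR := toR h h1.1 h1.2
    have h2 := hR.two_of_den hp hden
    apply h.mem124
    have e0 := sub_ne h h1.1 0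
    have e0' := add_ne h h1.2 0
    have e2 := sub_ne h h1.1 2
    have e2' := add_ne h h1.2 2
    simp only [zero_add] at h2 e0 e0'
    rw [show (2 : ℕ) + 1 = 3 by rfl] at h2 e2 e2'
    rw [div_eq_div_iff e2' e0'] at h2
    have n0 := h.next 0
    have n2 := h.next 2
    rw [zero_add] at n0
    rw [show (2 : ℕ) + 1 = 3 by rfl] at n2
    have z0 := h.ne 0
    have z2 := h.ne 2
    have e3 : x 3 * x 0 = x 1 * x 2 := by linear_combination (1 / 2) * h2
    have e4 : c * x 0 ^ 2 = c * x 2 ^ 2 := by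
      have m0 : x 1 * x 0 = b * x 0 ^ 2 + c := by rw [n0]; field_simp
      have m2 : x 3 * x 2 = b * x 2 ^ 2 + c := by rw [n2]; field_simp
      linear_combination x 0 * x 2 * e3 - x 0 ^ 2 * m2 + x 2 ^ 2 * m0
    have e5 : x 2 ^ 2 = x 0 ^ 2 := (mul_left_cancel₀ hc e4).symm
    rcases sq_eq_sq_iff_eq_or_eq_neg.1 e5 with h3 | h3
    · have h4 : x 4 = x 2 := h.next_eq_of_eq (h.next_eq_of_eq (i := 2) (j := 0) h3)
      rw [h4, h3]
    · have h4 : x 4 = -x 2 := h.next_eq_of_neg (h.next_eq_of_neg (i := 2) (j := 0) h3)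
      rw [h4, h3, neg_neg]

end Pool.Agent.H24.FP
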