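import Pool.Agent.H24.FP.N2Main
import Pool.Agent.H24.FP.RMain

/-!
# Numerators with at most two prime factors: the exact periods
-/

set_option autoImplicit false

namespace Pool.Agent.H24.FP

open Pool.Agent.H97

theorem exists_prime_pow {n : ℕ} (h0 : n ≠ 0) (h : n.primeFactors.card ≤ 1) :
    ∃ q k : ℕ, q.Prime ∧ n = q ^ k := by
  rcases Nat.eq_zero_or_pos n.primeFactors.card with h1 | h1
  · rw [Finset.card_eq_zero, Nat.primeFactors_eq_empty] at h1
    exact ⟨2, 0, Nat.prime_two, by rw [pow_zero]; omega⟩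
  · have h2 : n.primeFactors.card = 1 := by omega
    rw [← isPrimePow_iff_card_primeFactors_eq_one, isPrimePow_nat_iff] at h2
    obtain ⟨q, k, hq, _, hk⟩ := h2
    exact ⟨q, k, hq, hk.symm⟩

theorem exists_two_prime_pow {n : ℕ} (h0 : n ≠ 0) (h : n.primeFactors.card = 2) :
    ∃ p l v w : ℕ, p.Prime ∧ l.Prime ∧ p ≠ l ∧ 0 < v ∧ 0 < w ∧ n = p ^ v * l ^ w := by
  obtain ⟨p, l, hpl, hS⟩ := Finset.card_eq_two.1 h
  have hp : p ∈ n.primeFactors := by rw [hS]; simp
  have hl : l ∈ n.primeFactors := by rw [hS]; simp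
  have hp' := Nat.mem_primeFactors.1 hp
  have hl' := Nat.mem_primeFactors.1 hl
  refine ⟨p, l, n.factorization p, n.factorization l, hp'.1, hl'.1, hpl,
    hp'.1.factorization_pos_of_dvd h0 hp'.2.1, hl'.1.factorization_pos_of_dvd h0 hl'.2.1, ?_⟩
  have h1 := Nat.prod_factorization_pow_eq_self h0
  rw [Finsupp.prod, Nat.support_factorization, hS, Finset.prod_pair hpl] at h1
  exact h1.symm

/-- `t 2 = t 0` gives the period -/
theorem mem124_of_t {b c : ℚ} {x : ℕ → ℚ} {n : ℕ} (hc : c ≠ 0) (hx : IsCycle b c x n)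
    (h2 : x 2 ^ 2 / c = x 0 ^ 2 / c) :
    Function.minimalPeriod (mf b c) (some (x 0)) ∈ ({1, 2, 4} : Finset ℕ) := by
  apply hx.mem124
  have hx2 : x 2 = x 0 ∨ x 2 = -x 0 := IsCycle.eq_or_neg_of_t hc h2
  rcases hx2 with h3 | h3
  · have h4 : x 4 = x 2 := hx.next_eq_of_eq (hx.next_eq_of_eq (i := 2) (j := 0) h3)
    rw [h4, h3]
  · have h4 : x 4 = -x 2 := hx.next_eq_of_neg (hx.next_eq_of_neg (i := 2) (j := 0) h3)
    rw [h4, h3, neg_neg]

theorem mem124_of_num {b c : ℚ} {x : ℕ → ℚ} {n : ℕ} (hb : b ≠ 0) (hc : c ≠ 0)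
    (hx : IsCycle b c x n) (hcard : b.num.natAbs.primeFactors.card ≤ 2) :
    Function.minimalPeriod (mf b c) (some (x 0)) ∈ ({1, 2, 4} : Finset ℕ) := by
  have hn0 : b.num.natAbs ≠ 0 := by rw [Int.natAbs_ne_zero]; exact Rat.num_ne_zero.2 hb
  rcases Nat.lt_or_ge b.num.natAbs.primeFactors.card 2 with h1 | h1
  · obtain ⟨q, m, hq, hnum⟩ := exists_prime_pow (n := b.num.natAbs) hn0 (by omega)
    exact mem124_of_t hc hx ((hx.toT hc).two_of_prime_pow hq hnum)
  · obtain ⟨p, l, v, w, hp, hl, hpl, hv, hw, hnum⟩ := exists_two_prime_pow hn0 (by omega)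
    rcases lt_or_gt_of_ne (mul_ne_zero hb hc) with hbc | hbc
    · have hxx : ∀ i, 0 < x i ^ 2 := fun i => by
        have := hx.ne i
        positivity
      apply mem124_of_t hc hx
      rcases lt_or_gt_of_ne hb with hb' | hb'
      · -- `b < 0 < c`
        have hc' : 0 < c := by
          by_contra hcon
          push Not at hcon
          nlinarith
        have hN : N2.Num (-b) p l v w :=
          ⟨hp, hl, hpl, hv, hw, by
            have h2 : (b.num.natAbs : ℤ) = -b.num := by
              rw [Int.natCast_natAbs, abs_of_neg (Rat.num_neg.2 hb')]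
            rw [Rat.num_neg_eq_neg_num, ← h2, hnum]
            push_cast; rfl⟩
        have hneg : N2.Neg (-b) (fun i => -(x i ^ 2 / c)) n :=
          { N2.neg_cycle (hx.toT hc) with
            hb := by linarith
            ht := fun i => by
              have := div_pos (hxx i) hc'
              show -(x i ^ 2 / c) < 0
              linarith }
        have h3 : -(x 2 ^ 2 / c) = -(x 0 ^ 2 / c) := N2.two_neg hneg hN
        linarith
      · have hc' : c < 0 := by
          by_contra hcon
          push Not at hcon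
          nlinarith
        have hN : N2.Num b p l v w :=
          ⟨hp, hl, hpl, hv, hw, by
            have h2 : (b.num.natAbs : ℤ) = b.num := by
              rw [Int.natCast_natAbs, abs_of_pos (Rat.num_pos.2 hb')]
            rw [← h2, hnum]
            push_cast; rfl⟩
        have hneg : N2.Neg b (fun i => x i ^ 2 / c) n :=
          { hx.toT hc with
            hb := hb'
            ht := fun i => div_neg_of_pos_of_neg (hxx i) hc' }
        exact N2.two_neg hneg hN
    · have h1 := hx.mem12 (hx.real hbc)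
      simp only [Finset.mem_insert, Finset.mem_singleton] at h1 ⊢
      omega

end Pool.Agent.H24.FP
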