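import Mathlib

/-!
# Integer lemmas for numerators with two prime factors
-/

set_option autoImplicit false

namespace Pool.Agent.H24.FP.N2

variable {x y D m X : ℤ}

theorem i1 (hx : 2 ≤ x) (hy : 2 ≤ y) (hD : 1 ≤ D) (hm : 1 ≤ m) (hX : 1 ≤ X) {a b : ℕ}
    (h1 : m * x ^ (2 * a + 2) * y ^ (2 * b + 2) = 1 + D)
    (h2 : m * x ^ (2 * a) * y ^ (2 * b) = 1 + D * X) : False := by
  set q := m * x ^ (2 * a) * y ^ (2 * b) with hq
  have hq1 : 1 ≤ q := by rw [h2]; nlinarith only [hD, hX]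
  have e1 : m * x ^ (2 * a + 2) * y ^ (2 * b + 2) = q * (x ^ 2 * y ^ 2) := by rw [hq]; ring
  rw [e1] at h1
  have h3 : 16 ≤ x ^ 2 * y ^ 2 := by nlinarith [mul_le_mul hx hy (by norm_num) (by linarith)]
  nlinarith only [hD, hX, h1, h2, h3, hq1]

theorem i2 (hx : 2 ≤ x) (hy : 2 ≤ y) (hD : 1 ≤ D) (hX : 1 ≤ X) {e e' : ℤ}
    (he : e = 1 ∨ e = -1) (he' : e' = 1 ∨ e' = -1)
    (h1 : x ^ 2 = e * D + m * y ^ 2) (h2 : m = 1 + D * X)
    (h3 : x ^ 2 * y ^ 2 * X ^ 2 = e' * D + m) : False := by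
  subst h2
  have k1 : D * (X * y ^ 2 - 1) ≤ x ^ 2 - y ^ 2 := by
    rcases he with rfl | rfl <;> nlinarith
  have k2 : x ^ 2 * y ^ 2 * X ^ 2 - 1 ≤ D * (X + 1) := by
    rcases he' with rfl | rfl <;> nlinarith
  have ha : 4 ≤ x ^ 2 := by nlinarith
  have hc : 4 ≤ y ^ 2 := by nlinarith only [hy]
  have hXc : 3 * X ≤ X * y ^ 2 - 1 := by nlinarith only [hc, hX]
  have k3 : (x ^ 2 * y ^ 2 * X ^ 2 - 1) * (X * y ^ 2 - 1) ≤ (X + 1) * (x ^ 2 - y ^ 2) := by
    have h4 := mul_le_mul_of_nonneg_right k2 (show (0 : ℤ) ≤ X * y ^ 2 - 1 by nlinarith only [hX, hXc])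
    have h5 := mul_le_mul_of_nonneg_right k1 (show (0 : ℤ) ≤ X + 1 by linarith)
    nlinarith only [h4, h5]
  have k4 : 3 * x ^ 2 * X ^ 2 ≤ x ^ 2 * y ^ 2 * X ^ 2 - 1 := by
    have : 1 ≤ x ^ 2 * X ^ 2 := by nlinarith only [sq_nonneg X, pow_pos (show 0 < X by linarith) 2, hX, ha]
    nlinarith only [mul_le_mul_of_nonneg_left hc (show (0 : ℤ) ≤ x ^ 2 * X ^ 2 by positivity), hX, hc, ha, this]
  have k5 : 3 * x ^ 2 * X ^ 2 * (3 * X) ≤ (x ^ 2 * y ^ 2 * X ^ 2 - 1) * (X * y ^ 2 - 1) :=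
    mul_le_mul k4 hXc (by positivity) (by nlinarith only [sq_nonneg X, k4])
  have k6 : (X + 1) * (x ^ 2 - y ^ 2) ≤ (X + 1) * x ^ 2 :=
    mul_le_mul_of_nonneg_left (by linarith [sq_nonneg y]) (by linarith)
  have k7 : 1 ≤ X ^ 2 := by nlinarith only [hX]
  have k8 : X ≤ X ^ 2 * X := by nlinarith only [hD, k1, k2, hc, hXc, k4, k7, hX]
  nlinarith only [mul_le_mul_of_nonneg_left k8 (show (0 : ℤ) ≤ x ^ 2 by positivity), hX, ha, hc, hXc, k3, k5, k8]

theorem i3 (hx : 2 ≤ x) (hy : 2 ≤ y) (hD : 1 ≤ D) (hX : 1 ≤ X) {e e' : ℤ}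
    (he : e = 1 ∨ e = -1) (he' : e' = 1 ∨ e' = -1)
    (h1 : x ^ 2 * y ^ 2 = e * D + m) (h2 : m = 1 + D * X)
    (h3 : x ^ 2 * y ^ 2 * X ^ 2 = e' * D + m) : X = 1 := by
  by_contra hne
  have hX2 : 2 ≤ X := by omega
  subst h2
  set n := x ^ 2 * y ^ 2 with hn
  have hn16 : 16 ≤ n := by nlinarith [mul_le_mul hx hy (by norm_num) (by linarith)]
  have k1 : D * (X - 1) ≤ n - 1 := by
    rcases he with rfl | rfl <;> nlinarith
  have k2 : n * X ^ 2 - 1 ≤ D * (X + 1) := by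
    rcases he' with rfl | rfl <;> nlinarith
  have k3 : (n * X ^ 2 - 1) * (X - 1) ≤ (n - 1) * (X + 1) := by
    have h4 := mul_le_mul_of_nonneg_right k2 (show (0 : ℤ) ≤ X - 1 by linarith)
    have h5 := mul_le_mul_of_nonneg_right k1 (show (0 : ℤ) ≤ X + 1 by linarith)
    nlinarith only [h4, h5]
  have k4 : 1 ≤ X ^ 3 - X ^ 2 - X - 1 := by
    obtain ⟨t, rfl⟩ : ∃ t, X = t + 2 := ⟨X - 2, by ring⟩
    have : 0 ≤ t := by linarith
    nlinarith only [pow_nonneg this 2, pow_nonneg this 3, hX2, hX]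
  nlinarith only [mul_le_mul_of_nonneg_left k4 (show (0 : ℤ) ≤ n by linarith), hD, hX2, k2, k4, k1, hX]

theorem not_sq_between {s t : ℤ} (h1 : t ^ 2 < s ^ 2) (h2 : s ^ 2 < (t + 1) ^ 2) (ht : 0 ≤ t) :
    False := by
  rcases le_or_gt 0 s with h | h
  · have a1 : t < s := by nlinarith only [h1, h2, h]
    have a2 : s < t + 1 := by nlinarith only [h2, a1, h1, h]
    omega
  · have a1 : t < -s := by nlinarith only [h1, h2, h]
    have a2 : -s < t + 1 := by nlinarith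
    omega

theorem i4core (hx : 2 ≤ x) (hy : 2 ≤ y) {e : ℤ} (he : e = 1 ∨ e = -1)
    (hbig : x * y - 1 ≤ D) {j : ℕ} (hj : 2 ≤ j)
    (h1 : D * (y ^ 2 + e) = x ^ 2 - y ^ 2) (h2 : D * (1 + y ^ j) = x ^ 2 * y ^ 2 - 1) : False := by
  have hc : 4 ≤ y ^ 2 := by nlinarith only [hy]
  have hD : 3 ≤ D := by nlinarith only [hx, hy, hbig]
  have hxy : y < x := by
    by_contra hcon
    push Not at hcon
    have : x ^ 2 ≤ y ^ 2 := by nlinarith only [hcon, hx, hy]
    rcases he with rfl | rfl <;> nlinarith only [hc, hD, this, h1]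
  have key : (x ^ 2 * y ^ 2 - 1) * (y ^ 2 + e) = (x ^ 2 - y ^ 2) * (1 + y ^ j) := by
    rw [← h1, ← h2]; ring
  have hac : y ^ 2 < x ^ 2 := by nlinarith only [hy, hxy, hx]
  have ha : 9 ≤ x ^ 2 := by nlinarith only [hy, hxy, hx]
  rcases Nat.lt_or_ge j 5 with hj5 | hj5
  · interval_cases j
    · -- j = 2
      have k1 : (x ^ 2 * y ^ 2 - 1) * (y ^ 2 - 1) ≤ (x ^ 2 * y ^ 2 - 1) * (y ^ 2 + e) := by
        apply mul_le_mul_of_nonneg_left
        · rcases he with rfl | rfl <;> linarith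
        · nlinarith only [ha, hc]
      nlinarith [mul_le_mul_of_nonneg_left (show (7 : ℤ) ≤ y ^ 2 * y ^ 2 - 2 * y ^ 2 - 1 by nlinarith only [hc])
        (show (0 : ℤ) ≤ x ^ 2 by positivity)]
    · -- j = 3
      have k1 : (x ^ 2 * y ^ 2 - 1) * (y ^ 2 - 1) ≤ (x ^ 2 * y ^ 2 - 1) * (y ^ 2 + e) := by
        apply mul_le_mul_of_nonneg_left
        · rcases he with rfl | rfl <;> linarith
        · nlinarith only [ha, hc]
      have k2 : (3 : ℤ) ≤ y ^ 4 - y ^ 2 - 1 - y ^ 3 := by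
        obtain ⟨t, rfl⟩ : ∃ t, y = t + 2 := ⟨y - 2, by ring⟩
        have : 0 ≤ t := by linarith
        nlinarith [pow_nonneg this 2, pow_nonneg this 3, pow_nonneg this 4]
      nlinarith only [mul_le_mul_of_nonneg_left k2 (show (0 : ℤ) ≤ x ^ 2 by positivity),
        pow_pos (show 0 < y by linarith) 3, hy, hc, hxy, key, k1, k2, hx]
    · -- j = 4
      rcases he with rfl | rfl
      · have : x ^ 2 * (y ^ 2 - 1) = 1 - y ^ 6 := by linear_combination key
        have : 0 < x ^ 2 * (y ^ 2 - 1) := by apply mul_pos <;> nlinarith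
        have : 1 ≤ y ^ 6 := one_le_pow₀ (by linarith)
        linarith
      · have h3 : (y ^ 2 + 1) * (x ^ 2 - (y ^ 4 - y ^ 2 + 1)) = 0 := by linear_combination -key
        rcases mul_eq_zero.1 h3 with h4 | h4
        · nlinarith only [h4]
        · apply not_sq_between (s := x) (t := y ^ 2 - 1) _ _ (by nlinarith only [hc])
          · nlinarith only [hc, h4]
          · nlinarith only [hc, h4]
  · -- j ≥ 5
    have h2y : 2 * y < x := by
      by_contra hcon
      push Not at hcon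
      have k1 : (x * y - 1) * (y ^ 2 - 1) ≤ x ^ 2 - y ^ 2 := by
        rw [← h1]
        apply mul_le_mul hbig _ (by nlinarith only [hc]) (by linarith)
        rcases he with rfl | rfl <;> linarith
      have k2 : x ^ 2 ≤ 4 * y ^ 2 := by nlinarith only [hcon, hx, hy]
      have k3 : (y + 1) * y ≤ x * y := mul_le_mul_of_nonneg_right (by omega) (by linarith)
      have k4 : ((y + 1) * y - 1) * (y ^ 2 - 1) ≤ (x * y - 1) * (y ^ 2 - 1) :=
        mul_le_mul_of_nonneg_right (by linarith) (by linarith)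
      obtain ⟨t, rfl⟩ : ∃ t, y = t + 2 := ⟨y - 2, by ring⟩
      have : 0 ≤ t := by linarith
      nlinarith only [pow_nonneg this 2, pow_nonneg this 3, pow_nonneg this 4, hxy, k1, k2, k4, hy, hc, hx]
    have k5 : 4 * y ^ 2 < x ^ 2 := by nlinarith only [hy, h2y, hx]
    have k6 : y ^ 5 ≤ y ^ j := pow_le_pow_right₀ (by linarith) hj5
    have k7 : (x ^ 2 * y ^ 2 - 1) * (y ^ 2 + e) ≤ x ^ 2 * (y ^ 4 + y ^ 2) := by
      have a1 : (x ^ 2 * y ^ 2 - 1) * (y ^ 2 + e) ≤ (x ^ 2 * y ^ 2 - 1) * (y ^ 2 + 1) := by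
        apply mul_le_mul_of_nonneg_left
        · rcases he with rfl | rfl <;> linarith
        · nlinarith only [hc, k5]
      nlinarith only [hc, a1]
    have k8 : (x ^ 2 - y ^ 2) * (1 + y ^ 5) ≤ (x ^ 2 - y ^ 2) * (1 + y ^ j) :=
      mul_le_mul_of_nonneg_left (by linarith) (by linarith)
    have k9 : 4 * (y ^ 4 + y ^ 2) < 3 * (1 + y ^ 5) := by
      obtain ⟨t, rfl⟩ : ∃ t, y = t + 2 := ⟨y - 2, by ring⟩
      have : 0 ≤ t := by linarith
      nlinarith [pow_nonneg this 2, pow_nonneg this 3, pow_nonneg this 4, pow_nonneg this 5]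
    have k10 : 3 * x ^ 2 < 4 * (x ^ 2 - y ^ 2) := by linarith
    have k11 : 3 * x ^ 2 * (1 + y ^ 5) < 4 * (x ^ 2 - y ^ 2) * (1 + y ^ 5) :=
      mul_lt_mul_of_pos_right k10 (by positivity)
    have k12 : x ^ 2 * (4 * (y ^ 4 + y ^ 2)) < x ^ 2 * (3 * (1 + y ^ 5)) :=
      mul_lt_mul_of_pos_left k9 (by positivity)
    linarith

theorem i4 (hx : 2 ≤ x) (hy : 2 ≤ y) {e e' : ℤ} (he : e = 1 ∨ e = -1)
    (he' : e' = 1 ∨ e' = -1) (hbig : x * y - 1 ≤ D) {A j : ℕ} {M : ℤ} (hj : 2 ≤ j)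
    (h1 : x ^ 2 = e * D + M * y ^ 2) (h2 : M = 1 + D * x ^ A)
    (h3 : x ^ (2 * A + 2) * y ^ 2 = e' * D * y ^ j + M) : False := by
  have hD : 3 ≤ D := by nlinarith only [hx, hy, hbig]
  subst h2
  rcases Nat.eq_zero_or_pos A with hA | hA
  · subst hA
    rw [pow_zero, mul_one] at h1 h3
    have h4 : D * (1 + e' * y ^ j) = x ^ 2 * y ^ 2 - 1 := by
      rw [mul_zero, zero_add] at h3
      linear_combination -h3
    have hpos : 0 < x ^ 2 * y ^ 2 - 1 := by
      have : 16 ≤ x ^ 2 * y ^ 2 := by nlinarith [mul_le_mul hx hy (by norm_num) (by linarith)]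
      linarith
    have hyj : 4 ≤ y ^ j := by
      calc (4 : ℤ) ≤ y ^ 2 := by nlinarith only [hy]
        _ ≤ y ^ j := pow_le_pow_right₀ (by linarith) hj
    rcases he' with rfl | rfl
    · refine i4core hx hy he hbig hj (e := e) (D := D) ?_ ?_
      · linear_combination -h1
      · rw [one_mul] at h4; exact h4
    · exfalso
      nlinarith only [hD, hpos, hyj, h4]
  · have hxA : x ≤ x ^ A := by
      calc x = x ^ 1 := (pow_one x).symm
        _ ≤ x ^ A := pow_le_pow_right₀ (by linarith) hA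
    have k1 : D * (x * y ^ 2 - 1) ≤ x ^ 2 := by
      have a1 : D * (x ^ A * y ^ 2) ≤ x ^ 2 - y ^ 2 + D := by
        rcases he with rfl | rfl <;> nlinarith
      have a2 : D * (x * y ^ 2) ≤ D * (x ^ A * y ^ 2) :=
        mul_le_mul_of_nonneg_left (mul_le_mul_of_nonneg_right hxA (by positivity)) (by linarith)
      nlinarith only [sq_nonneg y, a1, a2]
    have k2 : (x * y - 1) * (x * y ^ 2 - 1) ≤ D * (x * y ^ 2 - 1) :=
      mul_le_mul_of_nonneg_right hbig (by nlinarith only [hy, hx])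
    have k3 : x ≤ x * y - 1 := by nlinarith only [hx, hy]
    have k4 : 2 * x ≤ x * y ^ 2 - 1 := by nlinarith only [hy, hx, k3]
    have k5 : x * (2 * x) ≤ (x * y - 1) * (x * y ^ 2 - 1) :=
      mul_le_mul k3 k4 (by linarith) (by linarith)
    nlinarith only [hx, k1, k2, k5]

/-! ### Incompatible pairs -/

theorem I1 (hx : 2 ≤ x) (hy : 2 ≤ y) (hxy : x ≠ y) (hcop : IsCoprime D x)
    (hbig : x * y - 1 ≤ D) {e e' : ℤ} (he : e = 1 ∨ e = -1) (he' : e' = 1 ∨ e' = -1) {B B' : ℕ}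
    (hB : B ≤ 1) (hB' : B' ≤ 2) (h1 : x ^ 2 = e * D * y ^ B + m)
    (h2 : x ^ 4 = e' * D * y ^ B' + m) : False := by
  have hD : 3 ≤ D := by nlinarith only [hx, hy, hbig]
  have h3 : x ^ 2 * (x ^ 2 - 1) = D * (e' * y ^ B' - e * y ^ B) := by linear_combination h2 - h1
  have h4 : D ∣ x ^ 2 - 1 := by
    have : D ∣ x ^ 2 * (x ^ 2 - 1) := ⟨_, h3⟩
    exact (hcop.pow_right (n := 2)).dvd_of_dvd_mul_left this
  obtain ⟨k, hk⟩ := h4
  have hx2 : 4 ≤ x ^ 2 := by nlinarith only [hx]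
  have hk1 : 1 ≤ k := by
    by_contra hcon
    push Not at hcon
    have : k ≤ 0 := by omega
    nlinarith only [hk, hx2, hcon, hD]
  have h5 : e' * y ^ B' - e * y ^ B = x ^ 2 * k := by
    have : D * (e' * y ^ B' - e * y ^ B) = D * (x ^ 2 * k) := by rw [← h3, hk]; ring
    exact mul_left_cancel₀ (by linarith) this
  have hDx : D ≤ x ^ 2 - 1 := by rw [hk]; nlinarith only [hk1, hD]
  have hyx : y < x := by
    rcases lt_or_gt_of_ne hxy with h6 | h6
    · exfalso; nlinarith only [hx, hbig, hDx, h6, hy]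
    · exact h6
  have k1 : e' * y ^ B' ≤ y ^ 2 := by
    have a1 : y ^ B' ≤ y ^ 2 := pow_le_pow_right₀ (by linarith) hB'
    have a2 : 0 < y ^ B' := by positivity
    rcases he' with rfl | rfl <;> linarith
  have k2 : -(e * y ^ B) ≤ y := by
    have a1 : y ^ B ≤ y ^ 1 := pow_le_pow_right₀ (by linarith) hB
    have a2 : 0 < y ^ B := by positivity
    rw [pow_one] at a1
    rcases he with rfl | rfl <;> linarith
  have k3 : x ^ 2 ≤ x ^ 2 * k := by nlinarith only [hk1]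
  have k4 : y ^ 2 + y < x ^ 2 := by nlinarith only [hy, h5, hyx, k1, k2, k3, hx, hbig, hDx]
  linarith

theorem I2 (hx : 2 ≤ x) (hy : 2 ≤ y) (hxy : x ≠ y) (hcop : IsCoprime D m) (hm : 1 ≤ m)
    (hbig : x * y - 1 ≤ D) {e e' : ℤ} (he : e = 1 ∨ e = -1) (he' : e' = 1 ∨ e' = -1) {B : ℕ}
    (hB1 : 1 ≤ B) (hB : B ≤ 2) (h1 : x ^ 4 = e * D * y ^ B + m)
    (h2 : x ^ 4 = e' * D + m * y ^ 2) : False := by
  have hD : 3 ≤ D := by nlinarith only [hx, hy, hbig]
  have hy2 : 4 ≤ y ^ 2 := by nlinarith only [hy]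
  have hyB : 2 ≤ y ^ B := by
    calc (2 : ℤ) ≤ y ^ 1 := by rw [pow_one]; exact hy
      _ ≤ y ^ B := pow_le_pow_right₀ (by linarith) hB1
  have h3 : D * (e * y ^ B - e') = m * (y ^ 2 - 1) := by linear_combination h2 - h1
  have hpos : 0 < m * (y ^ 2 - 1) := mul_pos (by linarith) (by linarith)
  have he1 : e = 1 := by
    rcases he with rfl | rfl
    · rfl
    · exfalso
      have : -1 * y ^ B - e' < 0 := by rcases he' with rfl | rfl <;> linarith
      nlinarith only [h2, hD, hy2, h1, this, hm]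
  subst he1
  rw [one_mul] at h3
  have h4 : D ∣ y ^ 2 - 1 := by
    have : D ∣ m * (y ^ 2 - 1) := ⟨_, h3.symm⟩
    exact hcop.dvd_of_dvd_mul_left this
  obtain ⟨k, hk⟩ := h4
  have hk1 : 1 ≤ k := by
    by_contra hcon
    push Not at hcon
    have : k ≤ 0 := by omega
    nlinarith only [hy2, hk, hcon, hD]
  have hDy : D ≤ y ^ 2 - 1 := by rw [hk]; nlinarith only [hk1, hD]
  have hyx : x < y := by
    rcases lt_or_gt_of_ne hxy with h6 | h6
    · exact h6
    · exfalso; nlinarith only [hy, hbig, hDy, h6, hx]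
  interval_cases B
  · -- B = 1
    rw [pow_one] at h3
    rcases he' with rfl | rfl
    · have h5 : D = m * (y + 1) := by
        have : (y - 1) * D = (y - 1) * (m * (y + 1)) := by linear_combination h3
        exact mul_left_cancel₀ (by linarith) this
      have h6 : IsUnit m := by
        rw [h5] at hcop
        exact (IsCoprime.of_mul_left_left hcop).isUnit_of_dvd' (dvd_refl _) (dvd_refl _)
      have h7 : m = 1 := by
        rcases Int.isUnit_iff.1 h6 with h8 | h8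
        · exact h8
        · omega
      rw [h7, one_mul] at h5
      nlinarith only [hx, hbig, hyx, h5, hy]
    · have h5 : D = m * (y - 1) := by
        have : (y + 1) * D = (y + 1) * (m * (y - 1)) := by linear_combination h3
        exact mul_left_cancel₀ (by linarith) this
      have h6 : IsUnit m := by
        rw [h5] at hcop
        exact (IsCoprime.of_mul_left_left hcop).isUnit_of_dvd' (dvd_refl _) (dvd_refl _)
      have h7 : m = 1 := by
        rcases Int.isUnit_iff.1 h6 with h8 | h8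
        · exact h8
        · omega
      rw [h7, one_mul] at h5
      nlinarith only [hx, hbig, hD, h5, hy]
  · -- B = 2
    have k1 : (x * y - 1) * y ^ 2 < x ^ 4 := by
      have : (x * y - 1) * y ^ 2 ≤ D * y ^ 2 := mul_le_mul_of_nonneg_right hbig (by positivity)
      linarith
    have k2 : x ^ 3 ≤ (y - 1) ^ 3 := pow_le_pow_left₀ (by linarith) (by omega) 3
    have k3 : x * x ^ 3 ≤ x * (y - 1) ^ 3 := mul_le_mul_of_nonneg_left k2 (by linarith)
    nlinarith only [mul_le_mul_of_nonneg_left (show (1 : ℤ) ≤ y - 1 by linarith)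
      (show (0 : ℤ) ≤ x * y by positivity), mul_le_mul_of_nonneg_left hx (show (0 : ℤ) ≤ y ^ 2 by positivity), hx, hbig, hy2, hDy, k1, k3]

theorem I3 (hx : 2 ≤ x) (hcop : IsCoprime D x) (hD : 1 ≤ D) {e e' : ℤ} (he : e = 1 ∨ e = -1)
    (he' : e' = 1 ∨ e' = -1) (h1 : x ^ 4 = e * D + m * y ^ 2)
    (h2 : x ^ 6 = e' * D + m * y ^ 2) : False := by
  have h3 : x ^ 4 * (x ^ 2 - 1) = (e' - e) * D := by linear_combination h2 - h1
  have h4 : 0 < x ^ 4 * (x ^ 2 - 1) := mul_pos (by positivity) (by nlinarith)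
  have h5 : e' - e = 2 := by
    rcases he with rfl | rfl <;> rcases he' with rfl | rfl
    · exfalso; linarith
    · exfalso; linarith
    · norm_num
    · exfalso; linarith
  rw [h5] at h3
  have h6 : x ^ 2 ∣ 2 * D := ⟨x ^ 2 * (x ^ 2 - 1), by rw [← h3]; ring⟩
  have h7 : x ^ 2 ∣ 2 := (hcop.symm.pow_left (m := 2)).dvd_of_dvd_mul_right h6
  have h8 := Int.le_of_dvd (by norm_num) h7
  nlinarith

theorem I4 (hx : 2 ≤ x) (hy : 2 ≤ y) (hxy : x ≠ y) (hD : 1 ≤ D) {e1 e2 : ℤ}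
    (he1 : e1 = 1 ∨ e1 = -1) (he2 : e2 = 1 ∨ e2 = -1) (h1 : x ^ 4 = e1 * D + m * y ^ 2)
    (h2 : m * x ^ 2 = 1 + D * y) (h3 : y ^ 4 = e2 * D * x + m) : False := by
  have k1 : D * (e2 * x ^ 3 + y) = x ^ 2 * y ^ 4 - 1 := by linear_combination -(x ^ 2) * h3 - h2
  have k2 : D * (e1 * x ^ 2 + y ^ 3) = x ^ 6 - y ^ 2 := by
    linear_combination -(x ^ 2) * h1 - y ^ 2 * h2
  have p1 : 0 < x ^ 2 * y ^ 4 - 1 := by
    have a1 : 1 < x ^ 2 := by nlinarith only [hx]
    have a2 : 1 ≤ y ^ 4 := one_le_pow₀ (by linarith)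
    nlinarith only [a1, a2]
  rcases he2 with rfl | rfl
  · have key : (x ^ 2 * y ^ 4 - 1) * (e1 * x ^ 2 + y ^ 3) = (x ^ 6 - y ^ 2) * (x ^ 3 + y) := by
      rw [← k1, ← k2]; ring
    have x0 : 0 < x := by linarith only [hx]
    have y0 : 0 < y := by linarith only [hy]
    have x2 : 0 < x ^ 2 := pow_pos x0 2
    have x6 : 0 < x ^ 6 := pow_pos x0 6
    have c0 : 0 < x ^ 3 + y := by linarith only [pow_pos x0 3, y0]
    have y2 : 0 < y ^ 2 := pow_pos y0 2
    rcases lt_or_gt_of_ne hxy with h6 | h6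
    · -- x < y
      have h7 : x + 1 ≤ y := h6
      have A1 : x ^ 6 ≤ x ^ 2 * y ^ 4 - 1 := by
        have a1 : (x + 1) ^ 4 ≤ y ^ 4 := pow_le_pow_left₀ (by linarith only [x0]) h7 4
        have a2 : x ^ 4 + 1 ≤ (x + 1) ^ 4 := by
          have e : (x + 1) ^ 4 = x ^ 4 + 1 + (4 * x ^ 3 + 6 * x ^ 2 + 4 * x) := by ring
          linarith only [e, pow_pos x0 3, x2, x0]
        have a3 := mul_le_mul_of_nonneg_left (le_trans a2 a1) x2.le
        have e : x ^ 2 * (x ^ 4 + 1) = x ^ 6 + x ^ 2 := by ring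
        linarith only [a3, e, show (1 : ℤ) ≤ x ^ 2 from x2]
      have B1 : x ^ 3 + y + 1 ≤ e1 * x ^ 2 + y ^ 3 := by
        have a1 : (y - 1) * (y ^ 2 + y) ≥ x * ((x + 1) ^ 2 + (x + 1)) := by
          have b1 : (x + 1) ^ 2 ≤ y ^ 2 := pow_le_pow_left₀ (by linarith only [x0]) h7 2
          refine mul_le_mul (by linarith only [h7]) (by linarith only [b1, h7]) ?_
            (by linarith only [hy])
          have : 0 < (x + 1) ^ 2 := pow_pos (by linarith only [x0]) 2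
          linarith only [this, x0]
        have e2 : (y - 1) * (y ^ 2 + y) = y ^ 3 - y := by ring
        have e3 : x * ((x + 1) ^ 2 + (x + 1)) = x ^ 3 + 3 * x ^ 2 + 2 * x := by ring
        have a4 : -(x ^ 2) ≤ e1 * x ^ 2 := by rcases he1 with rfl | rfl <;> linarith only [x2]
        linarith only [a1, e2, e3, a4, x2, hx]
      have A2 : x ^ 6 * (x ^ 3 + y + 1) ≤ (x ^ 2 * y ^ 4 - 1) * (e1 * x ^ 2 + y ^ 3) :=
        mul_le_mul A1 B1 (by linarith only [c0]) p1.le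
      have A3 : (x ^ 6 - y ^ 2) * (x ^ 3 + y) ≤ x ^ 6 * (x ^ 3 + y) :=
        mul_le_mul_of_nonneg_right (by linarith only [y2]) c0.le
      have e : x ^ 6 * (x ^ 3 + y + 1) = x ^ 6 * (x ^ 3 + y) + x ^ 6 := by ring
      linarith only [A2, A3, e, key, x6]
    · have h7 : y + 1 ≤ x := h6
      have A1 : x ^ 2 * y ^ 4 ≤ x ^ 6 - y ^ 2 := by
        have a1 : (y + 1) ^ 4 ≤ x ^ 4 := pow_le_pow_left₀ (by linarith only [y0]) h7 4
        have a2 : y ^ 4 + 1 ≤ (y + 1) ^ 4 := by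
          have e : (y + 1) ^ 4 = y ^ 4 + 1 + (4 * y ^ 3 + 6 * y ^ 2 + 4 * y) := by ring
          linarith only [e, pow_pos y0 3, y2, y0]
        have a3 := mul_le_mul_of_nonneg_left (le_trans a2 a1) x2.le
        have e : x ^ 2 * (y ^ 4 + 1) = x ^ 2 * y ^ 4 + x ^ 2 := by ring
        have e' : x ^ 2 * x ^ 4 = x ^ 6 := by ring
        have a4 : y ^ 2 ≤ x ^ 2 := pow_le_pow_left₀ y0.le (by linarith only [h7]) 2
        linarith only [a3, e, e', a4]
      have B1 : e1 * x ^ 2 + y ^ 3 ≤ x ^ 3 + y - 1 := by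
        have a1 : y * (y + 1) ^ 2 ≤ (x - 1) * x ^ 2 := by
          have b1 : (y + 1) ^ 2 ≤ x ^ 2 := pow_le_pow_left₀ (by linarith only [y0]) h7 2
          refine mul_le_mul (by linarith only [h7]) b1 ?_ (by linarith only [hx])
          have : 0 < (y + 1) ^ 2 := pow_pos (by linarith only [y0]) 2
          exact this.le
        have e2 : (x - 1) * x ^ 2 = x ^ 3 - x ^ 2 := by ring
        have e3 : y * (y + 1) ^ 2 = y ^ 3 + 2 * y ^ 2 + y := by ring
        have a4 : e1 * x ^ 2 ≤ x ^ 2 := by rcases he1 with rfl | rfl <;> linarith only [x2]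
        linarith only [a1, e2, e3, a4, y2, hy]
      have A2 : (x ^ 2 * y ^ 4 - 1) * (e1 * x ^ 2 + y ^ 3) ≤
          (x ^ 2 * y ^ 4 - 1) * (x ^ 3 + y - 1) := mul_le_mul_of_nonneg_left B1 p1.le
      have A3 : (x ^ 2 * y ^ 4 - 1) * (x ^ 3 + y - 1) ≤ (x ^ 6 - y ^ 2) * (x ^ 3 + y - 1) :=
        mul_le_mul_of_nonneg_right (by linarith only [A1])
          (by linarith only [show (1 : ℤ) ≤ x ^ 3 + y from c0])
      have e : (x ^ 6 - y ^ 2) * (x ^ 3 + y - 1) =
          (x ^ 6 - y ^ 2) * (x ^ 3 + y) - (x ^ 6 - y ^ 2) := by ring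
      linarith only [A2, A3, e, key, A1, p1]
  · have q1 : x ^ 3 < y := by
      by_contra hcon
      push Not at hcon
      have : D * (-1 * x ^ 3 + y) ≤ 0 := mul_nonpos_of_nonneg_of_nonpos (by linarith) (by linarith)
      linarith
    have q2 : x ^ 6 < y ^ 2 := by
      have : x ^ 6 = (x ^ 3) ^ 2 := by ring
      rw [this]
      have : 0 < x ^ 3 := by positivity
      nlinarith only [hx, p1, k1, q1, hy, hD, this]
    have q3 : 0 < e1 * x ^ 2 + y ^ 3 := by
      have a1 : y ≤ y ^ 3 := by nlinarith only [sq_nonneg y, hx, q1, hy]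
      have a2 : x ^ 2 < x ^ 3 := by nlinarith only [sq_nonneg x, hx]
      rcases he1 with rfl | rfl <;> nlinarith [sq_nonneg x]
    nlinarith only [hD, k2, q2, q3]

theorem I5 (hx : 2 ≤ x) (hy : 2 ≤ y) (hxy : x ≠ y) (hD : 1 ≤ D) (hm : 1 ≤ m)
    (h1 : m * x ^ 4 = 1 + D * y ^ 2) (h2 : m * y ^ 4 = 1 + D * x ^ 2) : False := by
  have h3 : (x ^ 2 - y ^ 2) * (m * (x ^ 2 + y ^ 2) + D) = 0 := by linear_combination h1 - h2
  rcases mul_eq_zero.1 h3 with h4 | h4
  · have h5 : (x - y) * (x + y) = 0 := by linear_combination h4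
    rcases mul_eq_zero.1 h5 with h6 | h6
    · exact hxy (by linarith)
    · linarith
  · have : 0 < m * (x ^ 2 + y ^ 2) := by positivity
    linarith

theorem I6 (hx : 2 ≤ x) (hy : 2 ≤ y) (hxy : x ≠ y) (hm : 1 ≤ m) {e e' : ℤ}
    (he : e = 1 ∨ e = -1) (he' : e' = 1 ∨ e' = -1) {B : ℕ}
    (h1 : m * x ^ 2 = 1 + D) (h2 : x ^ 2 = e * D * y ^ B + m) (h3 : y ^ 2 = e' * D + m) : False := by
  have hx2 : 4 ≤ x ^ 2 := by nlinarith only [hx]
  have hD : D = m * x ^ 2 - 1 := by linarith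
  have hD3 : 3 * m ≤ D := by rw [hD]; nlinarith only [hx2, hm]
  have hyB : 1 ≤ y ^ B := one_le_pow₀ (by linarith)
  rcases he with rfl | rfl
  · rcases Nat.eq_zero_or_pos B with hB | hB
    · subst hB
      rw [pow_zero] at h2
      have h4 : (m - 1) * (x ^ 2 + 1) = 0 := by rw [hD] at h2; linear_combination -h2
      rcases mul_eq_zero.1 h4 with h5 | h5
      · have hm1 : m = 1 := by linarith
        rw [hD, hm1] at h3
        rcases he' with rfl | rfl
        · have h5 : (x - y) * (x + y) = 0 := by linear_combination -h3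
          rcases mul_eq_zero.1 h5 with h6 | h6
          · exact hxy (by linarith)
          · linarith
        · nlinarith only [hx2, h3]
      · nlinarith only [hx2, h5]
    · have a1 : y ≤ y ^ B := by
        calc y = y ^ 1 := (pow_one y).symm
          _ ≤ y ^ B := pow_le_pow_right₀ (by linarith) hB
      have a2 : D * 2 ≤ D * y ^ B := mul_le_mul_of_nonneg_left (by linarith) (by linarith)
      nlinarith only [hm, h1, hD3, h2, a2]
  · have a2 : D * 1 ≤ D * y ^ B := mul_le_mul_of_nonneg_left hyB (by linarith)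
    nlinarith only [hm, hx2, hD3, h2, a2]

end Pool.Agent.H24.FP.N2
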