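import Pool.Agent.H24.FP.N2Data

/-!
# Numerators with two prime factors
-/

set_option autoImplicit false

namespace Pool.Agent.H24.FP.N2

open Pool.Agent.H97

section
variable {p l : ℕ} [hp : Fact p.Prime] [hl : Fact l.Prime]

omit hl in
theorem nrm_self (v k : ℕ) :
    padicNorm p (((((p : ℤ) ^ v) ^ k : ℤ)) : ℚ) = 1 / ((p : ℚ) ^ v) ^ k := by
  push_cast
  rw [Pool.Agent.H97.norm_pow, Pool.Agent.H97.norm_pow, padicNorm.padicNorm_p_of_prime]
  rw [inv_pow, inv_pow, one_div]

theorem nrm_other (hpl : p ≠ l) (v k : ℕ) :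
    padicNorm p (((((l : ℤ) ^ v) ^ k : ℤ)) : ℚ) = 1 := by
  push_cast
  rw [Pool.Agent.H97.norm_pow, Pool.Agent.H97.norm_pow]
  have : padicNorm p (l : ℚ) = 1 := by
    rw [padicNorm.nat_eq_one_iff]
    intro hd
    exact hpl ((Nat.prime_dvd_prime_iff_eq hp.out hl.out).1 hd)
  rw [this, one_pow, one_pow]

end

theorem loc {p : ℕ} [hp : Fact p.Prime] {b Q : ℚ} {t : ℕ → ℚ} {n : ℕ} {s : ℕ → Bool} {u : ℕ → ℕ}
    (hT : IsTCycle b t n) (h : TRuns p Q t n s u) (hQ : 1 < Q) (hb : padicNorm p b = 1 / Q) (i : ℕ)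
    {Δ X Z : ℚ} (h1 : padicNorm p Δ = 1 / Q ^ (dl s u i)) (h2 : padicNorm p X = 1 / Q ^ (ch s u i))
    (h3 : padicNorm p Z = 1 / Q ^ (zt s u i)) :
    padicNorm p Δ = padicNorm p b * padicNorm p Z * padicNorm p (t i) ∧
      padicNorm p (b + 1 / t i) * padicNorm p Δ = padicNorm p b * padicNorm p X := by
  have hQ0 : 0 < Q := by linarith
  have e1 := dl_zt h i
  have e2 := dl_ch hT h hQ i
  rw [h1, h2, h3, hb]
  constructor
  · field_simp
    linear_combination e1
  · field_simp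
    linear_combination e2

/-- the data of a numerator with two prime factors -/
structure Num (b : ℚ) (p l v w : ℕ) : Prop where
  hp : p.Prime
  hl : l.Prime
  hpl : p ≠ l
  hv : 0 < v
  hw : 0 < w
  hnum : b.num = (p : ℤ) ^ v * (l : ℤ) ^ w

namespace Num

variable {b : ℚ} {p l v w : ℕ}

theorem swap (h : Num b p l v w) : Num b l p w v :=
  ⟨h.hl, h.hp, h.hpl.symm, h.hw, h.hv, by rw [h.hnum]; ring⟩

theorem bad (h : Num b p l v w) {r : ℕ} (hr : r.Prime) (hb : padicNorm r b < 1) :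
    r = p ∨ r = l := by
  have : Fact r.Prime := ⟨hr⟩
  have h1 : padicNorm r (b.num : ℚ) < 1 := by rw [num_of_bad hb]; exact hb
  rw [padicNorm.int_lt_one_iff, h.hnum] at h1
  have h2 : r ∣ p ^ v * l ^ w := by exact_mod_cast h1
  rcases (Nat.Prime.dvd_mul hr).1 h2 with h3 | h3
  · exact Or.inl ((Nat.prime_dvd_prime_iff_eq hr h.hp).1 (hr.dvd_of_dvd_pow h3))
  · exact Or.inr ((Nat.prime_dvd_prime_iff_eq hr h.hl).1 (hr.dvd_of_dvd_pow h3))

theorem norm_b (h : Num b p l v w) : padicNorm p b = 1 / (p : ℚ) ^ v := by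
  have : Fact p.Prime := ⟨h.hp⟩
  have : Fact l.Prime := ⟨h.hl⟩
  have h1 : padicNorm p (b.num : ℚ) = 1 / (p : ℚ) ^ v := by
    rw [h.hnum, Int.cast_mul, padicNorm.mul]
    have e1 := nrm_self (p := p) v 1
    have e2 := nrm_other h.hpl w 1
    rw [pow_one] at e1 e2
    rw [e1, e2, pow_one, mul_one]
  have hp1 : (1 : ℚ) < p := by exact_mod_cast h.hp.one_lt
  have hQ : (1 : ℚ) < (p : ℚ) ^ v := one_lt_pow₀ hp1 h.hv.ne'
  have h2 : padicNorm p (b.num : ℚ) < 1 := by
    rw [h1, div_lt_one (by linarith)]; exact hQ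
  by_contra hne
  rcases lt_or_ge (padicNorm p b) 1 with h3 | h3
  · exact hne (by rw [← num_of_bad h3, h1])
  · rw [num_of_good h3] at h2
    exact lt_irrefl _ h2

theorem one_lt (h : Num b p l v w) : (1 : ℚ) < (p : ℚ) ^ v := by
  have hp1 : (1 : ℚ) < p := by exact_mod_cast h.hp.one_lt
  exact one_lt_pow₀ hp1 h.hv.ne'

theorem norm_b_lt (h : Num b p l v w) : padicNorm p b < 1 := by
  have := h.one_lt
  rw [h.norm_b, div_lt_one (by linarith)]
  exact this

theorem two_le (h : Num b p l v w) : (2 : ℤ) ≤ (p : ℤ) ^ v := by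
  have h1 : 1 < p ^ v := Nat.one_lt_pow h.hv.ne' h.hp.one_lt
  have h2 : 2 ≤ p ^ v := h1
  exact_mod_cast h2

theorem cop (h : Num b p l v w) : IsCoprime (b.den : ℤ) ((p : ℤ) ^ v) := by
  have : Fact p.Prime := ⟨h.hp⟩
  apply IsCoprime.pow_right
  rw [Nat.isCoprime_iff_coprime]
  apply Nat.Coprime.symm
  rw [h.hp.coprime_iff_not_dvd, ← padicNorm.nat_eq_one_iff]
  exact den_of_bad h.norm_b_lt

theorem ne_pow (h : Num b p l v w) : (p : ℤ) ^ v ≠ (l : ℤ) ^ w := by
  intro he
  have h1 : p ^ v = l ^ w := by exact_mod_cast he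
  have h2 : p ∣ l ^ w := by rw [← h1]; exact dvd_pow_self p h.hv.ne'
  exact h.hpl ((Nat.prime_dvd_prime_iff_eq h.hp h.hl).1 (h.hp.dvd_of_dvd_pow h2))

end Num

section
variable {b : ℚ} {p l v w : ℕ} {t : ℕ → ℚ} {n : ℕ} {s : ℕ → Bool} {u : ℕ → ℕ}
  {s' : ℕ → Bool} {u' : ℕ → ℕ}

/-- both primes with runs -/
theorem alpha (h : Neg b t n) (hN : Num b p l v w) (hs : TRuns p ((p : ℚ) ^ v) t n s u)
    (hs' : TRuns l ((l : ℚ) ^ w) t n s' u') (i : ℕ) : u i = 0 ∧ u' i = 0 := by
  have : Fact p.Prime := ⟨hN.hp⟩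
  have : Fact l.Prime := ⟨hN.hl⟩
  have hT := h.toIsTCycle
  have hx := hN.two_le
  have hy := hN.swap.two_le
  have hx0 : (0 : ℤ) < (p : ℤ) ^ v := by linarith
  have hy0 : (0 : ℤ) < (l : ℤ) ^ w := by linarith
  obtain ⟨m, hm, hcop, heq⟩ := h.data
    (Δ := fun i => ((p : ℤ) ^ v) ^ (dl s u i) * ((l : ℤ) ^ w) ^ (dl s' u' i))
    (X := fun i => ((p : ℤ) ^ v) ^ (ch s u i) * ((l : ℤ) ^ w) ^ (ch s' u' i))
    (Z := fun i => ((p : ℤ) ^ v) ^ (zt s u i) * ((l : ℤ) ^ w) ^ (zt s' u' i))
    (fun i => mul_pos (pow_pos hx0 _) (pow_pos hy0 _))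
    (fun i => mul_pos (pow_pos hx0 _) (pow_pos hy0 _))
    (fun i => mul_pos (pow_pos hx0 _) (pow_pos hy0 _))
    (by
      intro r hr hb i
      simp only [Int.cast_mul]
      rcases hN.bad hr hb with rfl | rfl
      · exact loc hT hs hN.one_lt hN.norm_b i
          (by rw [padicNorm.mul, nrm_self, nrm_other hN.hpl, mul_one])
          (by rw [padicNorm.mul, nrm_self, nrm_other hN.hpl, mul_one])
          (by rw [padicNorm.mul, nrm_self, nrm_other hN.hpl, mul_one])
      · exact loc hT hs' hN.swap.one_lt hN.swap.norm_b i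
          (by rw [padicNorm.mul, nrm_self, nrm_other hN.hpl.symm, one_mul])
          (by rw [padicNorm.mul, nrm_self, nrm_other hN.hpl.symm, one_mul])
          (by rw [padicNorm.mul, nrm_self, nrm_other hN.hpl.symm, one_mul]))
    (by
      intro r hr hb i
      have : Fact r.Prime := ⟨hr⟩
      have hrp : r ≠ p := by
        rintro rfl
        exact absurd hN.norm_b_lt (not_lt.2 hb)
      have hrl : r ≠ l := by
        rintro rfl
        exact absurd hN.swap.norm_b_lt (not_lt.2 hb)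
      simp only [Int.cast_mul]
      refine ⟨?_, ?_, ?_⟩ <;> rw [padicNorm.mul, nrm_other hrp, nrm_other hrl, mul_one])
  have hD : (1 : ℤ) ≤ b.den := by exact_mod_cast b.den_pos
  have hTwo : Two ((p : ℤ) ^ v) ((l : ℤ) ^ w) (b.den : ℤ) m n s u s' u' :=
    { hx := hx
      hy := hy
      hxy := hN.ne_pow
      hD := hD
      hm := hm
      cDx := hN.cop
      cDy := hN.swap.cop
      cDm := hcop
      hn := h.pos
      r := rn_of hs
      r' := rn_of hs'
      eq := fun i => by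
        obtain ⟨e, he, h1, _⟩ := heq i
        exact ⟨e, he, h1⟩
      big := by
        intro i hi hi'
        obtain ⟨e, he, h1, h2⟩ := heq i
        rw [dl_T hi, dl_T hi', pow_zero, pow_zero, mul_one] at h1 h2
        set X : ℤ := ((p : ℤ) ^ v) ^ (ch s u i) * ((l : ℤ) ^ w) ^ (ch s' u' i) with hX
        have hX1 : 1 ≤ X := one_le_mul_of_one_le_of_one_le (one_le_pow₀ (by linarith))
          (one_le_pow₀ (by linarith))
        have hZ1 : 1 ≤ ((p : ℤ) ^ v) ^ (zt s u i) * ((l : ℤ) ^ w) ^ (zt s' u' i) :=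
          one_le_mul_of_one_le_of_one_le (one_le_pow₀ (by linarith)) (one_le_pow₀ (by linarith))
        have he1 : e = -1 := by
          rcases he with rfl | rfl
          · exfalso
            have a1 : 1 ≤ (b.den : ℤ) * X := one_le_mul_of_one_le_of_one_le hD hX1
            have a2 := one_le_mul_of_one_le_of_one_le hm hZ1
            rw [one_mul] at h1
            linarith
          · rfl
        subst he1
        have hnum2 : 2 ≤ b.num := by rw [hN.hnum]; nlinarith
        have h3 := h.big (i := i) hX1 hnum2 (by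
          rw [Int.cast_one, mul_one] at h2
          rw [h2]; push_cast; ring)
        rw [hN.hnum] at h3
        exact h3 }
  exact hTwo.all_zero i

/-- the powers of the annulus prime -/
theorem pow_two_v {P : ℤ} (hP : 1 ≤ P) {a a' v : ℕ} (h : a + a' = 2 * v) :
    ∃ g : ℤ, 1 ≤ g ∧ (P ^ a' = P ^ a * g ^ 2 ∨ P ^ a = P ^ a' * g ^ 2) := by
  rcases le_total a v with h1 | h1
  · refine ⟨P ^ (v - a), one_le_pow₀ hP, Or.inl ?_⟩
    rw [← pow_mul, ← pow_add]
    congr 1
    omega
  · refine ⟨P ^ (v - a'), one_le_pow₀ hP, Or.inr ?_⟩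
    rw [← pow_mul, ← pow_add]
    congr 1
    omega

/-- if all upward steps have length zero, all runs have length zero -/
theorem all_zero_of_F (h : Rn s u n) (hn : 0 < n) (hF : ∀ i, s i = false → u i = 0) (i : ℕ) :
    u i = 0 := by
  have hstep : ∀ j, u (j + 1) ≤ u j - 1 := by
    intro j
    cases hs : s j with
    | false =>
      have h1 := (h.up j hs).2
      have h2 := hF j hs
      omega
    | true =>
      rcases Nat.eq_zero_or_pos (u j) with h0 | h0
      · have := hF (j + 1) (h.turn j hs h0)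
        omega
      · have := (h.down j hs h0).2
        omega
  have hk : ∀ k, u (i + k) ≤ u i - k := by
    intro k
    induction k with
    | zero => simp
    | succ k ih =>
      have := hstep (i + k)
      rw [← add_assoc]
      omega
  have h1 := hk (u i * n)
  rw [(h.per_mul i (u i)).2] at h1
  have h2 : u i ≤ u i * n := Nat.le_mul_of_pos_right _ hn
  omega

/-- one prime in the annulus, one with runs -/
theorem beta (h : Neg b t n) (hN : Num b p l v w)
    (hann : ∀ i, padicNorm p (t (i + 1)) = 1 / padicNorm p (t i))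
    (hs : TRuns l ((l : ℚ) ^ w) t n s u) (i : ℕ) : u i = 0 := by
  have : Fact p.Prime := ⟨hN.hp⟩
  have : Fact l.Prime := ⟨hN.hl⟩
  have hT := h.toIsTCycle
  have hy := hN.swap.two_le
  have hy0 : (0 : ℤ) < (l : ℤ) ^ w := by linarith
  have hp0 : (0 : ℤ) < (p : ℤ) := by exact_mod_cast hN.hp.pos
  have hpq : (1 : ℚ) < p := by exact_mod_cast hN.hp.one_lt
  have hpq0 : (0 : ℚ) < p := by linarith
  have hτ : ∀ i, 0 < padicNorm p (t i) := fun i => norm_pos (hT.ne i)
  -- the norms of `ξ`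
  have hξ : ∀ i, padicNorm p (b + 1 / t i) * padicNorm p (t i) = 1 := by
    intro i
    have e1 := hann i
    rw [Neg.xi_sq hT i, padicNorm.mul, Pool.Agent.H97.norm_pow] at e1
    apply sq_inj_nonneg (mul_nonneg (padicNorm.nonneg _) (hτ i).le) (by norm_num)
    have e2 : padicNorm p (b + 1 / t i) ^ 2 * padicNorm p (t i) * padicNorm p (t i) = 1 := by
      rw [e1, one_div_mul_cancel (hτ i).ne']
    linear_combination e2
  -- the annulus
  have hle : ∀ i, padicNorm p (t i) ≤ (p : ℚ) ^ v := by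
    intro i
    have e1 : padicNorm p b ≤ 1 / padicNorm p (t i) := by
      have e2 : b = (b + 1 / t i) - 1 / t i := by ring
      rw [e2]
      apply Pool.Agent.H97.norm_sub_le
      · rw [le_div_iff₀ (hτ i), hξ i]
      · rw [padicNorm.div, padicNorm.one]
    have h1 := hN.one_lt
    rw [hN.norm_b, one_div_le_one_div (by linarith) (hτ i)] at e1
    exact e1
  obtain ⟨z, hz⟩ := padicNorm.values_discrete (p := p) (hT.ne 0)
  have hz1 : -z ≤ v := by
    have h1 := hle 0
    rw [hz, ← zpow_natCast] at h1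
    exact (zpow_le_zpow_iff_right₀ hpq).1 h1
  have hz2 : z ≤ v := by
    have h1 := hle 1
    have h2 := hann 0
    rw [zero_add] at h2
    rw [h2, hz, one_div, ← zpow_neg, neg_neg, ← zpow_natCast] at h1
    exact (zpow_le_zpow_iff_right₀ hpq).1 h1
  obtain ⟨a, ha⟩ : ∃ a : ℕ, (a : ℤ) = v + z := ⟨(v + z).toNat, Int.toNat_of_nonneg (by omega)⟩
  obtain ⟨a', ha'⟩ : ∃ a' : ℕ, (a' : ℤ) = v - z := ⟨(v - z).toNat, Int.toNat_of_nonneg (by omega)⟩
  have haa : a + a' = 2 * v := by omega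
  -- the exponents
  set ex : ℕ → ℕ := fun i => if i % 2 = 0 then a else a' with hex
  have hex0 : ∀ i, ex i + ex (i + 1) = 2 * v := by
    intro i
    rw [hex]
    rcases Nat.mod_two_eq_zero_or_one i with h1 | h1
    · have h2 : (i + 1) % 2 ≠ 0 := by omega
      simp only [h1, if_true, if_neg h2]
      exact haa
    · have h2 : (i + 1) % 2 = 0 := by omega
      have h3 : i % 2 ≠ 0 := by omega
      simp only [h2, if_true, if_neg h3]
      omega
  have hex2 : ∀ i, ex (i + 2) = ex i := by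
    intro i
    rw [hex]
    simp only [Nat.add_mod_right]
  have hext : ∀ i, padicNorm p (t i) * (p : ℚ) ^ (ex i) = (p : ℚ) ^ v := by
    intro i
    induction i with
    | zero =>
      have h1 : ex 0 = a := by rw [hex]; simp
      rw [h1, hz, ← zpow_natCast, ← zpow_natCast, ← zpow_add₀ hpq0.ne', ha]
      congr 1
      ring
    | succ i ih =>
      have h1 := hex0 i
      rw [hann i, one_div_mul_eq_div, div_eq_iff (hτ i).ne']
      have h3 : (p : ℚ) ^ (ex i) ≠ 0 := by positivity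
      apply mul_right_cancel₀ h3
      calc (p : ℚ) ^ (ex (i + 1)) * (p : ℚ) ^ (ex i) = (p : ℚ) ^ v * (p : ℚ) ^ v := by
            rw [← pow_add, ← pow_add]; congr 1; omega
        _ = (p : ℚ) ^ v * (padicNorm p (t i)) * (p : ℚ) ^ (ex i) := by
            rw [mul_assoc, ih]
  have hcp : ∀ i, padicNorm p ((((p : ℤ) ^ (ex i) : ℤ)) : ℚ) = 1 / (p : ℚ) ^ (ex i) := by
    intro i
    have := nrm_self (p := p) (ex i) 1
    rw [pow_one, pow_one] at this
    exact this
  have hcr : ∀ r : ℕ, r.Prime → r ≠ p → ∀ i, padicNorm r ((((p : ℤ) ^ (ex i) : ℤ)) : ℚ) = 1 := by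
    intro r hr hrp i
    have : Fact r.Prime := ⟨hr⟩
    have := nrm_other hrp (ex i) 1
    rw [pow_one] at this
    exact this
  obtain ⟨m, hm, hcop, heq⟩ := h.data
    (Δ := fun i => (p : ℤ) ^ (ex i) * ((l : ℤ) ^ w) ^ (dl s u i))
    (X := fun i => ((l : ℤ) ^ w) ^ (ch s u i))
    (Z := fun i => ((l : ℤ) ^ w) ^ (zt s u i))
    (fun i => mul_pos (pow_pos hp0 _) (pow_pos hy0 _))
    (fun i => pow_pos hy0 _)
    (fun i => pow_pos hy0 _)
    (by
      intro r hr hb i
      simp only [Int.cast_mul]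
      rcases hN.bad hr hb with rfl | rfl
      · rw [padicNorm.mul, nrm_other hN.hpl, nrm_other hN.hpl, nrm_other hN.hpl, hcp, hN.norm_b,
          mul_one, mul_one]
        have e1 := hext i
        have e2 := hξ i
        have e3 := hτ i
        have e4 : (0 : ℚ) < (r : ℚ) ^ (ex i) := by positivity
        have e5 : (0 : ℚ) < (r : ℚ) ^ v := by positivity
        constructor
        · rw [div_mul_eq_mul_div, one_mul, div_eq_div_iff e4.ne' e5.ne']
          linear_combination -e1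
        · rw [mul_one_div, div_eq_div_iff e4.ne' e5.ne', ← e1]
          linear_combination (r : ℚ) ^ (ex i) * e2
      · exact loc hT hs hN.swap.one_lt hN.swap.norm_b i
          (by rw [padicNorm.mul, hcr _ hr hN.hpl.symm, nrm_self, one_mul])
          (by rw [nrm_self])
          (by rw [nrm_self]))
    (by
      intro r hr hb i
      have : Fact r.Prime := ⟨hr⟩
      have hrp : r ≠ p := by
        rintro rfl
        exact absurd hN.norm_b_lt (not_lt.2 hb)
      have hrl : r ≠ l := by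
        rintro rfl
        exact absurd hN.swap.norm_b_lt (not_lt.2 hb)
      simp only [Int.cast_mul]
      exact ⟨by rw [padicNorm.mul, hcr r hr hrp, nrm_other hrl, mul_one], nrm_other hrl _ _,
        nrm_other hrl _ _⟩)
  have hD : (1 : ℤ) ≤ b.den := by exact_mod_cast b.den_pos
  have hR := rn_of hs
  have hLL : (4 : ℤ) ≤ ((l : ℤ) ^ w) ^ 2 := by nlinarith
  apply all_zero_of_F hR h.pos
  intro j hj
  by_contra hne
  have hc1 : ∀ i, 1 ≤ (p : ℤ) ^ (ex i) := fun i => one_le_pow₀ (by linarith)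
  obtain ⟨s1, u1⟩ := hR.up j hj
  obtain ⟨e1, he1, E1, _⟩ := heq j
  obtain ⟨e2, he2, E2, _⟩ := heq (j + 1)
  obtain ⟨e3, he3, E3, _⟩ := heq (j + 2)
  obtain ⟨e4, he4, E4, _⟩ := heq (j + 3)
  rw [hex2 j] at E3
  rw [show j + 3 = j + 1 + 2 by ring, hex2 (j + 1)] at E4
  have s2 := hR.down (j + 1) s1 (by omega)
  rw [show j + 1 + 1 = j + 2 by ring] at s2
  rcases Nat.lt_or_ge (u j) 2 with hu | hu
  · -- `u j = 1`
    have hu1 : u j = 1 := by omega
    have hu2 : u (j + 2) = 0 := by omega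
    have s3 := hR.turn (j + 2) s2.1 hu2
    rw [dl_F hj, zt_F hj, ch_F hj, hu1] at E1
    rw [dl_T s1, zt_T s1, ch_T1 (by omega), u1, hu1] at E2
    rw [dl_T s2.1, zt_T s2.1, ch_T0 s2.1 hu2, hu2] at E3
    rw [dl_F s3, zt_F s3, ch_F s3] at E4
    refine beta1 (c := (p : ℤ) ^ (ex j)) (c' := (p : ℤ) ^ (ex (j + 1))) (w := ((l : ℤ) ^ w) ^ 2)
      (y := (l : ℤ) ^ w) (D := b.den) (m := m) (e1 := e1) (e2 := e2) (e3 := e3) (e4 := e4)
      (B := u (j + 2 + 1)) hLL (by linarith) hD hm he1 he2 he3 he4 ?_ ?_ ?_ ?_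
    · linear_combination E1
    · linear_combination E2
    · linear_combination E3
    · rw [← pow_mul, show 2 * (u (j + 2 + 1) + 1) = 2 * u (j + 2 + 1) + 2 by ring]
      rw [show j + 1 + 2 = j + 2 + 1 by ring] at E4
      linear_combination E4
  · obtain ⟨k, hk⟩ : ∃ k, u j = k + 2 := ⟨u j - 2, by omega⟩
    obtain ⟨g, hg, hgg⟩ := pow_two_v (P := (p : ℤ)) (by linarith) (hex0 j)
    have hu2 : u (j + 2) = k + 1 := by omega
    rw [dl_F hj, zt_F hj, ch_F hj, hk] at E1
    rw [dl_T s1, zt_T s1, ch_T1 (by omega), u1, hk] at E2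
    rw [dl_T s2.1, zt_T s2.1, ch_T1 (by omega), hu2] at E3
    refine beta2 (c := (p : ℤ) ^ (ex j)) (c' := (p : ℤ) ^ (ex (j + 1))) (w := ((l : ℤ) ^ w) ^ 2)
      (D := b.den) (m := m) (g := g) (e1 := e1) (e2 := e2) (e3 := e3)
      (k := k) hLL hD hm (hc1 j) hg he1 he2 he3 hgg ?_ ?_ ?_
    · rw [← pow_mul, show 2 * (k + 3) = 2 * (k + 2) + 2 by ring]
      linear_combination E1
    · rw [← pow_mul]
      linear_combination E2
    · rw [← pow_mul]
      linear_combination E3

/-- at a prime with runs of length zero -/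
theorem two_of_zero {Q : ℚ} (hQ : 1 < Q) (h : TRuns p Q t n s u) (hu : ∀ i, u i = 0) (i : ℕ) :
    padicNorm p (t (i + 2)) = padicNorm p (t i) := by
  have hQ0 : 0 < Q := by linarith
  cases hs : s i with
  | true =>
    have h1 := h.turn i hs (hu i)
    have h2 := (h.up (i + 1) h1).1
    rw [h.large i hs, h.large (i + 2) h2, hu, hu]
  | false =>
    have h1 := (h.up i hs).1
    have h2 := h.turn (i + 1) h1 (hu _)
    have e1 := h.small i hs
    have e2 := h.small (i + 2) h2
    rw [hu] at e1 e2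
    exact mul_right_cancel₀ (show Q ^ (2 * 0 + 1) ≠ 0 by positivity) (e2.trans e1.symm)

/-- **Two prime factors**, negative cycles. -/
theorem two_neg (h : Neg b t n) (hN : Num b p l v w) : t 2 = t 0 := by
  have : Fact p.Prime := ⟨hN.hp⟩
  have : Fact l.Prime := ⟨hN.hl⟩
  have hT := h.toIsTCycle
  have hann2 : ∀ r : ℕ, (∀ i, padicNorm r (t (i + 1)) = 1 / padicNorm r (t i)) →
      padicNorm r (t 2) = padicNorm r (t 0) := by
    intro r hr
    have e1 := hr 0
    have e2 := hr 1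
    rw [zero_add] at e1
    rw [show (1 : ℕ) + 1 = 2 by rfl, e1, one_div_one_div] at e2
    exact e2
  have hfin : padicNorm p (t 2) = padicNorm p (t 0) ∧ padicNorm l (t 2) = padicNorm l (t 0) := by
    rcases exists_truns hT hN.one_lt hN.norm_b with h1 | ⟨s, u, h1⟩ <;>
    rcases exists_truns hT hN.swap.one_lt hN.swap.norm_b with h2 | ⟨s', u', h2⟩
    · exact ⟨hann2 p h1, hann2 l h2⟩
    · exact ⟨hann2 p h1, two_of_zero hN.swap.one_lt h2 (beta h hN h1 h2) 0⟩
    · exact ⟨two_of_zero hN.one_lt h1 (beta h hN.swap h2 h1) 0, hann2 l h2⟩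
    · have h3 := alpha h hN h1 h2
      exact ⟨two_of_zero hN.one_lt h1 (fun i => (h3 i).1) 0,
        two_of_zero hN.swap.one_lt h2 (fun i => (h3 i).2) 0⟩
  apply hT.two_of_norms
  intro r hr
  have : Fact r.Prime := ⟨hr⟩
  rcases lt_or_ge (padicNorm r b) 1 with hb | hb
  · rcases hN.bad hr hb with rfl | rfl
    · exact hfin.1
    · exact hfin.2
  · exact hT.norm_const_of_ge hb 2 0

end

end Pool.Agent.H24.FP.N2
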