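import Pool.Agent.H24.FP.Small

/-!
# Negative cycles: one place dominates
-/

set_option autoImplicit false

namespace Pool.Agent.H24.FP.M

open Pool.Agent.H97 Pool.Agent.H24.FP.N2

/-- the factors `b - ξ + e b ξ` -/
def gf (b : ℚ) (t : ℕ → ℚ) (e : ℚ) (i : ℕ) : ℚ :=
  b - (b + 1 / t i) + e * (b * (b + 1 / t i))

section
variable {b : ℚ} {t : ℕ → ℚ} {n : ℕ}

theorem gf_id (h : IsTCycle b t n) {e : ℚ} (he : e ^ 2 = 1) (i : ℕ) :
    ((b + 1 / t i) - e) * gf b t e i =
      e * (b + 1 / t i) ^ 2 * ((b + 1 / t (i + 1)) - e) := by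
  have h1 := xrec h i
  unfold gf
  generalize b + 1 / t i = x at *
  generalize b + 1 / t (i + 1) = y at *
  linear_combination (x ^ 2 - b * x) * he + e * h1

theorem gf_mul (h : IsTCycle b t n) {e : ℚ} (he : e ^ 2 = 1) (i : ℕ) :
    gf b t e i * gf b t (-e) i * ((b + 1 / t i) ^ 2 - 1) =
      -((b + 1 / t i) ^ 4 * ((b + 1 / t (i + 1)) ^ 2 - 1)) := by
  have h1 := gf_id h he i
  have h2 := gf_id h (e := -e) (by rw [neg_sq]; exact he) i
  generalize gf b t e i = g at *
  generalize gf b t (-e) i = g' at *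
  generalize b + 1 / t i = x at *
  generalize b + 1 / t (i + 1) = y at *
  have h3 : ((x - e) * g) * ((x - -e) * g') =
      (e * x ^ 2 * (y - e)) * (-e * x ^ 2 * (y - -e)) := by rw [h1, h2]
  linear_combination h3 + (g * g' - x ^ 4 * y ^ 2 + x ^ 4 * (e ^ 2 + 1)) * he

end

/-- an absolute value, as far as it is needed -/
structure Av (N : ℚ → ℚ) : Prop where
  mul : ∀ x y, N (x * y) = N x * N y
  pos : ∀ x, x ≠ 0 → 0 < N x
  neg : ∀ x, N (-x) = N x

theorem av_abs : Av (fun x : ℚ => |x|) :=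
  ⟨fun x y => abs_mul x y, fun x hx => abs_pos.2 hx, fun x => abs_neg x⟩

theorem av_padic (p : ℕ) [hp : Fact p.Prime] : Av (padicNorm p) :=
  ⟨fun x y => padicNorm.mul x y, fun x hx => norm_pos hx, fun x => padicNorm.neg x⟩

section
variable {b : ℚ} {t : ℕ → ℚ} {n : ℕ} {N : ℚ → ℚ}

theorem Av.pow (hN : Av N) (x : ℚ) (hx : x ≠ 0) (k : ℕ) : N (x ^ k) = N x ^ k := by
  have h1 : N 1 = 1 := by
    have h2 := hN.mul 1 1
    have h3 := hN.pos 1 one_ne_zero
    rw [mul_one] at h2
    nlinarith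
  induction k with
  | zero => rw [pow_zero, pow_zero, h1]
  | succ k ih => rw [pow_succ, hN.mul, ih, pow_succ]

theorem Av.prod_sq (hN : Av N) (h : IsTCycle b t n) :
    ∏ i ∈ Finset.range n, N (b + 1 / t i) ^ 2 = 1 := by
  have h1 : ∏ i ∈ Finset.range n, (N (b + 1 / t i) ^ 2 * N (t i)) =
      ∏ i ∈ Finset.range n, N (t (i + 1)) := by
    apply Finset.prod_congr rfl
    intro i _
    rw [Neg.xi_sq h i, hN.mul, hN.pow _ (Neg.xi_ne h i)]
  rw [Finset.prod_mul_distrib, prod_shift (f := fun i => N (t i)) (hN.pos _ (h.ne 0)).ne' (by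
    have := h.per 0
    rw [zero_add] at this
    show N (t n) = N (t 0)
    rw [this])] at h1
  have h2 : ∏ i ∈ Finset.range n, N (t i) ≠ 0 :=
    Finset.prod_ne_zero_iff.2 fun i _ => (hN.pos _ (h.ne i)).ne'
  apply mul_right_cancel₀ h2
  rw [h1, one_mul]

theorem gf_ne (h : IsTCycle b t n) (hx : ∀ i, (b + 1 / t i) ^ 2 ≠ 1) {e : ℚ} (he : e ^ 2 = 1)
    (i : ℕ) : gf b t e i ≠ 0 := by
  intro h0
  have h1 := gf_mul h he i
  rw [h0, zero_mul, zero_mul] at h1
  have h2 := Neg.xi_ne h i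
  have h3 := sub_ne_zero.2 (hx (i + 1))
  have h4 : (b + 1 / t i) ^ 4 * ((b + 1 / t (i + 1)) ^ 2 - 1) ≠ 0 :=
    mul_ne_zero (pow_ne_zero _ h2) h3
  exact h4 (by linarith)

/-- the two products are inverse to each other -/
theorem Av.prod_gf (hN : Av N) (h : IsTCycle b t n) (hx : ∀ i, (b + 1 / t i) ^ 2 ≠ 1)
    {e : ℕ → ℚ} (he : ∀ i, e i ^ 2 = 1) :
    (∏ i ∈ Finset.range n, N (gf b t (e i) i)) * ∏ i ∈ Finset.range n, N (gf b t (-e i) i) = 1 := by
  have hx0 : ∀ i, 0 < N ((b + 1 / t i) ^ 2 - 1) := fun i => hN.pos _ (sub_ne_zero.2 (hx i))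
  have h1 : ∏ i ∈ Finset.range n,
      ((N (gf b t (e i) i) * N (gf b t (-e i) i)) * N ((b + 1 / t i) ^ 2 - 1)) =
      ∏ i ∈ Finset.range n, ((N (b + 1 / t i) ^ 2) ^ 2 * N ((b + 1 / t (i + 1)) ^ 2 - 1)) := by
    apply Finset.prod_congr rfl
    intro i _
    rw [← hN.mul, ← hN.mul, gf_mul h (he i) i, hN.neg, hN.mul, hN.pow _ (Neg.xi_ne h i), ← pow_mul]
  rw [Finset.prod_mul_distrib, Finset.prod_mul_distrib, Finset.prod_mul_distrib,
    prod_shift (f := fun i => N ((b + 1 / t i) ^ 2 - 1)) (hx0 0).ne' (by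
      have := h.per 0
      rw [zero_add] at this
      show N ((b + 1 / t n) ^ 2 - 1) = N ((b + 1 / t 0) ^ 2 - 1)
      rw [this]), Finset.prod_pow, hN.prod_sq h, one_pow, one_mul] at h1
  have h2 : ∏ i ∈ Finset.range n, N ((b + 1 / t i) ^ 2 - 1) ≠ 0 :=
    Finset.prod_ne_zero_iff.2 fun i _ => (hx0 i).ne'
  apply mul_right_cancel₀ h2
  rw [h1, one_mul]

end

/-! ### The primes -/

section
variable {b : ℚ} {t : ℕ → ℚ} {n : ℕ} {q : ℕ} [hq : Fact q.Prime]

/-- the potential at a prime at which `b` is integral -/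
def pot (β τ : ℚ) : ℚ := max 1 (max (β * τ) (β / τ))

theorem pot_pos (β τ : ℚ) : 0 < pot β τ := lt_of_lt_of_le one_pos (le_max_left _ _)

theorem pot_step {β τ ξ : ℚ} (hβ : 0 < β) (hβ1 : β ≤ 1) (hτ : 0 < τ) (hξ : 0 < ξ)
    (h : (β * τ < 1 ∧ ξ = 1 / τ) ∨ (1 < β * τ ∧ ξ = β) ∨ (β * τ = 1 ∧ ξ ≤ β)) :
    (max (1 / τ) (β * ξ)) ^ 2 * pot β τ ≤ ξ ^ 2 * pot β (ξ ^ 2 * τ) := by
  rcases h with ⟨h1, h2⟩ | ⟨h1, h2⟩ | ⟨h1, h2⟩
  · -- `β τ < 1`
    have e1 : max (1 / τ) (β * ξ) = 1 / τ := by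
      rw [h2]
      apply max_eq_left
      have : 0 < 1 / τ := by positivity
      nlinarith
    have e2 : ξ ^ 2 * τ = 1 / τ := by rw [h2]; field_simp
    have e3 : pot β (1 / τ) = pot β τ := by
      unfold pot
      rw [max_comm (β * (1 / τ))]
      congr 2
      · field_simp
      · field_simp
    rw [e1, e2, e3, h2]
  · -- `1 < β τ`
    have hτ1 : 1 < τ := by nlinarith
    have e1 : pot β τ = β * τ := by
      unfold pot
      rw [max_eq_left (a := β * τ), max_eq_right h1.le]
      rw [div_le_iff₀ hτ]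
      nlinarith [mul_pos hβ hτ]
    have e2 : max (1 / τ) (β * ξ) ^ 2 ≤ max ((1 / τ) ^ 2) ((β * ξ) ^ 2) := by
      rcases le_total (1 / τ) (β * ξ) with h3 | h3
      · rw [max_eq_right h3]; exact le_max_right _ _
      · rw [max_eq_left h3]; exact le_max_left _ _
    have hbt : 0 < β * τ := mul_pos hβ hτ
    rw [e1, h2]
    rw [h2] at e2
    have e3 : β / (β ^ 2 * τ) ≤ pot β (β ^ 2 * τ) :=
      le_trans (le_max_right _ _) (le_max_right _ _)
    have e4 : β * (β ^ 2 * τ) ≤ pot β (β ^ 2 * τ) :=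
      le_trans (le_max_left _ _) (le_max_right _ _)
    have hb2 : 0 < β ^ 2 := by positivity
    calc (max (1 / τ) (β * β)) ^ 2 * (β * τ)
        ≤ max ((1 / τ) ^ 2) ((β * β) ^ 2) * (β * τ) := mul_le_mul_of_nonneg_right e2 hbt.le
      _ ≤ β ^ 2 * pot β (β ^ 2 * τ) := by
          rcases le_total ((1 / τ) ^ 2) ((β * β) ^ 2) with h3 | h3
          · rw [max_eq_right h3]
            calc (β * β) ^ 2 * (β * τ) = β ^ 2 * (β * (β ^ 2 * τ)) := by ring
              _ ≤ _ := mul_le_mul_of_nonneg_left e4 hb2.le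
          · rw [max_eq_left h3]
            calc (1 / τ) ^ 2 * (β * τ) = β ^ 2 * (β / (β ^ 2 * τ)) := by
                  field_simp
              _ ≤ _ := mul_le_mul_of_nonneg_left e3 hb2.le
  · -- `β τ = 1`
    have hτ' : τ = 1 / β := by field_simp; linarith
    have e1 : pot β τ = 1 := by
      unfold pot
      rw [h1, hτ']
      have : β / (1 / β) ≤ 1 := by
        rw [div_div_eq_mul_div, div_one]
        nlinarith
      rw [max_eq_left this, max_self]
    have e2 : max (1 / τ) (β * ξ) = β := by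
      rw [hτ', one_div_one_div]
      apply max_eq_left
      nlinarith
    have e3 : β / (ξ ^ 2 * τ) ≤ pot β (ξ ^ 2 * τ) :=
      le_trans (le_max_right _ _) (le_max_right _ _)
    rw [e1, e2, mul_one]
    calc β ^ 2 = ξ ^ 2 * (β / (ξ ^ 2 * τ)) := by
          rw [hτ']
          field_simp
      _ ≤ _ := mul_le_mul_of_nonneg_left e3 (by positivity)

/-- the norms of `ξ` -/
theorem xi_norms (h : IsTCycle b t n) (hb : b ≠ 0) (i : ℕ) :
    (padicNorm q b * padicNorm q (t i) < 1 ∧ padicNorm q (b + 1 / t i) = 1 / padicNorm q (t i)) ∨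
      (1 < padicNorm q b * padicNorm q (t i) ∧ padicNorm q (b + 1 / t i) = padicNorm q b) ∨
      (padicNorm q b * padicNorm q (t i) = 1 ∧ padicNorm q (b + 1 / t i) ≤ padicNorm q b) := by
  have hτ : 0 < padicNorm q (t i) := norm_pos (h.ne i)
  have h1 : padicNorm q (1 / t i) = 1 / padicNorm q (t i) := by
    rw [padicNorm.div, padicNorm.one]
  rcases lt_trichotomy (padicNorm q b * padicNorm q (t i)) 1 with h2 | h2 | h2
  · left
    refine ⟨h2, ?_⟩
    rw [add_comm, norm_add_eq (by rw [h1, lt_div_iff₀ hτ]; exact h2), h1]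
  · right; right
    refine ⟨h2, ?_⟩
    apply Pool.Agent.H97.norm_add_le le_rfl
    rw [h1, div_le_iff₀ hτ, h2]
  · right; left
    refine ⟨h2, ?_⟩
    rw [norm_add_eq (by rw [h1, div_lt_iff₀ hτ]; exact h2)]

theorem gf_le_max (h : IsTCycle b t n) {e : ℚ} (he : padicNorm q e = 1) (i : ℕ) :
    padicNorm q (gf b t e i) ≤
      max (1 / padicNorm q (t i)) (padicNorm q b * padicNorm q (b + 1 / t i)) := by
  have h1 : gf b t e i = -(1 / t i) + e * (b * (b + 1 / t i)) := by unfold gf; ring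
  rw [h1]
  apply Pool.Agent.H97.norm_add_le
  · rw [padicNorm.neg, padicNorm.div, padicNorm.one]
    exact le_max_left _ _
  · rw [padicNorm.mul, he, one_mul, padicNorm.mul]
    exact le_max_right _ _

theorem norm_e {e : ℚ} (he : e ^ 2 = 1) : padicNorm q e = 1 := by
  have h1 : padicNorm q e ^ 2 = 1 := by rw [← Pool.Agent.H97.norm_pow, he, padicNorm.one]
  have h2 : 0 ≤ padicNorm q e := padicNorm.nonneg e
  nlinarith

/-- at a prime at which `b` is integral -/
theorem prod_le_one (h : IsTCycle b t n) (hb : b ≠ 0) (hb1 : padicNorm q b ≤ 1) {e : ℕ → ℚ}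
    (he : ∀ i, e i ^ 2 = 1) : ∏ i ∈ Finset.range n, padicNorm q (gf b t (e i) i) ≤ 1 := by
  have hβ : 0 < padicNorm q b := norm_pos hb
  have key : ∏ i ∈ Finset.range n, (padicNorm q (gf b t (e i) i) ^ 2 *
      pot (padicNorm q b) (padicNorm q (t i))) ≤
      ∏ i ∈ Finset.range n, (padicNorm q (b + 1 / t i) ^ 2 *
        pot (padicNorm q b) (padicNorm q (t (i + 1)))) := by
    apply Finset.prod_le_prod
    · intro i _
      have := pot_pos (padicNorm q b) (padicNorm q (t i))
      positivity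
    · intro i _
      have hτ : 0 < padicNorm q (t i) := norm_pos (h.ne i)
      have hξ : 0 < padicNorm q (b + 1 / t i) := norm_pos (Neg.xi_ne h i)
      have h1 := pot_step hβ hb1 hτ hξ (xi_norms h hb i)
      have h2 := gf_le_max (q := q) h (norm_e (he i)) i
      have h3 : padicNorm q (t (i + 1)) = padicNorm q (b + 1 / t i) ^ 2 * padicNorm q (t i) := by
        rw [Neg.xi_sq h i, padicNorm.mul, Pool.Agent.H97.norm_pow]
      rw [h3]
      refine le_trans ?_ h1
      apply mul_le_mul_of_nonneg_right _ (pot_pos _ _).le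
      exact pow_le_pow_left₀ (padicNorm.nonneg _) h2 2
  rw [Finset.prod_mul_distrib, Finset.prod_mul_distrib, (av_padic q).prod_sq h, one_mul,
    prod_shift (f := fun i => pot (padicNorm q b) (padicNorm q (t i))) (pot_pos _ _).ne' (by
      have := h.per 0
      rw [zero_add] at this
      show pot (padicNorm q b) (padicNorm q (t n)) = pot (padicNorm q b) (padicNorm q (t 0))
      rw [this]), Finset.prod_pow] at key
  have hp : 0 < ∏ i ∈ Finset.range n, pot (padicNorm q b) (padicNorm q (t i)) :=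
    Finset.prod_pos fun i _ => pot_pos _ _
  have h4 : (∏ i ∈ Finset.range n, padicNorm q (gf b t (e i) i)) ^ 2 ≤ 1 := by
    apply le_of_mul_le_mul_right _ hp
    rw [one_mul]
    exact key
  have h5 : 0 ≤ ∏ i ∈ Finset.range n, padicNorm q (gf b t (e i) i) :=
    Finset.prod_nonneg fun i _ => padicNorm.nonneg _
  nlinarith

/-- units at poles -/
theorem xi_unit (h : IsTCycle b t n) (hb1 : 1 < padicNorm q b) (i : ℕ) :
    padicNorm q (b + 1 / t i) = 1 := by
  have e1 := h.norm_const_of_ge hb1.le (i + 1) i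
  rw [Neg.xi_sq h i, padicNorm.mul, Pool.Agent.H97.norm_pow] at e1
  have e2 : 0 < padicNorm q (t i) := norm_pos (h.ne i)
  have e3 : padicNorm q (b + 1 / t i) ^ 2 * padicNorm q (t i) = 1 ^ 2 * padicNorm q (t i) := by
    rw [e1]; ring
  exact sq_inj_nonneg (padicNorm.nonneg _) (by norm_num) (mul_right_cancel₀ e2.ne' e3)

/-- a unit plus a sign -/
theorem unit_add {x e : ℚ} (hx : padicNorm q x = 1) (he : e ^ 2 = 1) :
    padicNorm q (x + e) ≤ padicNorm q (2 : ℚ) := by
  by_cases h2 : q = 2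
  · subst h2
    have he' : e = 1 ∨ e = -1 := by
      have : (e - 1) * (e + 1) = 0 := by linear_combination he
      rcases mul_eq_zero.1 this with h | h
      · left; linarith
      · right; linarith
    have hden : padicNorm 2 (x.den : ℚ) = 1 := by
      have h3 := norm_nd (r := 2) x
      rw [hx, one_mul, num_of_good hx.ge] at h3
      exact h3
    have hnum : padicNorm 2 (x.num : ℚ) = 1 := num_of_good hx.ge
    have hd : ¬ (2 : ℕ) ∣ x.den := (padicNorm.nat_eq_one_iff x.den).1 hden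
    have hn : ¬ ((2 : ℕ) : ℤ) ∣ x.num := (padicNorm.int_eq_one_iff x.num).1 hnum
    have hxd : x * x.den = x.num := Rat.mul_den_eq_num x
    have h2n : padicNorm 2 (2 : ℚ) = 1 / 2 := by
      have := padicNorm.padicNorm_p_of_prime (p := 2)
      push_cast at this
      rw [this]
      norm_num
    rw [h2n]
    have key : padicNorm 2 ((x + e) * x.den) < 1 := by
      rcases he' with rfl | rfl
      · have e1 : (x + 1) * x.den = ((x.num + x.den : ℤ) : ℚ) := by
          push_cast
          linear_combination hxd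
        rw [e1, padicNorm.int_lt_one_iff]
        omega
      · have e1 : (x + -1) * x.den = ((x.num - x.den : ℤ) : ℚ) := by
          push_cast
          linear_combination hxd
        rw [e1, padicNorm.int_lt_one_iff]
        omega
    rw [padicNorm.mul, hden, mul_one] at key
    have := norm_le_of_lt_one key
    push_cast at this
    exact this
  · have h3 : padicNorm q (2 : ℚ) = 1 := by
      have : padicNorm q ((2 : ℕ) : ℚ) = 1 := by
        rw [padicNorm.nat_eq_one_iff]
        intro hd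
        exact h2 ((Nat.prime_dvd_prime_iff_eq hq.out Nat.prime_two).1 hd)
      exact_mod_cast this
    rw [h3]
    apply Pool.Agent.H97.norm_add_le hx.le
    rw [norm_e he]

theorem gf_eq' {e : ℚ} (he : e ^ 2 = 1) (i : ℕ) :
    gf b t e i = e * (b * ((b + 1 / t i) + e)) - (b + 1 / t i) := by
  unfold gf
  linear_combination -b * he

/-- at a pole -/
theorem gf_pole (h : IsTCycle b t n) (hb1 : 1 < padicNorm q b) {e : ℚ} (he : e ^ 2 = 1) (i : ℕ) :
    padicNorm q (gf b t e i) ≤ padicNorm q (2 * b) := by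
  have hx := xi_unit h hb1 i
  have h2b : 1 ≤ padicNorm q (2 * b) := by
    rw [padicNorm.mul]
    by_cases h2 : q = 2
    · subst h2
      have h2n : padicNorm 2 (2 : ℚ) = 1 / 2 := by
        have := padicNorm.padicNorm_p_of_prime (p := 2)
        push_cast at this
        rw [this]
        norm_num
      have := le_norm_of_one_lt hb1
      push_cast at this
      rw [h2n]
      linarith
    · have h3 : padicNorm q (2 : ℚ) = 1 := by
        have : padicNorm q ((2 : ℕ) : ℚ) = 1 := by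
          rw [padicNorm.nat_eq_one_iff]
          intro hd
          exact h2 ((Nat.prime_dvd_prime_iff_eq hq.out Nat.prime_two).1 hd)
        exact_mod_cast this
      rw [h3, one_mul]
      exact hb1.le
  rw [gf_eq' he i]
  apply Pool.Agent.H97.norm_sub_le
  · rw [padicNorm.mul, norm_e he, one_mul, padicNorm.mul, padicNorm.mul, mul_comm]
    exact mul_le_mul_of_nonneg_right (unit_add hx he) (padicNorm.nonneg _)
  · rw [hx]; exact h2b

/-- all primes together -/
theorem norm_prod_le (h : IsTCycle b t n) (hb : b ≠ 0) {e : ℕ → ℚ} (he : ∀ i, e i ^ 2 = 1) :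
    (∏ i ∈ Finset.range n, padicNorm q (gf b t (e i) i)) *
      padicNorm q ((2 * b).den : ℚ) ^ n ≤ 1 := by
  have hden1 : padicNorm q ((2 * b).den : ℚ) ≤ 1 := padicNorm.of_nat _
  have hden0 : 0 ≤ padicNorm q ((2 * b).den : ℚ) := padicNorm.nonneg _
  have hpr0 : 0 ≤ ∏ i ∈ Finset.range n, padicNorm q (gf b t (e i) i) :=
    Finset.prod_nonneg fun i _ => padicNorm.nonneg _
  rcases le_or_gt (padicNorm q b) 1 with h1 | h1
  · have h2 := prod_le_one h hb h1 he
    calc (∏ i ∈ Finset.range n, padicNorm q (gf b t (e i) i)) *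
        padicNorm q ((2 * b).den : ℚ) ^ n ≤ 1 * 1 :=
          mul_le_mul h2 (pow_le_one₀ hden0 hden1) (pow_nonneg hden0 n) (by norm_num)
      _ = 1 := one_mul 1
  · have h2 : ∏ i ∈ Finset.range n, padicNorm q (gf b t (e i) i) ≤
        ∏ i ∈ Finset.range n, padicNorm q (2 * b) :=
      Finset.prod_le_prod (fun i _ => padicNorm.nonneg _) fun i _ => gf_pole h h1 (he i) i
    rw [Finset.prod_const, Finset.card_range] at h2
    calc (∏ i ∈ Finset.range n, padicNorm q (gf b t (e i) i)) *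
        padicNorm q ((2 * b).den : ℚ) ^ n ≤
          padicNorm q (2 * b) ^ n * padicNorm q ((2 * b).den : ℚ) ^ n :=
          mul_le_mul_of_nonneg_right h2 (pow_nonneg hden0 n)
      _ = padicNorm q ((2 * b).num : ℚ) ^ n := by
          rw [← mul_pow, norm_nd]
      _ ≤ 1 := pow_le_one₀ (padicNorm.nonneg _) (padicNorm.of_int _)

end

end Pool.Agent.H24.FP.M
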