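import Pool.Agent.H24.FP.Place

/-!
# Negative cycles: one place dominates, the real place and the conclusion
-/

set_option autoImplicit false

namespace Pool.Agent.H24.FP.M

open Pool.Agent.H97 Pool.Agent.H24.FP.N2

theorem poly_neg {a b : ℚ} (ha : 0 < a) (hb : 0 < b) (h : (b - 1) * a ≤ b) :
    (1 + (b + a)) * ((b + a) + b * a) ≤ 2 * (1 + b) * (a ^ 2 + (b + a)) := by
  rcases le_or_gt a 1 with h1 | h1
  · nlinarith [mul_nonneg (sq_nonneg b) (sub_nonneg.2 h1), mul_nonneg hb.le (sub_nonneg.2 h1),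
      mul_pos hb (mul_pos ha ha), mul_pos ha ha]
  · have h2 : b * (a - 1) ≤ a := by linarith
    have h3 : b * (b * (a - 1)) ≤ b * a := mul_le_mul_of_nonneg_left h2 hb.le
    nlinarith [mul_nonneg hb.le (sq_nonneg (a - 1)), mul_pos ha ha]

theorem poly_pos {a b : ℚ} (ha : 0 < a) (hab : a < b) (h1 : a ≤ 1) :
    (1 + (b - a)) * ((b - a) + b * a) ≤ 2 * (1 + b) * (a ^ 2 + (b - a)) := by
  have hb : 0 < b := by linarith
  nlinarith [mul_nonneg (sub_nonneg.2 h1) (by nlinarith : 0 ≤ b ^ 2 + b - a),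
    mul_pos (mul_pos ha ha) hb]

/-- nonzero rationals which are integral everywhere -/
theorem one_le_abs_of_norms {H : ℚ} (hH : H ≠ 0) (h : ∀ q : ℕ, q.Prime → padicNorm q H ≤ 1) :
    1 ≤ |H| := by
  have h1 := int_of_norms h
  have h2 : H.num ≠ 0 := Rat.num_ne_zero.2 hH
  have h3 : (1 : ℤ) ≤ |H.num| := Int.one_le_abs h2
  have h4 : (1 : ℚ) ≤ |(H.num : ℚ)| := by exact_mod_cast h3
  rwa [h1] at h4

theorem norm_prod (q : ℕ) [hq : Fact q.Prime] (n : ℕ) (f : ℕ → ℚ) :
    padicNorm q (∏ i ∈ Finset.range n, f i) = ∏ i ∈ Finset.range n, padicNorm q (f i) := by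
  induction n with
  | zero => simp
  | succ n ih => rw [Finset.prod_range_succ, Finset.prod_range_succ, padicNorm.mul, ih]

section
variable {b : ℚ} {t : ℕ → ℚ} {n : ℕ}

theorem abs_e {e : ℚ} (he : e ^ 2 = 1) : |e| = 1 := by
  have h1 : |e| ^ 2 = 1 := by rw [sq_abs, he]
  have h2 : 0 ≤ |e| := abs_nonneg e
  nlinarith

/-- the real place -/
theorem gf_real (h : Neg b t n) {e : ℚ} (he : e ^ 2 = 1) (i : ℕ) :
    (1 + -(1 / t i)) * |gf b t e i| ≤
      2 * (1 + b) * ((b + 1 / t i) ^ 2 * (1 + -(1 / t (i + 1)))) := by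
  have hb := h.hb
  have hT := h.toIsTCycle
  have hx0 := Neg.xi_ne hT i
  have hxb := x_lt h i
  have hr := h.real i
  have hal : 1 < b → (b - 1) * |b + 1 / t i| ≤ b := fun h6 => abs_le h h6 i
  have h3 : (b + 1 / t i) ^ 2 * (1 / t (i + 1)) = 1 / t i := by
    have h1 := h.ne i
    rw [Neg.xi_sq hT i]
    generalize b + 1 / t i = x at *
    field_simp
  have hy : -(1 / t i) = b - (b + 1 / t i) := by ring
  have h4 : (b + 1 / t i) ^ 2 * (1 + -(1 / t (i + 1))) =
      (b + 1 / t i) ^ 2 + (b - (b + 1 / t i)) := by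
    rw [← hy]
    linear_combination -h3
  have hg : |gf b t e i| ≤ (b - (b + 1 / t i)) + b * |b + 1 / t i| := by
    unfold gf
    refine le_trans (abs_add_le _ _) ?_
    rw [abs_mul, abs_mul, abs_e he, abs_of_pos hb, one_mul,
      abs_of_pos (by linarith : 0 < b - (b + 1 / t i))]
  rw [h4, hy]
  generalize b + 1 / t i = x at *
  have hxy : 0 < b - x := by linarith
  refine le_trans (mul_le_mul_of_nonneg_left hg (by linarith)) ?_
  rcases lt_or_gt_of_ne hx0 with h5 | h5
  · obtain ⟨a, ha⟩ : ∃ a, a = -x := ⟨_, rfl⟩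
    have hx : x = -a := by rw [ha]; ring
    have ha0 : 0 < a := by linarith
    have hab : (b - 1) * a ≤ b := by
      rcases le_or_gt b 1 with h6 | h6
      · nlinarith
      · have h7 := hal h6
        rw [abs_of_neg h5, ← ha] at h7
        exact h7
    have h9 := poly_neg ha0 hb hab
    rw [abs_of_neg h5, hx]
    nlinarith
  · have h9 := poly_pos h5 hxb hr
    rw [abs_of_pos h5]
    nlinarith

theorem prod_real (h : Neg b t n) {e : ℕ → ℚ} (he : ∀ i, e i ^ 2 = 1) :
    ∏ i ∈ Finset.range n, |gf b t (e i) i| ≤ (2 * (1 + b)) ^ n := by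
  have hT := h.toIsTCycle
  have hb := h.hb
  have hy : ∀ i, 0 < 1 + -(1 / t i) := fun i => by
    have := one_div_neg.2 (h.ht i)
    linarith
  obtain ⟨C, hC⟩ : ∃ C, C = 2 * (1 + b) := ⟨_, rfl⟩
  rw [← hC]
  have key : ∏ i ∈ Finset.range n, ((1 + -(1 / t i)) * |gf b t (e i) i|) ≤
      ∏ i ∈ Finset.range n, (C * ((|b + 1 / t i|) ^ 2 * (1 + -(1 / t (i + 1))))) := by
    apply Finset.prod_le_prod
    · intro i _
      exact mul_nonneg (hy i).le (abs_nonneg _)
    · intro i _
      rw [sq_abs, hC]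
      exact gf_real h (he i) i
  rw [Finset.prod_mul_distrib, Finset.prod_mul_distrib, Finset.prod_mul_distrib,
    Finset.prod_const, Finset.card_range, av_abs.prod_sq hT, one_mul,
    prod_shift (f := fun i => 1 + -(1 / t i)) (hy 0).ne' (by
      have := h.per 0
      rw [zero_add] at this
      show 1 + -(1 / t n) = 1 + -(1 / t 0)
      rw [this])] at key
  have hp : 0 < ∏ i ∈ Finset.range n, (1 + -(1 / t i)) := Finset.prod_pos fun i _ => hy i
  apply le_of_mul_le_mul_left _ hp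
  rw [mul_comm _ (C ^ n)]
  exact key

theorem sq_ne_one (h : Neg b t n) (h01 : t 1 ≠ t 0) (i : ℕ) : (b + 1 / t i) ^ 2 ≠ 1 := by
  intro h1
  apply abs_ne_one h h01 i
  have h2 : |b + 1 / t i| ^ 2 = 1 := by rw [sq_abs, h1]
  have h3 : 0 ≤ |b + 1 / t i| := abs_nonneg _
  nlinarith

/-- the sign at the dominating prime -/
theorem exists_sign {p : ℕ} [hp : Fact p.Prime] (h : IsTCycle b t n) (hb : b ≠ 0)
    (hP : 1 < padicNorm p (2 * b) * padicNorm p (2 : ℚ)) (i : ℕ) :
    ∃ e : ℚ, e ^ 2 = 1 ∧ padicNorm p (gf b t e i) = padicNorm p (2 * b) := by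
  have h20 : (0 : ℚ) < padicNorm p (2 : ℚ) := norm_pos two_ne_zero
  have h21 : padicNorm p (2 : ℚ) ≤ 1 := by
    have := padicNorm.of_nat (p := p) 2
    exact_mod_cast this
  rw [padicNorm.mul] at hP
  have hβ : 0 < padicNorm p b := norm_pos hb
  have hβ1 : 1 < padicNorm p b := by
    by_contra hcon
    push Not at hcon
    have e1 : padicNorm p (2 : ℚ) * padicNorm p b * padicNorm p (2 : ℚ) ≤ 1 := by
      calc padicNorm p (2 : ℚ) * padicNorm p b * padicNorm p (2 : ℚ) ≤ 1 * 1 * 1 := by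
            gcongr
        _ = 1 := by norm_num
    linarith
  have hP1 : 1 < padicNorm p (2 : ℚ) * padicNorm p b := by
    by_contra hcon
    push Not at hcon
    have : padicNorm p (2 : ℚ) * padicNorm p b * padicNorm p (2 : ℚ) ≤ 1 * 1 := by gcongr
    linarith
  have hx := xi_unit h hβ1
  have h1 : b * ((b + 1 / t i) ^ 2 - 1) =
      (b + 1 / t i) ^ 2 * (b + 1 / t (i + 1)) - (b + 1 / t i) := by
    linear_combination xrec h i
  have h2 : padicNorm p b * (padicNorm p ((b + 1 / t i) - 1) * padicNorm p ((b + 1 / t i) + 1)) ≤ 1 := by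
    rw [← padicNorm.mul, ← padicNorm.mul,
      show b * (((b + 1 / t i) - 1) * ((b + 1 / t i) + 1)) = b * ((b + 1 / t i) ^ 2 - 1) by ring, h1]
    apply Pool.Agent.H97.norm_sub_le
    · rw [padicNorm.mul, Pool.Agent.H97.norm_pow, hx i, hx (i + 1)]
      norm_num
    · rw [hx i]
  have hsign : ∃ e : ℚ, e ^ 2 = 1 ∧ padicNorm p ((b + 1 / t i) + e) = padicNorm p (2 : ℚ) := by
    rcases lt_or_ge (padicNorm p ((b + 1 / t i) - 1)) (padicNorm p (2 : ℚ)) with h3 | h3
    · refine ⟨1, by norm_num, ?_⟩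
      rw [show (b + 1 / t i) + 1 = 2 + ((b + 1 / t i) - 1) by ring, norm_add_eq h3]
    · refine ⟨-1, by norm_num, ?_⟩
      have h4 : padicNorm p ((b + 1 / t i) + 1) < padicNorm p (2 : ℚ) := by
        by_contra hcon
        push Not at hcon
        have h5 : padicNorm p (2 : ℚ) * padicNorm p (2 : ℚ) ≤
            padicNorm p ((b + 1 / t i) - 1) * padicNorm p ((b + 1 / t i) + 1) :=
          mul_le_mul h3 hcon h20.le (le_trans h20.le h3)
        have h6 : padicNorm p b * (padicNorm p (2 : ℚ) * padicNorm p (2 : ℚ)) ≤ 1 :=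
          le_trans (mul_le_mul_of_nonneg_left h5 hβ.le) h2
        nlinarith
      rw [show (b + 1 / t i) + -1 = -(2 + -((b + 1 / t i) + 1)) by ring, padicNorm.neg,
        norm_add_eq (by rw [padicNorm.neg]; exact h4)]
  obtain ⟨e, he, h3⟩ := hsign
  refine ⟨e, he, ?_⟩
  have h4 : padicNorm p (e * (b * ((b + 1 / t i) + e))) = padicNorm p (2 * b) := by
    rw [padicNorm.mul, norm_e he, one_mul, padicNorm.mul, h3, padicNorm.mul, mul_comm]
  rw [gf_eq' he i, sub_eq_add_neg, norm_add_eq, h4]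
  rw [h4, padicNorm.neg, hx i, padicNorm.mul]
  exact hP1

/-- a dominating prime -/
theorem prime_dom {p : ℕ} [hp : Fact p.Prime] (h : Neg b t n)
    (hP : ((2 * b).num : ℚ) + 2 * (2 * b).den < padicNorm p (2 * b) ^ 2) : t 1 = t 0 := by
  by_contra h01
  have hT := h.toIsTCycle
  have hb := h.hb
  have hb0 : b ≠ 0 := hb.ne'
  have h2b0 : (2 * b) ≠ 0 := mul_ne_zero two_ne_zero hb0
  have hx := sq_ne_one h h01
  set M : ℕ := (2 * b).den with hM
  have hMpos : (0 : ℚ) < M := by exact_mod_cast (2 * b).den_pos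
  have hRM : 2 * b * M = ((2 * b).num : ℚ) := Rat.mul_den_eq_num (2 * b)
  have hRpos : (0 : ℚ) < ((2 * b).num : ℚ) := by
    rw [← hRM]; positivity
  -- `P` is a power of `p`
  have hP0 : 0 < padicNorm p (2 * b) := norm_pos h2b0
  have hP1 : 1 < padicNorm p (2 * b) := by
    by_contra hcon
    push Not at hcon
    have : padicNorm p (2 * b) ^ 2 ≤ 1 := pow_le_one₀ hP0.le hcon
    have h1 : (1 : ℚ) ≤ M := by exact_mod_cast (2 * b).den_pos
    linarith
  have hPM : padicNorm p (2 * b) * padicNorm p (M : ℚ) = 1 := by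
    have e1 := norm_nd (r := p) (2 * b)
    rw [num_of_good hP1.le] at e1
    exact e1
  obtain ⟨z, hz⟩ := padicNorm.values_discrete (p := p) h2b0
  have hp1 : (1 : ℚ) < p := by exact_mod_cast hp.out.one_lt
  have hz1 : 0 ≤ -z := by
    rw [hz] at hP1
    have e1 : (p : ℚ) ^ (0 : ℤ) < (p : ℚ) ^ (-z) := by rw [zpow_zero]; exact hP1
    exact ((zpow_lt_zpow_iff_right₀ hp1).1 e1).le
  obtain ⟨k, hk⟩ : ∃ k : ℕ, (k : ℤ) = -z := ⟨(-z).toNat, Int.toNat_of_nonneg hz1⟩
  have hPk : padicNorm p (2 * b) = (p : ℚ) ^ k := by rw [hz, ← hk, zpow_natCast]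
  -- the denominator is at least `P`
  have hMP : padicNorm p (2 * b) ≤ M := by
    have hd : p ^ k ∣ M := by
      have e1 : padicNorm p (M : ℚ) = (p : ℚ) ^ (-(k : ℤ)) := by
        rw [zpow_neg, zpow_natCast, ← hPk]
        field_simp
        linarith
      have e2 : padicNorm p ((M : ℤ) : ℚ) ≤ (p : ℚ) ^ (-(k : ℤ)) := by
        rw [Int.cast_natCast, e1]
      have e3 := (padicNorm.dvd_iff_norm_le (p := p) (n := k) (z := (M : ℤ))).2 e2
      exact_mod_cast e3
    rw [hPk]
    exact_mod_cast Nat.le_of_dvd (2 * b).den_pos hd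
  have hP2 : 2 < padicNorm p (2 * b) := by
    have : 2 * padicNorm p (2 * b) < padicNorm p (2 * b) ^ 2 := by linarith
    nlinarith
  have hPP : 1 < padicNorm p (2 * b) * padicNorm p (2 : ℚ) := by
    by_cases h2 : p = 2
    · subst h2
      have h2n : padicNorm 2 (2 : ℚ) = 1 / 2 := by
        have := padicNorm.padicNorm_p_of_prime (p := 2)
        push_cast at this
        rw [this]
        norm_num
      rw [h2n]
      linarith
    · have h3 : padicNorm p (2 : ℚ) = 1 := by
        have : padicNorm p ((2 : ℕ) : ℚ) = 1 := by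
          rw [padicNorm.nat_eq_one_iff]
          intro hd
          exact h2 ((Nat.prime_dvd_prime_iff_eq hp.out Nat.prime_two).1 hd)
        exact_mod_cast this
      rw [h3, mul_one]
      exact hP1
  choose e he hge using exists_sign hT hb0 hPP
  have he' : ∀ i, (-e i) ^ 2 = 1 := fun i => by rw [neg_sq]; exact he i
  have hprodp := (av_padic p).prod_gf hT hx he
  have h1 : ∏ i ∈ Finset.range n, padicNorm p (gf b t (e i) i) = padicNorm p (2 * b) ^ n := by
    rw [Finset.prod_congr rfl fun i _ => hge i, Finset.prod_const, Finset.card_range]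
  rw [h1] at hprodp
  -- the integer
  set H : ℚ := (∏ i ∈ Finset.range n, gf b t (-e i) i) * (M : ℚ) ^ n / ((p : ℚ) ^ k) ^ (2 * n)
    with hH
  have hpk : (0 : ℚ) < (p : ℚ) ^ k := by positivity
  have hH0 : H ≠ 0 := by
    rw [hH]
    apply div_ne_zero
    · apply mul_ne_zero
      · exact Finset.prod_ne_zero_iff.2 fun i _ => gf_ne hT hx (he' i) i
      · exact pow_ne_zero _ hMpos.ne'
    · exact pow_ne_zero _ hpk.ne'
  have hHle : ∀ q : ℕ, q.Prime → padicNorm q H ≤ 1 := by
    intro q hq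
    have hqf : Fact q.Prime := ⟨hq⟩
    rw [hH, padicNorm.div, padicNorm.mul, norm_prod, Pool.Agent.H97.norm_pow,
      Pool.Agent.H97.norm_pow]
    by_cases hqp : q = p
    · subst hqp
      have e1 : padicNorm q ((q : ℚ) ^ k) = padicNorm q (M : ℚ) := by
        have e2 : padicNorm q ((q : ℚ) ^ k) * padicNorm q (2 * b) = 1 := by
          rw [hPk, Pool.Agent.H97.norm_pow, padicNorm.padicNorm_p_of_prime, inv_pow]
          exact inv_mul_cancel₀ hpk.ne'
        have e3 : padicNorm q ((q : ℚ) ^ k) * padicNorm q (2 * b) =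
            padicNorm q (M : ℚ) * padicNorm q (2 * b) := by rw [e2]; linarith
        exact mul_right_cancel₀ hP0.ne' e3
      rw [e1]
      have e4 : 0 < padicNorm q (M : ℚ) := norm_pos hMpos.ne'
      rw [div_le_one (by positivity), mul_comm 2 n, pow_mul]
      have e5 : (∏ i ∈ Finset.range n, padicNorm q (gf b t (-e i) i)) = padicNorm q (M : ℚ) ^ n := by
        have e6 : padicNorm q (2 * b) ^ n * padicNorm q (M : ℚ) ^ n = 1 := by
          rw [← mul_pow, hPM, one_pow]
        have e7 : padicNorm q (2 * b) ^ n *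
            (∏ i ∈ Finset.range n, padicNorm q (gf b t (-e i) i)) =
            padicNorm q (2 * b) ^ n * padicNorm q (M : ℚ) ^ n := by rw [e6, hprodp]
        exact mul_left_cancel₀ (pow_pos hP0 n).ne' e7
      rw [e5, sq]
    · have e1 : padicNorm q ((p : ℚ) ^ k) = 1 := by
        have := nrm_other (p := q) (l := p) hqp k 1
        rw [pow_one] at this
        push_cast at this
        exact this
      rw [e1, one_pow, div_one]
      exact norm_prod_le hT hb0 he'
  have hfin := one_le_abs_of_norms hH0 hHle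
  have hreal := prod_real h he'
  rw [hH, abs_div, abs_mul, Finset.abs_prod, abs_of_pos (pow_pos hMpos n),
    abs_of_pos (pow_pos hpk (2 * n)), le_div_iff₀ (pow_pos hpk (2 * n)), one_mul] at hfin
  have h5 : ((p : ℚ) ^ k) ^ (2 * n) ≤ (2 * (1 + b) * M) ^ n := by
    rw [mul_pow]
    exact le_trans hfin (mul_le_mul_of_nonneg_right hreal (pow_pos hMpos n).le)
  rw [← hPk, pow_mul] at h5
  have h6 : padicNorm p (2 * b) ^ 2 ≤ 2 * (1 + b) * M :=
    le_of_pow_le_pow_left₀ h.pos.ne' (by positivity) h5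
  have h7 : 2 * (1 + b) * M = ((2 * b).num : ℚ) + 2 * M := by rw [← hRM]; ring
  rw [h7] at h6
  linarith

/-- the real place dominates -/
theorem real_dom (h : Neg b t n) (hb : ((2 * b).den : ℚ) + 2 ≤ 2 * b) : t 1 = t 0 := by
  by_contra h01
  have hT := h.toIsTCycle
  have hbp := h.hb
  have hb0 : b ≠ 0 := hbp.ne'
  have hx := sq_ne_one h h01
  set M : ℕ := (2 * b).den with hM
  have hM1 : (1 : ℚ) ≤ M := by exact_mod_cast (2 * b).den_pos
  have hb1 : 1 < b := by linarith
  have hsign : ∀ i, ∃ e : ℚ, e ^ 2 = 1 ∧ (M : ℚ) < |gf b t e i| := by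
    intro i
    have h1 := le_abs h hb1 i
    have h2 := x_lt h i
    have ha : 0 ≤ |b + 1 / t i| := abs_nonneg _
    have key : ∀ e : ℚ, e * (b + 1 / t i) = |b + 1 / t i| → (M : ℚ) < |gf b t e i| := by
      intro e he
      have h3 : gf b t e i = (b - (b + 1 / t i)) + b * |b + 1 / t i| := by
        rw [← he]; unfold gf; ring
      have h4 : b + (b - 1) * |b + 1 / t i| ≤ gf b t e i := by
        rw [h3]
        have := le_abs_self (b + 1 / t i)
        linarith
      have h5 : (M : ℚ) < b + (b - 1) * |b + 1 / t i| := by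
        have h6 : b * (b + (b - 1) * |b + 1 / t i|) = b ^ 2 + (b - 1) * (b * |b + 1 / t i|) := by
          ring
        have h7 : b ^ 2 + (b - 1) * (b - 1) ≤ b ^ 2 + (b - 1) * (b * |b + 1 / t i|) := by
          have := mul_le_mul_of_nonneg_left h1 (by linarith : 0 ≤ b - 1)
          linarith
        have h8 : b * (M : ℚ) < b ^ 2 + (b - 1) * (b - 1) := by nlinarith
        have h9 : b * (M : ℚ) < b * (b + (b - 1) * |b + 1 / t i|) := by rw [h6]; linarith
        exact lt_of_mul_lt_mul_left h9 hbp.le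
      exact lt_of_lt_of_le (lt_of_lt_of_le h5 h4) (le_abs_self _)
    rcases le_or_gt 0 (b + 1 / t i) with h3 | h3
    · exact ⟨1, by norm_num, key 1 (by rw [one_mul, abs_of_nonneg h3])⟩
    · exact ⟨-1, by norm_num, key (-1) (by rw [abs_of_neg h3]; ring)⟩
  choose e he hge using hsign
  have he' : ∀ i, (-e i) ^ 2 = 1 := fun i => by rw [neg_sq]; exact he i
  have hprod := av_abs.prod_gf hT hx he
  have h1 : (M : ℚ) ^ n < ∏ i ∈ Finset.range n, |gf b t (e i) i| := by
    have h2 : ∏ i ∈ Finset.range n, (M : ℚ) < ∏ i ∈ Finset.range n, |gf b t (e i) i| := by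
      apply Finset.prod_lt_prod_of_nonempty
      · intro i _; linarith
      · intro i _; exact hge i
      · exact ⟨0, Finset.mem_range.2 h.pos⟩
    rwa [Finset.prod_const, Finset.card_range] at h2
  -- the integer
  have hH0 : (∏ i ∈ Finset.range n, gf b t (-e i) i) * (M : ℚ) ^ n ≠ 0 := by
    apply mul_ne_zero
    · exact Finset.prod_ne_zero_iff.2 fun i _ => gf_ne hT hx (he' i) i
    · exact pow_ne_zero _ (by linarith)
  have hfin := one_le_abs_of_norms hH0 (by
    intro q hq
    have hqf : Fact q.Prime := ⟨hq⟩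
    rw [padicNorm.mul, norm_prod, Pool.Agent.H97.norm_pow]
    exact norm_prod_le hT hb0 he')
  have hMn : 0 < (M : ℚ) ^ n := by positivity
  rw [abs_mul, Finset.abs_prod, abs_of_pos hMn] at hfin
  have h3 : 0 < ∏ i ∈ Finset.range n, |gf b t (-e i) i| :=
    Finset.prod_pos fun i _ => abs_pos.2 (gf_ne hT hx (he' i) i)
  have h4 : (∏ i ∈ Finset.range n, |gf b t (-e i) i|) * (M : ℚ) ^ n <
      (∏ i ∈ Finset.range n, |gf b t (-e i) i|) * ∏ i ∈ Finset.range n, |gf b t (e i) i| :=
    mul_lt_mul_of_pos_left h1 h3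
  rw [mul_comm _ (∏ i ∈ Finset.range n, |gf b t (e i) i|)] at h4
  have h5 : (∏ i ∈ Finset.range n, |gf b t (e i) i|) *
      ∏ i ∈ Finset.range n, |gf b t (-e i) i| = 1 := hprod
  rw [h5] at h4
  linarith

end

end Pool.Agent.H24.FP.M
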