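import Pool.Agent.H24.FP.SquareRun
import Pool.Agent.H24.FP.PlaceR

/-!
# Negative cycles: one place dominates, two step products
-/

set_option autoImplicit false

namespace Pool.Agent.H24.FP.M

open Pool.Agent.H97 Pool.Agent.H24.FP.N2

/-- the factors `b - e / (t w)` -/
def ff (b : ℚ) (t : ℕ → ℚ) (e : ℚ) (i : ℕ) : ℚ := b - e * (1 / (t i * wf b t i))

section
variable {b : ℚ} {t : ℕ → ℚ} {n : ℕ} {N : ℚ → ℚ}

theorem inv_tw (h : IsTCycle b t n) (i : ℕ) :
    (b + 1 / t (i + 1)) * (1 / (t i * wf b t i)) =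
      (b + 1 / t i) * ((b + 1 / t (i + 1)) - b) := by
  have h0 := h.ne i
  have hx := Neg.xi_ne h i
  have hx' := Neg.xi_ne h (i + 1)
  have h1 : 1 / t (i + 1) * (b + 1 / t i) ^ 2 = 1 / t i := by
    rw [Neg.xi_sq h i]
    generalize b + 1 / t i = x at *
    field_simp
  have h2 : 1 / (t i * wf b t i) = 1 / t i * (1 / (b + 1 / t i)) * (1 / (b + 1 / t (i + 1))) := by
    unfold wf
    rw [one_div_mul_one_div, one_div_mul_one_div, mul_assoc]
  rw [h2]
  have h3 : (b + 1 / t (i + 1)) * (1 / (b + 1 / t (i + 1))) = 1 := mul_one_div_cancel hx'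
  have h4 : (b + 1 / t i) * (1 / (b + 1 / t i)) = 1 := mul_one_div_cancel hx
  have h5 : (b + 1 / t (i + 1)) - b = 1 / t (i + 1) := by ring
  rw [h5]
  generalize 1 / (b + 1 / t (i + 1)) = yi at *
  generalize 1 / (b + 1 / t i) = xi at *
  generalize b + 1 / t (i + 1) = y at *
  generalize b + 1 / t i = x at *
  generalize 1 / t (i + 1) = u at *
  generalize 1 / t i = v at *
  linear_combination v * xi * h3 - xi * h1 + u * x * h4

theorem ff_eq (h : IsTCycle b t n) (e : ℚ) (i : ℕ) :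
    (b + 1 / t (i + 1)) * ff b t e i =
      b * ((b + 1 / t (i + 1)) + e * (b + 1 / t i)) - e * ((b + 1 / t i) * (b + 1 / t (i + 1))) := by
  have h1 := inv_tw h i
  unfold ff
  generalize 1 / (t i * wf b t i) = z at *
  linear_combination -e * h1

theorem ff_id (h : IsTCycle b t n) {e : ℚ} (he : e ^ 2 = 1) (i : ℕ) :
    (wf b t i - e) * ff b t e i = (b + 1 / t i) * (wf b t (i + 1) - e) := by
  apply mul_left_cancel₀ (Neg.xi_ne h (i + 1))
  have h1 := ff_eq h e i
  have h2 := xi_id h (i + 1)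
  have h3 := xrec h i
  have h4 : (b + 1 / t (i + 1)) * ((wf b t i - e) * ff b t e i) =
      (wf b t i - e) * (b * ((b + 1 / t (i + 1)) + e * (b + 1 / t i)) -
        e * ((b + 1 / t i) * (b + 1 / t (i + 1)))) := by
    rw [← h1]; ring
  rw [h4]
  have h5 : wf b t i = (b + 1 / t i) * (b + 1 / t (i + 1)) := rfl
  rw [h5]
  generalize b + 1 / t i = x at *
  generalize b + 1 / t (i + 1) = y at *
  linear_combination (x * y - x * b) * he + e * y * h3 + x * h2

theorem ff_mul (h : IsTCycle b t n) {e : ℚ} (he : e ^ 2 = 1) (i : ℕ) :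
    ff b t e i * ff b t (-e) i * (wf b t i ^ 2 - 1) =
      (b + 1 / t i) ^ 2 * (wf b t (i + 1) ^ 2 - 1) := by
  have h1 := ff_id h he i
  have h2 := ff_id h (e := -e) (by rw [neg_sq]; exact he) i
  generalize ff b t e i = g at *
  generalize ff b t (-e) i = g' at *
  generalize b + 1 / t i = x at *
  generalize wf b t i = w at *
  generalize wf b t (i + 1) = w' at *
  have h3 : ((w - e) * g) * ((w - -e) * g') =
      (x * (w' - e)) * (x * (w' - -e)) := by rw [h1, h2]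
  linear_combination h3 + (g * g' - x ^ 2) * he

theorem ff_ne (h : IsTCycle b t n) (hw : ∀ i, wf b t i ^ 2 ≠ 1) {e : ℚ} (he : e ^ 2 = 1)
    (i : ℕ) : ff b t e i ≠ 0 := by
  intro h0
  have h1 := ff_mul h he i
  rw [h0, zero_mul, zero_mul] at h1
  have h2 := Neg.xi_ne h i
  have h3 := sub_ne_zero.2 (hw (i + 1))
  have h4 : (b + 1 / t i) ^ 2 * (wf b t (i + 1) ^ 2 - 1) ≠ 0 :=
    mul_ne_zero (pow_ne_zero _ h2) h3
  exact h4 h1.symm

theorem wf_per (h : IsTCycle b t n) : wf b t n = wf b t 0 := by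
  have e1 := h.per 0
  have e2 := h.per 1
  rw [zero_add] at e1
  rw [add_comm 1 n] at e2
  unfold wf
  rw [e1, e2]

theorem Av.prod_xi (hN : Av N) (h : IsTCycle b t n) :
    ∏ i ∈ Finset.range n, N (b + 1 / t i) = 1 := by
  have h1 := hN.prod_sq h
  rw [Finset.prod_pow] at h1
  have h2 : 0 < ∏ i ∈ Finset.range n, N (b + 1 / t i) :=
    Finset.prod_pos fun i _ => hN.pos _ (Neg.xi_ne h i)
  nlinarith

/-- the two products are inverse to each other -/
theorem Av.prod_ff (hN : Av N) (h : IsTCycle b t n) (hw : ∀ i, wf b t i ^ 2 ≠ 1)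
    {e : ℕ → ℚ} (he : ∀ i, e i ^ 2 = 1) :
    (∏ i ∈ Finset.range n, N (ff b t (e i) i)) * ∏ i ∈ Finset.range n, N (ff b t (-e i) i) = 1 := by
  have hx0 : ∀ i, 0 < N (wf b t i ^ 2 - 1) := fun i => hN.pos _ (sub_ne_zero.2 (hw i))
  have h1 : ∏ i ∈ Finset.range n,
      ((N (ff b t (e i) i) * N (ff b t (-e i) i)) * N (wf b t i ^ 2 - 1)) =
      ∏ i ∈ Finset.range n, (N (b + 1 / t i) ^ 2 * N (wf b t (i + 1) ^ 2 - 1)) := by
    apply Finset.prod_congr rfl
    intro i _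
    rw [← hN.mul, ← hN.mul, ff_mul h (he i) i, hN.mul, hN.pow _ (Neg.xi_ne h i)]
  rw [Finset.prod_mul_distrib, Finset.prod_mul_distrib, Finset.prod_mul_distrib,
    prod_shift (f := fun i => N (wf b t i ^ 2 - 1)) (hx0 0).ne' (by
      show N (wf b t n ^ 2 - 1) = N (wf b t 0 ^ 2 - 1)
      rw [wf_per h]), hN.prod_sq h, one_mul] at h1
  have h2 : ∏ i ∈ Finset.range n, N (wf b t i ^ 2 - 1) ≠ 0 :=
    Finset.prod_ne_zero_iff.2 fun i _ => (hx0 i).ne'
  apply mul_right_cancel₀ h2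
  rw [h1, one_mul]

end

/-! ### Primes at which `b` is integral -/

/-- the norms of `b`, `t`, `ξ` -/
def Tri (β τ ξ : ℚ) : Prop :=
  (β * τ < 1 ∧ ξ = 1 / τ) ∨ (1 < β * τ ∧ ξ = β) ∨ (β * τ = 1 ∧ ξ ≤ β)

theorem triA {β τ ξ ξ1 ξ2 : ℚ} (hβ : 0 < β) (hβ1 : β ≤ 1) (hτ : 0 < τ) (hξ : 0 < ξ)
    (h : Tri β τ ξ) (h1 : Tri β (ξ ^ 2 * τ) ξ1) (h2 : Tri β (ξ1 ^ 2 * (ξ ^ 2 * τ)) ξ2) :
    max β (1 / τ) ≤ max ξ (ξ * ξ1 * ξ2) := by
  rcases h with ⟨h3, h4⟩ | ⟨h3, h4⟩ | ⟨h3, h4⟩
  · have e1 : β ≤ 1 / τ := by rw [le_div_iff₀ hτ]; exact h3.le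
    rw [max_eq_right e1, h4]
    exact le_max_left _ _
  · have e1 : 1 / τ ≤ β := by rw [div_le_iff₀ hτ]; exact h3.le
    rw [max_eq_left e1, h4]
    exact le_max_left _ _
  · have e1 : 1 / τ = β := by rw [div_eq_iff hτ.ne']; exact h3.symm
    rw [e1, max_self]
    rcases h4.eq_or_lt with h5 | h5
    · rw [h5]; exact le_max_left _ _
    · refine le_trans ?_ (le_max_right _ _)
      have hξ1 : ξ < 1 := by linarith
      have hξ2 : ξ ^ 2 < 1 := by nlinarith
      have e2 : β * (ξ ^ 2 * τ) = ξ ^ 2 := by linear_combination ξ ^ 2 * h3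
      have e3 : ξ1 = β / ξ ^ 2 := by
        rcases h1 with ⟨_, h6⟩ | ⟨h6, _⟩ | ⟨h6, _⟩
        · rw [h6, ← e1]
          field_simp
        · rw [e2] at h6; linarith
        · rw [e2] at h6; linarith
      have e4 : β * (ξ1 ^ 2 * (ξ ^ 2 * τ)) = β ^ 2 / ξ ^ 2 := by
        rw [show β * (ξ1 ^ 2 * (ξ ^ 2 * τ)) = ξ1 ^ 2 * (β * (ξ ^ 2 * τ)) by ring, e2, e3]
        field_simp
      have e5 : 1 < β ^ 2 / ξ ^ 2 := by
        rw [lt_div_iff₀ (by positivity), one_mul]
        nlinarith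
      have e6 : ξ2 = β := by
        rcases h2 with ⟨h6, _⟩ | ⟨_, h6⟩ | ⟨h6, _⟩
        · rw [e4] at h6; linarith
        · exact h6
        · rw [e4] at h6; linarith
      rw [e3, e6]
      have e7 : ξ * (β / ξ ^ 2) * β = β * (β / ξ) := by field_simp
      rw [e7]
      have e8 : 1 ≤ β / ξ := by rw [le_div_iff₀ hξ, one_mul]; exact h5.le
      nlinarith

theorem triB {β τ1 ξ ξ1 ξ2 : ℚ} (hβ : 0 < β) (hβ1 : β ≤ 1) (hτ : 0 < τ1) (hξ : 0 < ξ)
    (hξ1 : 0 < ξ1) (h1 : Tri β τ1 ξ1) (h2 : Tri β (ξ1 ^ 2 * τ1) ξ2) :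
    ξ * ξ1 * max β (1 / (ξ1 ^ 2 * τ1)) ≤ max ξ (ξ * ξ1 * ξ2) := by
  have hτ2 : 0 < ξ1 ^ 2 * τ1 := by positivity
  rcases h2 with ⟨h3, h4⟩ | ⟨h3, h4⟩ | ⟨h3, h4⟩
  · have e1 : β ≤ 1 / (ξ1 ^ 2 * τ1) := by rw [le_div_iff₀ hτ2]; exact h3.le
    rw [max_eq_right e1, ← h4]
    exact le_max_right _ _
  · have e1 : 1 / (ξ1 ^ 2 * τ1) ≤ β := by rw [div_le_iff₀ hτ2]; exact h3.le
    rw [max_eq_left e1, h4]
    exact le_max_right _ _
  · have e1 : 1 / (ξ1 ^ 2 * τ1) = β := by rw [div_eq_iff hτ2.ne']; exact h3.symm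
    rw [e1, max_self]
    refine le_trans ?_ (le_max_left _ _)
    have e2 : ξ1 * β ≤ 1 := by
      rcases h1 with ⟨h5, h6⟩ | ⟨h5, h6⟩ | ⟨h5, h6⟩
      · have e3 : ξ1 ^ 2 * τ1 = ξ1 := by
          rw [h6]
          field_simp
        rw [e3] at h3
        linarith
      · rw [h6]; nlinarith
      · nlinarith
    calc ξ * ξ1 * β = ξ * (ξ1 * β) := by ring
      _ ≤ ξ * 1 := mul_le_mul_of_nonneg_left e2 hξ.le
      _ = ξ := mul_one ξ

theorem tri_step {β τ ξ ξ1 ξ2 : ℚ} (hβ : 0 < β) (hβ1 : β ≤ 1) (hτ : 0 < τ) (hξ : 0 < ξ)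
    (hξ1 : 0 < ξ1) (h : Tri β τ ξ) (h1 : Tri β (ξ ^ 2 * τ) ξ1)
    (h2 : Tri β (ξ1 ^ 2 * (ξ ^ 2 * τ)) ξ2) :
    max β (1 / (τ * (ξ * ξ1))) * max 1 (ξ * ξ1) ≤ ξ * max 1 (ξ1 * ξ2) := by
  have hA := triA hβ hβ1 hτ hξ h h1 h2
  have hB := triB hβ hβ1 (by positivity : 0 < ξ ^ 2 * τ) hξ hξ1 h1 h2
  have e1 : ξ * max 1 (ξ1 * ξ2) = max ξ (ξ * ξ1 * ξ2) := by
    rw [mul_max_of_nonneg _ _ hξ.le, mul_one, mul_assoc]
  rw [e1]
  have hw : 0 < ξ * ξ1 := mul_pos hξ hξ1
  have a1 : β ≤ max ξ (ξ * ξ1 * ξ2) := le_trans (le_max_left _ _) hA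
  have a2 : 1 / τ ≤ max ξ (ξ * ξ1 * ξ2) := le_trans (le_max_right _ _) hA
  have a3 : ξ * ξ1 * β ≤ max ξ (ξ * ξ1 * ξ2) :=
    le_trans (mul_le_mul_of_nonneg_left (le_max_left _ _) hw.le) hB
  have a4 : 1 / (τ * (ξ * ξ1)) ≤ max ξ (ξ * ξ1 * ξ2) := by
    refine le_trans ?_ (le_trans (mul_le_mul_of_nonneg_left (le_max_right _ _) hw.le) hB)
    apply le_of_eq
    field_simp
  have a5 : 1 / (τ * (ξ * ξ1)) * (ξ * ξ1) = 1 / τ := by field_simp
  rcases le_total β (1 / (τ * (ξ * ξ1))) with h3 | h3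
  · rw [max_eq_right h3]
    rcases le_total 1 (ξ * ξ1) with h4 | h4
    · rw [max_eq_right h4, a5]; exact a2
    · rw [max_eq_left h4, mul_one]; exact a4
  · rw [max_eq_left h3]
    rcases le_total 1 (ξ * ξ1) with h4 | h4
    · rw [max_eq_right h4, mul_comm]; exact a3
    · rw [max_eq_left h4, mul_one]; exact a1

section
variable {b : ℚ} {t : ℕ → ℚ} {n : ℕ} {q : ℕ} [hq : Fact q.Prime]

theorem ff_le_max (h : IsTCycle b t n) {e : ℚ} (he : padicNorm q e = 1) (i : ℕ) :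
    padicNorm q (ff b t e i) ≤ max (padicNorm q b)
      (1 / (padicNorm q (t i) * (padicNorm q (b + 1 / t i) * padicNorm q (b + 1 / t (i + 1))))) := by
  unfold ff
  apply Pool.Agent.H97.norm_sub_le
  · exact le_max_left _ _
  · rw [padicNorm.mul, he, one_mul, padicNorm.div, padicNorm.one, padicNorm.mul]
    unfold wf
    rw [padicNorm.mul]
    exact le_max_right _ _

/-- at a prime at which `b` is integral -/
theorem ff_prod_le_one (h : IsTCycle b t n) (hb : b ≠ 0) (hb1 : padicNorm q b ≤ 1) {e : ℕ → ℚ}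
    (he : ∀ i, e i ^ 2 = 1) : ∏ i ∈ Finset.range n, padicNorm q (ff b t (e i) i) ≤ 1 := by
  have hβ : 0 < padicNorm q b := norm_pos hb
  have hξ : ∀ i, 0 < padicNorm q (b + 1 / t i) := fun i => norm_pos (Neg.xi_ne h i)
  have hm : ∀ i, 0 < max 1 (padicNorm q (wf b t i)) := fun i =>
    lt_of_lt_of_le one_pos (le_max_left _ _)
  have hwn : ∀ i, padicNorm q (wf b t i) =
      padicNorm q (b + 1 / t i) * padicNorm q (b + 1 / t (i + 1)) := fun i => by
    unfold wf; rw [padicNorm.mul]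
  have key : ∏ i ∈ Finset.range n, (padicNorm q (ff b t (e i) i) *
      max 1 (padicNorm q (wf b t i))) ≤
      ∏ i ∈ Finset.range n, (padicNorm q (b + 1 / t i) *
        max 1 (padicNorm q (wf b t (i + 1)))) := by
    apply Finset.prod_le_prod
    · intro i _
      exact mul_nonneg (padicNorm.nonneg _) (hm i).le
    · intro i _
      have hτ : 0 < padicNorm q (t i) := norm_pos (h.ne i)
      have t1 : padicNorm q (t (i + 1)) = padicNorm q (b + 1 / t i) ^ 2 * padicNorm q (t i) := by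
        rw [Neg.xi_sq h i, padicNorm.mul, Pool.Agent.H97.norm_pow]
      have t2 : padicNorm q (t (i + 1 + 1)) =
          padicNorm q (b + 1 / t (i + 1)) ^ 2 * padicNorm q (t (i + 1)) := by
        rw [Neg.xi_sq h (i + 1), padicNorm.mul, Pool.Agent.H97.norm_pow]
      have x0 := xi_norms (q := q) h hb i
      have x1 := xi_norms (q := q) h hb (i + 1)
      have x2 := xi_norms (q := q) h hb (i + 1 + 1)
      rw [t1] at x1
      rw [t2, t1] at x2
      have h1 := tri_step hβ hb1 hτ (hξ i) (hξ (i + 1)) x0 x1 x2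
      have h2 := ff_le_max (q := q) h (norm_e (he i)) i
      rw [hwn i, hwn (i + 1)]
      refine le_trans (mul_le_mul_of_nonneg_right h2 ?_) h1
      exact le_trans zero_le_one (le_max_left _ _)
  rw [Finset.prod_mul_distrib, Finset.prod_mul_distrib, (av_padic q).prod_xi h, one_mul,
    prod_shift (f := fun i => max 1 (padicNorm q (wf b t i))) (hm 0).ne' (by
      show max 1 (padicNorm q (wf b t n)) = max 1 (padicNorm q (wf b t 0))
      rw [wf_per h])] at key
  have hp : 0 < ∏ i ∈ Finset.range n, max 1 (padicNorm q (wf b t i)) :=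
    Finset.prod_pos fun i _ => hm i
  apply le_of_mul_le_mul_right _ hp
  rw [one_mul]
  exact key

end

/-! ### Poles of `b` -/

section
variable {b : ℚ} {t : ℕ → ℚ} {n : ℕ} {q : ℕ} [hq : Fact q.Prime]

theorem norm_two_le : padicNorm q (2 : ℚ) ≤ 1 := by
  have := padicNorm.of_nat (p := q) 2
  exact_mod_cast this

theorem norm_two_pos : 0 < padicNorm q (2 : ℚ) := norm_pos two_ne_zero

theorem one_le_pole (hb1 : 1 < padicNorm q b) : 1 ≤ padicNorm q (2 * b) := by
  rw [padicNorm.mul]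
  by_cases h2 : q = 2
  · subst h2
    have h2n : padicNorm 2 (2 : ℚ) = 1 / 2 := by
      have := padicNorm.padicNorm_p_of_prime (p := 2)
      push_cast at this
      rw [this]
      norm_num
    have := le_norm_of_one_lt hb1
    push_cast at this
    rw [h2n]
    linarith
  · have h3 : padicNorm q (2 : ℚ) = 1 := by
      have : padicNorm q ((2 : ℕ) : ℚ) = 1 := by
        rw [padicNorm.nat_eq_one_iff]
        intro hd
        exact h2 ((Nat.prime_dvd_prime_iff_eq hq.out Nat.prime_two).1 hd)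
      exact_mod_cast this
    rw [h3, one_mul]
    exact hb1.le

theorem xi_near (h : IsTCycle b t n) (hb1 : 1 < padicNorm q b) {s : ℚ} (hs : s ^ 2 = 1) {i : ℕ}
    (h2 : padicNorm q ((b + 1 / t i) + s) = padicNorm q (2 : ℚ)) :
    padicNorm q (b * ((b + 1 / t i) - s)) ≤ 1 := by
  have hx := xi_unit h hb1
  have hw : padicNorm q (wf b t i) = 1 := by
    unfold wf; rw [padicNorm.mul, hx i, hx (i + 1), one_mul]
  have h1 := xi_id h i
  have h3 : padicNorm q (wf b t i + -1) ≤ padicNorm q (2 : ℚ) := unit_add hw (by norm_num)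
  rw [← sub_eq_add_neg] at h3
  have h4 : padicNorm q (b * ((b + 1 / t i) - s)) * padicNorm q ((b + 1 / t i) + s) ≤
      1 * padicNorm q (2 : ℚ) := by
    rw [← padicNorm.mul, show b * ((b + 1 / t i) - s) * ((b + 1 / t i) + s) =
      b * ((b + 1 / t i) ^ 2 - 1) by linear_combination -b * hs, h1, padicNorm.mul, hx i]
    exact mul_le_mul_of_nonneg_left h3 zero_le_one
  rw [h2] at h4
  exact le_of_mul_le_mul_right h4 norm_two_pos

theorem gf_good (h : IsTCycle b t n) (hb1 : 1 < padicNorm q b) {s : ℚ} (hs : s ^ 2 = 1) {i : ℕ}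
    (h2 : padicNorm q ((b + 1 / t i) + s) = padicNorm q (2 : ℚ)) :
    padicNorm q (gf b t (-s) i) ≤ 1 := by
  rw [gf_eq' (by rw [neg_sq]; exact hs) i]
  apply Pool.Agent.H97.norm_sub_le
  · rw [padicNorm.mul, padicNorm.neg, norm_e hs, one_mul, ← sub_eq_add_neg]
    exact xi_near h hb1 hs h2
  · exact (xi_unit h hb1 i).le

theorem ff_norm (h : IsTCycle b t n) (hb1 : 1 < padicNorm q b) (e : ℚ) (i : ℕ) :
    padicNorm q (ff b t e i) = padicNorm q (b * ((b + 1 / t (i + 1)) + e * (b + 1 / t i)) -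
      e * ((b + 1 / t i) * (b + 1 / t (i + 1)))) := by
  rw [← ff_eq h e i, padicNorm.mul, xi_unit h hb1 (i + 1), one_mul]

theorem ff_good (h : IsTCycle b t n) (hb1 : 1 < padicNorm q b) {s s' : ℚ} (hs : s ^ 2 = 1)
    (hs' : s' ^ 2 = 1) {i : ℕ}
    (h2 : padicNorm q ((b + 1 / t i) + s) = padicNorm q (2 : ℚ))
    (h2' : padicNorm q ((b + 1 / t (i + 1)) + s') = padicNorm q (2 : ℚ)) :
    padicNorm q (ff b t (-(s * s')) i) ≤ 1 := by
  have hx := xi_unit h hb1
  have n1 := xi_near h hb1 hs h2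
  have n2 := xi_near h hb1 hs' h2'
  have e1 : padicNorm q (s * s') = 1 := by rw [padicNorm.mul, norm_e hs, norm_e hs', one_mul]
  rw [ff_norm h hb1]
  apply Pool.Agent.H97.norm_sub_le
  · rw [show b * ((b + 1 / t (i + 1)) + -(s * s') * (b + 1 / t i)) =
      b * ((b + 1 / t (i + 1)) - s') - (s * s') * (b * ((b + 1 / t i) - s)) by
        linear_combination -b * s' * hs]
    apply Pool.Agent.H97.norm_sub_le n2
    rw [padicNorm.mul, e1, one_mul]
    exact n1
  · rw [padicNorm.mul, padicNorm.neg, e1, padicNorm.mul, hx i, hx (i + 1)]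
    norm_num

theorem ff_pole (h : IsTCycle b t n) (hb1 : 1 < padicNorm q b) {e : ℚ} (he : e ^ 2 = 1) (i : ℕ) :
    padicNorm q (ff b t e i) ≤ padicNorm q (2 * b) := by
  have hx := xi_unit h hb1
  have hne := Neg.xi_ne h i
  rw [ff_norm h hb1]
  apply Pool.Agent.H97.norm_sub_le
  · rw [padicNorm.mul, padicNorm.mul, mul_comm]
    apply mul_le_mul_of_nonneg_right _ (padicNorm.nonneg _)
    have e1 : (b + 1 / t (i + 1)) + e * (b + 1 / t i) =
        (b + 1 / t i) * ((b + 1 / t (i + 1)) / (b + 1 / t i) + e) := by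
      generalize b + 1 / t i = x at *
      field_simp
    rw [e1, padicNorm.mul, hx i, one_mul]
    apply unit_add _ he
    rw [padicNorm.div, hx i, hx (i + 1), div_one]
  · rw [padicNorm.mul, norm_e he, padicNorm.mul, hx i, hx (i + 1)]
    have := one_le_pole hb1
    linarith

theorem gf_dom (h : IsTCycle b t n) (hb1 : 1 < padicNorm q b) (hP : 1 < padicNorm q (2 * b))
    {s : ℚ} (hs : s ^ 2 = 1) {i : ℕ}
    (h2 : padicNorm q ((b + 1 / t i) + s) = padicNorm q (2 : ℚ)) :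
    padicNorm q (gf b t s i) = padicNorm q (2 * b) := by
  have h4 : padicNorm q (s * (b * ((b + 1 / t i) + s))) = padicNorm q (2 * b) := by
    rw [padicNorm.mul, norm_e hs, one_mul, padicNorm.mul, h2, padicNorm.mul, mul_comm]
  rw [gf_eq' hs i, sub_eq_add_neg, norm_add_eq, h4]
  rw [h4, padicNorm.neg, xi_unit h hb1 i]
  exact hP

theorem ff_dom (h : IsTCycle b t n) (hb1 : 1 < padicNorm q b) (hP : 1 < padicNorm q (2 * b))
    {s s' : ℚ} (hs : s ^ 2 = 1) (hs' : s' ^ 2 = 1) {i : ℕ}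
    (h2 : padicNorm q ((b + 1 / t i) + s) = padicNorm q (2 : ℚ))
    (h2' : padicNorm q ((b + 1 / t (i + 1)) + s') = padicNorm q (2 : ℚ)) :
    padicNorm q (ff b t (s * s') i) = padicNorm q (2 * b) := by
  have hx := xi_unit h hb1
  have n1 := xi_near h hb1 hs h2
  have n2 := xi_near h hb1 hs' h2'
  have e1 : padicNorm q (s * s') = 1 := by rw [padicNorm.mul, norm_e hs, norm_e hs', one_mul]
  have e2 : padicNorm q (b * ((b + 1 / t (i + 1)) + (s * s') * (b + 1 / t i))) =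
      padicNorm q (2 * b) := by
    have e3 : b * ((b + 1 / t (i + 1)) + (s * s') * (b + 1 / t i)) =
        s' * (2 * b) + (b * ((b + 1 / t (i + 1)) - s') +
          (s * s') * (b * ((b + 1 / t i) - s))) := by
      linear_combination b * s' * hs
    have e4 : padicNorm q (s' * (2 * b)) = padicNorm q (2 * b) := by
      rw [padicNorm.mul, norm_e hs', one_mul]
    rw [e3, norm_add_eq, e4]
    rw [e4]
    refine lt_of_le_of_lt ?_ hP
    apply Pool.Agent.H97.norm_add_le n2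
    rw [padicNorm.mul, e1, one_mul]
    exact n1
  rw [ff_norm h hb1, sub_eq_add_neg, norm_add_eq, e2]
  rw [e2, padicNorm.neg, padicNorm.mul, e1, padicNorm.mul, hx i, hx (i + 1)]
  linarith

/-- the sign of a unit -/
noncomputable def sg (q : ℕ) (x : ℚ) : ℚ :=
  if padicNorm q (x + 1) = padicNorm q (2 : ℚ) then 1 else -1

omit hq in
theorem sg_sq (x : ℚ) : sg q x ^ 2 = 1 := by
  unfold sg
  split_ifs <;> norm_num

theorem sg_spec {x : ℚ} (hx : padicNorm q x = 1) :
    padicNorm q (x + sg q x) = padicNorm q (2 : ℚ) := by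
  unfold sg
  split_ifs with h1
  · exact h1
  · have h2 : padicNorm q (x + 1) < padicNorm q (2 : ℚ) :=
      lt_of_le_of_ne (unit_add hx (by norm_num)) h1
    apply le_antisymm (unit_add hx (by norm_num))
    by_contra hcon
    push Not at hcon
    have h3 : padicNorm q ((x + 1) - (x + -1)) ≤
        max (padicNorm q (x + 1)) (padicNorm q (x + -1)) :=
      Pool.Agent.H97.norm_sub_le (le_max_left _ _) (le_max_right _ _)
    rw [show (x + 1) - (x + -1) = 2 by ring] at h3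
    exact absurd h3 (not_le.2 (max_lt h2 hcon))

theorem sign_cases {e s : ℚ} (he : e ^ 2 = 1) (hs : s ^ 2 = 1) : e = s ∨ e = -s := by
  have h1 : (e - s) * (e + s) = 0 := by linear_combination he - hs
  rcases mul_eq_zero.1 h1 with h2 | h2
  · left; linarith
  · right; linarith

/-- the potential at a pole -/
noncomputable def ph (q : ℕ) (b : ℚ) (t : ℕ → ℚ) (s : ℚ) (i : ℕ) : ℚ :=
  if padicNorm q (gf b t (-s) i) ≤ 1 then padicNorm q (2 * b) else 1

theorem ph_pos (hb1 : 1 < padicNorm q b) (s : ℚ) (i : ℕ) : 1 ≤ ph q b t s i := by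
  unfold ph
  split_ifs
  · exact one_le_pole hb1
  · exact le_rfl

theorem bad_sign (h : IsTCycle b t n) (hb1 : 1 < padicNorm q b) {e : ℚ} (he : e ^ 2 = 1) {i : ℕ}
    (h1 : ¬ padicNorm q (gf b t (-e) i) ≤ 1) : e = -sg q (b + 1 / t i) := by
  rcases sign_cases he (sg_sq (q := q) (b + 1 / t i)) with h2 | h2
  · exfalso
    apply h1
    apply gf_good h hb1 he
    rw [h2]
    exact sg_spec (xi_unit h hb1 i)
  · exact h2

theorem pole_step (h : IsTCycle b t n) (hb1 : 1 < padicNorm q b) {e : ℕ → ℚ}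
    (he : ∀ i, e i ^ 2 = 1) (i : ℕ) :
    padicNorm q (gf b t (-e i) i) ^ 2 * padicNorm q (ff b t (-(e i * e (i + 1))) i) *
      ph q b t (e i) i ≤ padicNorm q (2 * b) ^ 2 * ph q b t (e (i + 1)) (i + 1) := by
  have hQ := one_le_pole hb1
  have he' : ∀ i, (-e i) ^ 2 = 1 := fun i => by rw [neg_sq]; exact he i
  have hE : (-(e i * e (i + 1))) ^ 2 = 1 := by rw [neg_sq, mul_pow, he, he, one_mul]
  have g0 := padicNorm.nonneg (p := q) (gf b t (-e i) i)
  have f0 := padicNorm.nonneg (p := q) (ff b t (-(e i * e (i + 1))) i)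
  have gQ := gf_pole h hb1 (he' i) i
  have fQ := ff_pole h hb1 hE i
  have hp1 := ph_pos (t := t) hb1 (e (i + 1)) (i + 1)
  by_cases h1 : padicNorm q (gf b t (-e i) i) ≤ 1
  · have e1 : ph q b t (e i) i = padicNorm q (2 * b) := by unfold ph; rw [if_pos h1]
    rw [e1]
    calc padicNorm q (gf b t (-e i) i) ^ 2 * padicNorm q (ff b t (-(e i * e (i + 1))) i) *
        padicNorm q (2 * b) ≤ 1 ^ 2 * padicNorm q (2 * b) * padicNorm q (2 * b) := by gcongr
      _ = padicNorm q (2 * b) ^ 2 * 1 := by ring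
      _ ≤ _ := mul_le_mul_of_nonneg_left hp1 (by positivity)
  · have e1 : ph q b t (e i) i = 1 := by unfold ph; rw [if_neg h1]
    rw [e1, mul_one]
    by_cases h2 : padicNorm q (gf b t (-e (i + 1)) (i + 1)) ≤ 1
    · have e2 : ph q b t (e (i + 1)) (i + 1) = padicNorm q (2 * b) := by
        unfold ph; rw [if_pos h2]
      rw [e2]
      gcongr
    · have e2 : ph q b t (e (i + 1)) (i + 1) = 1 := by unfold ph; rw [if_neg h2]
      rw [e2]
      have s1 := bad_sign h hb1 (he i) h1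
      have s2 := bad_sign h hb1 (he (i + 1)) h2
      have f1 : padicNorm q (ff b t (-(e i * e (i + 1))) i) ≤ 1 := by
        rw [s1, s2, neg_mul_neg]
        exact ff_good h hb1 (sg_sq _) (sg_sq _) (sg_spec (xi_unit h hb1 i))
          (sg_spec (xi_unit h hb1 (i + 1)))
      gcongr

/-- the product at a prime -/
theorem hh_norm_le (h : IsTCycle b t n) (hb : b ≠ 0) {e : ℕ → ℚ} (he : ∀ i, e i ^ 2 = 1)
    (hen : e n = e 0) :
    (∏ i ∈ Finset.range n, (padicNorm q (gf b t (-e i) i) ^ 2 *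
      padicNorm q (ff b t (-(e i * e (i + 1))) i))) *
      (padicNorm q ((2 * b).den : ℚ) ^ 2) ^ n ≤ 1 := by
  have he' : ∀ i, (-e i) ^ 2 = 1 := fun i => by rw [neg_sq]; exact he i
  have hE : ∀ i, (-(e i * e (i + 1))) ^ 2 = 1 := fun i => by
    rw [neg_sq, mul_pow, he, he, one_mul]
  have hden1 : padicNorm q ((2 * b).den : ℚ) ≤ 1 := padicNorm.of_nat _
  have hden0 : 0 ≤ padicNorm q ((2 * b).den : ℚ) := padicNorm.nonneg _
  have hden2 : padicNorm q ((2 * b).den : ℚ) ^ 2 ≤ 1 := pow_le_one₀ hden0 hden1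
  rcases le_or_gt (padicNorm q b) 1 with h1 | h1
  · have g1 := prod_le_one h hb h1 he'
    have f1 := ff_prod_le_one h hb h1 hE
    have g0 : 0 ≤ ∏ i ∈ Finset.range n, padicNorm q (gf b t (-e i) i) :=
      Finset.prod_nonneg fun i _ => padicNorm.nonneg _
    have f0 : 0 ≤ ∏ i ∈ Finset.range n, padicNorm q (ff b t (-(e i * e (i + 1))) i) :=
      Finset.prod_nonneg fun i _ => padicNorm.nonneg _
    rw [Finset.prod_mul_distrib, Finset.prod_pow]
    have g2 : (∏ i ∈ Finset.range n, padicNorm q (gf b t (-e i) i)) ^ 2 ≤ 1 :=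
      pow_le_one₀ g0 g1
    have d2 : (padicNorm q ((2 * b).den : ℚ) ^ 2) ^ n ≤ 1 := pow_le_one₀ (by positivity) hden2
    have d0 : 0 ≤ (padicNorm q ((2 * b).den : ℚ) ^ 2) ^ n := by positivity
    have g3 := pow_nonneg g0 2
    generalize (∏ i ∈ Finset.range n, padicNorm q (gf b t (-e i) i)) ^ 2 = A at *
    generalize ∏ i ∈ Finset.range n, padicNorm q (ff b t (-(e i * e (i + 1))) i) = B at *
    generalize (padicNorm q ((2 * b).den : ℚ) ^ 2) ^ n = C at *
    calc A * B * C ≤ 1 * 1 * 1 := by gcongr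
      _ = 1 := by norm_num
  · have hQ := one_le_pole h1
    have hp : ∀ i, 0 < ph q b t (e i) i := fun i => lt_of_lt_of_le one_pos (ph_pos h1 _ _)
    have key : ∏ i ∈ Finset.range n, (padicNorm q (gf b t (-e i) i) ^ 2 *
        padicNorm q (ff b t (-(e i * e (i + 1))) i) * ph q b t (e i) i) ≤
        ∏ i ∈ Finset.range n, (padicNorm q (2 * b) ^ 2 * ph q b t (e (i + 1)) (i + 1)) := by
      apply Finset.prod_le_prod
      · intro i _
        have g0 := padicNorm.nonneg (p := q) (gf b t (-e i) i)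
        have f0 := padicNorm.nonneg (p := q) (ff b t (-(e i * e (i + 1))) i)
        have := (hp i).le
        positivity
      · intro i _
        exact pole_step h h1 he i
    have kl : ∏ i ∈ Finset.range n, (padicNorm q (gf b t (-e i) i) ^ 2 *
        padicNorm q (ff b t (-(e i * e (i + 1))) i) * ph q b t (e i) i) =
        (∏ i ∈ Finset.range n, (padicNorm q (gf b t (-e i) i) ^ 2 *
          padicNorm q (ff b t (-(e i * e (i + 1))) i))) *
          ∏ i ∈ Finset.range n, ph q b t (e i) i := Finset.prod_mul_distrib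
    have kr : ∏ i ∈ Finset.range n, (padicNorm q (2 * b) ^ 2 * ph q b t (e (i + 1)) (i + 1)) =
        (padicNorm q (2 * b) ^ 2) ^ n * ∏ i ∈ Finset.range n, ph q b t (e i) i := by
      rw [Finset.prod_mul_distrib, Finset.prod_const, Finset.card_range,
        prod_shift (f := fun i => ph q b t (e i) i) (hp 0).ne' (by
          have := h.per 0
          rw [zero_add] at this
          show ph q b t (e n) n = ph q b t (e 0) 0
          unfold ph gf
          rw [hen, this])]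
    rw [kl, kr] at key
    have hpp : 0 < ∏ i ∈ Finset.range n, ph q b t (e i) i := Finset.prod_pos fun i _ => hp i
    have key2 := le_of_mul_le_mul_right key hpp
    calc _ ≤ (padicNorm q (2 * b) ^ 2) ^ n * (padicNorm q ((2 * b).den : ℚ) ^ 2) ^ n :=
          mul_le_mul_of_nonneg_right key2 (by positivity)
      _ = ((padicNorm q (2 * b) * padicNorm q ((2 * b).den : ℚ)) ^ 2) ^ n := by
          rw [← mul_pow, ← mul_pow]
      _ = (padicNorm q ((2 * b).num : ℚ) ^ 2) ^ n := by rw [norm_nd]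
      _ ≤ 1 := by
          apply pow_le_one₀ (by positivity)
          exact pow_le_one₀ (padicNorm.nonneg _) (padicNorm.of_int _)

end

section
variable {b : ℚ} {t : ℕ → ℚ} {n : ℕ} {N : ℚ → ℚ}

theorem Av.prod_hh (hN : Av N) (h : IsTCycle b t n) (hx : ∀ i, (b + 1 / t i) ^ 2 ≠ 1)
    (hw : ∀ i, wf b t i ^ 2 ≠ 1) {e : ℕ → ℚ} (he : ∀ i, e i ^ 2 = 1) :
    (∏ i ∈ Finset.range n, (N (gf b t (e i) i) ^ 2 * N (ff b t (e i * e (i + 1)) i))) *
      (∏ i ∈ Finset.range n, (N (gf b t (-e i) i) ^ 2 *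
        N (ff b t (-(e i * e (i + 1))) i))) = 1 := by
  have h1 := hN.prod_gf h hx he
  have h2 := hN.prod_ff h hw (e := fun i => e i * e (i + 1))
    (fun i => by rw [mul_pow, he, he, one_mul])
  rw [Finset.prod_mul_distrib, Finset.prod_mul_distrib, Finset.prod_pow, Finset.prod_pow]
  generalize ∏ i ∈ Finset.range n, N (gf b t (e i) i) = A at *
  generalize ∏ i ∈ Finset.range n, N (gf b t (-e i) i) = B at *
  generalize ∏ i ∈ Finset.range n, N (ff b t (e i * e (i + 1)) i) = C at *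
  generalize ∏ i ∈ Finset.range n, N (ff b t (-(e i * e (i + 1))) i) = D at *
  calc A ^ 2 * C * (B ^ 2 * D) = (A * B) ^ 2 * (C * D) := by ring
    _ = 1 := by rw [h1, h2]; norm_num

end

/-! ### The real place -/

theorem key_alg {b x w : ℚ} (hb : 0 < b) (h : b * (x ^ 2 - 1) = x * (w - 1)) :
    b * (b - x) ≤ (1 + b) ^ 2 * (1 + |w|) ^ 2 := by
  have hw0 : 0 ≤ |w| := abs_nonneg w
  have h1 : 1 ≤ (1 + |w|) ^ 2 := by nlinarith
  have h2 : (1 + b) ^ 2 * 1 ≤ (1 + b) ^ 2 * (1 + |w|) ^ 2 :=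
    mul_le_mul_of_nonneg_left h1 (by positivity)
  rcases le_or_gt (b * (b - x)) ((1 + b) ^ 2) with h3 | h3
  · linarith
  obtain ⟨a, ha⟩ : ∃ a, a = -x := ⟨_, rfl⟩
  have hx : x = -a := by rw [ha]; ring
  rw [hx] at h h3 ⊢
  have hT : 1 + 2 * b < b * a := by nlinarith
  have ha2 : 2 < a := by
    by_contra hcon
    push Not at hcon
    nlinarith
  have e1 : a * w = a + b - b * a ^ 2 := by linear_combination h
  have e2 : b * (a ^ 2 - 1) ≤ (1 + |w|) * a := by
    have h4 := neg_abs_le w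
    nlinarith
  have e3 : 0 ≤ b * (a ^ 2 - 1) := mul_nonneg hb.le (by nlinarith)
  have e4 : (b * (a ^ 2 - 1)) ^ 2 ≤ ((1 + |w|) * a) ^ 2 := pow_le_pow_left₀ e3 e2 2
  have e5 : b * (b + a) * a ^ 2 ≤ (b * (a ^ 2 - 1)) ^ 2 := by
    have e6 : (b * (a ^ 2 - 1)) ^ 2 - b * (b + a) * a ^ 2 =
        b * (a ^ 2 * (a * (b * a - 1) - 3 * b) + b) := by ring
    have e7 : 0 ≤ a * (b * a - 1) - 3 * b := by nlinarith
    have e8 : 0 ≤ b * (a ^ 2 * (a * (b * a - 1) - 3 * b) + b) := by positivity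
    linarith
  have e9 : b * (b + a) * a ^ 2 ≤ (1 + |w|) ^ 2 * a ^ 2 := by
    rw [← mul_pow]; exact le_trans e5 e4
  have e10 : b * (b + a) ≤ (1 + |w|) ^ 2 := le_of_mul_le_mul_right e9 (by positivity)
  have e11 : 1 * (1 + |w|) ^ 2 ≤ (1 + b) ^ 2 * (1 + |w|) ^ 2 :=
    mul_le_mul_of_nonneg_right (by nlinarith) (by positivity)
  have e12 : b * (b - -a) = b * (b + a) := by ring
  linarith

theorem ff_alg {b x x' x'' : ℚ} (hb : 0 < b) (hx : x ≠ 0) (hx' : x' ≠ 0)
    (h1 : b - x = x ^ 2 * (b - x')) (h2 : b - x' = x' ^ 2 * (b - x''))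
    (p0 : 0 < b - x)
    (hK : b * (b - x') ≤ (1 + b) ^ 2 * (1 + |x' * x''|) ^ 2) :
    (b + (b - x) / |x * x'|) * (1 + |x * x'|) ≤
      (4 * b + 5) * (|x| * (1 + |x' * x''|)) := by
  have hW : 0 < |x * x'| := abs_pos.2 (mul_ne_zero hx hx')
  have hW' : 0 ≤ |x' * x''| := abs_nonneg _
  have hX : 0 < |x| := abs_pos.2 hx
  have a1 : |x * x'| ^ 2 = x ^ 2 * x' ^ 2 := by rw [sq_abs, mul_pow]
  have a2 : |x' * x''| ^ 2 = x' ^ 2 * x'' ^ 2 := by rw [sq_abs, mul_pow]
  have a3 : |x| ^ 2 = x ^ 2 := sq_abs x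
  obtain ⟨V, hV⟩ : ∃ V, V = (b - x) / |x * x'| := ⟨_, rfl⟩
  have hV0 : 0 < V := by rw [hV]; exact div_pos p0 hW
  have hVW : V * |x * x'| = b - x := by rw [hV]; exact div_mul_cancel₀ _ hW.ne'
  rw [← hV]
  generalize |x * x'| = W at *
  generalize |x' * x''| = W' at *
  generalize |x| = X at *
  have hV2 : V = W * (b - x'') := by
    apply mul_right_cancel₀ hW.ne'
    rw [hVW, h1, h2]
    linear_combination -(b - x'') * a1
  have b1 : b + (b - x) ≤ X * (1 + 2 * ((1 + b) * (1 + W'))) := by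
    apply le_of_pow_le_pow_left₀ two_ne_zero (by positivity)
    have c1 : (b + (b - x)) ^ 2 = X ^ 2 * (1 + 4 * (b * (b - x'))) := by
      rw [a3]
      linear_combination 4 * b * h1
    rw [c1, mul_pow]
    apply mul_le_mul_of_nonneg_left _ (by positivity)
    have c2 : 0 ≤ (1 + b) * (1 + W') := by positivity
    nlinarith
  have b2 : b * W + V ≤ X * (W' + 2 * ((1 + b) * (1 + W'))) := by
    apply le_of_pow_le_pow_left₀ two_ne_zero (by positivity)
    have c1 : (b * W + V) ^ 2 = X ^ 2 * (W' ^ 2 + 4 * (b * (b - x'))) := by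
      rw [hV2, a3, a2]
      have c3 : (b * W + W * (b - x'')) ^ 2 = W ^ 2 * (x'' ^ 2 + 4 * (b * (b - x''))) := by ring
      rw [c3, a1]
      linear_combination -4 * b * x ^ 2 * h2
    rw [c1, mul_pow]
    apply mul_le_mul_of_nonneg_left _ (by positivity)
    have c2 : 0 ≤ (1 + b) * (1 + W') := by positivity
    nlinarith [mul_nonneg hW' c2]
  calc (b + V) * (1 + W) = (b + (b - x)) + (b * W + V) := by linear_combination hVW
    _ ≤ X * (1 + 2 * ((1 + b) * (1 + W'))) + X * (W' + 2 * ((1 + b) * (1 + W'))) :=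
        add_le_add b1 b2
    _ = (4 * b + 5) * (X * (1 + W')) := by ring

section
variable {b : ℚ} {t : ℕ → ℚ} {n : ℕ}

theorem y_pos (h : Neg b t n) (i : ℕ) : 0 < b - (b + 1 / t i) := by
  have := x_lt h i
  linarith

theorem y_rec (h : IsTCycle b t n) (i : ℕ) :
    b - (b + 1 / t i) = (b + 1 / t i) ^ 2 * (b - (b + 1 / t (i + 1))) := by
  rw [← xrec h i]; ring

theorem inv_w (b : ℚ) (t : ℕ → ℚ) (i : ℕ) : 1 / (t i * wf b t i) = -((b - (b + 1 / t i)) / wf b t i) := by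
  rw [← one_div_mul_one_div]
  ring

theorem ff_real (h : Neg b t n) {e : ℚ} (he : e ^ 2 = 1) (i : ℕ) :
    |ff b t e i| * (1 + |wf b t i|) ≤
      (4 * b + 5) * (|b + 1 / t i| * (1 + |wf b t (i + 1)|)) := by
  have hT := h.toIsTCycle
  have hb := h.hb
  have h1 := ff_alg hb (Neg.xi_ne hT i) (Neg.xi_ne hT (i + 1)) (y_rec hT i) (y_rec hT (i + 1))
    (y_pos h i) (key_alg hb (xi_id hT (i + 1)))
  refine le_trans (mul_le_mul_of_nonneg_right ?_ ?_) h1
  · unfold ff
    rw [inv_w b t i]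
    have e1 : b - e * -((b - (b + 1 / t i)) / wf b t i) =
      b + e * ((b - (b + 1 / t i)) / wf b t i) := by ring
    rw [e1]
    refine le_trans (abs_add_le _ _) ?_
    rw [abs_mul, abs_e he, one_mul, abs_div, abs_of_pos hb, abs_of_pos (y_pos h i)]
    exact le_rfl
  · have := abs_nonneg (wf b t i)
    linarith

theorem ff_prod_real (h : Neg b t n) {e : ℕ → ℚ} (he : ∀ i, e i ^ 2 = 1) :
    ∏ i ∈ Finset.range n, |ff b t (e i) i| ≤ (4 * b + 5) ^ n := by
  have hT := h.toIsTCycle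
  have hb := h.hb
  have hy : ∀ i, 0 < 1 + |wf b t i| := fun i => by
    have := abs_nonneg (wf b t i)
    linarith
  obtain ⟨C, hC⟩ : ∃ C, C = 4 * b + 5 := ⟨_, rfl⟩
  rw [← hC]
  have key : ∏ i ∈ Finset.range n, (|ff b t (e i) i| * (1 + |wf b t i|)) ≤
      ∏ i ∈ Finset.range n, (C * (|b + 1 / t i| * (1 + |wf b t (i + 1)|))) := by
    apply Finset.prod_le_prod
    · intro i _
      exact mul_nonneg (abs_nonneg _) (hy i).le
    · intro i _
      rw [hC]
      exact ff_real h (he i) i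
  rw [Finset.prod_mul_distrib, Finset.prod_mul_distrib, Finset.prod_mul_distrib,
    Finset.prod_const, Finset.card_range, av_abs.prod_xi hT, one_mul,
    prod_shift (f := fun i => 1 + |wf b t i|) (hy 0).ne' (by
      show 1 + |wf b t n| = 1 + |wf b t 0|
      rw [wf_per hT])] at key
  have hp : 0 < ∏ i ∈ Finset.range n, (1 + |wf b t i|) := Finset.prod_pos fun i _ => hy i
  exact le_of_mul_le_mul_right key hp

end

end Pool.Agent.H24.FP.M
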