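import Pool.Agent.H24.FP.SquareRun
import Pool.Agent.H24.FP.MFinal

/-!
# Conditions on the square class of `-b c`
-/

set_option autoImplicit false

namespace Pool.Agent.H24.FP.M

open Pool.Agent.H97 Pool.Agent.H24.FP.N2

/-- `t`-period two -/
theorem mem_of_two {b c : ℚ} {x : ℕ → ℚ} {n : ℕ} (hc : c ≠ 0) (hx : IsCycle b c x n)
    (h : x 2 ^ 2 / c = x 0 ^ 2 / c) :
    Function.minimalPeriod (mf b c) (some (x 0)) ∈ ({1, 2, 4} : Finset ℕ) := by
  apply hx.mem124
  rcases IsCycle.eq_or_neg_of_t hc h with h1 | h1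
  · have h2 : x (2 + 1) = x (0 + 1) := hx.next_eq_of_eq h1
    have h3 : x (2 + 1 + 1) = x (0 + 1 + 1) := hx.next_eq_of_eq h2
    have h4 : x 4 = x 2 := h3
    rw [h4, h1]
  · have h2 : x (2 + 1) = -x (0 + 1) := hx.next_eq_of_neg h1
    have h3 : x (2 + 1 + 1) = -x (0 + 1 + 1) := hx.next_eq_of_neg h2
    have h4 : x 4 = -x 2 := h3
    rw [h4, h1, neg_neg]

theorem padicNorm_inj {p : ℕ} [hp : Fact p.Prime] {a b : ℤ}
    (h : (p : ℚ) ^ a = (p : ℚ) ^ b) : a = b :=
  zpow_right_injective₀ (by exact_mod_cast hp.out.pos) (by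
    have : (1 : ℚ) < p := by exact_mod_cast hp.out.one_lt
    exact this.ne') h

/-- the condition at a prime `l` of the numerator: `-b c` is a square (`b c` has even valuation, if `l = 2`) -/
def SqAt (b c : ℚ) (l : ℕ) : Prop :=
  (l = 2 ∧ Even (padicValRat 2 (b * c))) ∨
    (l ≠ 2 ∧ ∀ _ : Fact l.Prime, IsSquare ((-(b * c) : ℚ) : ℚ_[l]))

/-- no cancellation where `-b c` is not a square -/
theorem nc_of_not {b c : ℚ} {x : ℕ → ℚ} {n : ℕ} (hb : b ≠ 0) (hc : c ≠ 0)
    (hx : IsCycle b c x n) {l : ℕ} (hl : l.Prime) (h : ¬ SqAt b c l) {i : ℕ}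
    (hi : padicNorm l b * padicNorm l (x i ^ 2 / c) = 1) :
    padicNorm l (b + 1 / (x i ^ 2 / c)) = padicNorm l b := by
  have hT := hx.toT hc
  have hlf : Fact l.Prime := ⟨hl⟩
  have hxi := hx.ne i
  by_cases hl2 : l = 2
  · exfalso
    subst hl2
    apply h
    refine Or.inl ⟨rfl, ?_⟩
    have ht : x i ^ 2 / c ≠ 0 := div_ne_zero (pow_ne_zero 2 hxi) hc
    have e1 : padicNorm 2 (b * (x i ^ 2 / c)) = 1 := by
      rw [padicNorm.mul]; exact hi
    have e2 : padicValRat 2 (b * (x i ^ 2 / c)) = 0 := by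
      rw [padicNorm.eq_zpow_of_nonzero (mul_ne_zero hb ht)] at e1
      have e3 : ((2 : ℕ) : ℚ) ^ (-padicValRat 2 (b * (x i ^ 2 / c))) = ((2 : ℕ) : ℚ) ^ (0 : ℤ) := by
        rw [zpow_zero]; exact e1
      have := padicNorm_inj (p := 2) e3
      omega
    have e4 : padicValRat 2 (b * c) = 2 * (padicValRat 2 b + padicValRat 2 (x i)) := by
      rw [padicValRat.mul hb ht, padicValRat.div (pow_ne_zero 2 hxi) hc,
        padicValRat.pow] at e2
      rw [padicValRat.mul hb hc]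
      push_cast at e2
      linarith
    rw [e4]
    exact even_two_mul _
  · rcases xi_norms (q := l) hT hb i with h4 | h4 | h4
    · exfalso
      rw [hi] at h4
      exact lt_irrefl _ h4.1
    · exact h4.2
    · rcases h4.2.eq_or_lt with h5 | h5
      · exact h5
      · exfalso
        apply h
        refine Or.inr ⟨hl2, fun _ => ?_⟩
        apply square_of_small hb hx (i := i)
        have h6 : padicNorm l (4 : ℚ) = 1 := by
          have : padicNorm l ((4 : ℕ) : ℚ) = 1 := by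
            rw [padicNorm.nat_eq_one_iff]
            intro hd
            have h7 : l ∣ 2 * 2 := hd
            rcases (Nat.Prime.dvd_mul hl).1 h7 with h8 | h8
            · exact hl2 ((Nat.prime_dvd_prime_iff_eq hl Nat.prime_two).1 h8)
            · exact hl2 ((Nat.prime_dvd_prime_iff_eq hl Nat.prime_two).1 h8)
          exact_mod_cast this
        rw [padicNorm.mul, h6, one_mul]
        exact h5

theorem lt_one_of_dvd {b : ℚ} {l : ℕ} (hl : l.Prime) (hd : l ∣ b.num.natAbs) :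
    padicNorm l b < 1 := by
  have : Fact l.Prime := ⟨hl⟩
  have hnd : ¬ l ∣ b.den := by
    intro hd'
    have h5 := Nat.dvd_gcd hd hd'
    rw [b.reduced] at h5
    exact hl.one_lt.not_ge (Nat.le_of_dvd one_pos h5)
  have h4 : padicNorm l b = padicNorm l (b.num : ℚ) / padicNorm l (b.den : ℚ) := by
    rw [← padicNorm.div, Rat.num_div_den]
  rw [(padicNorm.nat_eq_one_iff b.den).2 hnd, div_one] at h4
  rw [h4]
  exact (padicNorm.int_lt_one_iff b.num).2 (Int.natCast_dvd.2 hd)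

theorem dvd_of_lt_one {b : ℚ} {l : ℕ} (hl : l.Prime) (hb : padicNorm l b < 1) :
    l ∣ b.num.natAbs := by
  have : Fact l.Prime := ⟨hl⟩
  by_contra hcon
  have h1 : padicNorm l (b.num : ℚ) = 1 := by
    rw [padicNorm.int_eq_one_iff]
    intro hd
    exact hcon (Int.natCast_dvd.1 hd)
  have h2 : padicNorm l (b.den : ℚ) ≤ 1 := padicNorm.of_nat _
  have h3 : padicNorm l b * padicNorm l (b.den : ℚ) = 1 := by
    rw [← padicNorm.mul, Rat.mul_den_eq_num, h1]
  have h4 : 0 ≤ padicNorm l (b.den : ℚ) := padicNorm.nonneg _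
  have h5 : 0 ≤ padicNorm l b := padicNorm.nonneg _
  nlinarith

/-- the primes with runs are primes at which `-b c` is a square -/
theorem sqAt_of_run {b c : ℚ} {x : ℕ → ℚ} {n : ℕ} (hb : b ≠ 0) (hc : c ≠ 0)
    (hx : IsCycle b c x n) {l : ℕ} (hl : l ∈ runSet b c x) :
    l ∈ b.num.natAbs.primeFactors ∧ SqAt b c l := by
  classical
  obtain ⟨h1, h2⟩ := Finset.mem_filter.1 hl
  refine ⟨h1, ?_⟩
  by_contra hcon
  apply h2
  have hlp : l.Prime := Nat.prime_of_mem_primeFactors h1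
  have hlf : Fact l.Prime := ⟨hlp⟩
  have hlt := lt_one_of_dvd hlp (Nat.dvd_of_mem_primeFactors h1)
  intro i
  have h3 := mul_unit_lt (q := l) (hx.toT hc) hb hlt
    (fun i hi => nc_of_not hb hc hx hlp hcon hi) i
  have h4 : 0 < padicNorm l (x i ^ 2 / c) := norm_pos (hx.t_ne hc i)
  rw [eq_div_iff h4.ne']
  exact h3

/-- at most one prime with runs -/
theorem mem_of_square_num {b c : ℚ} {x : ℕ → ℚ} {n : ℕ} (hb : b ≠ 0) (hc : c ≠ 0)
    (hx : IsCycle b c x n) (q : ℕ)
    (h : ∀ l ∈ b.num.natAbs.primeFactors, SqAt b c l → l = q) :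
    Function.minimalPeriod (mf b c) (some (x 0)) ∈ ({1, 2, 4} : Finset ℕ) := by
  apply mem_of_two hc hx
  apply two_of_one_cancel (hx.toT hc) hb q
  intro l hl hlq hbl i hi
  apply nc_of_not hb hc hx hl _ hi
  intro h1
  apply hlq
  apply h l _ h1
  exact Nat.mem_primeFactors.2 ⟨hl, dvd_of_lt_one hl hbl, by
    rw [Int.natAbs_ne_zero]; exact Rat.num_ne_zero.2 hb⟩

end Pool.Agent.H24.FP.M
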