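import Pool.Agent.H24.FP.Place2
import Pool.Agent.H24.FP.SFinal

/-!
# Negative cycles: one place dominates, two step products, conclusion
-/

set_option autoImplicit false

namespace Pool.Agent.H24.FP.M

open Pool.Agent.H97 Pool.Agent.H24.FP.N2

section
variable {b : ℚ} {t : ℕ → ℚ} {n : ℕ}

theorem ne_one_of_ne_two (h : IsTCycle b t n) (h02 : t 2 ≠ t 0) : t 1 ≠ t 0 := by
  intro h1
  apply h02
  have e1 := h.next 1
  have e2 := h.next 0
  rw [h1] at e1
  have e3 : t (1 + 1) = t (0 + 1) := by rw [e1, e2]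
  have e4 : t 2 = t 1 := e3
  rw [e4, h1]

/-- the integer -/
theorem hh_int (h : IsTCycle b t n) (hb : b ≠ 0) {e : ℕ → ℚ} (he : ∀ i, e i ^ 2 = 1)
    (hen : e n = e 0) (q : ℕ) (hq : q.Prime) :
    padicNorm q ((∏ i ∈ Finset.range n, (gf b t (-e i) i ^ 2 * ff b t (-(e i * e (i + 1))) i)) *
      (((2 * b).den : ℚ) ^ 2) ^ n) ≤ 1 := by
  have hqf : Fact q.Prime := ⟨hq⟩
  have h1 := hh_norm_le (q := q) h hb he hen
  rw [padicNorm.mul, norm_prod, Pool.Agent.H97.norm_pow, Pool.Agent.H97.norm_pow]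
  refine le_trans (le_of_eq ?_) h1
  congr 1
  apply Finset.prod_congr rfl
  intro i _
  rw [padicNorm.mul, Pool.Agent.H97.norm_pow]

theorem hh_ne (h : IsTCycle b t n) (hx : ∀ i, (b + 1 / t i) ^ 2 ≠ 1)
    (hw : ∀ i, wf b t i ^ 2 ≠ 1) {e : ℕ → ℚ} (he : ∀ i, e i ^ 2 = 1) :
    ∏ i ∈ Finset.range n, (gf b t (-e i) i ^ 2 * ff b t (-(e i * e (i + 1))) i) ≠ 0 := by
  apply Finset.prod_ne_zero_iff.2
  intro i _
  apply mul_ne_zero
  · exact pow_ne_zero 2 (gf_ne h hx (by rw [_root_.neg_sq]; exact he i) i)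
  · exact ff_ne h hw (by rw [_root_.neg_sq, mul_pow, he, he, one_mul]) i

theorem hh_abs (e : ℕ → ℚ) :
    |∏ i ∈ Finset.range n, (gf b t (-e i) i ^ 2 * ff b t (-(e i * e (i + 1))) i)| =
      ∏ i ∈ Finset.range n, (|gf b t (-e i) i| ^ 2 * |ff b t (-(e i * e (i + 1))) i|) := by
  rw [Finset.abs_prod]
  apply Finset.prod_congr rfl
  intro i _
  rw [abs_mul, abs_pow]

/-- the real sign -/
def sr (x : ℚ) : ℚ := if 0 ≤ x then 1 else -1

theorem sr_sq (x : ℚ) : sr x ^ 2 = 1 := by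
  unfold sr
  split_ifs <;> norm_num

theorem sr_mul (x : ℚ) : sr x * x = |x| := by
  unfold sr
  split_ifs with h
  · rw [one_mul, abs_of_nonneg h]
  · push Not at h
    rw [abs_of_neg h]
    ring

theorem le_y (h : Neg b t n) (i : ℕ) : b - 1 ≤ b - (b + 1 / t i) := by
  have := h.real i
  linarith

/-- the one step factors at the real place -/
theorem gf_low (h : Neg b t n) (hb1 : 1 < b) (i : ℕ) :
    (2 * b - 1) * |b + 1 / t i| ≤ |gf b t (sr (b + 1 / t i)) i| := by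
  have hT := h.toIsTCycle
  have e1 : gf b t (sr (b + 1 / t i)) i = (b - (b + 1 / t i)) + b * |b + 1 / t i| := by
    unfold gf
    rw [← sr_mul (b + 1 / t i)]
    ring
  have e2 : (b - 1) * |b + 1 / t i| ≤ b - (b + 1 / t i) := by
    apply le_of_pow_le_pow_left₀ two_ne_zero (y_pos h i).le
    have e3 := y_rec hT i
    have e4 : (b - 1) ^ 2 ≤ (b - (b + 1 / t i)) * (b - (b + 1 / t (i + 1))) := by
      rw [sq]
      exact mul_le_mul (le_y h i) (le_y h (i + 1)) (by linarith) (y_pos h i).le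
    have e5 : (b - (b + 1 / t i)) ^ 2 = (b + 1 / t i) ^ 2 *
        ((b - (b + 1 / t i)) * (b - (b + 1 / t (i + 1)))) := by
      linear_combination (b - (b + 1 / t i)) * e3
    rw [mul_pow, sq_abs, e5, mul_comm ((b - 1) ^ 2)]
    exact mul_le_mul_of_nonneg_left e4 (sq_nonneg _)
  rw [e1]
  refine le_trans ?_ (le_abs_self _)
  linarith

/-- the two step factors at the real place -/
theorem ff_low (h : Neg b t n) (hb1 : 1 < b) (i : ℕ) :
    2 * b - 1 ≤ |ff b t (sr (b + 1 / t i) * sr (b + 1 / t (i + 1))) i| := by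
  have hT := h.toIsTCycle
  have hx := Neg.xi_ne hT i
  have hx' := Neg.xi_ne hT (i + 1)
  have hw := wf_ne hT i
  have hW : 0 < |wf b t i| := abs_pos.2 hw
  have e0 : sr (b + 1 / t i) * sr (b + 1 / t (i + 1)) * wf b t i = |wf b t i| := by
    unfold wf
    rw [abs_mul, ← sr_mul, ← sr_mul]
    ring
  obtain ⟨V, hV⟩ : ∃ V, V = (b - (b + 1 / t i)) / |wf b t i| := ⟨_, rfl⟩
  have hV0 : 0 < V := by rw [hV]; exact div_pos (y_pos h i) hW
  have hVW : V * |wf b t i| = b - (b + 1 / t i) := by rw [hV]; exact div_mul_cancel₀ _ hW.ne'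
  have e1 : ff b t (sr (b + 1 / t i) * sr (b + 1 / t (i + 1))) i = b + V := by
    unfold ff
    rw [inv_w b t i]
    obtain ⟨s, hs⟩ : ∃ s, s = sr (b + 1 / t i) * sr (b + 1 / t (i + 1)) := ⟨_, rfl⟩
    have hs2 : s ^ 2 = 1 := by rw [hs, mul_pow, sr_sq, sr_sq, one_mul]
    rw [← hs] at e0 ⊢
    have e2 : V = s * ((b - (b + 1 / t i)) / wf b t i) := by
      apply mul_right_cancel₀ hw
      rw [mul_assoc, div_mul_cancel₀ _ hw, ← hVW, ← e0]
      linear_combination -(V * wf b t i) * hs2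
    rw [e2]
    ring
  have e2 : b - 1 ≤ V := by
    apply le_of_pow_le_pow_left₀ two_ne_zero hV0.le
    have e3 := y_rec hT i
    have e4 := y_rec hT (i + 1)
    have e5 : V = |wf b t i| * (b - (b + 1 / t (i + 1 + 1))) := by
      apply mul_right_cancel₀ hW.ne'
      have e6 : |wf b t i| * |wf b t i| = (b + 1 / t i) ^ 2 * (b + 1 / t (i + 1)) ^ 2 := by
        rw [← sq, sq_abs]
        unfold wf
        ring
      rw [hVW, e3, e4]
      linear_combination -(b - (b + 1 / t (i + 1 + 1))) * e6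
    have e7 : V ^ 2 = (b - (b + 1 / t i)) * (b - (b + 1 / t (i + 1 + 1))) := by
      rw [← hVW, sq]
      nth_rewrite 2 [e5]
      ring
    rw [e7, sq]
    exact mul_le_mul (le_y h i) (le_y h (i + 1 + 1)) (by linarith) (y_pos h i).le
  rw [e1]
  refine le_trans ?_ (le_abs_self _)
  linarith

/-- the real place dominates -/
theorem real_dom2 (h : Neg b t n) (hM : ((2 * b).den : ℚ) ^ 2 < (2 * b - 1) ^ 3) : t 2 = t 0 := by
  by_contra h02
  have hT := h.toIsTCycle
  have hbp := h.hb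
  have hb0 : b ≠ 0 := hbp.ne'
  have hx := sq_ne_one h (ne_one_of_ne_two hT h02)
  have hw : ∀ i, wf b t i ^ 2 ≠ 1 := fun i hi => h02 (two_of_wf hT hi)
  have hM1 : (1 : ℚ) ≤ (2 * b).den := by exact_mod_cast (2 * b).den_pos
  have hM2 : (1 : ℚ) ≤ ((2 * b).den : ℚ) ^ 2 := one_le_pow₀ hM1
  have hb1 : 1 < b := by
    by_contra hcon
    push Not at hcon
    have e1 : (2 * b - 1) ^ 3 ≤ 1 := by
      have e2 : 1 - (2 * b - 1) ^ 3 = (1 - (2 * b - 1)) * (((2 * b - 1) + 1 / 2) ^ 2 + 3 / 4) := by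
        ring
      have e3 : 0 ≤ (1 - (2 * b - 1)) * (((2 * b - 1) + 1 / 2) ^ 2 + 3 / 4) :=
        mul_nonneg (by linarith) (by positivity)
      linarith
    linarith
  have hc : 0 < 2 * b - 1 := by linarith
  obtain ⟨e, he0⟩ : ∃ e : ℕ → ℚ, e = fun i => sr (b + 1 / t i) := ⟨_, rfl⟩
  have hei : ∀ i, e i = sr (b + 1 / t i) := fun i => by rw [he0]
  have he : ∀ i, e i ^ 2 = 1 := fun i => by rw [hei]; exact sr_sq _
  have hen : e n = e 0 := by
    have := h.per 0
    rw [zero_add] at this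
    rw [hei, hei, this]
  have hprod := av_abs.prod_hh hT hx hw he
  have hfin := one_le_abs_of_norms (mul_ne_zero (hh_ne hT hx hw he)
    (pow_ne_zero n (by positivity : ((2 * b).den : ℚ) ^ 2 ≠ 0)))
    (fun q hq => hh_int hT hb0 he hen q hq)
  rw [abs_mul, hh_abs, abs_of_pos (by positivity : 0 < (((2 * b).den : ℚ) ^ 2) ^ n)] at hfin
  have hlow : ((2 * b - 1) ^ 3) ^ n ≤
      ∏ i ∈ Finset.range n, (|gf b t (e i) i| ^ 2 * |ff b t (e i * e (i + 1)) i|) := by
    have e1 : ∏ i ∈ Finset.range n, (((2 * b - 1) * |b + 1 / t i|) ^ 2 * (2 * b - 1)) ≤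
        ∏ i ∈ Finset.range n, (|gf b t (e i) i| ^ 2 * |ff b t (e i * e (i + 1)) i|) := by
      apply Finset.prod_le_prod
      · intro i _
        positivity
      · intro i _
        apply mul_le_mul
        · apply pow_le_pow_left₀ (by positivity)
          rw [hei]
          exact gf_low h hb1 i
        · rw [hei, hei]
          exact ff_low h hb1 i
        · exact hc.le
        · positivity
    refine le_trans (le_of_eq ?_) e1
    have e2 : ∀ i ∈ Finset.range n, ((2 * b - 1) * |b + 1 / t i|) ^ 2 * (2 * b - 1) =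
        (2 * b - 1) ^ 3 * |b + 1 / t i| ^ 2 := fun i _ => by ring
    rw [Finset.prod_congr rfl e2, Finset.prod_mul_distrib, av_abs.prod_sq hT, mul_one,
      Finset.prod_const, Finset.card_range]
  have hpos : 0 < ∏ i ∈ Finset.range n, (|gf b t (-e i) i| ^ 2 *
      |ff b t (-(e i * e (i + 1))) i|) := by
    rw [← hh_abs]
    exact abs_pos.2 (hh_ne hT hx hw he)
  have hprod' : (∏ i ∈ Finset.range n, (|gf b t (e i) i| ^ 2 * |ff b t (e i * e (i + 1)) i|)) *
      (∏ i ∈ Finset.range n, (|gf b t (-e i) i| ^ 2 * |ff b t (-(e i * e (i + 1))) i|)) = 1 :=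
    hprod
  generalize ∏ i ∈ Finset.range n, (|gf b t (e i) i| ^ 2 * |ff b t (e i * e (i + 1)) i|) = A at *
  generalize ∏ i ∈ Finset.range n, (|gf b t (-e i) i| ^ 2 *
    |ff b t (-(e i * e (i + 1))) i|) = B at *
  have h1 : ((2 * b - 1) ^ 3) ^ n ≤ (((2 * b).den : ℚ) ^ 2) ^ n := by
    apply le_of_mul_le_mul_right _ hpos
    calc ((2 * b - 1) ^ 3) ^ n * B ≤ A * B := mul_le_mul_of_nonneg_right hlow hpos.le
      _ = 1 := hprod'
      _ ≤ B * (((2 * b).den : ℚ) ^ 2) ^ n := hfin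
      _ = _ := mul_comm _ _
  have h2 := le_of_pow_le_pow_left₀ h.pos.ne' (by positivity) h1
  linarith

/-- a dominating prime -/
theorem prime_dom2 {p : ℕ} [hp : Fact p.Prime] (h : Neg b t n)
    (hP : (((2 * b).num : ℚ) + 2 * (2 * b).den) ^ 2 *
      (2 * (2 * b).num + 5 * (2 * b).den) < (2 * b).den * padicNorm p (2 * b) ^ 5) :
    t 2 = t 0 := by
  by_contra h02
  have hT := h.toIsTCycle
  have hb := h.hb
  have hb0 : b ≠ 0 := hb.ne'
  have h2b0 : (2 * b) ≠ 0 := mul_ne_zero two_ne_zero hb0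
  have hx := sq_ne_one h (ne_one_of_ne_two hT h02)
  have hw : ∀ i, wf b t i ^ 2 ≠ 1 := fun i hi => h02 (two_of_wf hT hi)
  set M : ℕ := (2 * b).den with hM
  have hMpos : (0 : ℚ) < M := by exact_mod_cast (2 * b).den_pos
  have hM1 : (1 : ℚ) ≤ M := by exact_mod_cast (2 * b).den_pos
  have hRM : 2 * b * M = ((2 * b).num : ℚ) := Rat.mul_den_eq_num (2 * b)
  have hRpos : (0 : ℚ) < ((2 * b).num : ℚ) := by
    rw [← hRM]; positivity
  have hP0 : 0 < padicNorm p (2 * b) := norm_pos h2b0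
  -- the bound in terms of `b`
  have hPb : (4 * (1 + b) ^ 2 * (4 * b + 5)) * (M : ℚ) ^ 2 < padicNorm p (2 * b) ^ 5 := by
    rw [← hRM] at hP
    have e1 : (2 * b * (M : ℚ) + 2 * M) ^ 2 * (2 * (2 * b * M) + 5 * M) =
        M * ((4 * (1 + b) ^ 2 * (4 * b + 5)) * (M : ℚ) ^ 2) := by ring
    rw [e1] at hP
    exact lt_of_mul_lt_mul_left hP hMpos.le
  have hP1 : 1 < padicNorm p (2 * b) := by
    by_contra hcon
    push Not at hcon
    have e1 : padicNorm p (2 * b) ^ 5 ≤ 1 := pow_le_one₀ hP0.le hcon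
    have e2 : (1 : ℚ) ≤ (M : ℚ) ^ 2 := one_le_pow₀ hM1
    have e3 : 20 ≤ 4 * (1 + b) ^ 2 * (4 * b + 5) := by nlinarith [mul_pos hb hb]
    nlinarith
  have hPM : padicNorm p (2 * b) * padicNorm p (M : ℚ) = 1 := by
    have e1 := norm_nd (r := p) (2 * b)
    rw [num_of_good hP1.le] at e1
    exact e1
  obtain ⟨z, hz⟩ := padicNorm.values_discrete (p := p) h2b0
  have hp1 : (1 : ℚ) < p := by exact_mod_cast hp.out.one_lt
  have hz1 : 0 ≤ -z := by
    rw [hz] at hP1
    have e1 : (p : ℚ) ^ (0 : ℤ) < (p : ℚ) ^ (-z) := by rw [zpow_zero]; exact hP1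
    exact ((zpow_lt_zpow_iff_right₀ hp1).1 e1).le
  obtain ⟨k, hk⟩ : ∃ k : ℕ, (k : ℤ) = -z := ⟨(-z).toNat, Int.toNat_of_nonneg hz1⟩
  have hPk : padicNorm p (2 * b) = (p : ℚ) ^ k := by rw [hz, ← hk, zpow_natCast]
  -- `b` has a pole at `p`
  have hβ1 : 1 < padicNorm p b := by
    by_contra hcon
    push Not at hcon
    have e1 : padicNorm p (2 * b) ≤ 1 * 1 := by
      rw [padicNorm.mul]
      exact mul_le_mul norm_two_le hcon (padicNorm.nonneg _) zero_le_one
    linarith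
  obtain ⟨e, he0⟩ : ∃ e : ℕ → ℚ, e = fun i => sg p (b + 1 / t i) := ⟨_, rfl⟩
  have hei : ∀ i, e i = sg p (b + 1 / t i) := fun i => by rw [he0]
  have he : ∀ i, e i ^ 2 = 1 := fun i => by rw [hei]; exact sg_sq _
  have hE : ∀ i, (-(e i * e (i + 1))) ^ 2 = 1 := fun i => by
    rw [_root_.neg_sq, mul_pow, he, he, one_mul]
  have hen : e n = e 0 := by
    have := h.per 0
    rw [zero_add] at this
    rw [hei, hei, this]
  have hsp : ∀ i, padicNorm p ((b + 1 / t i) + e i) = padicNorm p (2 : ℚ) := fun i => by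
    rw [hei]
    exact sg_spec (xi_unit hT hβ1 i)
  have hprodp := (av_padic p).prod_hh hT hx hw he
  have h1 : ∏ i ∈ Finset.range n, (padicNorm p (gf b t (e i) i) ^ 2 *
      padicNorm p (ff b t (e i * e (i + 1)) i)) = (padicNorm p (2 * b) ^ 3) ^ n := by
    have e1 : ∀ i ∈ Finset.range n, padicNorm p (gf b t (e i) i) ^ 2 *
        padicNorm p (ff b t (e i * e (i + 1)) i) = padicNorm p (2 * b) ^ 3 := by
      intro i _
      rw [gf_dom hT hβ1 hP1 (he i) (hsp i),
        ff_dom hT hβ1 hP1 (he i) (he (i + 1)) (hsp i) (hsp (i + 1))]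
      ring
    rw [Finset.prod_congr rfl e1, Finset.prod_const, Finset.card_range]
  rw [h1] at hprodp
  -- the integer
  set H : ℚ := ∏ i ∈ Finset.range n, (gf b t (-e i) i ^ 2 * ff b t (-(e i * e (i + 1))) i)
    with hH
  have hH0 : H ≠ 0 := hh_ne hT hx hw he
  have hpk : (0 : ℚ) < (p : ℚ) ^ k := by positivity
  have hnH : padicNorm p H = ∏ i ∈ Finset.range n, (padicNorm p (gf b t (-e i) i) ^ 2 *
      padicNorm p (ff b t (-(e i * e (i + 1))) i)) := by
    rw [hH, norm_prod]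
    apply Finset.prod_congr rfl
    intro i _
    rw [padicNorm.mul, Pool.Agent.H97.norm_pow]
  rw [← hnH] at hprodp
  have hZ0 : H * ((M : ℚ) ^ 2) ^ n / (((p : ℚ) ^ k) ^ 5) ^ n ≠ 0 := by
    apply div_ne_zero (mul_ne_zero hH0 _)
    · exact pow_ne_zero n (pow_ne_zero 5 hpk.ne')
    · exact pow_ne_zero n (pow_ne_zero 2 hMpos.ne')
  have hZle : ∀ q : ℕ, q.Prime → padicNorm q (H * ((M : ℚ) ^ 2) ^ n / (((p : ℚ) ^ k) ^ 5) ^ n) ≤ 1 := by
    intro q hq
    have hqf : Fact q.Prime := ⟨hq⟩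
    by_cases hqp : q = p
    · subst hqp
      have e1 : padicNorm q ((q : ℚ) ^ k) = padicNorm q (M : ℚ) := by
        have e2 : padicNorm q ((q : ℚ) ^ k) * padicNorm q (2 * b) = 1 := by
          rw [hPk, Pool.Agent.H97.norm_pow, padicNorm.padicNorm_p_of_prime, inv_pow]
          exact inv_mul_cancel₀ hpk.ne'
        have e3 : padicNorm q ((q : ℚ) ^ k) * padicNorm q (2 * b) =
            padicNorm q (M : ℚ) * padicNorm q (2 * b) := by rw [e2]; linarith
        exact mul_right_cancel₀ hP0.ne' e3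
      rw [padicNorm.div, padicNorm.mul, Pool.Agent.H97.norm_pow, Pool.Agent.H97.norm_pow,
        Pool.Agent.H97.norm_pow, Pool.Agent.H97.norm_pow, e1]
      have e4 : 0 < padicNorm q (M : ℚ) := norm_pos hMpos.ne'
      rw [div_le_one (by positivity)]
      have e5 : padicNorm q H = (padicNorm q (M : ℚ) ^ 3) ^ n := by
        have e6 : (padicNorm q (2 * b) ^ 3) ^ n * (padicNorm q (M : ℚ) ^ 3) ^ n = 1 := by
          rw [← mul_pow, ← mul_pow, hPM, one_pow, one_pow]
        have e7 : (padicNorm q (2 * b) ^ 3) ^ n * padicNorm q H =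
            (padicNorm q (2 * b) ^ 3) ^ n * (padicNorm q (M : ℚ) ^ 3) ^ n := by rw [e6, hprodp]
        exact mul_left_cancel₀ (pow_pos (pow_pos hP0 3) n).ne' e7
      rw [e5, ← mul_pow]
      apply le_of_eq
      ring
    · have e1 : padicNorm q ((p : ℚ) ^ k) = 1 := by
        have := nrm_other (p := q) (l := p) hqp k 1
        rw [pow_one] at this
        push_cast at this
        exact this
      rw [padicNorm.div, Pool.Agent.H97.norm_pow (n := n), Pool.Agent.H97.norm_pow (n := 5), e1,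
        one_pow, one_pow, div_one]
      exact hh_int hT hb0 he hen q hq
  have hfin := one_le_abs_of_norms hZ0 hZle
  have hg := prod_real h (e := fun i => -e i) (fun i => by
    show (-e i) ^ 2 = 1
    rw [_root_.neg_sq]; exact he i)
  have hf := ff_prod_real h hE
  rw [abs_div, abs_mul, abs_of_pos (pow_pos (pow_pos hMpos 2) n),
    abs_of_pos (pow_pos (pow_pos hpk 5) n), le_div_iff₀ (pow_pos (pow_pos hpk 5) n), one_mul,
    hH, hh_abs, Finset.prod_mul_distrib, Finset.prod_pow] at hfin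
  have g0 : 0 ≤ ∏ i ∈ Finset.range n, |gf b t (-e i) i| :=
    Finset.prod_nonneg fun i _ => abs_nonneg _
  have f0 : 0 ≤ ∏ i ∈ Finset.range n, |ff b t (-(e i * e (i + 1))) i| :=
    Finset.prod_nonneg fun i _ => abs_nonneg _
  have hg2 : (∏ i ∈ Finset.range n, |gf b t (-e i) i|) ^ 2 ≤ ((2 * (1 + b)) ^ n) ^ 2 :=
    pow_le_pow_left₀ g0 hg 2
  have h5 : (((p : ℚ) ^ k) ^ 5) ^ n ≤ ((4 * (1 + b) ^ 2 * (4 * b + 5)) * (M : ℚ) ^ 2) ^ n := by
    calc (((p : ℚ) ^ k) ^ 5) ^ n ≤ (∏ i ∈ Finset.range n, |gf b t (-e i) i|) ^ 2 *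
          (∏ i ∈ Finset.range n, |ff b t (-(e i * e (i + 1))) i|) * ((M : ℚ) ^ 2) ^ n := hfin
      _ ≤ ((2 * (1 + b)) ^ n) ^ 2 * (4 * b + 5) ^ n * ((M : ℚ) ^ 2) ^ n := by
          apply mul_le_mul_of_nonneg_right _ (by positivity)
          exact mul_le_mul hg2 hf f0 (by positivity)
      _ = ((4 * (1 + b) ^ 2 * (4 * b + 5)) * (M : ℚ) ^ 2) ^ n := by
          rw [← pow_mul, mul_comm n 2, pow_mul, ← mul_pow, ← mul_pow]
          ring
  rw [← hPk] at h5
  have h6 := le_of_pow_le_pow_left₀ h.pos.ne' (by positivity) h5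
  linarith

/-- the reduction to a negative cycle -/
theorem neg_red2 {b c : ℚ} {x : ℕ → ℚ} {n : ℕ} (hx : IsCycle b c x n) (hc : c ≠ 0)
    (hbc : b * c < 0) :
    ∃ t : ℕ → ℚ, Neg |b| t n ∧ (t 2 = t 0 → x 2 ^ 2 / c = x 0 ^ 2 / c) := by
  have hxx : ∀ i, 0 < x i ^ 2 := fun i => by
    have := hx.ne i
    positivity
  have hb : b ≠ 0 := left_ne_zero_of_mul hbc.ne
  rcases lt_or_gt_of_ne hb with hb' | hb'
  · have hc' : 0 < c := by
      by_contra hcon
      push Not at hcon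
      nlinarith
    rw [abs_of_neg hb']
    refine ⟨fun i => -(x i ^ 2 / c), { neg_cycle (hx.toT hc) with
      hb := by linarith
      ht := fun i => by
        have := div_pos (hxx i) hc'
        show -(x i ^ 2 / c) < 0
        linarith }, fun h => ?_⟩
    have h1 : -(x 2 ^ 2 / c) = -(x 0 ^ 2 / c) := h
    linarith
  · have hc' : c < 0 := by
      by_contra hcon
      push Not at hcon
      nlinarith
    rw [abs_of_pos hb']
    exact ⟨fun i => x i ^ 2 / c, { hx.toT hc with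
      hb := hb'
      ht := fun i => div_neg_of_pos_of_neg (hxx i) hc' }, fun h => h⟩

theorem two_abs (b : ℚ) : 2 * |b| = |2 * b| := by
  rw [abs_mul, abs_of_pos (by norm_num : (0 : ℚ) < 2)]

theorem den_abs (a : ℚ) : |a|.den = a.den := by
  rcases abs_choice a with h5 | h5
  · rw [h5]
  · rw [h5, Rat.neg_den]

theorem num_abs (a : ℚ) : ((|a|.num : ℤ) : ℚ) = |(a.num : ℚ)| := by
  have h1 : |a| * |a|.den = |a|.num := Rat.mul_den_eq_num |a|
  have h2 : a * a.den = a.num := Rat.mul_den_eq_num a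
  rw [← h1, ← h2, den_abs, abs_mul, abs_of_nonneg (by positivity : (0 : ℚ) ≤ a.den)]

theorem norm_abs {p : ℕ} (a : ℚ) : padicNorm p |a| = padicNorm p a := by
  rcases abs_choice a with h5 | h5
  · rw [h5]
  · rw [h5, padicNorm.neg]

/-- the real place dominates -/
theorem mem_of_large3 {b c : ℚ} {x : ℕ → ℚ} {n : ℕ} (hb : b ≠ 0) (hc : c ≠ 0)
    (hx : IsCycle b c x n) (h : ((2 * b).den : ℚ) ^ 2 < (|2 * b| - 1) ^ 3) :
    Function.minimalPeriod (mf b c) (some (x 0)) ∈ ({1, 2, 4} : Finset ℕ) := by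
  rcases lt_or_gt_of_ne (mul_ne_zero hb hc) with hbc | hbc
  · apply mem_of_two hc hx
    obtain ⟨t, hN, h2⟩ := neg_red2 hx hc hbc
    apply h2
    apply real_dom2 hN
    rw [two_abs, den_abs]
    exact h
  · exact sub124 (hx.mem12 (hx.real hbc))

/-- a prime dominates -/
theorem mem_of_prime5 {b c : ℚ} {x : ℕ → ℚ} {n : ℕ} (hb : b ≠ 0) (hc : c ≠ 0)
    (hx : IsCycle b c x n)
    (h : ∃ p : ℕ, p.Prime ∧ (|((2 * b).num : ℚ)| + 2 * (2 * b).den) ^ 2 *
      (2 * |((2 * b).num : ℚ)| + 5 * (2 * b).den) < (2 * b).den * padicNorm p (2 * b) ^ 5) :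
    Function.minimalPeriod (mf b c) (some (x 0)) ∈ ({1, 2, 4} : Finset ℕ) := by
  obtain ⟨p, hp, h⟩ := h
  have hpf : Fact p.Prime := ⟨hp⟩
  rcases lt_or_gt_of_ne (mul_ne_zero hb hc) with hbc | hbc
  · apply mem_of_two hc hx
    obtain ⟨t, hN, h2⟩ := neg_red2 hx hc hbc
    apply h2
    apply prime_dom2 (p := p) hN
    rw [two_abs, den_abs, num_abs, norm_abs]
    exact h
  · exact sub124 (hx.mem12 (hx.real hbc))

end

end Pool.Agent.H24.FP.M
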