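import Pool.Agent.H97.ManesNum

/-!
# The quotient coordinate `r = (f(x) - x) / (f(x) + x)` of a cycle of `x ↦ b x + c / x`
-/

set_option autoImplicit false

namespace Pool.Agent.H24.FP

open Pool.Agent.H97

/-- A cycle of the map `r ↦ r (B - 1 - r) / (1 + (B + 1) r)`, avoiding `0` and `∞`. -/
structure IsRCycle (B : ℚ) (r : ℕ → ℚ) (n : ℕ) : Prop where
  pos : 0 < n
  ne : ∀ i, r i ≠ 0
  den : ∀ i, 1 + (B + 1) * r i ≠ 0
  next : ∀ i, r (i + 1) * (1 + (B + 1) * r i) = r i * (B - 1 - r i)
  per : ∀ i, r (i + n) = r i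

/-- nonvanishing of `x (i+1) - x i` on a cycle which is not fixed up to sign -/
theorem sub_ne {b c : ℚ} {x : ℕ → ℚ} {n : ℕ} (h : IsCycle b c x n)
    (h1 : x 1 ≠ x 0) (i : ℕ) : x (i + 1) - x i ≠ 0 := by
  intro h0
  have hall : ∀ j, x (i + j + 1) - x (i + j) = 0 := by
    intro j
    induction j with
    | zero => exact h0
    | succ j ih =>
      have := h.g_next (i + j)
      rw [show i + (j + 1) + 1 = i + j + 2 by ring, show i + (j + 1) = i + j + 1 by ring, this, ih,
        mul_zero]
  obtain ⟨j, hj⟩ : ∃ j, i + j = i * n := ⟨i * n - i, by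
    have := h.pos
    have : i ≤ i * n := Nat.le_mul_of_pos_right i h.pos
    omega⟩
  have e1 : x (i * n) = x 0 := by
    have := periodic_mul h.per 0 i
    simpa using this
  have e2 : x (i * n + 1) = x 1 := by
    have := periodic_mul h.per 1 i
    rw [add_comm] at this
    exact this
  have h2 := hall j
  rw [hj, e1, e2] at h2
  exact h1 (sub_eq_zero.1 h2)

theorem add_ne {b c : ℚ} {x : ℕ → ℚ} {n : ℕ} (h : IsCycle b c x n)
    (h1 : x 1 ≠ -x 0) (i : ℕ) : x (i + 1) + x i ≠ 0 := by
  intro h0
  have hall : ∀ j, x (i + j + 1) + x (i + j) = 0 := by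
    intro j
    induction j with
    | zero => exact h0
    | succ j ih =>
      have := h.h_next (i + j)
      rw [show i + (j + 1) + 1 = i + j + 2 by ring, show i + (j + 1) = i + j + 1 by ring, this, ih,
        mul_zero]
  obtain ⟨j, hj⟩ : ∃ j, i + j = i * n := ⟨i * n - i, by
    have : i ≤ i * n := Nat.le_mul_of_pos_right i h.pos
    omega⟩
  have e1 : x (i * n) = x 0 := by
    have := periodic_mul h.per 0 i
    simpa using this
  have e2 : x (i * n + 1) = x 1 := by
    have := periodic_mul h.per 1 i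
    rw [add_comm] at this
    exact this
  have h2 := hall j
  rw [hj, e1, e2] at h2
  exact h1 (by linarith)

theorem toR {b c : ℚ} {x : ℕ → ℚ} {n : ℕ} (h : IsCycle b c x n)
    (h1 : x 1 ≠ x 0) (h2 : x 1 ≠ -x 0) :
    IsRCycle (2 * b) (fun i => (x (i + 1) - x i) / (x (i + 1) + x i)) n := by
  have hs := sub_ne h h1
  have ha := add_ne h h2
  have hc : ∀ i, c = x i * x (i + 1) - b * x i ^ 2 := by
    intro i
    have := h.ne i
    rw [h.next i]; field_simp; ring
  have e1 : ∀ i, x (i + 2) + x (i + 1) =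
      (x (i + 1) + x i) * ((b + 1) * x (i + 1) - b * x i) / x (i + 1) := by
    intro i
    have h3 := h.ne (i + 1)
    rw [show i + 2 = i + 1 + 1 by ring, h.next (i + 1), hc i]
    field_simp
    ring
  have e2 : ∀ i, x (i + 2) - x (i + 1) =
      (x (i + 1) - x i) * ((b - 1) * x (i + 1) + b * x i) / x (i + 1) := by
    intro i
    have h3 := h.ne (i + 1)
    rw [show i + 2 = i + 1 + 1 by ring, h.next (i + 1), hc i]
    field_simp
    ring
  refine ⟨h.pos, fun i => div_ne_zero (hs i) (ha i), fun i => ?_, fun i => ?_, fun i => ?_⟩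
  · have h3 := ha i
    have h4 := ha (i + 1)
    rw [show i + 1 + 1 = i + 2 by ring, e1 i] at h4
    have h5 : (b + 1) * x (i + 1) - b * x i ≠ 0 := by
      intro h0
      rw [h0] at h4
      simp at h4
    have e : 1 + (2 * b + 1) * ((x (i + 1) - x i) / (x (i + 1) + x i)) =
        2 * ((b + 1) * x (i + 1) - b * x i) / (x (i + 1) + x i) := by
      field_simp
      ring
    rw [e]
    exact div_ne_zero (mul_ne_zero two_ne_zero h5) h3
  · have h3 := ha i
    have h4 := ha (i + 1)
    have h6 := h.ne (i + 1)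
    show (x (i + 1 + 1) - x (i + 1)) / (x (i + 1 + 1) + x (i + 1)) *
        (1 + (2 * b + 1) * ((x (i + 1) - x i) / (x (i + 1) + x i))) =
      (x (i + 1) - x i) / (x (i + 1) + x i) *
        (2 * b - 1 - (x (i + 1) - x i) / (x (i + 1) + x i))
    rw [show i + 1 + 1 = i + 2 by ring] at h4 ⊢
    rw [e1 i] at h4 ⊢
    rw [e2 i]
    have h5 : (b + 1) * x (i + 1) - b * x i ≠ 0 := by
      intro h0
      rw [h0] at h4
      simp at h4
    have e : 1 + (2 * b + 1) * ((x (i + 1) - x i) / (x (i + 1) + x i)) =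
        2 * ((b + 1) * x (i + 1) - b * x i) / (x (i + 1) + x i) := by
      field_simp
      ring
    have e' : 2 * b - 1 - (x (i + 1) - x i) / (x (i + 1) + x i) =
        2 * ((b - 1) * x (i + 1) + b * x i) / (x (i + 1) + x i) := by
      field_simp
      ring
    rw [e, e']
    generalize (b + 1) * x (i + 1) - b * x i = W at h5 ⊢
    generalize (b - 1) * x (i + 1) + b * x i = W'
    generalize x (i + 1) - x i = D
    generalize x (i + 1) + x i = S at h3 ⊢
    field_simp
  · show (x (i + n + 1) - x (i + n)) / (x (i + n + 1) + x (i + n)) = _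
    rw [show i + n + 1 = i + 1 + n by ring, h.per, h.per]

namespace IsRCycle

variable {B : ℚ} {r : ℕ → ℚ} {n : ℕ}

theorem num (h : IsRCycle B r n) (i : ℕ) : B - 1 - r i ≠ 0 := by
  intro h0
  have h1 := h.next i
  rw [h0, mul_zero] at h1
  exact mul_ne_zero (h.ne (i + 1)) (h.den i) h1

/-- the dual cycle `1 / r` for `-B` -/
theorem dual (h : IsRCycle B r n) : IsRCycle (-B) (fun i => (r i)⁻¹) n := by
  refine ⟨h.pos, fun i => inv_ne_zero (h.ne i), fun i => ?_, fun i => ?_, fun i => ?_⟩
  · have h1 := h.num i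
    have h2 := h.ne i
    have e : 1 + (-B + 1) * (r i)⁻¹ = -(B - 1 - r i) / r i := by field_simp; ring
    rw [e]
    exact div_ne_zero (neg_ne_zero.2 h1) h2
  · have h1 := h.next i
    have h2 := h.ne i
    have h3 := h.ne (i + 1)
    show (r (i + 1))⁻¹ * (1 + (-B + 1) * (r i)⁻¹) = (r i)⁻¹ * (-B - 1 - (r i)⁻¹)
    field_simp
    linear_combination h1
  · simp only [h.per]

theorem per_mul (h : IsRCycle B r n) (i m : ℕ) : r (i + m * n) = r i := periodic_mul h.per i m

theorem next_of_eq (h : IsRCycle B r n) {i j : ℕ} (hij : r i = r j) : r (i + 1) = r (j + 1) := by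
  have h1 := h.next i
  have h2 := h.next j
  rw [hij] at h1
  exact mul_right_cancel₀ (h.den j) (h1.trans h2.symm)

/-- the multiplier `q = r (i+1) / r i` determines `r i` -/
theorem q_rel (h : IsRCycle B r n) (i : ℕ) :
    r i * (1 + (B + 1) * (r (i + 1) / r i)) = B - 1 - r (i + 1) / r i := by
  have h1 := h.next i
  have h2 := h.ne i
  field_simp
  linear_combination h1

theorem eq_of_q (h : IsRCycle B r n) (hB : B ≠ 0) {i j : ℕ}
    (hq : r (i + 1) / r i = r (j + 1) / r j) : r i = r j := by
  have h1 := h.q_rel i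
  have h2 := h.q_rel j
  rw [hq] at h1
  set q := r (j + 1) / r j
  have h3 : 1 + (B + 1) * q ≠ 0 := by
    intro h0
    rw [h0, mul_zero] at h2
    have h4 : q = B - 1 := by linarith
    rw [h4] at h0
    apply hB
    have : B ^ 2 = 0 := by linear_combination h0
    exact pow_eq_zero_iff (two_ne_zero) |>.1 this
  exact mul_right_cancel₀ h3 (h1.trans h2.symm)

/-- the relation between consecutive multipliers -/
theorem edge (h : IsRCycle B r n) (i : ℕ) {q q' : ℚ} (hq : r (i + 1) / r i = q)
    (hq' : r (i + 2) / r (i + 1) = q') :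
    q * (1 - q') * B ^ 2 + (1 - q) * (1 - q * q') * B - (1 - q) * (1 + q) * (1 + q') = 0 := by
  have h1 := h.q_rel i
  have h2 := h.q_rel (i + 1)
  rw [show i + 1 + 1 = i + 2 by ring] at h2
  have h3 := h.ne i
  rw [hq] at h1
  rw [hq'] at h2
  have h4 : r (i + 1) = q * r i := by rw [← hq]; field_simp
  rw [h4] at h2
  by_cases h5 : 1 + (B + 1) * q = 0
  · rw [h5, mul_zero] at h1
    have e : q = B - 1 := by linarith
    have hB : B ^ 2 = 0 := by rw [e] at h5; linear_combination h5
    have hB0 : B = 0 := by simpa using hB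
    rw [hB0] at e ⊢
    rw [e]
    ring
  · have h6 : (B - 1 - q') * (1 + (B + 1) * q) = q * (B - 1 - q) * (1 + (B + 1) * q') := by
      linear_combination -(1 + (B + 1) * q) * h2 + q * (1 + (B + 1) * q') * h1
    linear_combination h6

end IsRCycle

end Pool.Agent.H24.FP
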