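import Pool.Agent.H24.FP.RBasic

/-!
# Local analysis of the `r`-cycles
-/

set_option autoImplicit false

namespace Pool.Agent.H24.FP

open Pool.Agent.H97

namespace IsRCycle

variable {B : ℚ} {r : ℕ → ℚ} {n : ℕ}

theorem all_of_step (h : IsRCycle B r n) {Q : ℚ → Prop} (hstep : ∀ i, Q (r i) → Q (r (i + 1)))
    (i0 : ℕ) (h0 : Q (r i0)) : ∀ i, Q (r i) := by
  have h1 : ∀ j, Q (r (i0 + j)) := by
    intro j
    induction j with
    | zero => exact h0
    | succ j ih => rw [← add_assoc]; exact hstep _ ih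
  intro i
  have e2 : r i = r (i + i0 * n) := (h.per_mul _ _).symm
  have e3 : i0 ≤ i + i0 * n := by
    have := h.pos
    nlinarith
  obtain ⟨j, hj⟩ := Nat.exists_eq_add_of_le e3
  rw [e2, hj]
  exact h1 j

section

variable {p : ℕ} [hp : Fact p.Prime]

theorem norm_next (h : IsRCycle B r n) (i : ℕ) :
    padicNorm p (r (i + 1)) * padicNorm p (1 + (B + 1) * r i) =
      padicNorm p (r i) * padicNorm p (B - 1 - r i) := by
  rw [← padicNorm.mul, h.next, padicNorm.mul]

theorem norm_const_of_lt (h : IsRCycle B r n) (hB : padicNorm p B ≤ 1) {i0 : ℕ}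
    (h0 : padicNorm p (r i0) < 1) (i : ℕ) : padicNorm p (r (i + 1)) = padicNorm p (r i) := by
  have hB1 : padicNorm p (B + 1) ≤ 1 := norm_add_le hB (by rw [padicNorm.one])
  have hB2 : padicNorm p (B - 1) ≤ 1 := norm_sub_le hB (by rw [padicNorm.one])
  have hstep : ∀ i, padicNorm p (r i) < 1 → padicNorm p (r (i + 1)) ≤ padicNorm p (r i) := by
    intro i hi
    have h1 : padicNorm p (1 + (B + 1) * r i) = 1 := by
      rw [norm_add_eq, padicNorm.one]
      rw [padicNorm.one, padicNorm.mul]
      calc _ ≤ 1 * padicNorm p (r i) := mul_le_mul_of_nonneg_right hB1 (padicNorm.nonneg _)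
        _ < 1 := by rw [one_mul]; exact hi
    have h2 : padicNorm p (B - 1 - r i) ≤ 1 := norm_sub_le hB2 hi.le
    have h3 := h.norm_next (p := p) i
    rw [h1, mul_one] at h3
    rw [h3]
    calc _ ≤ padicNorm p (r i) * 1 := mul_le_mul_of_nonneg_left h2 (padicNorm.nonneg _)
      _ = _ := mul_one _
  have hall : ∀ i, padicNorm p (r i) < 1 := by
    apply h.all_of_step (Q := fun s => padicNorm p s < 1) _ i0 h0
    intro i hi
    exact (hstep i hi).trans_lt hi
  have h1 := const_of_antitone_periodic (fun j => padicNorm p (r (i + j))) n h.pos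
    (by simp only [h.per, add_zero]) (fun j => hstep (i + j) (hall (i + j)))
  simpa using h1

/-- at a prime not dividing the denominator of `B` the norm of `r i` is constant -/
theorem norm_const (h : IsRCycle B r n) (hB : padicNorm p B ≤ 1) (i : ℕ) :
    padicNorm p (r (i + 1)) = padicNorm p (r i) := by
  by_cases h0 : ∃ j, padicNorm p (r j) < 1
  · obtain ⟨j, hj⟩ := h0
    exact h.norm_const_of_lt hB hj i
  · push Not at h0
    by_cases h1 : ∃ j, 1 < padicNorm p (r j)
    · obtain ⟨j, hj⟩ := h1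
      have h2 := h.dual.norm_const_of_lt (p := p) (by rw [padicNorm.neg]; exact hB) (i0 := j) (by
        show padicNorm p (r j)⁻¹ < 1
        rw [← one_div, padicNorm.div, padicNorm.one, div_lt_one (by linarith)]
        exact hj) i
      have h3 : padicNorm p (r (i + 1))⁻¹ = padicNorm p (r i)⁻¹ := h2
      rw [← one_div, ← one_div, padicNorm.div, padicNorm.div, padicNorm.one] at h3
      have e1 : 0 < padicNorm p (r (i + 1)) := norm_pos (h.ne _)
      have e2 : 0 < padicNorm p (r i) := norm_pos (h.ne _)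
      rw [div_eq_div_iff e1.ne' e2.ne'] at h3
      linarith
    · push Not at h1
      rw [le_antisymm (h1 _) (h0 _), le_antisymm (h1 _) (h0 _)]

theorem norm_const' (h : IsRCycle B r n) (hB : padicNorm p B ≤ 1) (i : ℕ) :
    padicNorm p (r (i + 1) / r i) = 1 := by
  rw [padicNorm.div, h.norm_const hB, div_self (padicNorm.nonzero (h.ne i))]

/-! ### Poles of `B` -/

variable {Q : ℚ}

theorem norm_Badd (hQ : 1 < Q) (hB : padicNorm p B = Q) : padicNorm p (B + 1) = Q := by
  rw [norm_add_eq, hB]
  rw [hB, padicNorm.one]; exact hQ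

theorem norm_num_of_lt (hQ : 1 < Q) (hB : padicNorm p B = Q) {x : ℚ} (hx : padicNorm p x < Q) :
    padicNorm p (B - 1 - x) = Q := by
  have : B - 1 - x = B + (-1 - x) := by ring
  rw [this, norm_add_eq, hB]
  rw [hB]
  have h1 : padicNorm p (-1 - x) ≤ max (padicNorm p (-1)) (padicNorm p x) := padicNorm.sub
  apply h1.trans_lt
  apply max_lt _ hx
  rw [padicNorm.neg, padicNorm.one]
  exact hQ

theorem pole_small (h : IsRCycle B r n) (hQ : 1 < Q) (hB : padicNorm p B = Q) {i : ℕ}
    (hi : padicNorm p (r i) < 1 / Q) : padicNorm p (r (i + 1)) = Q * padicNorm p (r i) := by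
  have hQ0 : 0 < Q := by linarith
  have hQ1 : 1 / Q < 1 := by rw [div_lt_one hQ0]; exact hQ
  have h1 := norm_num_of_lt hQ hB (x := r i) (by linarith)
  have h2 : padicNorm p (1 + (B + 1) * r i) = 1 := by
    rw [norm_add_eq, padicNorm.one]
    rw [padicNorm.one, padicNorm.mul, norm_Badd hQ hB]
    rw [lt_div_iff₀ hQ0] at hi
    linarith
  have h3 := h.norm_next (p := p) i
  rw [h1, h2] at h3
  linarith

theorem pole_mid (h : IsRCycle B r n) (hQ : 1 < Q) (hB : padicNorm p B = Q) {i : ℕ}
    (hi : 1 / Q < padicNorm p (r i)) (hi' : padicNorm p (r i) < Q) :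
    padicNorm p (r (i + 1)) = 1 := by
  have hQ0 : 0 < Q := by linarith
  have h0 : 0 < padicNorm p (r i) := norm_pos (h.ne i)
  have h1 := norm_num_of_lt hQ hB hi'
  have h2 : padicNorm p (1 + (B + 1) * r i) = Q * padicNorm p (r i) := by
    have h4 : padicNorm p ((B + 1) * r i) = Q * padicNorm p (r i) := by
      rw [padicNorm.mul, norm_Badd hQ hB]
    rw [add_comm, norm_add_eq, h4]
    rw [padicNorm.one, h4]
    rw [div_lt_iff₀ hQ0] at hi
    linarith
  have h3 := h.norm_next (p := p) i
  rw [h1, h2] at h3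
  have h5 : 0 < Q * padicNorm p (r i) := mul_pos hQ0 h0
  have h6 : padicNorm p (r (i + 1)) * (Q * padicNorm p (r i)) = 1 * (Q * padicNorm p (r i)) := by
    rw [h3]; ring
  exact mul_right_cancel₀ h5.ne' h6

theorem pole_one (h : IsRCycle B r n) (hQ : 1 < Q) (hB : padicNorm p B = Q)
    (hall : ∀ i, padicNorm p (r i) = 1) : r 1 = r 0 := by
  have hQ0 : 0 < Q := by linarith
  have hden : ∀ i, padicNorm p (1 + (B + 1) * r i) = Q := by
    intro i
    have h4 : padicNorm p ((B + 1) * r i) = Q := by
      rw [padicNorm.mul, norm_Badd hQ hB, hall, mul_one]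
    rw [add_comm, norm_add_eq, h4]
    rw [padicNorm.one, h4]; exact hQ
  have hstep : ∀ i, padicNorm p (r (i + 2) - r (i + 1)) * Q ≤ padicNorm p (r (i + 1) - r i) := by
    intro i
    have h1 := h.next i
    have h2 := h.next (i + 1)
    have e : (r (i + 2) - r (i + 1)) * ((1 + (B + 1) * r i) * (1 + (B + 1) * r (i + 1))) =
        (r (i + 1) - r i) * (B - 1 - r i - r (i + 1) - (B + 1) * (r i * r (i + 1))) := by
      rw [show i + 1 + 1 = i + 2 by ring] at h2
      linear_combination (1 + (B + 1) * r i) * h2 - (1 + (B + 1) * r (i + 1)) * h1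
    have e2 := _root_.congrArg (padicNorm p) e
    rw [padicNorm.mul, padicNorm.mul, padicNorm.mul, hden, hden] at e2
    have h3 : padicNorm p (B - 1 - r i - r (i + 1) - (B + 1) * (r i * r (i + 1))) ≤ Q := by
      apply Pool.Agent.H97.norm_sub_le
      · apply Pool.Agent.H97.norm_sub_le
        · apply Pool.Agent.H97.norm_sub_le
          · apply Pool.Agent.H97.norm_sub_le hB.le
            rw [padicNorm.one]; exact hQ.le
          · rw [hall]; exact hQ.le
        · rw [hall]; exact hQ.le
      · rw [padicNorm.mul, padicNorm.mul, hall, hall, norm_Badd hQ hB]; linarith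
    have h4 := padicNorm.nonneg (p := p) (r (i + 1) - r i)
    have h5 : padicNorm p (r (i + 2) - r (i + 1)) * (Q * Q) ≤ padicNorm p (r (i + 1) - r i) * Q := by
      rw [e2]
      exact mul_le_mul_of_nonneg_left h3 h4
    nlinarith
  by_contra hne
  have hpos : ∀ i, 0 < padicNorm p (r (i + 1) - r i) := by
    intro i
    apply norm_pos
    intro h0
    apply hne
    have hfix : ∀ j, r (i + j + 1) = r (i + j) := by
      intro j
      induction j with
      | zero => exact sub_eq_zero.1 h0
      | succ j ih => exact h.next_of_eq ih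
    obtain ⟨j, hj⟩ : ∃ j, i + j = i * n := ⟨i * n - i, by
      have : i ≤ i * n := Nat.le_mul_of_pos_right i h.pos
      omega⟩
    have e1 : r (i * n) = r 0 := by
      have := h.per_mul 0 i
      simpa using this
    have e2 : r (i * n + 1) = r 1 := by
      have := h.per_mul 1 i
      rw [add_comm] at this
      exact this
    have h2 := hfix j
    rw [hj, e1, e2] at h2
    exact h2
  have hdec : ∀ j, (fun j => padicNorm p (r (j + 1) - r j)) (j + 1) <
      (fun j => padicNorm p (r (j + 1) - r j)) j := by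
    intro j
    have h1 := hstep j
    have h2 := hpos (j + 1)
    show padicNorm p (r (j + 1 + 1) - r (j + 1)) < padicNorm p (r (j + 1) - r j)
    rw [show j + 1 + 1 = j + 2 by ring] at h2 ⊢
    nlinarith
  have hanti : StrictAnti (fun j => padicNorm p (r (j + 1) - r j)) := strictAnti_nat_of_succ_lt hdec
  have h1 := hanti h.pos
  have e1 : r (n + 1) = r 1 := by rw [add_comm, h.per]
  have e2 : r n = r 0 := by
    have := h.per 0
    rwa [zero_add] at this
  have h2 : padicNorm p (r (n + 1) - r n) < padicNorm p (r (0 + 1) - r 0) := h1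
  rw [e1, e2] at h2
  exact lt_irrefl _ h2

theorem pole_dich (h : IsRCycle B r n) (hQ : 1 < Q) (hB : padicNorm p B = Q)
    (hne : r 1 ≠ r 0) (i : ℕ) : padicNorm p (r i) ≤ 1 / Q ∨ Q ≤ padicNorm p (r i) := by
  by_contra hcon
  push Not at hcon
  have hQ0 : 0 < Q := by linarith
  have h1 := h.pole_mid hQ hB hcon.1 hcon.2
  apply hne
  apply h.pole_one hQ hB
  apply h.all_of_step (Q := fun s => padicNorm p s = 1) _ (i + 1) h1
  intro j hj
  apply h.pole_mid hQ hB
  · rw [hj, div_lt_one hQ0]; exact hQ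
  · rw [hj]; exact hQ

theorem pole_end (h : IsRCycle B r n) (hQ : 1 < Q) (hB : padicNorm p B = Q)
    (hne : r 1 ≠ r 0) {i : ℕ} (hi : padicNorm p (r i) = 1 / Q) :
    Q ≤ padicNorm p (r (i + 1)) := by
  have hQ0 : 0 < Q := by linarith
  have hQ1 : 1 / Q < 1 := by rw [div_lt_one hQ0]; exact hQ
  have h1 := norm_num_of_lt hQ hB (x := r i) (by linarith)
  have h2 : padicNorm p (1 + (B + 1) * r i) ≤ 1 := by
    apply norm_add_le (by rw [padicNorm.one])
    rw [padicNorm.mul, norm_Badd hQ hB, hi, mul_one_div, div_self hQ0.ne']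
  have h3 := h.norm_next (p := p) i
  rw [h1, hi, one_div, inv_mul_cancel₀ hQ0.ne'] at h3
  have h4 := padicNorm.nonneg (p := p) (r (i + 1))
  have h5 : 1 ≤ padicNorm p (r (i + 1)) := by nlinarith
  rcases h.pole_dich hQ hB hne (i + 1) with h6 | h6
  · linarith
  · exact h6

theorem exists_exp (h : IsRCycle B r n) (hQ : 1 < Q) (hB : padicNorm p B = Q)
    (hne : r 1 ≠ r 0) (i : ℕ) (hi : padicNorm p (r i) ≤ 1 / Q) :
    ∃ u : ℕ, padicNorm p (r i) * Q ^ (u + 1) = 1 := by
  have hQ0 : 0 < Q := by linarith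
  have hQ1 : 1 / Q < 1 := by rw [div_lt_one hQ0]; exact hQ
  have key : ∀ K : ℕ, ∀ i, padicNorm p (r i) ≤ 1 / Q → 1 / Q < Q ^ K * padicNorm p (r i) →
      ∃ u : ℕ, padicNorm p (r i) * Q ^ (u + 1) = 1 := by
    intro K
    induction K with
    | zero =>
      intro i h1 h2
      rw [pow_zero, one_mul] at h2
      exact absurd h2 (not_lt.2 h1)
    | succ K ih =>
      intro i h1 h2
      rcases h1.eq_or_lt with h3 | h3
      · exact ⟨0, by rw [h3, zero_add, pow_one, one_div, inv_mul_cancel₀ hQ0.ne']⟩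
      · have h4 := h.pole_small hQ hB h3
        have h5 : padicNorm p (r (i + 1)) ≤ 1 / Q := by
          rcases h.pole_dich hQ hB hne (i + 1) with h6 | h6
          · exact h6
          · exfalso
            rw [h4] at h6
            rw [lt_div_iff₀ hQ0] at h3
            nlinarith
        obtain ⟨u, hu⟩ := ih (i + 1) h5 (by rw [h4]; rw [pow_succ] at h2; linarith)
        refine ⟨u + 1, ?_⟩
        rw [h4] at hu
        rw [← hu]
        ring
  have h0 : 0 < padicNorm p (r i) := norm_pos (h.ne i)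
  obtain ⟨K, hK⟩ := pow_unbounded_of_one_lt (1 / Q / padicNorm p (r i)) hQ
  refine key K i hi ?_
  rwa [div_lt_iff₀ h0] at hK

end

end IsRCycle

end Pool.Agent.H24.FP
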