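import Pool.Agent.H24.FP.RLocal

/-!
# The runs of an `r`-cycle at a prime dividing the denominator of `B`
-/

set_option autoImplicit false

namespace Pool.Agent.H24.FP

open Pool.Agent.H97

/-- The norms of an `r`-cycle at a pole of `B`: `Q ^ (-(u + 1))` (if `s`), or `Q ^ (u + 1)`. -/
structure Runs (p : ℕ) (Q : ℚ) (r : ℕ → ℚ) (n : ℕ) (s : ℕ → Bool) (u : ℕ → ℕ) : Prop where
  small : ∀ i, s i = true → padicNorm p (r i) * Q ^ (u i + 1) = 1
  large : ∀ i, s i = false → padicNorm p (r i) = Q ^ (u i + 1)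
  down : ∀ i, 0 < u i → s (i + 1) = s i ∧ u (i + 1) + 1 = u i
  turn : ∀ i, u i = 0 → s (i + 1) = !(s i)
  per : ∀ i, s (i + n) = s i ∧ u (i + n) = u i

open Classical in
/-- the exponent as a function of the norm -/
noncomputable def expo (Q x : ℚ) : ℕ :=
  if h : ∃ u : ℕ, x * Q ^ (u + 1) = 1 then h.choose
  else if h : ∃ u : ℕ, x = Q ^ (u + 1) then h.choose else 0

theorem pow_inj {Q : ℚ} (hQ : 1 < Q) {a b : ℕ} (h : Q ^ a = Q ^ b) : a = b :=
  pow_right_injective₀ (by linarith) hQ.ne' h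

theorem expo_small {Q x : ℚ} (hQ : 1 < Q) {u : ℕ} (h : x * Q ^ (u + 1) = 1) : expo Q x = u := by
  have h1 : ∃ u : ℕ, x * Q ^ (u + 1) = 1 := ⟨u, h⟩
  unfold expo
  rw [dif_pos h1]
  have h2 := h1.choose_spec
  have hx : x ≠ 0 := by rintro rfl; simp at h
  have h3 : Q ^ (h1.choose + 1) = Q ^ (u + 1) := mul_left_cancel₀ hx (h2.trans h.symm)
  have := pow_inj hQ h3
  omega

theorem expo_large {Q x : ℚ} (hQ : 1 < Q) {u : ℕ} (h : x = Q ^ (u + 1)) : expo Q x = u := by
  have h0 : ¬ ∃ u : ℕ, x * Q ^ (u + 1) = 1 := by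
    rintro ⟨v, hv⟩
    rw [h] at hv
    have h1 : 1 < Q ^ (u + 1) := one_lt_pow₀ hQ (by omega)
    have h2 : 1 < Q ^ (v + 1) := one_lt_pow₀ hQ (by omega)
    nlinarith
  have h1 : ∃ u : ℕ, x = Q ^ (u + 1) := ⟨u, h⟩
  unfold expo
  rw [dif_neg h0, dif_pos h1]
  have h2 := h1.choose_spec
  have := pow_inj hQ (h2.symm.trans h)
  omega

namespace IsRCycle

variable {B : ℚ} {r : ℕ → ℚ} {n : ℕ} {p : ℕ} [hp : Fact p.Prime] {Q : ℚ}

theorem norm_inv' (x : ℚ) : padicNorm p x⁻¹ = (padicNorm p x)⁻¹ := by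
  rw [← one_div, padicNorm.div, padicNorm.one, one_div]

theorem large_exp (h : IsRCycle B r n) (hQ : 1 < Q) (hB : padicNorm p B = Q)
    (hne : r 1 ≠ r 0) (i : ℕ) (hi : Q ≤ padicNorm p (r i)) :
    ∃ u : ℕ, padicNorm p (r i) = Q ^ (u + 1) := by
  have hQ0 : 0 < Q := by linarith
  have h0 : 0 < padicNorm p (r i) := norm_pos (h.ne i)
  obtain ⟨u, hu⟩ := h.dual.exists_exp (p := p) hQ (by rw [padicNorm.neg]; exact hB)
    (fun h1 => hne (inv_injective h1)) i (by
      show padicNorm p (r i)⁻¹ ≤ 1 / Q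
      rw [norm_inv', ← one_div]
      exact one_div_le_one_div_of_le hQ0 hi)
  refine ⟨u, ?_⟩
  have hu' : padicNorm p (r i)⁻¹ * Q ^ (u + 1) = 1 := hu
  rw [norm_inv'] at hu'
  field_simp at hu'
  exact hu'.symm

theorem exists_runs (h : IsRCycle B r n) (hQ : 1 < Q) (hB : padicNorm p B = Q)
    (hne : r 1 ≠ r 0) : ∃ (s : ℕ → Bool) (u : ℕ → ℕ), Runs p Q r n s u := by
  classical
  have hQ0 : 0 < Q := by linarith
  have hQ1 : 1 / Q < 1 := by rw [div_lt_one hQ0]; exact hQ
  set s : ℕ → Bool := fun i => decide (padicNorm p (r i) ≤ 1 / Q) with hs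
  set u : ℕ → ℕ := fun i => expo Q (padicNorm p (r i)) with hu
  have hsT : ∀ i, s i = true ↔ padicNorm p (r i) ≤ 1 / Q := by
    intro i; rw [hs]; simp
  have hsF : ∀ i, s i = false ↔ Q ≤ padicNorm p (r i) := by
    intro i
    rcases h.pole_dich hQ hB hne i with h1 | h1
    · constructor
      · intro h2
        rw [(hsT i).2 h1] at h2
        exact absurd h2 (by decide)
      · intro h2
        linarith
    · refine ⟨fun _ => h1, fun _ => ?_⟩
      rw [← Bool.not_eq_true, hsT]
      intro h2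
      linarith
  have small : ∀ i, s i = true → padicNorm p (r i) * Q ^ (u i + 1) = 1 := by
    intro i hi
    obtain ⟨v, hv⟩ := h.exists_exp hQ hB hne i ((hsT i).1 hi)
    have : u i = v := expo_small hQ hv
    rw [this, hv]
  have large : ∀ i, s i = false → padicNorm p (r i) = Q ^ (u i + 1) := by
    intro i hi
    obtain ⟨v, hv⟩ := h.large_exp hQ hB hne i ((hsF i).1 hi)
    have : u i = v := expo_large hQ hv
    rw [this, hv]
  refine ⟨s, u, small, large, ?_, ?_, ?_⟩
  · intro i hi
    obtain ⟨v, hv⟩ : ∃ v, u i = v + 1 := ⟨u i - 1, by omega⟩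
    cases hsi : s i
    · -- large
      have h1 := large i hsi
      have h2 : Q < padicNorm p (r i) := by
        rw [h1]
        have : (1 : ℕ) < u i + 1 := by omega
        calc Q = Q ^ 1 := (pow_one Q).symm
          _ < Q ^ (u i + 1) := pow_lt_pow_right₀ hQ this
      have h3 := h.dual.pole_small (p := p) (i := i) hQ (by rw [padicNorm.neg]; exact hB) (by
        show padicNorm p (r i)⁻¹ < 1 / Q
        rw [norm_inv', ← one_div]
        exact one_div_lt_one_div_of_lt hQ0 h2)
      have h4 : padicNorm p (r (i + 1))⁻¹ = Q * padicNorm p (r i)⁻¹ := h3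
      rw [norm_inv', norm_inv', h1, hv] at h4
      have h5 : padicNorm p (r (i + 1)) = Q ^ (v + 1) := by
        have h6 : (padicNorm p (r (i + 1)))⁻¹ = (Q ^ (v + 1))⁻¹ := by
          rw [h4, pow_succ Q (v + 1)]
          field_simp
        exact inv_injective h6
      have h7 : Q ≤ padicNorm p (r (i + 1)) := by
        rw [h5]
        calc Q = Q ^ 1 := (pow_one Q).symm
          _ ≤ Q ^ (v + 1) := pow_le_pow_right₀ hQ.le (by omega)
      refine ⟨(hsF (i + 1)).2 h7, ?_⟩
      have : u (i + 1) = v := expo_large hQ h5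
      omega
    · have h1 := small i hsi
      have h0 : 0 < padicNorm p (r i) := norm_pos (h.ne i)
      have h2 : padicNorm p (r i) < 1 / Q := by
        rw [lt_div_iff₀ hQ0]
        have h8 : Q < Q ^ (u i + 1) := by
          have : (1 : ℕ) < u i + 1 := by omega
          calc Q = Q ^ 1 := (pow_one Q).symm
            _ < Q ^ (u i + 1) := pow_lt_pow_right₀ hQ this
        nlinarith
      have h3 := h.pole_small (p := p) (i := i) hQ hB h2
      have h5 : padicNorm p (r (i + 1)) * Q ^ (v + 1) = 1 := by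
        rw [h3, ← h1, hv]
        ring
      have h7 : padicNorm p (r (i + 1)) ≤ 1 / Q := by
        rw [le_div_iff₀ hQ0]
        have h8 : Q ≤ Q ^ (v + 1) := by
          calc Q = Q ^ 1 := (pow_one Q).symm
            _ ≤ Q ^ (v + 1) := pow_le_pow_right₀ hQ.le (by omega)
        have h9 := padicNorm.nonneg (p := p) (r (i + 1))
        nlinarith
      refine ⟨(hsT (i + 1)).2 h7, ?_⟩
      have : u (i + 1) = v := expo_small hQ h5
      omega
  · intro i hi
    cases hsi : s i
    · have h1 := large i hsi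
      rw [hi, zero_add, pow_one] at h1
      have h3 := h.dual.pole_end (p := p) (i := i) hQ (by rw [padicNorm.neg]; exact hB)
        (fun h1 => hne (inv_injective h1)) (by
        show padicNorm p (r i)⁻¹ = 1 / Q
        rw [norm_inv', h1, one_div])
      have h4 : Q ≤ padicNorm p (r (i + 1))⁻¹ := h3
      rw [norm_inv'] at h4
      rw [Bool.not_false, hsT]
      rw [← one_div] at h4
      have h5 : 0 < padicNorm p (r (i + 1)) := norm_pos (h.ne _)
      rw [le_div_iff₀ h5] at h4
      rw [le_div_iff₀ hQ0]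
      linarith
    · have h1 := small i hsi
      rw [hi, zero_add, pow_one] at h1
      rw [Bool.not_true, hsF]
      apply h.pole_end hQ hB hne
      rw [eq_div_iff hQ0.ne']
      exact h1
  · intro i
    constructor
    · show decide (padicNorm p (r (i + n)) ≤ 1 / Q) = decide (padicNorm p (r i) ≤ 1 / Q)
      rw [h.per]
    · show expo Q (padicNorm p (r (i + n))) = expo Q (padicNorm p (r i))
      rw [h.per]

end IsRCycle

namespace Runs

variable {p : ℕ} {Q : ℚ} {r : ℕ → ℚ} {n : ℕ} {s : ℕ → Bool} {u : ℕ → ℕ}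

theorem sum_turn (h : Runs p Q r n s u) :
    ∑ i ∈ Finset.range n, (if u i = 0 then u (i + 1) else 0) ≤ n := by
  have key : ∀ i, u (i + 1) + (if u i = 0 then 0 else 1) =
      u i + (if u i = 0 then u (i + 1) else 0) := by
    intro i
    rcases Nat.eq_zero_or_pos (u i) with h0 | h0
    · rw [if_pos h0, if_pos h0, h0]; omega
    · have h1 := (h.down i h0).2
      rw [if_neg h0.ne', if_neg h0.ne']
      omega
  have h1 : ∑ i ∈ Finset.range n, (u (i + 1) + (if u i = 0 then 0 else 1)) =
      ∑ i ∈ Finset.range n, (u i + (if u i = 0 then u (i + 1) else 0)) :=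
    Finset.sum_congr rfl fun i _ => key i
  rw [Finset.sum_add_distrib, Finset.sum_add_distrib] at h1
  have h2 : ∑ i ∈ Finset.range n, u (i + 1) = ∑ i ∈ Finset.range n, u i := by
    have h3 := Finset.sum_range_succ (fun i => u i) n
    have h4 := Finset.sum_range_succ' (fun i => u i) n
    have h5 : u n = u 0 := by
      have := (h.per 0).2
      rwa [zero_add] at this
    omega
  have h3 : ∑ i ∈ Finset.range n, (if u i = 0 then 0 else 1) ≤ n := by
    calc _ ≤ ∑ i ∈ Finset.range n, 1 := Finset.sum_le_sum fun i _ => by split_ifs <;> omega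
      _ = n := by simp
  omega

theorem turn_small (h : Runs p Q r n s u) {i : ℕ} (hs : s i = true) (hu : u i = 0) :
    padicNorm p (r i) * Q = 1 ∧ padicNorm p (r (i + 1)) = Q ^ (u (i + 1) + 1) := by
  have h1 := h.small i hs
  rw [hu, zero_add, pow_one] at h1
  refine ⟨h1, h.large (i + 1) ?_⟩
  rw [h.turn i hu, hs]; rfl

theorem turn_large (h : Runs p Q r n s u) {i : ℕ} (hs : s i = false) (hu : u i = 0) :
    padicNorm p (r i) = Q ∧ padicNorm p (r (i + 1)) * Q ^ (u (i + 1) + 1) = 1 := by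
  have h1 := h.large i hs
  rw [hu, zero_add, pow_one] at h1
  refine ⟨h1, h.small (i + 1) ?_⟩
  rw [h.turn i hu, hs]; rfl

end Runs

end Pool.Agent.H24.FP
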