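import Pool.Agent.H24.FP.Large

/-!
# Negative cycles with the numerator small against the denominator
-/

set_option autoImplicit false

namespace Pool.Agent.H24.FP.M

open Pool.Agent.H97 Pool.Agent.H24.FP.N2

/-- two steps from `-z`, `z > 1` -/
theorem dstep {b z w z' : ℚ} (hb : 0 < b) (hz : 1 < z) (hbz : b * z < 1)
    (h1 : (b + w) * z ^ 2 = b + z) (h2 : (b + z') * w ^ 2 = b + w) :
    0 < w ∧ w < 1 ∧ z < z' ∧ 1 / z - 2 * b ≤ 1 / z' := by
  have hz0 : 0 < z := by linarith
  have hz2 : 0 < z ^ 2 := by positivity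
  have a1 : w * z ^ 2 = z - b * (z ^ 2 - 1) := by linear_combination h1
  have a2 : 0 < w * z ^ 2 := by
    rw [a1]
    nlinarith
  have hw : 0 < w := by
    by_contra hcon
    push Not at hcon
    nlinarith
  have a3 : w * z < 1 := by
    have : z * (w * z) < z * 1 := by nlinarith [mul_pos hb (by nlinarith : 0 < z ^ 2 - 1)]
    exact lt_of_mul_lt_mul_left this hz0.le
  have hw1 : w < 1 := by nlinarith
  have hw2 : 0 < w ^ 2 := by positivity
  have a4 : z' * w ^ 2 = w + b * (1 - w ^ 2) := by linear_combination h2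
  have a5 : 0 < 1 - w ^ 2 := by nlinarith
  have a6 : 1 < z' * w := by
    have : w * 1 < w * (z' * w) := by nlinarith [mul_pos hb a5]
    exact lt_of_mul_lt_mul_left this hw.le
  have hzz : z < z' := by
    have : w * z < w * z' := by linarith [mul_comm z' w]
    exact lt_of_mul_lt_mul_left this hw.le
  refine ⟨hw, hw1, hzz, ?_⟩
  have hz'0 : 0 < z' := by linarith
  have a7 : 1 / z - b ≤ w := by
    have e1 : (1 / z - b) * z ^ 2 = z - b * z ^ 2 := by field_simp
    have e2 : (1 / z - b) * z ^ 2 ≤ w * z ^ 2 := by rw [e1, a1]; nlinarith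
    exact le_of_mul_le_mul_right e2 hz2
  have a8 : w - b ≤ 1 / z' := by
    rw [le_div_iff₀ hz'0]
    have e1 : w ^ 2 * ((w - b) * z') ≤ w ^ 2 * 1 := by
      have e2 : w ^ 2 * ((w - b) * z') = (w - b) * (w + b * (1 - w ^ 2)) := by
        rw [← a4]; ring
      rw [e2]
      nlinarith [mul_pos hb (mul_pos hw hw2), mul_pos (mul_pos hb hb) a5]
    exact le_of_mul_le_mul_left e1 hw2
  linarith

section
variable {b : ℚ} {t : ℕ → ℚ} {n : ℕ}

theorem x_lt (h : Neg b t n) (i : ℕ) : b + 1 / t i < b := by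
  have : 1 / t i < 0 := one_div_neg.2 (h.ht i)
  linarith

theorem per_mul' (h : IsTCycle b t n) (i k : ℕ) : t (i + k * n) = t i := by
  induction k with
  | zero => simp
  | succ k ih =>
    have e : i + (k + 1) * n = (i + k * n) + n := by ring
    rw [e, h.per, ih]

/-- (A) -/
theorem big_far (h : Neg b t n) {i : ℕ} {z : ℚ} (hz : 1 < z) (hx : b + 1 / t i = -z) :
    1 ≤ (2 * n + 1) * b * z := by
  by_contra hcon
  push Not at hcon
  have hb := h.hb
  have hT := h.toIsTCycle
  have hz0 : 0 < z := by linarith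
  have key : ∀ k : ℕ, k ≤ n → ∃ z', b + 1 / t (i + 2 * k) = -z' ∧ z ≤ z' ∧ (0 < k → z < z') ∧
      1 / z - 2 * k * b ≤ 1 / z' := by
    intro k
    induction k with
    | zero =>
      intro _
      exact ⟨z, hx, le_rfl, fun h0 => absurd h0 (lt_irrefl _), by push_cast; linarith⟩
    | succ k ih =>
      intro hk
      obtain ⟨z1, e1, e2, _, e3⟩ := ih (by omega)
      have hz1 : 1 < z1 := by linarith
      have hz10 : 0 < z1 := by linarith
      have hbz : b * z1 < 1 := by
        have a1 : (2 * n + 1) * b < 1 / z := by rw [lt_div_iff₀ hz0]; exact hcon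
        have hkn : (k : ℚ) + 1 ≤ n := by exact_mod_cast hk
        have a2 : b < 1 / z1 := by nlinarith
        rwa [lt_div_iff₀ hz10] at a2
      have r1 := xrec hT (i + 2 * k)
      have r2 := xrec hT (i + 2 * k + 1)
      rw [e1] at r1
      obtain ⟨b1, b2, b3, b4⟩ := dstep (w := -(b + 1 / t (i + 2 * k + 1)))
        (z' := -(b + 1 / t (i + 2 * k + 1 + 1))) hb hz1 hbz
        (by linear_combination r1) (by linear_combination r2)
      refine ⟨-(b + 1 / t (i + 2 * k + 1 + 1)), ?_, by linarith, fun _ => by linarith, ?_⟩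
      · rw [neg_neg]
        rfl
      · push_cast
        linarith
  obtain ⟨z', e1, _, e2, _⟩ := key n le_rfl
  have e3 := per_mul' hT i 2
  rw [e3, hx] at e1
  have := e2 h.pos
  linarith

/-- the step after `-z` -/
theorem next_neg (h : IsTCycle b t n) {i : ℕ} {z : ℚ} (hx : b + 1 / t i = -z) :
    (b + -(b + 1 / t (i + 1))) * z ^ 2 = b + z := by
  have := xrec h i
  rw [hx] at this
  linear_combination this

/-- (B), (C) -/
theorem small_near (h : Neg b t n) {i : ℕ} (hx : |b + 1 / t i| < 1) :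
    |b + 1 / t i| ≤ (2 * n + 2) * b := by
  have hb := h.hb
  have hT := h.toIsTCycle
  have hn : (0 : ℚ) ≤ n := by positivity
  rcases le_or_gt 0 (b + 1 / t i) with h1 | h1
  · rw [abs_of_nonneg h1]
    have := x_lt h i
    nlinarith
  · rw [abs_of_neg h1] at hx ⊢
    obtain ⟨z, hz⟩ : ∃ z, z = -(b + 1 / t i) := ⟨_, rfl⟩
    rw [← hz] at hx ⊢
    have hxz : b + 1 / t i = -z := by rw [hz]; ring
    have hz0 : 0 < z := by linarith
    have hz2 : 0 < z ^ 2 := by positivity
    have r := next_neg hT hxz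
    obtain ⟨w, hw⟩ : ∃ w, w = -(b + 1 / t (i + 1)) := ⟨_, rfl⟩
    rw [← hw] at r
    have a1 : w * z ^ 2 = z + b * (1 - z ^ 2) := by linear_combination r
    have a0 : 0 < 1 - z ^ 2 := by nlinarith
    have a2 : 1 < w * z := by
      have : z * 1 < z * (w * z) := by nlinarith [mul_pos hb a0]
      exact lt_of_mul_lt_mul_left this hz0.le
    have hw1 : 1 < w := by
      by_contra hcon
      push Not at hcon
      nlinarith
    have a3 := big_far h hw1 (i := i + 1) (by rw [hw]; ring)
    by_contra hcon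
    push Not at hcon
    -- `w z² < z + b`
    have a4 : w * z ^ 2 < z + b := by nlinarith
    have a5 : (2 * n + 1) * b * (w * z ^ 2) < (2 * n + 1) * b * (z + b) :=
      mul_lt_mul_of_pos_left a4 (by positivity)
    have a6 : z ^ 2 ≤ (2 * n + 1) * b * (w * z ^ 2) := by
      calc z ^ 2 = 1 * z ^ 2 := (one_mul _).symm
        _ ≤ ((2 * n + 1) * b * w) * z ^ 2 := mul_le_mul_of_nonneg_right a3 hz2.le
        _ = _ := by ring
    have a7 : z ^ 2 < (2 * n + 1) * b * (z + b) := lt_of_le_of_lt a6 a5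
    -- but `z ≥ (2 n + 2) b`
    have a8 : (2 * n + 1) * b * (z + b) ≤ z ^ 2 := by
      have e1 : 0 ≤ (z - (2 * n + 2) * b) * (z + b) := mul_nonneg (by linarith) (by linarith)
      nlinarith [mul_pos hb hb]
    linarith

/-- a large step is followed by a small one -/
theorem big_small (h : Neg b t n) (hb1 : b < 1) {i : ℕ} (hx : 1 < |b + 1 / t i|) :
    |b + 1 / t (i + 1)| < 1 := by
  have hb := h.hb
  have hT := h.toIsTCycle
  have h1 : b + 1 / t i < 0 := by
    by_contra hcon
    push Not at hcon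
    rw [abs_of_nonneg hcon] at hx
    have := x_lt h i
    linarith
  rw [abs_of_neg h1] at hx
  obtain ⟨z, hz⟩ : ∃ z, z = -(b + 1 / t i) := ⟨_, rfl⟩
  rw [← hz] at hx
  have hxz : b + 1 / t i = -z := by rw [hz]; ring
  have hz0 : 0 < z := by linarith
  have hz2 : 0 < z ^ 2 := by positivity
  have r := next_neg hT hxz
  rw [abs_lt]
  refine ⟨?_, by have := x_lt h (i + 1); linarith⟩
  obtain ⟨w, hw⟩ : ∃ w, w = -(b + 1 / t (i + 1)) := ⟨_, rfl⟩
  rw [← hw] at r
  have a1 : w * z ^ 2 = z - b * (z ^ 2 - 1) := by linear_combination r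
  have a2 : w * z ^ 2 < z := by nlinarith [mul_pos hb (by nlinarith : 0 < z ^ 2 - 1)]
  have a3 : w < 1 := by
    by_contra hcon
    push Not at hcon
    nlinarith
  linarith

theorem prod_abs (h : IsTCycle b t n) : ∏ i ∈ Finset.range n, |b + 1 / t i| = 1 := by
  have h1 : ∏ i ∈ Finset.range n, ((|b + 1 / t i|) ^ 2 * t i) = ∏ i ∈ Finset.range n, t (i + 1) := by
    apply Finset.prod_congr rfl
    intro i _
    rw [sq_abs, ← Neg.xi_sq h i]
  rw [Finset.prod_mul_distrib, prod_shift (h.ne 0) (by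
    have := h.per 0
    rwa [zero_add] at this), Finset.prod_pow] at h1
  have h2 : ∏ i ∈ Finset.range n, t i ≠ 0 := Finset.prod_ne_zero_iff.2 fun i _ => h.ne i
  have h3 : (∏ i ∈ Finset.range n, |b + 1 / t i|) ^ 2 = 1 := by
    apply mul_right_cancel₀ h2
    rw [h1, one_mul]
  have h4 : 0 ≤ ∏ i ∈ Finset.range n, |b + 1 / t i| := Finset.prod_nonneg fun i _ => abs_nonneg _
  nlinarith

/-- the small end -/
theorem small_end (h : Neg b t n) (hc : (2 * n + 2) * b * (b.num : ℚ) ^ 3 < 1) : t 1 = t 0 := by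
  by_contra h01
  obtain ⟨W, X, V, G, hS⟩ := exists_sys h
  have hb0 : 0 < b := h.hb
  have hT := h.toIsTCycle
  have hNz : 0 < b.num := Rat.num_pos.2 h.hb
  have hN1 : (1 : ℚ) ≤ b.num := by exact_mod_cast hNz
  have hn : (1 : ℚ) ≤ n := by exact_mod_cast h.pos
  set N : ℚ := (b.num : ℚ) with hN
  obtain ⟨c, hcd⟩ : ∃ c : ℚ, c = (2 * n + 2) * b := ⟨_, rfl⟩
  rw [← hcd] at hc
  have hc0 : 0 < c := by rw [hcd]; positivity
  have hN3 : 1 ≤ N ^ 3 := one_le_pow₀ hN1
  have hc1 : c < 1 := by nlinarith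
  have hb1 : b < 1 := by nlinarith
  set a : ℕ → ℚ := fun i => |b + 1 / t i| with ha
  have ha0 : ∀ i, 0 < a i := fun i => abs_pos.2 (Neg.xi_ne hT i)
  have ha1 : ∀ i, a i ≠ 1 := fun i => abs_ne_one h h01 i
  have hlarge : ∀ i, 1 < a i → a (i + 1) < 1 := fun i hi => big_small h hb1 hi
  have hsmall : ∀ i, a i < 1 → a i ≤ c := fun i hi => by rw [hcd]; exact small_near h hi
  have haX : ∀ i, a i ≤ N * X i := by
    intro i
    have h1 := hS.abs_eq h i
    have h2 : (1 : ℚ) ≤ W i := by exact_mod_cast hS.W1 i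
    have h3 := ha0 i
    show a i ≤ (b.num : ℚ) * X i
    rw [← h1]
    show a i ≤ a i * (W i : ℚ)
    nlinarith
  have hGN : ∀ i, (G i : ℚ) ≤ N := by
    intro i
    have := Int.le_of_dvd hNz (hS.GN i)
    show (G i : ℚ) ≤ (b.num : ℚ)
    exact_mod_cast this
  set f : ℕ → ℚ := fun i => if 1 < a i then N ^ 2 else N * c with hf
  have hf0 : ∀ i, 0 < f i := by
    intro i
    show 0 < (if 1 < a i then N ^ 2 else N * c)
    split_ifs <;> positivity
  have hfL : ∀ i, 1 < a i → f i = N ^ 2 := fun i hi => if_pos hi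
  have hfS : ∀ i, ¬ 1 < a i → f i = N * c := fun i hi => if_neg hi
  have key : ∀ i, (G i : ℚ) * a i ≤ X i * f i := by
    intro i
    have h1 := hGN i
    have h2 := haX i
    have h3 := ha0 i
    have h4 : (1 : ℚ) ≤ X i := by exact_mod_cast hS.X1 i
    have h5 : (1 : ℚ) ≤ G i := by exact_mod_cast hS.G1 i
    by_cases hi : 1 < a i
    · rw [hfL i hi]
      calc (G i : ℚ) * a i ≤ N * (N * X i) := by
            apply mul_le_mul h1 h2 h3.le (by linarith)
        _ = X i * N ^ 2 := by ring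
    · rw [hfS i hi]
      have h6 : a i < 1 := lt_of_le_of_ne (not_lt.1 hi) (ha1 i)
      have h7 := hsmall i h6
      calc (G i : ℚ) * a i ≤ N * c := mul_le_mul h1 h7 h3.le (by linarith)
        _ = 1 * (N * c) := (one_mul _).symm
        _ ≤ X i * (N * c) := mul_le_mul_of_nonneg_right h4 (by positivity)
  have hff : ∀ i, f i * f (i + 1) < 1 := by
    intro i
    have e1 : N ^ 2 * (N * c) < 1 := by nlinarith
    have e2 : (N * c) * (N * c) < 1 := by
      have e3 : (N * c) * (N * c) ≤ (N * c) * (N * 1) :=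
        mul_le_mul_of_nonneg_left (mul_le_mul_of_nonneg_left hc1.le (by linarith)) (by positivity)
      have e4 : (N * c) * (N * 1) = 1 * (N ^ 2 * c) := by ring
      have e5 : 1 * (N ^ 2 * c) ≤ N * (N ^ 2 * c) := mul_le_mul_of_nonneg_right hN1 (by positivity)
      nlinarith
    by_cases hi : 1 < a i
    · have hi' : ¬ 1 < a (i + 1) := not_lt.2 (hlarge i hi).le
      rw [hfL i hi, hfS _ hi']
      exact e1
    · by_cases hi' : 1 < a (i + 1)
      · rw [hfS i hi, hfL _ hi']
        linarith [mul_comm (N * c) (N ^ 2)]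
      · rw [hfS i hi, hfS _ hi']
        exact e2
  -- the products
  have hp1 : ∏ i ∈ Finset.range n, ((G i : ℚ) * a i) ≤ ∏ i ∈ Finset.range n, ((X i : ℚ) * f i) := by
    apply Finset.prod_le_prod
    · intro i _
      exact mul_nonneg (by exact_mod_cast (by have := hS.G1 i; linarith : 0 ≤ G i)) (ha0 i).le
    · intro i _
      exact key i
  rw [Finset.prod_mul_distrib, Finset.prod_mul_distrib, prod_abs hT, mul_one] at hp1
  have h1 : ∏ i ∈ Finset.range n, (G i : ℚ) = ∏ i ∈ Finset.range n, (X i : ℚ) := by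
    have := hS.prod
    exact_mod_cast this
  rw [h1] at hp1
  have hXp : 0 < ∏ i ∈ Finset.range n, (X i : ℚ) :=
    Finset.prod_pos fun i _ => by exact_mod_cast hS.X1 i
  have hp2 : 1 ≤ ∏ i ∈ Finset.range n, f i := by
    have : (∏ i ∈ Finset.range n, (X i : ℚ)) * 1 ≤
        (∏ i ∈ Finset.range n, (X i : ℚ)) * ∏ i ∈ Finset.range n, f i := by
      rw [mul_one]; exact hp1
    exact le_of_mul_le_mul_left this hXp
  have hp3 : ∏ i ∈ Finset.range n, (f i * f (i + 1)) < ∏ i ∈ Finset.range n, (1 : ℚ) := by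
    apply Finset.prod_lt_prod_of_nonempty
    · intro i _
      exact mul_pos (hf0 i) (hf0 (i + 1))
    · intro i _
      exact hff i
    · exact ⟨0, Finset.mem_range.2 h.pos⟩
  rw [Finset.prod_mul_distrib, Finset.prod_const_one, prod_shift (f := f) (hf0 0).ne' (by
    have e1 : a n = a 0 := by
      have := h.per 0
      rw [zero_add] at this
      show |b + 1 / t n| = |b + 1 / t 0|
      rw [this]
    show (if 1 < a n then N ^ 2 else N * c) = (if 1 < a 0 then N ^ 2 else N * c)
    rw [e1])] at hp3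
  nlinarith

end

end Pool.Agent.H24.FP.M
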