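import Pool.Agent.H24.FP.Place

/-!
# The square class of `-b c`
-/

set_option autoImplicit false

namespace Pool.Agent.H24.FP.M

open Pool.Agent.H97 Pool.Agent.H24.FP.N2

theorem isSquare_near {p : ℕ} [hp : Fact p.Prime] {u : ℚ_[p]}
    (h : ‖u - 1‖ < ‖(4 : ℚ_[p])‖) : IsSquare u := by
  have h4 : ‖(4 : ℚ_[p])‖ ≤ 1 := by
    have := Padic.norm_int_le_one (p := p) 4
    exact_mod_cast this
  have hu : ‖u‖ ≤ 1 := by
    have h1 : u = (u - 1) + 1 := by ring
    rw [h1]
    refine le_trans (Padic.nonarchimedean _ _) ?_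
    rw [norm_one]
    exact max_le (le_trans h.le h4) le_rfl
  set v : ℤ_[p] := ⟨u, hu⟩ with hv
  set F : Polynomial ℤ_[p] := Polynomial.X ^ 2 - Polynomial.C v with hF
  have e1 : F.aeval (1 : ℤ_[p]) = 1 - v := by
    rw [hF]
    simp
  have e2 : F.derivative.aeval (1 : ℤ_[p]) = 2 := by
    rw [hF]
    simp only [Polynomial.derivative_sub, Polynomial.derivative_X_pow, Polynomial.derivative_C,
      sub_zero, map_mul, map_pow, Polynomial.aeval_X, one_pow, mul_one]
    norm_num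
  have hnorm : ‖F.aeval (1 : ℤ_[p])‖ < ‖F.derivative.aeval (1 : ℤ_[p])‖ ^ 2 := by
    rw [e1, e2, ← _root_.norm_pow]
    rw [PadicInt.norm_def, PadicInt.norm_def]
    push_cast
    rw [← norm_neg]
    have e3 : -((1 : ℚ_[p]) - (v : ℚ_[p])) = u - 1 := by
      rw [hv]
      ring
    rw [e3]
    have e7 : ‖(4 : ℚ_[p])‖ = ‖(2 : ℚ_[p])‖ ^ 2 := by
      rw [← _root_.norm_pow]
      norm_num
    rw [e7] at h
    norm_num
    exact h
  obtain ⟨z, hz, _⟩ := hensels_lemma hnorm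
  refine ⟨(z : ℚ_[p]), ?_⟩
  have e4 : z ^ 2 - v = 0 := by
    rw [← hz, hF]
    simp
  have e5 : v = z * z := by
    linear_combination -e4
  have e6 : u = (v : ℚ_[p]) := rfl
  rw [e6, e5]
  push_cast
  rfl

/-- if `ξ` is small against `b` then `-b c` is a square -/
theorem square_of_small {b c : ℚ} {x : ℕ → ℚ} {n : ℕ} (hb : b ≠ 0)
    (hx : IsCycle b c x n) {p : ℕ} [hp : Fact p.Prime] {i : ℕ}
    (h : padicNorm p (b + 1 / (x i ^ 2 / c)) < padicNorm p (4 * b)) :
    IsSquare ((-(b * c) : ℚ) : ℚ_[p]) := by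
  have hxi := hx.ne i
  set ξ : ℚ := b + 1 / (x i ^ 2 / c) with hξ
  have e1 : -(b * c) = (b * x i) * (b * x i) * (1 - ξ / b) := by
    rw [hξ]
    field_simp
    ring
  have hsq : IsSquare ((1 - ξ / b : ℚ) : ℚ_[p]) := by
    apply isSquare_near
    have e2 : ((1 - ξ / b : ℚ) : ℚ_[p]) - 1 = ((-(ξ / b) : ℚ) : ℚ_[p]) := by
      push_cast
      ring
    have e3 : (4 : ℚ_[p]) = ((4 : ℚ) : ℚ_[p]) := by norm_num
    rw [e2, e3, Padic.eq_padicNorm, Padic.eq_padicNorm]
    rw [padicNorm.neg, padicNorm.div]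
    have h0 : 0 < padicNorm p b := norm_pos hb
    have h1 : padicNorm p ξ / padicNorm p b < padicNorm p 4 := by
      rw [div_lt_iff₀ h0, ← padicNorm.mul]
      exact h
    exact_mod_cast h1
  obtain ⟨y, hy⟩ := hsq
  refine ⟨((b * x i : ℚ) : ℚ_[p]) * y, ?_⟩
  rw [e1]
  rw [Rat.cast_mul, hy]
  push_cast
  ring

/-- a pole with `-b c` not a square: no cycle -/
theorem no_cycle_of_pole {b c : ℚ} {x : ℕ → ℚ} {n : ℕ} (hb : b ≠ 0) (hc : c ≠ 0)
    (hx : IsCycle b c x n) {p : ℕ} [hp : Fact p.Prime] (h4 : 1 < padicNorm p (4 * b))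
    (hsq : ¬ IsSquare ((-(b * c) : ℚ) : ℚ_[p])) : False := by
  have h1 : 1 < padicNorm p b := by
    rw [padicNorm.mul] at h4
    have h2 : padicNorm p (4 : ℚ) ≤ 1 := by
      have := padicNorm.of_nat (p := p) 4
      exact_mod_cast this
    have h3 : 0 ≤ padicNorm p b := padicNorm.nonneg _
    nlinarith
  apply hsq
  apply square_of_small hb hx (i := 0)
  have h5 := xi_unit (q := p) (hx.toT hc) h1 0
  show padicNorm p (b + 1 / (x 0 ^ 2 / c)) < _
  have h6 : padicNorm p (b + 1 / (x 0 ^ 2 / c)) = 1 := h5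
  rw [h6]
  exact h4

section
variable {b : ℚ} {t : ℕ → ℚ} {n : ℕ} {q : ℕ} [hq : Fact q.Prime]

theorem mul_unit_aux (β τ ξ : ℚ) (hβ : 0 < β) (hβ1 : β < 1) (hτ : 0 < τ)
    (h : (β * τ < 1 ∧ ξ = 1 / τ) ∨ (1 < β * τ ∧ ξ = β) ∨ (β * τ = 1 ∧ ξ = β)) :
    (1 < β * τ ∧ max (ξ ^ 2 * τ) (1 / (ξ ^ 2 * τ)) < max τ (1 / τ)) ∨
      (ξ ^ 2 * τ) * τ = 1 := by
  rcases h with ⟨h1, h2⟩ | ⟨h1, h2⟩ | ⟨h1, h2⟩
  · right
    rw [h2]
    field_simp
  · left
    refine ⟨h1, ?_⟩
    have hτ1 : 1 < τ := by nlinarith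
    have e1 : max τ (1 / τ) = τ := by
      apply max_eq_left
      rw [div_le_iff₀ hτ]
      nlinarith
    rw [e1, h2]
    apply max_lt
    · have : β ^ 2 < 1 := by nlinarith
      nlinarith
    · rw [div_lt_iff₀ (by positivity)]
      have : 1 * 1 < (β * τ) * (β * τ) := mul_lt_mul'' h1 h1 (by norm_num) (by norm_num)
      nlinarith
  · right
    rw [h2]
    have : β ^ 2 * τ * τ = (β * τ) ^ 2 := by ring
    rw [this, h1, one_pow]

/-- no cancellation: `ξ ξ'` is a unit -/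
theorem mul_unit_lt (h : IsTCycle b t n) (hb : b ≠ 0) (hb1 : padicNorm q b < 1)
    (hnc : ∀ i, padicNorm q b * padicNorm q (t i) = 1 → padicNorm q (b + 1 / t i) = padicNorm q b)
    (i : ℕ) : padicNorm q (t (i + 1)) * padicNorm q (t i) = 1 := by
  have hβ : 0 < padicNorm q b := norm_pos hb
  have hτ : ∀ i, 0 < padicNorm q (t i) := fun i => norm_pos (h.ne i)
  have hn : ∀ i, padicNorm q (t (i + 1)) = padicNorm q (b + 1 / t i) ^ 2 * padicNorm q (t i) := by
    intro i
    rw [Neg.xi_sq h i, padicNorm.mul, Pool.Agent.H97.norm_pow]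
  have key : ∀ i, (1 < padicNorm q b * padicNorm q (t i) ∧
      max (padicNorm q (t (i + 1))) (1 / padicNorm q (t (i + 1))) <
        max (padicNorm q (t i)) (1 / padicNorm q (t i))) ∨
      padicNorm q (t (i + 1)) * padicNorm q (t i) = 1 := by
    intro i
    have h1 : (padicNorm q b * padicNorm q (t i) < 1 ∧
        padicNorm q (b + 1 / t i) = 1 / padicNorm q (t i)) ∨
        (1 < padicNorm q b * padicNorm q (t i) ∧ padicNorm q (b + 1 / t i) = padicNorm q b) ∨
        (padicNorm q b * padicNorm q (t i) = 1 ∧ padicNorm q (b + 1 / t i) = padicNorm q b) := by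
      rcases xi_norms (q := q) h hb i with h1 | h1 | h1
      · exact Or.inl h1
      · exact Or.inr (Or.inl h1)
      · exact Or.inr (Or.inr ⟨h1.1, hnc i h1.1⟩)
    have h2 := mul_unit_aux _ _ _ hβ hb1 (hτ i) h1
    rw [← hn i] at h2
    exact h2
  have hle : ∀ i, max (padicNorm q (t (i + 1))) (1 / padicNorm q (t (i + 1))) ≤
      max (padicNorm q (t i)) (1 / padicNorm q (t i)) := by
    intro i
    rcases key i with h1 | h1
    · exact h1.2.le
    · have h2 : padicNorm q (t (i + 1)) = 1 / padicNorm q (t i) := by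
        rw [eq_div_iff (hτ i).ne']
        exact h1
      rw [h2, one_div_one_div, max_comm]
  rcases key i with h1 | h1
  · exfalso
    have hc := const_of_antitone_periodic
      (fun j => max (padicNorm q (t (i + j))) (1 / padicNorm q (t (i + j)))) n h.pos (by
        show max (padicNorm q (t (i + n))) (1 / padicNorm q (t (i + n))) =
          max (padicNorm q (t (i + 0))) (1 / padicNorm q (t (i + 0)))
        rw [h.per i, add_zero]) (fun j => hle (i + j))
    have hc' : max (padicNorm q (t (i + 1))) (1 / padicNorm q (t (i + 1))) =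
        max (padicNorm q (t i)) (1 / padicNorm q (t i)) := hc
    rw [hc'] at h1
    exact lt_irrefl _ h1.2
  · exact h1

theorem xi_mul_norm (h : IsTCycle b t n) (hb : b ≠ 0)
    (hnc : padicNorm q b < 1 → ∀ i, padicNorm q b * padicNorm q (t i) = 1 →
      padicNorm q (b + 1 / t i) = padicNorm q b) (i : ℕ) :
    padicNorm q ((b + 1 / t i) * (b + 1 / t (i + 1))) = 1 := by
  have hτ : ∀ i, 0 < padicNorm q (t i) := fun i => norm_pos (h.ne i)
  have hξ : ∀ i, 0 < padicNorm q (b + 1 / t i) := fun i => norm_pos (Neg.xi_ne h i)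
  have hn : ∀ i, padicNorm q (t (i + 1)) = padicNorm q (b + 1 / t i) ^ 2 * padicNorm q (t i) := by
    intro i
    rw [Neg.xi_sq h i, padicNorm.mul, Pool.Agent.H97.norm_pow]
  have h2 : padicNorm q (t (i + 1 + 1)) = padicNorm q (t i) := by
    rcases lt_trichotomy (padicNorm q b) 1 with h1 | h1 | h1
    · have e1 := mul_unit_lt h hb h1 (hnc h1) i
      have e2 := mul_unit_lt h hb h1 (hnc h1) (i + 1)
      have e3 := (hτ (i + 1)).ne'
      apply mul_right_cancel₀ e3
      rw [e2, mul_comm, e1]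
    · rcases h.unit_dichotomy h1 with h3 | ⟨τ, _, h3⟩
      · rw [h3, h3]
      · rw [h3, h3]
    · rw [hn (i + 1), hn i, xi_unit h h1, xi_unit h h1]
      ring
  rw [hn (i + 1), hn i] at h2
  rw [padicNorm.mul]
  have h3 : (padicNorm q (b + 1 / t i) * padicNorm q (b + 1 / t (i + 1))) ^ 2 *
      padicNorm q (t i) = 1 ^ 2 * padicNorm q (t i) := by
    linear_combination h2
  exact sq_inj_nonneg (mul_pos (hξ _) (hξ _)).le (by norm_num) (mul_right_cancel₀ (hτ i).ne' h3)

end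

/-- no cancellation at any prime: period at most two -/
theorem two_of_no_cancel {b : ℚ} {t : ℕ → ℚ} {n : ℕ} (h : IsTCycle b t n) (hb : b ≠ 0)
    (hnc : ∀ q : ℕ, q.Prime → padicNorm q b < 1 → ∀ i, padicNorm q b * padicNorm q (t i) = 1 →
      padicNorm q (b + 1 / t i) = padicNorm q b) : t 2 = t 0 := by
  have h1 : (b + 1 / t 0) * (b + 1 / t (0 + 1)) = 1 ∨ (b + 1 / t 0) * (b + 1 / t (0 + 1)) = -1 := by
    apply eq_or_neg_of_norms
    · exact mul_ne_zero (Neg.xi_ne h 0) (Neg.xi_ne h (0 + 1))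
    · norm_num
    · intro p hp
      have : Fact p.Prime := ⟨hp⟩
      rw [padicNorm.one]
      exact xi_mul_norm h hb (hnc p hp) 0
  have h2 : ((b + 1 / t 0) * (b + 1 / t (0 + 1))) ^ 2 = 1 := by
    rcases h1 with h1 | h1 <;> rw [h1] <;> norm_num
  have e1 := Neg.xi_sq h 0
  have e2 := Neg.xi_sq h (0 + 1)
  have e3 : t (0 + 1 + 1) = ((b + 1 / t 0) * (b + 1 / t (0 + 1))) ^ 2 * t 0 := by
    rw [e2]
    generalize b + 1 / t (0 + 1) = z
    rw [e1]
    ring
  rw [h2, one_mul] at e3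
  exact e3

end Pool.Agent.H24.FP.M
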