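import Pool.Agent.H24.FP.Square
import Pool.Agent.H24.FP.Large

/-!
# Runs at one prime of the numerator only
-/

set_option autoImplicit false

namespace Pool.Agent.H24.FP.M

open Pool.Agent.H97 Pool.Agent.H24.FP.N2

theorem pm_one {y : ℚ} (hy : y ≠ 0) (h : ∀ p : ℕ, p.Prime → padicNorm p y = 1) :
    y = 1 ∨ y = -1 :=
  eq_or_neg_of_norms hy one_ne_zero fun p hp => by rw [h p hp, padicNorm.one]

/-- the basic identity for `w = ξ ξ'` -/
theorem w_id {b x y z w w' : ℚ} (hb : b ≠ 0) (h1 : b * (x ^ 2 - 1) = x * (w - 1))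
    (h2 : b * (y ^ 2 - 1) = y * (w' - 1)) (hw : w = x * y) (hw' : w' = y * z) :
    b ^ 2 * (w ^ 2 - 1) ^ 2 = w * (w * w' - 1) * (w' + w ^ 2 - w - 1) := by
  have e1 : x * (w * w' - 1) = b * (w ^ 2 - 1) := by
    rw [hw] at h1 ⊢
    linear_combination -h1 - x ^ 2 * h2
  have e2 : b ^ 2 * (b ^ 2 * (w ^ 2 - 1) ^ 2) =
      b ^ 2 * (w * (w * w' - 1) * (w' + w ^ 2 - w - 1)) := by
    have e3 : b * x ^ 2 = x * (w - 1) + b := by linear_combination h1
    have e4 : b ^ 2 * (b ^ 2 * (w ^ 2 - 1) ^ 2) = b * (w * w' - 1) ^ 2 * (b * x ^ 2) := by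
      have : (b * (w ^ 2 - 1)) ^ 2 = (x * (w * w' - 1)) ^ 2 := by rw [e1]
      linear_combination b ^ 2 * this
    rw [e4, e3]
    linear_combination (b * (w - 1) * (w * w' - 1)) * e1
  exact mul_left_cancel₀ (pow_ne_zero 2 hb) e2

/-- first two states of a run: `z ≤ b² ≤ 3 z` -/
theorem size_A {b w w' z : ℚ} (hb : b ≠ 0) (hz : 0 < z) (hz1 : z ≤ 1 / 2)
    (hw : w = z ∨ w = -z) (hw' : w' = z ^ 2 ∨ w' = -z ^ 2)
    (h : b ^ 2 * (w ^ 2 - 1) ^ 2 = w * (w * w' - 1) * (w' + w ^ 2 - w - 1)) :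
    z ≤ b ^ 2 ∧ b ^ 2 ≤ 3 * z := by
  have hb2 : 0 < b ^ 2 := by positivity
  have hz2 : z ^ 2 ≤ 1 / 4 := by nlinarith only [hz1, hz]
  have hw2 : w ^ 2 = z ^ 2 := by rcases hw with rfl | rfl <;> ring
  have h1z : 0 < 1 - z ^ 2 := by linarith
  have hpos : 0 < (w ^ 2 - 1) ^ 2 := by
    rw [hw2]
    have h5 : z ^ 2 - 1 < 0 := by linarith only [hz, hz1, hz2]
    have h6 := mul_pos_of_neg_of_neg h5 h5
    nlinarith only [h6]
  have hgt : 0 < w * (w * w' - 1) * (w' + w ^ 2 - w - 1) := by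
    rw [← h]
    positivity
  have hz3 : 0 < z ^ 3 := by positivity
  have hz3' : z ^ 3 ≤ 1 / 8 := by nlinarith
  -- positive sign
  have hws : w = z := by
    rcases hw with h1 | h1
    · exact h1
    · exfalso
      rw [h1] at hgt
      rcases hw' with h2 | h2
      · rw [h2] at hgt
        have e : -z * (-z * z ^ 2 - 1) * (z ^ 2 + (-z) ^ 2 - -z - 1) =
          -(z * (1 + z ^ 3) * ((1 - 2 * z) * (1 + z))) := by ring
        rw [e] at hgt
        have : 0 ≤ z * (1 + z ^ 3) * ((1 - 2 * z) * (1 + z)) := by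
          apply mul_nonneg (by positivity)
          exact mul_nonneg (by linarith only [hz1]) (by linarith only [hz, hz3, hz3'])
        linarith
      · rw [h2] at hgt
        have e : -z * (-z * -z ^ 2 - 1) * (-z ^ 2 + (-z) ^ 2 - -z - 1) =
          -(z * (1 - z ^ 3) * (1 - z)) := by ring
        rw [e] at hgt
        have : 0 ≤ z * (1 - z ^ 3) * (1 - z) := by
          apply mul_nonneg
          · exact mul_nonneg hz.le (by linarith only [hz3, hz3'])
          · linarith only [hz1, hz3, hz3']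
        linarith
  subst hws
  have hww : w ^ 2 - 1 = -((1 - w) * (1 + w)) := by ring
  have h1w : 0 < 1 - w := by linarith only [hz1, hz3, hz3']
  have h1w' : 0 < 1 + w := by linarith only [hz, hz3, hz3']
  rcases hw' with h2 | h2
  · rw [h2] at h
    have e1 : (b ^ 2 * (1 + w) ^ 2) * (1 - w) ^ 2 =
        (w * (1 + w + w ^ 2) * (1 + 2 * w)) * (1 - w) ^ 2 := by linear_combination h
    have e2 := mul_right_cancel₀ (by positivity : (1 - w) ^ 2 ≠ 0) e1
    constructor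
    · by_contra hcon
      push Not at hcon
      have : b ^ 2 * (1 + w) ^ 2 < w * (1 + w) ^ 2 :=
        mul_lt_mul_of_pos_right hcon (by positivity)
      have e3 : w * (1 + w + w ^ 2) * (1 + 2 * w) - w * (1 + w) ^ 2 = w ^ 2 * (1 + 2 * w + 2 * w ^ 2) := by
        ring
      have e4 : 0 < w ^ 2 * (1 + 2 * w + 2 * w ^ 2) := by positivity
      linarith only [e2, this, e4]
    · by_contra hcon
      push Not at hcon
      have : 3 * w * (1 + w) ^ 2 < b ^ 2 * (1 + w) ^ 2 :=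
        mul_lt_mul_of_pos_right hcon (by positivity)
      have e3 : 3 * w * (1 + w) ^ 2 - w * (1 + w + w ^ 2) * (1 + 2 * w) =
        w * (2 + 3 * w - 2 * w ^ 3) := by ring
      have e4 : 0 < w * (2 + 3 * w - 2 * w ^ 3) := by
        apply mul_pos hz
        linarith only [hz, hz3, hz3']
      linarith only [e2, this, e4]
  · rw [h2] at h
    have e1 : (b ^ 2 * (1 - w) ^ 2) * (1 + w) ^ 2 =
        (w * (1 - w + w ^ 2)) * (1 + w) ^ 2 := by linear_combination h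
    have e2 := mul_right_cancel₀ (by positivity : (1 + w) ^ 2 ≠ 0) e1
    constructor
    · by_contra hcon
      push Not at hcon
      have : b ^ 2 * (1 - w) ^ 2 < w * (1 - w) ^ 2 :=
        mul_lt_mul_of_pos_right hcon (by positivity)
      have e3 : w * (1 - w + w ^ 2) - w * (1 - w) ^ 2 = w ^ 2 := by ring
      have e4 : 0 < w ^ 2 := by positivity
      linarith
    · by_contra hcon
      push Not at hcon
      have : 3 * w * (1 - w) ^ 2 < b ^ 2 * (1 - w) ^ 2 :=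
        mul_lt_mul_of_pos_right hcon (by positivity)
      have e3 : 3 * w * (1 - w) ^ 2 - w * (1 - w + w ^ 2) =
        w * ((1 - 2 * w) * (2 - w)) := by ring
      have e4 : 0 ≤ w * ((1 - 2 * w) * (2 - w)) := by
        apply mul_nonneg hz.le
        exact mul_nonneg (by linarith) (by linarith only [hz1, hz3, hz3'])
      linarith only [e2, this, e4]

/-- a run of length one -/
theorem size_B1 {b w w' Q P : ℚ} (hQ : 2 ≤ Q) (hP : Q ≤ P)
    (hw : w * Q ^ 2 = 1 ∨ w * Q ^ 2 = -1) (hw' : w' = P * Q ^ 2 ∨ w' = -(P * Q ^ 2))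
    (h : b ^ 2 * (w ^ 2 - 1) ^ 2 = w * (w * w' - 1) * (w' + w ^ 2 - w - 1))
    (hb : b ^ 2 * Q ≤ 3) : False := by
  have hQ0 : 0 < Q := by linarith
  have hQ2 : 4 ≤ Q ^ 2 := by nlinarith only [hQ]
  have hQ3 : 8 ≤ Q ^ 3 := by nlinarith only [hQ2, hQ]
  have hP0 : 0 < P := by linarith
  -- absolute values
  have a1 : |w| * Q ^ 2 = 1 := by
    have : |w * Q ^ 2| = 1 := by rcases hw with h1 | h1 <;> rw [h1] <;> norm_num
    rwa [abs_mul, abs_of_pos (by positivity : 0 < Q ^ 2)] at this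
  have a2 : |w'| = P * Q ^ 2 := by
    have h0 : 0 < P * Q ^ 2 := by positivity
    rcases hw' with h1 | h1
    · rw [h1, abs_of_pos h0]
    · rw [h1, abs_neg, abs_of_pos h0]
  have a3 : |w * w'| = P := by
    rw [abs_mul, a2]
    linear_combination P * a1
  have a0 : 0 ≤ |w| := abs_nonneg w
  have a4 : |w| ≤ 1 / 4 := by nlinarith only [a1, hQ2, a0]
  have a5 : w ^ 2 = |w| ^ 2 := (sq_abs w).symm
  have b1 : P - 1 ≤ |w * w' - 1| := by
    have := abs_sub_abs_le_abs_sub (w * w') 1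
    rw [a3, abs_one] at this
    exact this
  have b2 : P * Q ^ 2 - 3 / 2 ≤ |w' + w ^ 2 - w - 1| := by
    have e1 := abs_sub_abs_le_abs_sub w' (-(w ^ 2) + w + 1)
    have e2 : w' - (-(w ^ 2) + w + 1) = w' + w ^ 2 - w - 1 := by ring
    rw [e2, a2] at e1
    have e3 : |-(w ^ 2) + w + 1| ≤ 3 / 2 := by
      rw [_root_.abs_le]
      have h3 := neg_abs_le w
      have h4 := le_abs_self w
      have h5 : 0 ≤ w ^ 2 := sq_nonneg w
      have h6 : w ^ 2 ≤ 1 / 4 := by rw [a5]; nlinarith only [a4, hQ2, a1, a0]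
      constructor <;> linarith
    linarith only [e1, e3]
  have b3 : b ^ 2 * (w ^ 2 - 1) ^ 2 = |w| * |w * w' - 1| * |w' + w ^ 2 - w - 1| := by
    rw [← abs_mul, ← abs_mul, ← h, abs_of_nonneg (by positivity)]
  have b4 : (w ^ 2 - 1) ^ 2 ≤ 1 := by
    have h5 : 0 ≤ w ^ 2 := sq_nonneg w
    have h6 : w ^ 2 ≤ 1 := by rw [a5]; nlinarith only [a4, hQ2, a1, a0]
    nlinarith only [h6]
  have b5 : |w| * |w * w' - 1| * |w' + w ^ 2 - w - 1| ≤ b ^ 2 := by
    rw [← b3]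
    have : 0 ≤ b ^ 2 := sq_nonneg b
    nlinarith only [b4]
  have b6 : |w| * (P - 1) * (P * Q ^ 2 - 3 / 2) ≤ |w| * |w * w' - 1| * |w' + w ^ 2 - w - 1| := by
    apply mul_le_mul
    · exact mul_le_mul_of_nonneg_left b1 a0
    · exact b2
    · nlinarith only [hQ3, hP]
    · positivity
  have b7 : (P - 1) * (P * Q ^ 2 - 3 / 2) ≤ b ^ 2 * Q ^ 2 := by
    have h7 : |w| * (P - 1) * (P * Q ^ 2 - 3 / 2) ≤ b ^ 2 := le_trans b6 b5
    have h8 := mul_le_mul_of_nonneg_right h7 (by positivity : 0 ≤ Q ^ 2)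
    calc (P - 1) * (P * Q ^ 2 - 3 / 2) = (|w| * Q ^ 2) * ((P - 1) * (P * Q ^ 2 - 3 / 2)) := by
          rw [a1, one_mul]
      _ = |w| * (P - 1) * (P * Q ^ 2 - 3 / 2) * Q ^ 2 := by ring
      _ ≤ _ := h8
  have b8 : (Q - 1) * (Q ^ 3 - 3 / 2) ≤ (P - 1) * (P * Q ^ 2 - 3 / 2) := by
    apply mul_le_mul
    · linarith only [hP]
    · have : Q * Q ^ 2 ≤ P * Q ^ 2 := mul_le_mul_of_nonneg_right hP (by positivity)
      nlinarith only [this]
    · linarith only [hQ3]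
    · linarith
  have b9 : b ^ 2 * Q ^ 2 ≤ 3 * Q := by nlinarith only [hb, hQ]
  have b10 : (Q - 1) * (Q ^ 3 - 3 / 2) ≤ 3 * Q := le_trans (le_trans b8 b7) b9
  have b11 : Q ^ 3 - 3 / 2 ≤ (Q - 1) * (Q ^ 3 - 3 / 2) := by nlinarith only [hQ2, b7, b8, b9, hQ,
      hQ3]
  have b12 : 4 * Q ≤ Q ^ 3 := by nlinarith only [hb, hQ2, hQ3, b7, b8, b11, b9]
  nlinarith only [hQ3, b7, b8, b9, b11, b12]

/-- a long run -/
theorem size_B2 {b w w' z Q : ℚ} (hQ : 2 ≤ Q) (hz : 0 < z) (hzQ : z * Q ^ 3 ≤ 1)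
    (hw : w = z ^ 2 ∨ w = -z ^ 2) (hw' : w' = Q ^ 2 ∨ w' = -Q ^ 2)
    (h : b ^ 2 * (w ^ 2 - 1) ^ 2 = w * (w * w' - 1) * (w' + w ^ 2 - w - 1))
    (hb : z ≤ b ^ 2) : False := by
  have hQ0 : 0 < Q := by linarith
  have hz8 : z ≤ 1 / 8 := by
    have h1 : 4 ≤ Q ^ 2 := by nlinarith only [hQ]
    have : 8 ≤ Q ^ 3 := by nlinarith only [h1, hQ]
    nlinarith only [hzQ, hz, this]
  have hzQ2 : z * Q ^ 2 ≤ 1 / 2 := by
    have : z * Q ^ 2 * 2 ≤ z * Q ^ 2 * Q := mul_le_mul_of_nonneg_left hQ (by positivity)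
    nlinarith only [hzQ, this]
  have a1 : |w| = z ^ 2 := by
    rcases hw with h1 | h1
    · rw [h1, abs_of_pos (by positivity)]
    · rw [h1, abs_neg, abs_of_pos (by positivity)]
  have a2 : |w'| = Q ^ 2 := by
    rcases hw' with h1 | h1
    · rw [h1, abs_of_pos (by positivity)]
    · rw [h1, abs_neg, abs_of_pos (by positivity)]
  have hz2 : z ^ 2 ≤ 1 / 64 := by nlinarith only [hz8, hz]
  have a3 : |w * w' - 1| ≤ 17 / 16 := by
    have e1 := abs_sub (w * w') 1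
    rw [abs_mul, a1, a2, abs_one] at e1
    have e2 : z ^ 2 * Q ^ 2 ≤ 1 / 16 := by nlinarith only [hQ, hz8, hz, hzQ]
    linarith only [e1, e2]
  have a4 : |w' + w ^ 2 - w - 1| ≤ Q ^ 2 + 65 / 64 + 1 / 64 := by
    have e1 : |w' + w ^ 2 - w - 1| ≤ |w'| + |w ^ 2 - w - 1| := by
      have : w' + w ^ 2 - w - 1 = w' + (w ^ 2 - w - 1) := by ring
      rw [this]
      exact abs_add_le _ _
    have e2 : |w ^ 2 - w - 1| ≤ 65 / 64 + 1 / 64 := by
      have h3 := neg_abs_le w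
      have h4 := le_abs_self w
      rw [a1] at h3 h4
      have h5 : 0 ≤ w ^ 2 := sq_nonneg w
      have h6 : w ^ 2 ≤ 1 / 64 := by
        rw [← sq_abs, a1]
        have : 0 < z ^ 2 := by positivity
        nlinarith only [hz2, this]
      rw [_root_.abs_le]
      constructor <;> linarith
    rw [a2] at e1
    linarith only [e1, e2]
  have b3 : b ^ 2 * (w ^ 2 - 1) ^ 2 = |w| * |w * w' - 1| * |w' + w ^ 2 - w - 1| := by
    rw [← abs_mul, ← abs_mul, ← h, abs_of_nonneg (by positivity)]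
  have b4 : 63 / 64 * (63 / 64) ≤ (w ^ 2 - 1) ^ 2 := by
    have h5 : 0 ≤ w ^ 2 := sq_nonneg w
    have h6 : w ^ 2 ≤ 1 / 64 := by
      rw [← sq_abs, a1]
      have : 0 < z ^ 2 := by positivity
      nlinarith only [hz2, this]
    nlinarith only [h6, hz, hz8]
  have b5 : z * (63 / 64 * (63 / 64)) ≤ b ^ 2 * (w ^ 2 - 1) ^ 2 :=
    mul_le_mul hb b4 (by norm_num) (by positivity)
  have b6 : |w| * |w * w' - 1| * |w' + w ^ 2 - w - 1| ≤
      z ^ 2 * (17 / 16) * (Q ^ 2 + 65 / 64 + 1 / 64) := by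
    rw [a1]
    apply mul_le_mul
    · exact mul_le_mul_of_nonneg_left a3 (by positivity)
    · exact a4
    · exact abs_nonneg _
    · positivity
  have b7 : z * (63 / 64 * (63 / 64)) ≤ z * (z * (17 / 16) * (Q ^ 2 + 65 / 64 + 1 / 64)) := by
    calc z * (63 / 64 * (63 / 64)) ≤ b ^ 2 * (w ^ 2 - 1) ^ 2 := b5
      _ = |w| * |w * w' - 1| * |w' + w ^ 2 - w - 1| := b3
      _ ≤ _ := b6
      _ = _ := by ring
  have b8 := le_of_mul_le_mul_left b7 hz
  nlinarith only [hz, hz8, hzQ2, b8]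

/-- the third state of a run of length two -/
theorem size_B3 {b w w' Q P : ℚ} (hQ : 2 ≤ Q)
    (hP : P = Q ∨ P = Q ^ 2 ∨ Q ^ 3 ≤ P)
    (hw : w = Q ^ 2 ∨ w = -Q ^ 2) (hw' : w' = P * Q ^ 2 ∨ w' = -(P * Q ^ 2))
    (h : b ^ 2 * (w ^ 2 - 1) ^ 2 = w * (w * w' - 1) * (w' + w ^ 2 - w - 1))
    (hb : b ^ 2 ≤ 3 / 4) : False := by
  have hQ0 : 0 < Q := by linarith only [hQ]
  have hQ2 : 4 ≤ Q ^ 2 := by nlinarith only [hQ]
  have hQ3 : 2 * Q ^ 2 ≤ Q ^ 3 := by nlinarith only [hQ]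
  have hQ4 : 2 * Q ^ 3 ≤ Q ^ 4 := by
    have : 0 < Q ^ 3 := by positivity
    nlinarith only [hQ2, hQ, hQ3]
  have hPQ : Q ≤ P := by
    rcases hP with h1 | h1 | h1
    · rw [h1]
    · rw [h1]; nlinarith only [hQ2, hQ3, hQ4]
    · nlinarith only [hQ2, hQ3, hQ4, h1]
  have a1 : |w| = Q ^ 2 := by
    rcases hw with h1 | h1
    · rw [h1, abs_of_pos (by positivity)]
    · rw [h1, abs_neg, abs_of_pos (by positivity)]
  have hw2 : w ^ 2 = Q ^ 4 := by rw [← sq_abs, a1]; ring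
  have hP0 : 0 < P := by linarith only [hQ, hPQ]
  have a2 : |w'| = P * Q ^ 2 := by
    have h0 : 0 < P * Q ^ 2 := by positivity
    rcases hw' with h1 | h1
    · rw [h1, abs_of_pos h0]
    · rw [h1, abs_neg, abs_of_pos h0]
  have a3 : Q ^ 5 - 1 ≤ |w * w' - 1| := by
    have e1 := abs_sub_abs_le_abs_sub (w * w') 1
    rw [abs_mul, a1, a2, abs_one] at e1
    have e2 : Q ^ 2 * (Q * Q ^ 2) ≤ Q ^ 2 * (P * Q ^ 2) := by
      apply mul_le_mul_of_nonneg_left _ (by positivity)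
      exact mul_le_mul_of_nonneg_right hPQ (by positivity)
    have e3 : Q ^ 2 * (Q * Q ^ 2) = Q ^ 5 := by ring
    linarith
  have a4 : Q ^ 2 - 1 ≤ |w' + w ^ 2 - w - 1| := by
    rw [hw2]
    have hl := neg_abs_le w
    have hu := le_abs_self w
    rw [a1] at hl hu
    rcases hP with h1 | h1 | h1
    · -- `P = Q`
      have e1 : |w'| = Q ^ 3 := by rw [a2, h1]; ring
      have hl' := neg_abs_le w'
      rw [e1] at hl'
      refine le_trans ?_ (le_abs_self _)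
      have : 0 ≤ Q ^ 2 * (Q - 2) * (Q + 1) := by
        apply mul_nonneg
        · apply mul_nonneg (by positivity) (by linarith)
        · linarith
      nlinarith only [hQ3, hQ4, hu, hl']
    · -- `P = Q²`
      have e1 : P * Q ^ 2 = Q ^ 4 := by rw [h1]; ring
      rcases hw' with h2 | h2
      · rw [h2, e1]
        refine le_trans ?_ (le_abs_self _)
        nlinarith only [hQ2, hQ3, hQ4, hu]
      · rw [h2, e1]
        have e2 : -Q ^ 4 + Q ^ 4 - w - 1 = -(w + 1) := by ring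
        rw [e2, abs_neg]
        rcases hw with h3 | h3
        · rw [h3]
          refine le_trans ?_ (le_abs_self _)
          linarith
        · rw [h3]
          refine le_trans ?_ (neg_le_abs _)
          linarith
    · -- `Q³ ≤ P`
      have e1 : Q ^ 5 ≤ |w'| := by
        rw [a2]
        calc Q ^ 5 = Q ^ 3 * Q ^ 2 := by ring
          _ ≤ P * Q ^ 2 := mul_le_mul_of_nonneg_right h1 (by positivity)
      have e2 := abs_sub_abs_le_abs_sub w' (-(Q ^ 4) + w + 1)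
      have e3 : w' - (-(Q ^ 4) + w + 1) = w' + Q ^ 4 - w - 1 := by ring
      rw [e3] at e2
      have e4 : |-(Q ^ 4) + w + 1| ≤ Q ^ 4 + Q ^ 2 + 1 := by
        rw [_root_.abs_le]
        have : 0 < Q ^ 4 := by positivity
        constructor <;> linarith
      have e5 : 2 * Q ^ 4 ≤ Q ^ 5 := by
        have : 0 < Q ^ 4 := by positivity
        nlinarith only [hQ3]
      nlinarith only [hQ2, hQ3, hQ4, e1, e2, e4, e5]
  have b3 : b ^ 2 * (w ^ 2 - 1) ^ 2 = |w| * |w * w' - 1| * |w' + w ^ 2 - w - 1| := by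
    rw [← abs_mul, ← abs_mul, ← h, abs_of_nonneg (by positivity)]
  have b4 : Q ^ 2 * (Q ^ 5 - 1) * (Q ^ 2 - 1) ≤ b ^ 2 * (w ^ 2 - 1) ^ 2 := by
    rw [b3, a1]
    apply mul_le_mul
    · exact mul_le_mul_of_nonneg_left a3 (by positivity)
    · exact a4
    · linarith
    · positivity
  rw [hw2] at b4
  have b5 : b ^ 2 * (Q ^ 4 - 1) ^ 2 ≤ 3 / 4 * (Q ^ 4 - 1) ^ 2 :=
    mul_le_mul_of_nonneg_right hb (by positivity)
  have b7 : (Q ^ 2 - 1) * (Q ^ 2 * (Q ^ 5 - 1)) ≤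
      (Q ^ 2 - 1) * (3 / 4 * ((Q ^ 2 - 1) * (Q ^ 2 + 1) ^ 2)) := by
    calc (Q ^ 2 - 1) * (Q ^ 2 * (Q ^ 5 - 1)) = Q ^ 2 * (Q ^ 5 - 1) * (Q ^ 2 - 1) := by ring
      _ ≤ 3 / 4 * (Q ^ 4 - 1) ^ 2 := le_trans b4 b5
      _ = _ := by ring
  have b8 := le_of_mul_le_mul_left b7 (by linarith only [hQ2] : 0 < Q ^ 2 - 1)
  have b9 : Q ^ 2 * (Q ^ 5 - 1) = Q ^ 7 - Q ^ 2 := by ring
  have b10 : (Q ^ 2 - 1) * (Q ^ 2 + 1) ^ 2 = Q ^ 6 + Q ^ 4 - Q ^ 2 - 1 := by ring
  rw [b9, b10] at b8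
  have b11 : 2 * Q ^ 6 ≤ Q ^ 7 := by
    have : 0 < Q ^ 6 := by positivity
    nlinarith only [hQ2, hQ3, hQ4, b8]
  have b12 : 4 * Q ^ 4 ≤ Q ^ 6 := by
    have : 0 < Q ^ 4 := by positivity
    nlinarith only [hQ2, hQ3, hQ4, b8, b11]
  nlinarith only [hQ2, hQ3, hQ4, b8, b11, b12]

section
variable {b : ℚ} {t : ℕ → ℚ} {n : ℕ}

/-- `w_i = ξ_i ξ_{i+1}` -/
def wf (b : ℚ) (t : ℕ → ℚ) (i : ℕ) : ℚ := (b + 1 / t i) * (b + 1 / t (i + 1))

theorem wf_sq (h : IsTCycle b t n) (i : ℕ) : t (i + 2) = wf b t i ^ 2 * t i := by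
  have e1 := Neg.xi_sq h i
  have e2 := Neg.xi_sq h (i + 1)
  have e3 : t (i + 2) = (b + 1 / t (i + 1)) ^ 2 * t (i + 1) := e2
  rw [e3]
  unfold wf
  generalize b + 1 / t (i + 1) = z
  rw [e1]
  ring

theorem wf_ne (h : IsTCycle b t n) (i : ℕ) : wf b t i ≠ 0 :=
  mul_ne_zero (Neg.xi_ne h i) (Neg.xi_ne h (i + 1))

theorem xi_id (h : IsTCycle b t n) (i : ℕ) :
    b * ((b + 1 / t i) ^ 2 - 1) = (b + 1 / t i) * (wf b t i - 1) := by
  have e1 := xrec h i
  unfold wf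
  generalize b + 1 / t i = x at *
  generalize b + 1 / t (i + 1) = y at *
  linear_combination e1

theorem wf_id (h : IsTCycle b t n) (hb : b ≠ 0) (i : ℕ) :
    b ^ 2 * (wf b t i ^ 2 - 1) ^ 2 =
      wf b t i * (wf b t i * wf b t (i + 1) - 1) * (wf b t (i + 1) + wf b t i ^ 2 - wf b t i - 1) :=
  w_id hb (xi_id h i) (xi_id h (i + 1)) rfl rfl

theorem two_of_eq (h : IsTCycle b t n) {i : ℕ} (hi : t (i + 2) = t i) : t 2 = t 0 := by
  have h1 : ∀ j, t (i + 2 + j) = t (i + j) := by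
    intro j
    induction j with
    | zero => exact hi
    | succ j ih =>
      have e1 := h.next (i + 2 + j)
      have e2 := h.next (i + j)
      rw [ih] at e1
      have e3 : t (i + 2 + j + 1) = t (i + j + 1) := by rw [e1, e2]
      exact e3
  have h2 : ∀ m k, t (k + m * n) = t k := by
    intro m
    induction m with
    | zero => intro k; rw [zero_mul, add_zero]
    | succ m ih =>
      intro k
      rw [add_mul, one_mul, ← add_assoc, h.per, ih]
  have h3 := h1 (i * n - i)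
  have h4 : i ≤ i * n := Nat.le_mul_of_pos_right i h.pos
  have e1 : i + 2 + (i * n - i) = 2 + i * n := by omega
  have e2 : i + (i * n - i) = 0 + i * n := by omega
  rw [e1, e2, h2, h2] at h3
  exact h3

theorem two_of_wf (h : IsTCycle b t n) {i : ℕ} (hi : wf b t i ^ 2 = 1) : t 2 = t 0 := by
  apply two_of_eq h (i := i)
  rw [wf_sq h i, hi, one_mul]

theorem two_of_unit (h : IsTCycle b t n) (i : ℕ)
    (hi : ∀ p : ℕ, p.Prime → padicNorm p (wf b t i) = 1) : t 2 = t 0 := by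
  apply two_of_wf h (i := i)
  rcases pm_one (wf_ne h i) hi with h1 | h1 <;> rw [h1] <;> norm_num

end

section
variable {q v : ℕ} [hq : Fact q.Prime]

theorem norm_Q : padicNorm q ((q : ℚ) ^ v) = 1 / (q : ℚ) ^ v := by
  rw [Pool.Agent.H97.norm_pow, padicNorm.padicNorm_p_of_prime, inv_pow, one_div]

theorem norm_Q' {l : ℕ} (hl : l.Prime) (hne : l ≠ q) : padicNorm l ((q : ℚ) ^ v) = 1 := by
  have : Fact l.Prime := ⟨hl⟩
  rw [Pool.Agent.H97.norm_pow]
  have h1 : padicNorm l ((q : ℕ) : ℚ) = 1 := by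
    rw [padicNorm.nat_eq_one_iff]
    intro hd
    exact hne ((Nat.prime_dvd_prime_iff_eq hl hq.out).1 hd)
  rw [h1, one_pow]

/-- a rational number with one prime, from its norm there -/
theorem pmA {w : ℚ} (hw : w ≠ 0) (h1 : ∀ l : ℕ, l.Prime → l ≠ q → padicNorm l w = 1) {a : ℕ}
    (h2 : padicNorm q w = ((q : ℚ) ^ v) ^ a) :
    w * ((q : ℚ) ^ v) ^ a = 1 ∨ w * ((q : ℚ) ^ v) ^ a = -1 := by
  have hq0 : (0 : ℚ) < q := by exact_mod_cast hq.out.pos
  apply pm_one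
  · exact mul_ne_zero hw (by positivity)
  · intro l hl
    have : Fact l.Prime := ⟨hl⟩
    by_cases hlq : l = q
    · subst hlq
      rw [padicNorm.mul, h2, Pool.Agent.H97.norm_pow, norm_Q, one_div, inv_pow]
      exact mul_inv_cancel₀ (by positivity)
    · rw [padicNorm.mul, h1 l hl hlq, Pool.Agent.H97.norm_pow, norm_Q' hl hlq, one_pow, one_mul]

theorem pmB {w : ℚ} (hw : w ≠ 0) (h1 : ∀ l : ℕ, l.Prime → l ≠ q → padicNorm l w = 1) {a : ℕ}
    (h2 : padicNorm q w * ((q : ℚ) ^ v) ^ a = 1) :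
    w = ((q : ℚ) ^ v) ^ a ∨ w = -((q : ℚ) ^ v) ^ a := by
  have hq0 : (0 : ℚ) < q := by exact_mod_cast hq.out.pos
  have hne : ((q : ℚ) ^ v) ^ a ≠ 0 := by positivity
  apply eq_or_neg_of_norms hw hne
  intro l hl
  have : Fact l.Prime := ⟨hl⟩
  by_cases hlq : l = q
  · subst hlq
    rw [Pool.Agent.H97.norm_pow, norm_Q, one_div, inv_pow]
    exact eq_inv_of_mul_eq_one_left h2
  · rw [h1 l hl hlq, Pool.Agent.H97.norm_pow, norm_Q' hl hlq, one_pow]

end

section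
variable {b : ℚ} {t : ℕ → ℚ} {n : ℕ} {q v : ℕ} [hq : Fact q.Prime] {s : ℕ → Bool} {u : ℕ → ℕ}

theorem wf_norm (h : IsTCycle b t n) (i : ℕ) :
    padicNorm q (t (i + 2)) = padicNorm q (wf b t i) ^ 2 * padicNorm q (t i) := by
  rw [wf_sq h i, padicNorm.mul, Pool.Agent.H97.norm_pow]

theorem stA (h : IsTCycle b t n) (hv : 0 < v) (hs : TRuns q ((q : ℚ) ^ v) t n s u)
    (h1 : ∀ i, ∀ l : ℕ, l.Prime → l ≠ q → padicNorm l (wf b t i) = 1) {i : ℕ}
    (hi : s i = true) (hu : u i = 0) :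
    s (i + 1) = false ∧ (wf b t i * ((q : ℚ) ^ v) ^ (u (i + 1)) = 1 ∨
      wf b t i * ((q : ℚ) ^ v) ^ (u (i + 1)) = -1) := by
  have hq0 : (0 : ℚ) < q := by exact_mod_cast hq.out.pos
  have hQ0 : 0 < (q : ℚ) ^ v := by positivity
  have e1 := hs.turn i hi hu
  refine ⟨e1, ?_⟩
  apply pmA (wf_ne h i) (h1 i)
  have e2 := hs.up (i + 1) e1
  have e3 : padicNorm q (t (i + 2)) = ((q : ℚ) ^ v) ^ (2 * u (i + 1) + 1) := by
    have := hs.large (i + 1 + 1) e2.1
    rw [e2.2] at this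
    exact this
  have e4 := hs.large i hi
  have e5 := wf_norm (q := q) h i
  rw [e3, e4, hu] at e5
  apply sq_inj_nonneg (padicNorm.nonneg _) (by positivity)
  apply mul_right_cancel₀ hQ0.ne'
  linear_combination -e5

theorem stB (h : IsTCycle b t n) (hv : 0 < v) (hs : TRuns q ((q : ℚ) ^ v) t n s u)
    (h1 : ∀ i, ∀ l : ℕ, l.Prime → l ≠ q → padicNorm l (wf b t i) = 1) {i m : ℕ}
    (hi : s i = false) (hu : u i = m + 1) :
    (s (i + 1) = true ∧ u (i + 1) = m + 1) ∧ (wf b t i * ((q : ℚ) ^ v) ^ (2 * (m + 1)) = 1 ∨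
      wf b t i * ((q : ℚ) ^ v) ^ (2 * (m + 1)) = -1) := by
  have hq0 : (0 : ℚ) < q := by exact_mod_cast hq.out.pos
  have hQ0 : 0 < (q : ℚ) ^ v := by positivity
  have e1 := hs.up i hi
  have e0 : u (i + 1) = m + 1 := by rw [e1.2, hu]
  refine ⟨⟨e1.1, e0⟩, ?_⟩
  apply pmA (wf_ne h i) (h1 i)
  have e2 := hs.down (i + 1) e1.1 (by omega)
  have e2' : u (i + 1 + 1) = m := by have := e2.2; omega
  have e3 : padicNorm q (t (i + 2)) = ((q : ℚ) ^ v) ^ (2 * m + 1) := by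
    have := hs.large (i + 1 + 1) e2.1
    rw [e2'] at this
    exact this
  have e4 := hs.small i hi
  rw [hu] at e4
  have e5 := wf_norm (q := q) h i
  rw [e3] at e5
  apply sq_inj_nonneg (padicNorm.nonneg _) (by positivity)
  have e6 : padicNorm q (wf b t i) ^ 2 = ((q : ℚ) ^ v) ^ (2 * m + 1) *
      ((q : ℚ) ^ v) ^ (2 * (m + 1) + 1) := by
    rw [e5]
    linear_combination -(padicNorm q (wf b t i) ^ 2) * e4
  rw [e6]
  ring

theorem stC (h : IsTCycle b t n) (hv : 0 < v) (hs : TRuns q ((q : ℚ) ^ v) t n s u)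
    (h1 : ∀ i, ∀ l : ℕ, l.Prime → l ≠ q → padicNorm l (wf b t i) = 1) {i m : ℕ}
    (hi : s i = true) (hu : u i = m + 2) :
    (s (i + 1) = true ∧ u (i + 1) = m + 1) ∧ (wf b t i = ((q : ℚ) ^ v) ^ 2 ∨
      wf b t i = -((q : ℚ) ^ v) ^ 2) := by
  have hq0 : (0 : ℚ) < q := by exact_mod_cast hq.out.pos
  have hQ0 : 0 < (q : ℚ) ^ v := by positivity
  have e1 := hs.down i hi (by omega)
  have e0 : u (i + 1) = m + 1 := by have := e1.2; omega
  refine ⟨⟨e1.1, e0⟩, ?_⟩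
  apply pmB (wf_ne h i) (h1 i)
  have e2 := hs.down (i + 1) e1.1 (by omega)
  have e2' : u (i + 1 + 1) = m := by have := e2.2; omega
  have e3 : padicNorm q (t (i + 2)) = ((q : ℚ) ^ v) ^ (2 * m + 1) := by
    have := hs.large (i + 1 + 1) e2.1
    rw [e2'] at this
    exact this
  have e4 := hs.large i hi
  rw [hu] at e4
  have e5 := wf_norm (q := q) h i
  rw [e3, e4] at e5
  apply sq_inj_nonneg (mul_nonneg (padicNorm.nonneg _) (by positivity)) (by norm_num)
  apply mul_right_cancel₀ (pow_ne_zero (2 * m + 1) hQ0.ne')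
  linear_combination -e5

theorem stD (h : IsTCycle b t n) (hv : 0 < v) (hs : TRuns q ((q : ℚ) ^ v) t n s u)
    (h1 : ∀ i, ∀ l : ℕ, l.Prime → l ≠ q → padicNorm l (wf b t i) = 1) {i : ℕ}
    (hi : s i = true) (hu : u i = 1) :
    (s (i + 1) = true ∧ u (i + 1) = 0) ∧ (wf b t i = ((q : ℚ) ^ v) ^ (u (i + 2) + 2) ∨
      wf b t i = -((q : ℚ) ^ v) ^ (u (i + 2) + 2)) := by
  have hq0 : (0 : ℚ) < q := by exact_mod_cast hq.out.pos
  have hQ0 : 0 < (q : ℚ) ^ v := by positivity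
  have e1 := hs.down i hi (by omega)
  have e0 : u (i + 1) = 0 := by have := e1.2; omega
  refine ⟨⟨e1.1, e0⟩, ?_⟩
  apply pmB (wf_ne h i) (h1 i)
  have e2 := hs.turn (i + 1) e1.1 e0
  have e3 : padicNorm q (t (i + 2)) * ((q : ℚ) ^ v) ^ (2 * u (i + 2) + 1) = 1 :=
    hs.small (i + 1 + 1) e2
  have e4 := hs.large i hi
  rw [hu] at e4
  have e5 := wf_norm (q := q) h i
  rw [e4] at e5
  apply sq_inj_nonneg (mul_nonneg (padicNorm.nonneg _) (by positivity)) (by norm_num)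
  rw [e5] at e3
  linear_combination e3

theorem exists_T0 (hs : TRuns q ((q : ℚ) ^ v) t n s u) : ∃ i, s i = true ∧ u i = 0 := by
  have h1 : ∃ i, s i = true := by
    cases h0 : s 0 with
    | true => exact ⟨0, h0⟩
    | false => exact ⟨1, (hs.up 0 h0).1⟩
  have h2 : ∀ m i, s i = true → u i = m → ∃ i, s i = true ∧ u i = 0 := by
    intro m
    induction m with
    | zero => intro i hi hu; exact ⟨i, hi, hu⟩
    | succ m ih =>
      intro i hi hu
      have e1 := hs.down i hi (by omega)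
      exact ih (i + 1) e1.1 (by have := e1.2; omega)
  obtain ⟨i, hi⟩ := h1
  exact h2 (u i) i hi rfl

/-- runs at one prime only: `t`-period at most two -/
theorem two_of_runs (h : IsTCycle b t n) (hb : b ≠ 0) (hv : 0 < v)
    (hs : TRuns q ((q : ℚ) ^ v) t n s u)
    (h1 : ∀ i, ∀ l : ℕ, l.Prime → l ≠ q → padicNorm l (wf b t i) = 1) : t 2 = t 0 := by
  by_contra hcon
  have hne : ∀ i, wf b t i ^ 2 ≠ 1 := fun i hi => hcon (two_of_wf h hi)
  have hq2 : (2 : ℚ) ≤ q := by exact_mod_cast hq.out.two_le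
  have hq1 : (1 : ℚ) ≤ q := by linarith
  have hQ2 : 2 ≤ (q : ℚ) ^ v := by
    calc (2 : ℚ) ≤ q := hq2
      _ = (q : ℚ) ^ 1 := (pow_one _).symm
      _ ≤ (q : ℚ) ^ v := pow_le_pow_right₀ hq1 hv
  set Q : ℚ := (q : ℚ) ^ v with hQ
  have hQ0 : 0 < Q := by linarith
  have hQ1 : 1 ≤ Q := by linarith
  -- a turning index has a nontrivial next run
  have hA : ∀ i, s i = true → u i = 0 → s (i + 1) = false ∧ (∃ m, u (i + 1) = m + 1) ∧
      (wf b t i * Q ^ (u (i + 1)) = 1 ∨ wf b t i * Q ^ (u (i + 1)) = -1) := by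
    intro i hi hu
    obtain ⟨e1, e2⟩ := stA h hv hs h1 hi hu
    refine ⟨e1, ?_, e2⟩
    rcases Nat.eq_zero_or_pos (u (i + 1)) with h3 | h3
    · exfalso
      rw [h3, pow_zero, mul_one] at e2
      apply hne i
      rcases e2 with e2 | e2 <;> rw [e2] <;> norm_num
    · exact ⟨u (i + 1) - 1, by omega⟩
  obtain ⟨i, hi, hu⟩ := exists_T0 hs
  obtain ⟨e1, ⟨m, hm⟩, e2⟩ := hA i hi hu
  obtain ⟨⟨e3, e4⟩, e5⟩ := stB h hv hs h1 (i := i + 1) e1 hm
  rw [hm] at e2
  -- the size of b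
  set z : ℚ := 1 / Q ^ (m + 1) with hz
  have hQm : 0 < Q ^ (m + 1) := by positivity
  have hz0 : 0 < z := by positivity
  have hQm2 : Q ≤ Q ^ (m + 1) := by
    calc Q = Q ^ 1 := (pow_one _).symm
      _ ≤ Q ^ (m + 1) := pow_le_pow_right₀ hQ1 (by omega)
  have hz2 : z ≤ 1 / 2 := by
    rw [hz]
    exact one_div_le_one_div_of_le (by norm_num) (by linarith only [hQ2, hQm2])
  have hzQ : z * Q ^ (m + 1) = 1 := by rw [hz]; field_simp
  have hw0 : wf b t i = z ∨ wf b t i = -z := by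
    rcases e2 with e2 | e2
    · left
      apply mul_right_cancel₀ hQm.ne'
      rw [e2, hzQ]
    · right
      apply mul_right_cancel₀ hQm.ne'
      rw [e2, neg_mul, hzQ]
  have hw1 : wf b t (i + 1) = z ^ 2 ∨ wf b t (i + 1) = -z ^ 2 := by
    have e6 : Q ^ (2 * (m + 1)) = (Q ^ (m + 1)) ^ 2 := by ring
    have e7 : z ^ 2 * (Q ^ (m + 1)) ^ 2 = 1 := by
      rw [← mul_pow, hzQ, one_pow]
    rw [e6] at e5
    rcases e5 with e5 | e5
    · left
      apply mul_right_cancel₀ (pow_ne_zero 2 hQm.ne')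
      rw [e5, e7]
    · right
      apply mul_right_cancel₀ (pow_ne_zero 2 hQm.ne')
      rw [e5, neg_mul, e7]
  obtain ⟨hb1, hb2⟩ := size_A hb hz0 hz2 hw0 hw1 (wf_id h hb i)
  have hid1 := wf_id h hb (i + 1)
  rcases Nat.eq_zero_or_pos m with hm0 | hm0
  · -- run of length one
    subst hm0
    obtain ⟨⟨f1, f2⟩, f3⟩ := stD h hv hs h1 (i := i + 1 + 1) e3 e4
    obtain ⟨f4, ⟨m', hm'⟩, _⟩ := hA (i + 1 + 1 + 1) f1 f2
    have hm2 : u (i + 1 + 1 + 2) = m' + 1 := hm'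
    rw [hm2] at f3
    apply size_B1 (Q := Q) (P := Q ^ (m' + 1)) hQ2 ?_ ?_ ?_ hid1 ?_
    · calc Q = Q ^ 1 := (pow_one _).symm
        _ ≤ Q ^ (m' + 1) := pow_le_pow_right₀ hQ1 (by omega)
    · exact e5
    · rcases f3 with f3 | f3
      · left; rw [f3, ← pow_add]
      · right; rw [f3, ← pow_add]
    · have : z * Q = 1 := by rw [← hzQ]; ring
      nlinarith only [hb2, this, hQ2]
  · rcases Nat.lt_or_ge m 2 with hm1 | hm1
    · -- run of length two
      obtain rfl : m = 1 := by omega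
      obtain ⟨⟨f1, f2⟩, f3⟩ := stC h hv hs h1 (i := i + 1 + 1) (m := 0) e3 e4
      obtain ⟨⟨g1, g2⟩, g3⟩ := stD h hv hs h1 (i := i + 1 + 1 + 1) f1 f2
      obtain ⟨f4, ⟨m', hm'⟩, _⟩ := hA (i + 1 + 1 + 1 + 1) g1 g2
      have hm2 : u (i + 1 + 1 + 1 + 2) = m' + 1 := hm'
      rw [hm2] at g3
      apply size_B3 (Q := Q) (P := Q ^ (m' + 1)) hQ2 ?_ ?_ ?_ (wf_id h hb (i + 1 + 1)) ?_
      · rcases Nat.lt_or_ge m' 1 with h5 | h5
        · left
          obtain rfl : m' = 0 := by omega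
          ring
        · rcases Nat.lt_or_ge m' 2 with h6 | h6
          · right; left
            obtain rfl : m' = 1 := by omega
            ring
          · right; right
            exact pow_le_pow_right₀ hQ1 (by omega)
      · exact f3
      · rcases g3 with g3 | g3
        · left; rw [g3, ← pow_add]
        · right; rw [g3, ← pow_add]
      · have h5 : z * Q ^ 2 = 1 := by rw [← hzQ]
        have h6 : 4 ≤ Q ^ 2 := by nlinarith only [hQ2]
        nlinarith only [h5, h6, hb2]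
    · -- long run
      obtain ⟨k, rfl⟩ : ∃ k, m = k + 2 := ⟨m - 2, by omega⟩
      obtain ⟨⟨f1, f2⟩, f3⟩ := stC h hv hs h1 (i := i + 1 + 1) (m := k + 1) e3 e4
      apply size_B2 (Q := Q) hQ2 hz0 ?_ hw1 f3 hid1 hb1
      have h5 : Q ^ 3 ≤ Q ^ (k + 2 + 1) := pow_le_pow_right₀ hQ1 (by omega)
      nlinarith only [hzQ, hz0, h5]

end

/-- no cancellation at all primes but one: period at most two -/
theorem two_of_one_cancel {b : ℚ} {t : ℕ → ℚ} {n : ℕ} (h : IsTCycle b t n) (hb : b ≠ 0) (q : ℕ)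
    (hnc : ∀ l : ℕ, l.Prime → l ≠ q → padicNorm l b < 1 →
      ∀ i, padicNorm l b * padicNorm l (t i) = 1 →
      padicNorm l (b + 1 / t i) = padicNorm l b) : t 2 = t 0 := by
  have h1 : ∀ i, ∀ l : ℕ, l.Prime → l ≠ q → padicNorm l (wf b t i) = 1 := by
    intro i l hl hlq
    have : Fact l.Prime := ⟨hl⟩
    exact xi_mul_norm h hb (hnc l hl hlq) i
  by_cases hq : q.Prime
  · have hqf : Fact q.Prime := ⟨hq⟩
    rcases le_or_gt 1 (padicNorm q b) with h2 | h2
    · apply two_of_unit h 0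
      intro l hl
      by_cases hlq : l = q
      · subst hlq
        exact xi_mul_norm h hb (fun h3 => absurd h3 (not_lt.2 h2)) 0
      · exact h1 0 l hl hlq
    · obtain ⟨z, hz⟩ := padicNorm.values_discrete (p := q) hb
      have hq1 : (1 : ℚ) < q := by exact_mod_cast hq.one_lt
      have hz0 : 0 < z := by
        by_contra hcon
        push Not at hcon
        have : (1 : ℚ) ≤ (q : ℚ) ^ (-z) := one_le_zpow₀ hq1.le (by omega)
        rw [hz] at h2
        linarith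
      obtain ⟨v, rfl⟩ : ∃ v : ℕ, z = v := ⟨z.toNat, by omega⟩
      have hv : 0 < v := by omega
      have hbv : padicNorm q b = 1 / (q : ℚ) ^ v := by
        rw [hz, zpow_neg, zpow_natCast, one_div]
      have hQ : (1 : ℚ) < (q : ℚ) ^ v := one_lt_pow₀ hq1 hv.ne'
      rcases exists_truns h hQ hbv with h3 | ⟨s, u, h3⟩
      · apply two_of_unit h 0
        intro l hl
        by_cases hlq : l = q
        · subst hlq
          have e0 : 0 < padicNorm l (t 0) := norm_pos (h.ne 0)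
          have e1 : padicNorm l (t (0 + 2)) = padicNorm l (t 0) := by
            have e2 := h3 0
            have e3 := h3 (0 + 1)
            rw [e2, one_div_one_div] at e3
            exact e3
          have e4 := wf_norm (q := l) h 0
          rw [e1] at e4
          apply sq_inj_nonneg (padicNorm.nonneg _) (by norm_num)
          apply mul_right_cancel₀ e0.ne'
          linear_combination -e4
        · exact h1 0 l hl hlq
      · exact two_of_runs h hb hv h3 h1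
  · apply two_of_unit h 0
    intro l hl
    exact h1 0 l hl (by rintro rfl; exact hq hl)

end Pool.Agent.H24.FP.M
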